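import Pool.Agent.TL.SA

set_option autoImplicit false

namespace Pool.Agent.TL

open MvPolynomial

variable {k : Type} [Field k]

theorem ST_fix {i : Fin 3} (g : Au k) (h : ∀ j, j ≠ i → g (X j) = X j) (f : Rg k)
    (hf : ∀ m, coeff m f ≠ 0 → m i = 0) : g f = f := by
  have hg : ∀ x, g x = aeval (fun j => g (X j)) x := by
    intro x
    exact DFunLike.congr_fun (MvPolynomial.aeval_unique (g : Rg k →ₐ[k] Rg k)) x
  conv_lhs => rw [f.as_sum, map_sum]
  conv_rhs => rw [f.as_sum]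
  refine Finset.sum_congr rfl fun m hm => ?_
  have hm0 : m i = 0 := hf m (mem_support_iff.1 hm)
  rw [hg, aeval_monomial]
  have h1 : m.prod (fun j e => (g (X j) : Rg k) ^ e) = m.prod (fun j e => (X j : Rg k) ^ e) := by
    refine Finsupp.prod_congr ?_
    intro j hj
    have : j ≠ i := by rintro rfl; simp [hm0] at hj
    simp [h j this]
  rw [h1]
  rw [monomial_eq (s := m)]
  simp [MvPolynomial.algebraMap_eq]

theorem ST_LE {α : Wt} {s : ℝ} {i : Fin 3} {v : k} {q : Rg k}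
    (hq : ∀ m, coeff m q ≠ 0 → m i = 0) (h : LE α s (C v * X i + q)) : LE α s q := by
  intro m hm
  apply h m
  rw [coeff_add, coeff_C_mul, coeff_X]
  have : Finsupp.single i 1 ≠ m := by
    rintro rfl
    simpa using hq _ hm
  simpa [this] using hm

theorem ST_Sc (u : Fin 3 → kˣ) (j : Fin 3) : (Sc u : Au k) (X j) = C (u j : k) * X j := by
  change aeval (fun j => C (u j : k) * X j) (X j) = _
  rw [aeval_X]

/-- triangular automorphisms (in the order `a, b, c`) which respect the weight.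
Proof: multiply on the right by `El_poly`'s and `Sc` until the identity is reached. -/
theorem tri_mem {τ : Au k} {α : Wt} {a b c : Fin 3} (hab : a ≠ b) (hac : a ≠ c) (hbc : b ≠ c)
    {u v w : k} (hu : u ≠ 0) (hv : v ≠ 0) (hw : w ≠ 0) {p q r : Rg k}
    (hp : ∀ m, coeff m p ≠ 0 → m a = 0 ∧ m b = 0 ∧ m c = 0)
    (hq : ∀ m, coeff m q ≠ 0 → m b = 0 ∧ m c = 0) (hr : ∀ m, coeff m r ≠ 0 → m c = 0)
    (h0 : ∀ i, 0 ≤ α i) (hα : Pres τ α α)
    (ha : τ (X a) = C u * X a + p) (hb : τ (X b) = C v * X b + q)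
    (hc : τ (X c) = C w * X c + r) : τ ∈ GP k α := by
  classical
  have hcoef : ∀ (t : k) (f : Rg k) (m : Fin 3 →₀ ℕ), coeff m (C t * f) ≠ 0 → coeff m f ≠ 0 := by
    intro t f m hm h
    rw [coeff_C_mul, h, mul_zero] at hm
    exact hm rfl
  have hcp : ∀ m, coeff m (C u⁻¹ * p) ≠ 0 → m a = 0 := fun m hm => (hp m (hcoef _ _ _ hm)).1
  have hcq : ∀ m, coeff m (C v⁻¹ * q) ≠ 0 → m b = 0 := fun m hm => (hq m (hcoef _ _ _ hm)).1
  have hcr : ∀ m, coeff m (C w⁻¹ * r) ≠ 0 → m c = 0 := fun m hm => hr m (hcoef _ _ _ hm)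
  have hLp : LE α (α a) (C u⁻¹ * p) := fun m hm =>
    (ST_LE (fun m hm => (hp m hm).1) (ha ▸ hα.1 a)) m (hcoef _ _ _ hm)
  have hLq : LE α (α b) (C v⁻¹ * q) := fun m hm =>
    (ST_LE (fun m hm => (hq m hm).1) (hb ▸ hα.1 b)) m (hcoef _ _ _ hm)
  have hLr : LE α (α c) (C w⁻¹ * r) := fun m hm =>
    (ST_LE (fun m hm => hr m hm) (hc ▸ hα.1 c)) m (hcoef _ _ _ hm)
  obtain ⟨A, hA, hA1, hA2⟩ := El_poly hcp hLp
  obtain ⟨B, hB, hB1, hB2⟩ := El_poly hcq hLq
  obtain ⟨D, hD, hD1, hD2⟩ := El_poly hcr hLr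
  set U : Fin 3 → kˣ := fun j =>
    if j = a then Units.mk0 u hu else if j = b then Units.mk0 v hv else Units.mk0 w hw with hU
  have hUa : (U a : k) = u := by simp [hU]
  have hUb : (U b : k) = v := by simp [hU, hab.symm]
  have hUc : (U c : k) = w := by simp [hU, hac.symm, hbc.symm]
  have key : τ = D * B * A * Sc U := by
    have hC : ∀ (g : Au k) (t : k), g (C t) = C t := fun g t => by
      rw [← MvPolynomial.algebraMap_eq]; exact g.commutes t
    have hinv : ∀ (t : k) (f : Rg k), t ≠ 0 → C t * (C t⁻¹ * f) = f := by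
      intro t f ht
      rw [← mul_assoc, ← C_mul, mul_inv_cancel₀ ht, C_1, one_mul]
    have hAlg : (τ : Rg k →ₐ[k] Rg k) = ((D * B * A * Sc U : Au k) : Rg k →ₐ[k] Rg k) := by
      apply MvPolynomial.algHom_ext
      intro j
      change τ (X j) = (D * B * A * Sc U) (X j)
      rw [AlgEquiv.mul_apply, AlgEquiv.mul_apply, AlgEquiv.mul_apply, ST_Sc]
      rcases eq_of_ne hab hac hbc j with rfl | rfl | rfl
      · have h1 : B (C u⁻¹ * p) = C u⁻¹ * p :=
          ST_fix B hB2 _ (fun m hm => (hp m (hcoef _ _ _ hm)).2.1)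
        have h2 : D (C u⁻¹ * p) = C u⁻¹ * p :=
          ST_fix D hD2 _ (fun m hm => (hp m (hcoef _ _ _ hm)).2.2)
        rw [map_mul, map_mul, map_mul, hC, hC, hC, hUa, hA1, map_add, map_add, hB2 _ hab,
          hD2 _ hac, h1, h2, mul_add, hinv _ _ hu, ha]
      · have h2 : D (C v⁻¹ * q) = C v⁻¹ * q :=
          ST_fix D hD2 _ (fun m hm => (hq m (hcoef _ _ _ hm)).2)
        rw [map_mul, map_mul, map_mul, hC, hC, hC, hUb, hA2 _ hab.symm, hB1, map_add,
          hD2 _ hbc, h2, mul_add, hinv _ _ hv, hb]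
      · rw [map_mul, map_mul, map_mul, hC, hC, hC, hUc, hA2 _ hac.symm, hB2 _ hbc.symm, hD1,
          mul_add, hinv _ _ hw, hc]
    exact AlgEquiv.ext fun x => DFunLike.congr_fun hAlg x
  rw [key]
  exact Subgroup.mul_mem _ (Subgroup.mul_mem _ (Subgroup.mul_mem _ hD hB) hA) (Sc_mem U α)

end Pool.Agent.TL
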