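import Pool.Agent.TL.LI
import Pool.Agent.TL.ST

set_option autoImplicit false

namespace Pool.Agent.TL

open MvPolynomial

variable {k : Type} [Field k]

theorem LJ_chain (τ : Au k) (f : Rg k) (j : Fin 3) :
    pderiv j (τ f) = ∑ l, τ (pderiv l f) * pderiv j (τ (X l)) := by
  classical
  induction f using MvPolynomial.induction_on with
  | C a =>
    have h1 : τ (C a) = C a := by rw [← algebraMap_eq, AlgEquiv.commutes]
    rw [h1, pderiv_C]
    symm
    apply Finset.sum_eq_zero
    intro l _
    rw [pderiv_C, map_zero, zero_mul]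
  | add p q hp hq =>
    rw [map_add, map_add, hp, hq, ← Finset.sum_add_distrib]
    refine Finset.sum_congr rfl (fun l _ => ?_)
    rw [map_add, map_add, add_mul]
  | mul_X p i hp =>
    rw [map_mul, Derivation.leibniz, hp, smul_eq_mul, smul_eq_mul]
    have h1 : ∀ l, τ (pderiv l (p * X i)) * pderiv j (τ (X l))
        = (if l = i then τ p * pderiv j (τ (X l)) else 0)
          + τ (X i) * (τ (pderiv l p) * pderiv j (τ (X l))) := by
      intro l
      rw [Derivation.leibniz, smul_eq_mul, smul_eq_mul, map_add, map_mul, map_mul, add_mul]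
      congr 1
      · by_cases hl : l = i
        · subst hl
          rw [pderiv_X_self, map_one, mul_one, if_pos rfl]
        · rw [pderiv_X_of_ne (fun h => hl h.symm), map_zero, mul_zero, zero_mul, if_neg hl]
      · ring
    rw [Finset.sum_congr rfl (fun l _ => h1 l), Finset.sum_add_distrib, Finset.sum_ite_eq',
      if_pos (Finset.mem_univ i), ← Finset.mul_sum]

/-- triangular automorphisms. Proof: the Jacobian matrix is triangular and invertible, so
`∂_i (τ x_i)` is a nonzero constant, `τ x_i = u_i x_i + p_i(x_j, j < i)` (characteristic zero); `tri_mem` with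
the zero weight, `GP_zero`. -/
theorem triangular_mem [CharZero k] {τ : Au k} (h : ∀ i, (τ (X i)).vars ⊆ Finset.Iic i) :
    τ ∈ Subgroup.closure (Gen : Set (Au k)) := by
  classical
  set J : Matrix (Fin 3) (Fin 3) (Rg k) := fun l j => pderiv j (τ (X l)) with hJ
  set K : Matrix (Fin 3) (Fin 3) (Rg k) := fun i l => τ (pderiv l (τ.symm (X i))) with hK
  have hKJ : K * J = 1 := by
    ext1 i j
    rw [Matrix.mul_apply]
    have h1 := LJ_chain τ (τ.symm (X i)) j
    rw [AlgEquiv.apply_symm_apply] at h1
    change ∑ l, τ (pderiv l (τ.symm (X i))) * pderiv j (τ (X l)) = _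
    rw [← h1, Matrix.one_apply]
    by_cases hij : i = j
    · subst hij
      rw [pderiv_X_self, if_pos rfl]
    · rw [pderiv_X_of_ne hij, if_neg hij]
  have hdet : IsUnit J.det := by
    have h2 := congrArg Matrix.det hKJ
    rw [Matrix.det_mul, Matrix.det_one] at h2
    exact IsUnit.of_mul_eq_one_right _ h2
  have hzero : ∀ l j : Fin 3, l < j → J l j = 0 := by
    intro l j hlj
    apply pderiv_eq_zero_of_notMem_vars
    intro hm
    have := h l hm
    rw [Finset.mem_Iic] at this
    exact absurd hlj (not_lt.2 this)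
  have h3 : J.det = J 0 0 * J 1 1 * J 2 2 := by
    rw [Matrix.det_fin_three, hzero 0 1 (by decide), hzero 0 2 (by decide), hzero 1 2 (by decide)]
    ring
  rw [h3] at hdet
  have u0 : IsUnit (J 0 0) := isUnit_of_mul_isUnit_left (isUnit_of_mul_isUnit_left hdet)
  have u1 : IsUnit (J 1 1) := isUnit_of_mul_isUnit_right (isUnit_of_mul_isUnit_left hdet)
  have u2 : IsUnit (J 2 2) := isUnit_of_mul_isUnit_right hdet
  have hcoef : ∀ (i : Fin 3), IsUnit (J i i) → ∃ u : k, u ≠ 0 ∧
      ∃ p : Rg k, (∀ m, coeff m p ≠ 0 → ∀ j, i ≤ j → m j = 0) ∧ τ (X i) = C u * X i + p := by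
    intro i hu
    obtain ⟨u, hu0, hu1⟩ := MvPolynomial.isUnit_iff_eq_C_of_isReduced.1 hu
    refine ⟨u, hu0.ne_zero, τ (X i) - C u * X i, ?_, by ring⟩
    intro m hm j hij
    rcases hij.lt_or_eq with hlt | heq
    · by_contra hmj
      have h5 : coeff m (C u * X i : Rg k) = 0 := by
        rw [coeff_C_mul, coeff_X, if_neg, mul_zero]
        intro h6
        rw [← h6, Finsupp.single_eq_of_ne (Ne.symm hlt.ne)] at hmj
        exact hmj rfl
      rw [coeff_sub, h5, sub_zero] at hm
      have h7 : j ∈ (τ (X i)).vars := by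
        rw [mem_vars_iff_mem_support]
        exact ⟨m, mem_support_iff.2 hm, Finsupp.mem_support_iff.2 hmj⟩
      have h8 := h i h7
      rw [Finset.mem_Iic] at h8
      exact absurd hlt (not_lt.2 h8)
    · subst heq
      by_contra hmj
      have h5 : pderiv i (τ (X i) - C u * X i) = 0 := by
        rw [map_sub, pderiv_C_mul, pderiv_X_self]
        change J i i - _ = 0
        rw [hu1]
        simp
      have h6 := coeff_pderiv (i := i) (τ (X i) - C u * X i) (m - Finsupp.single i 1)
      rw [h5, coeff_zero] at h6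
      have h7 : m - Finsupp.single i 1 + Finsupp.single i 1 = m := by
        apply tsub_add_cancel_of_le
        rw [Finsupp.single_le_iff]
        omega
      rw [h7] at h6
      rcases mul_eq_zero.1 h6.symm with h8 | h8
      · exact hm h8
      · have : (((m - Finsupp.single i 1 : Fin 3 →₀ ℕ) i : ℕ) : k) + 1 ≠ 0 := by
          exact Nat.cast_add_one_ne_zero _
        exact this h8
  obtain ⟨u, hu, p, hp, ha⟩ := hcoef 0 u0
  obtain ⟨v, hv, q, hq, hb⟩ := hcoef 1 u1
  obtain ⟨w, hw, r, hr, hc⟩ := hcoef 2 u2
  rw [← GP_zero]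
  have hdE : ∀ m : Fin 3 →₀ ℕ, dE m (fun _ => 0) = 0 := by
    intro m
    simp [dE]
  refine tri_mem (a := 0) (b := 1) (c := 2) (by decide) (by decide) (by decide) hu hv hw
    (p := p) (q := q) (r := r) ?_ ?_ ?_ (fun _ => le_rfl) ?_ ha hb hc
  · intro m hm
    exact ⟨hp m hm 0 (by decide), hp m hm 1 (by decide), hp m hm 2 (by decide)⟩
  · intro m hm
    exact ⟨hq m hm 1 (by decide), hq m hm 2 (by decide)⟩
  · intro m hm
    exact hr m hm 2 (by decide)
  · constructor
    · intro j m _
      exact (hdE m).le
    · intro j m _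
      exact (hdE m).le

/-- the set of affine and triangular automorphisms, as in the frozen statement -/
def Fz (k : Type) [Field k] : Set (Au k) :=
  {ψ : Au k | (∀ i : Fin 3, (ψ (MvPolynomial.X i)).totalDegree ≤ 1) ∨
    (∀ i : Fin 3, (ψ (MvPolynomial.X i)).vars ⊆ Finset.Iic i)}

theorem LJ_Pm_mem (π : Equiv.Perm (Fin 3)) : (Pm π : Au k) ∈ Subgroup.closure (Fz k) := by
  apply Subgroup.subset_closure
  left
  intro i
  have h1 : (Pm π : Au k) (X i) = X (π i) := by
    change (renameEquiv k π) (X i) = X (π i)
    simp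
  rw [h1, totalDegree_X]

/-- `Sc`, `Pm` are affine; `El i M c` is conjugate by a permutation moving `i` to `2` to a triangular one -/
theorem Gen_le : Subgroup.closure (Gen : Set (Au k)) ≤ Subgroup.closure (Fz k) := by
  classical
  rw [Subgroup.closure_le]
  rintro g (⟨i, M, c, hM, rfl⟩ | ⟨u, rfl⟩ | ⟨π, rfl⟩)
  · set π : Equiv.Perm (Fin 3) := Equiv.swap 2 i with hπ
    have hπ2 : π 2 = i := Equiv.swap_apply_left 2 i
    set M' : Fin 3 →₀ ℕ := M.mapDomain π.symm with hM'
    have hM'2 : M' 2 = 0 := by
      have h1 : M' (π.symm i) = M i := by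
        rw [hM']
        exact Finsupp.mapDomain_apply π.symm.injective M i
      rw [← hπ2, Equiv.symm_apply_apply] at h1
      rw [h1, hπ2, hM]
    have htri : El 2 M' c hM'2 ∈ Subgroup.closure (Fz k) := by
      apply Subgroup.subset_closure
      right
      intro j
      by_cases hj : j = 2
      · subst hj
        intro x _
        rw [Finset.mem_Iic]
        exact Fin.le_last x
      · rw [El_apply_ne _ _ _ hj, vars_X]
        intro x hx
        rw [Finset.mem_singleton] at hx
        rw [hx, Finset.mem_Iic]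
    have heq : El i M c hM = Pm π * (El 2 M' c hM'2 * (Pm π)⁻¹) := by
      apply AlgEquiv.coe_toAlgHom_injective
      apply MvPolynomial.algHom_ext
      intro j
      change (El i M c hM) (X j) = (Pm π * (El 2 M' c hM'2 * (Pm π)⁻¹) : Au k) (X j)
      rw [AlgEquiv.mul_apply, AlgEquiv.mul_apply]
      have h1 : ((Pm π)⁻¹ : Au k) (X j) = X (π.symm j) := by
        change (renameEquiv k π).symm (X j) = X (π.symm j)
        simp
      have h2 : ∀ l, (Pm π : Au k) (X l) = X (π l) := by
        intro l
        change (renameEquiv k π) (X l) = X (π l)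
        simp
      rw [h1]
      by_cases hj : j = i
      · subst hj
        have h3 : π.symm j = 2 := by rw [← hπ2, Equiv.symm_apply_apply]
        rw [h3, El_apply_self, El_apply_self, map_add, h2, hπ2]
        congr 1
        change _ = (renameEquiv k π) (monomial M' c)
        rw [renameEquiv_apply, rename_monomial, hM', ← Finsupp.mapDomain_comp]
        have h4 : (⇑π ∘ ⇑π.symm) = id := by
          funext x
          simp
        rw [h4, Finsupp.mapDomain_id]
      · have h3 : π.symm j ≠ 2 := by
          intro h4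
          apply hj
          rw [← hπ2, ← h4, Equiv.apply_symm_apply]
        rw [El_apply_ne _ _ _ hj, El_apply_ne _ _ _ h3, h2, Equiv.apply_symm_apply]
    rw [heq]
    exact mul_mem (LJ_Pm_mem π) (mul_mem htri (inv_mem (LJ_Pm_mem π)))
  · apply Subgroup.subset_closure
    left
    intro i
    have h1 : (Sc u : Au k) (X i) = C (u i : k) * X i := by
      change (aeval (fun j => C (u j : k) * X j)) (X i) = _
      rw [aeval_X]
    rw [h1]
    refine (totalDegree_mul _ _).trans ?_
    rw [totalDegree_C, totalDegree_X, zero_add]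
  · exact LJ_Pm_mem π

theorem le_Gen [CharZero k] : Subgroup.closure (Fz k) ≤ Subgroup.closure (Gen : Set (Au k)) := by
  rw [Subgroup.closure_le]
  rintro g (h | h)
  · exact affine_mem h
  · exact triangular_mem h

end Pool.Agent.TL
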