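import Pool.Agent.TL.SA

set_option autoImplicit false

/-! # LI: linear and affine automorphisms are products of generators -/

namespace Pool.Agent.TL

open MvPolynomial

variable {k : Type} [Field k]

/-- linear automorphisms (transvections and diagonal matrices,
`Matrix.diagonal_transvection_induction_of_det_ne_zero`) -/
theorem lin_mem (A : Matrix (Fin 3) (Fin 3) k) (hA : A.det ≠ 0) :
    ∃ g ∈ Subgroup.closure (Gen : Set (Au k)), ∀ j, g (X j) = ∑ i, C (A i j) * X i := by
  classical
  refine Matrix.diagonal_transvection_induction_of_det_ne_zero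
    (fun A => ∃ g ∈ Subgroup.closure (Gen : Set (Au k)), ∀ j, g (X j) = ∑ i, C (A i j) * X i)
    A hA ?_ ?_ ?_
  · intro D hD
    rw [Matrix.det_diagonal] at hD
    have hD' : ∀ i, D i ≠ 0 := fun i => (Finset.prod_ne_zero_iff.1 hD) i (Finset.mem_univ i)
    refine ⟨Sc (fun i => Units.mk0 (D i) (hD' i)), Subgroup.subset_closure
      (Or.inr (Or.inl ⟨_, rfl⟩)), ?_⟩
    intro j
    have h1 : (Sc (fun i => Units.mk0 (D i) (hD' i)) : Au k) (X j) = C (D j) * X j := by
      change (aeval (fun j => C ((Units.mk0 (D j) (hD' j) : kˣ) : k) * X j)) (X j) = _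
      rw [aeval_X]
      rfl
    rw [h1, Finset.sum_eq_single j]
    · rw [Matrix.diagonal_apply_eq]
    · intro b _ hb
      rw [Matrix.diagonal_apply_ne D hb, C_0, zero_mul]
    · intro h
      exact absurd (Finset.mem_univ j) h
  · intro t
    have hz : (Finsupp.single t.i 1 : Fin 3 →₀ ℕ) t.j = 0 := Finsupp.single_eq_of_ne (Ne.symm t.hij)
    refine ⟨El t.j (Finsupp.single t.i 1) t.c hz, Subgroup.subset_closure
      (Or.inl ⟨_, _, _, _, rfl⟩), ?_⟩
    intro j
    have hent : ∀ a, t.toMatrix a j = (if a = j then 1 else 0) + (if t.i = a ∧ t.j = j then t.c else 0) := by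
      intro a
      rw [Matrix.TransvectionStruct.toMatrix, Matrix.transvection, Matrix.add_apply, Matrix.one_apply,
        Matrix.single_apply]
    have h2 : ∑ a, C (t.toMatrix a j) * (X a : Rg k)
        = X j + (if t.j = j then C t.c * X t.i else 0) := by
      have h3 : ∀ a, C (t.toMatrix a j) * (X a : Rg k)
          = (if a = j then X a else 0) + (if t.i = a then (if t.j = j then C t.c * X a else 0) else 0) := by
        intro a
        rw [hent a, C_add, add_mul]
        congr 1
        · split_ifs
          · rw [C_1, one_mul]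
          · rw [C_0, zero_mul]
        · by_cases h4 : t.i = a
          · by_cases h5 : t.j = j
            · simp [h4, h5]
            · simp [h5]
          · simp [h4]
      rw [Finset.sum_congr rfl (fun a _ => h3 a), Finset.sum_add_distrib, Finset.sum_ite_eq',
        if_pos (Finset.mem_univ j), Finset.sum_ite_eq, if_pos (Finset.mem_univ t.i)]
    rw [h2]
    by_cases h5 : t.j = j
    · rw [if_pos h5]
      subst h5
      have h6 : (monomial (Finsupp.single t.i 1) t.c : Rg k) = C t.c * X t.i := by
        rw [X, C_mul_monomial, mul_one]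
      rw [El_apply_self, h6]
    · rw [if_neg h5, add_zero]
      exact El_apply_ne _ _ _ (fun h => h5 h.symm)
  · rintro A B _ _ ⟨g, hg, hA'⟩ ⟨h, hh, hB⟩
    refine ⟨g * h, mul_mem hg hh, ?_⟩
    intro j
    rw [AlgEquiv.mul_apply, hB j, map_sum]
    have h1 : ∀ i, g (C (B i j) * X i) = ∑ l, C (A l i * B i j) * X l := by
      intro i
      rw [map_mul, hA' i, ← algebraMap_eq, AlgEquiv.commutes, Finset.mul_sum]
      refine Finset.sum_congr rfl (fun l _ => ?_)
      rw [algebraMap_eq, C_mul]
      ring
    rw [Finset.sum_congr rfl (fun i _ => h1 i), Finset.sum_comm]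
    refine Finset.sum_congr rfl (fun l _ => ?_)
    rw [Matrix.mul_apply, map_sum, Finset.sum_mul]

theorem LI_lin {p : Rg k} (h : p.totalDegree ≤ 1) :
    p = (∑ i, C (coeff (Finsupp.single i 1) p) * X i) + C (coeff 0 p) := by
  classical
  ext m
  rw [coeff_add, coeff_sum]
  simp only [coeff_C_mul, coeff_X, coeff_C, mul_ite, mul_one, mul_zero]
  by_cases h0 : m = 0
  · subst h0
    have h1 : ∀ i : Fin 3, ¬ (Finsupp.single i 1 : Fin 3 →₀ ℕ) = 0 := by
      intro i
      simp
    simp [h1]
  · rw [if_neg (fun h => h0 h.symm), add_zero]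
    by_cases h1 : ∃ i : Fin 3, m = Finsupp.single i 1
    · obtain ⟨i, rfl⟩ := h1
      have h2 : ∀ j : Fin 3, ((Finsupp.single j 1 : Fin 3 →₀ ℕ) = Finsupp.single i 1) ↔ j = i := by
        intro j
        constructor
        · intro h3
          have := (Finsupp.single_left_inj (one_ne_zero : (1 : ℕ) ≠ 0)).1 h3
          exact this
        · rintro rfl; rfl
      simp only [h2]
      rw [Finset.sum_ite_eq' Finset.univ i, if_pos (Finset.mem_univ i)]
    · have h2 : ∀ i : Fin 3, ¬ (Finsupp.single i 1 : Fin 3 →₀ ℕ) = m := fun i h3 => h1 ⟨i, h3.symm⟩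
      simp only [h2, if_false, Finset.sum_const_zero]
      apply coeff_eq_zero_of_totalDegree_lt
      by_contra h3
      have h4 : ∑ i ∈ m.support, m i ≤ 1 := by omega
      have h5 : ∑ i ∈ m.support, m i = ∑ i, m i := by
        apply Finset.sum_subset (Finset.subset_univ _)
        intro x _ hx
        simpa using hx
      rw [h5, Fin.sum_univ_three] at h4
      rcases Nat.eq_zero_or_pos (m 0) with a0 | a0
      · rcases Nat.eq_zero_or_pos (m 1) with a1 | a1
        · rcases Nat.eq_zero_or_pos (m 2) with a2 | a2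
          · apply h0
            ext i
            fin_cases i <;> simp [a0, a1, a2]
          · apply h1
            refine ⟨2, ?_⟩
            have : m 2 = 1 := by omega
            ext i
            fin_cases i <;> simp [a0, a1, this]
        · apply h1
          refine ⟨1, ?_⟩
          have e1 : m 1 = 1 := by omega
          have e2 : m 2 = 0 := by omega
          ext i
          fin_cases i <;> simp [a0, e1, e2]
      · apply h1
        refine ⟨0, ?_⟩
        have e0 : m 0 = 1 := by omega
        have e1 : m 1 = 0 := by omega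
        have e2 : m 2 = 0 := by omega
        ext i
        fin_cases i <;> simp [e0, e1, e2]

/-- affine automorphisms -/
theorem affine_mem {τ : Au k} (h : ∀ i, (τ (X i)).totalDegree ≤ 1) :
    τ ∈ Subgroup.closure (Gen : Set (Au k)) := by
  classical
  set A : Matrix (Fin 3) (Fin 3) k := fun i j => coeff (Finsupp.single i 1) (τ (X j)) with hA
  set b : Fin 3 → k := fun j => coeff 0 (τ (X j)) with hb
  have hτ : ∀ j, τ (X j) = (∑ i, C (A i j) * X i) + C (b j) := fun j => LI_lin (h j)
  have hdet : A.det ≠ 0 := by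
    intro hd
    obtain ⟨v, hv, hv0⟩ := Matrix.exists_mulVec_eq_zero_iff.2 hd
    have h1 : τ (∑ j, C (v j) * X j) = C (∑ j, v j * b j) := by
      rw [map_sum]
      have h2 : ∀ j, τ (C (v j) * X j) = (∑ i, C (A i j * v j) * X i) + C (v j * b j) := by
        intro j
        rw [map_mul, hτ j, ← algebraMap_eq, AlgEquiv.commutes, algebraMap_eq, mul_add,
          Finset.mul_sum, C_mul]
        congr 1
        refine Finset.sum_congr rfl (fun i _ => ?_)
        rw [C_mul]
        ring
      rw [Finset.sum_congr rfl (fun j _ => h2 j), Finset.sum_add_distrib, Finset.sum_comm]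
      have h3 : ∀ i, ∑ j, C (A i j * v j) * (X i : Rg k) = 0 := by
        intro i
        rw [← Finset.sum_mul, ← map_sum]
        have : ∑ j, A i j * v j = (A.mulVec v) i := rfl
        rw [this, hv0]
        simp
      rw [Finset.sum_congr rfl (fun i _ => h3 i), Finset.sum_const_zero, zero_add, ← map_sum]
    have h2 : (∑ j, C (v j) * X j : Rg k) = C (∑ j, v j * b j) := by
      apply τ.injective
      rw [h1, ← algebraMap_eq, AlgEquiv.commutes]
    apply hv
    funext i
    have h3 := congrArg (coeff (Finsupp.single i 1)) h2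
    rw [coeff_sum] at h3
    have h4 : ∀ j : Fin 3, ((Finsupp.single j 1 : Fin 3 →₀ ℕ) = Finsupp.single i 1) ↔ j = i := by
      intro j
      constructor
      · intro h3
        exact (Finsupp.single_left_inj (one_ne_zero : (1 : ℕ) ≠ 0)).1 h3
      · rintro rfl; rfl
    have h5 : ¬ (0 : Fin 3 →₀ ℕ) = Finsupp.single i 1 := by
      intro h6
      have := DFunLike.congr_fun h6 i
      simp at this
    simp only [coeff_C_mul, coeff_X, coeff_C, h4, mul_ite, mul_one, mul_zero, h5, if_false] at h3
    rw [Finset.sum_ite_eq' Finset.univ i, if_pos (Finset.mem_univ i)] at h3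
    simpa using h3
  obtain ⟨g, hg, hgX⟩ := lin_mem A hdet
  have hz : ∀ i : Fin 3, (0 : Fin 3 →₀ ℕ) i = 0 := fun i => rfl
  have hEl : ∀ (i : Fin 3) (c : k), (El i (0 : Fin 3 →₀ ℕ) c (hz i) : Au k) ∈ Subgroup.closure (Gen : Set (Au k)) :=
    fun i c => Subgroup.subset_closure (Or.inl ⟨_, _, _, _, rfl⟩)
  set t : Au k := El 0 0 (b 0) (hz 0) * (El 1 0 (b 1) (hz 1) * El 2 0 (b 2) (hz 2)) with ht
  have htm : t ∈ Subgroup.closure (Gen : Set (Au k)) :=
    mul_mem (hEl _ _) (mul_mem (hEl _ _) (hEl _ _))
  have hEs : ∀ (i : Fin 3) (c : k), (El i (0 : Fin 3 →₀ ℕ) c (hz i) : Au k) (X i) = X i + C c := by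
    intro i c
    rw [El_apply_self]
    rfl
  have hEc : ∀ (i : Fin 3) (c d : k), (El i (0 : Fin 3 →₀ ℕ) c (hz i) : Au k) (C d) = C d := by
    intro i c d
    rw [← algebraMap_eq, AlgEquiv.commutes]
  have htX : ∀ j, t (X j) = X j + C (b j) := by
    intro j
    rw [ht, AlgEquiv.mul_apply, AlgEquiv.mul_apply]
    fin_cases j
    · change (El 0 0 (b 0) _) ((El 1 0 (b 1) _) ((El 2 0 (b 2) _) (X 0))) = X 0 + C (b 0)
      rw [El_apply_ne (i := 2) _ _ _ (by decide), El_apply_ne (i := 1) _ _ _ (by decide), hEs]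
    · change (El 0 0 (b 0) _) ((El 1 0 (b 1) _) ((El 2 0 (b 2) _) (X 1))) = X 1 + C (b 1)
      rw [El_apply_ne (i := 2) _ _ _ (by decide), hEs, map_add,
        El_apply_ne (i := 0) _ _ _ (by decide), hEc]
    · change (El 0 0 (b 0) _) ((El 1 0 (b 1) _) ((El 2 0 (b 2) _) (X 2))) = X 2 + C (b 2)
      rw [hEs, map_add, map_add, El_apply_ne (i := 1) _ _ _ (by decide),
        El_apply_ne (i := 0) _ _ _ (by decide), hEc, hEc]
  have heq : τ = g * t := by
    apply AlgEquiv.coe_toAlgHom_injective
    apply MvPolynomial.algHom_ext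
    intro j
    change τ (X j) = (g * t) (X j)
    rw [AlgEquiv.mul_apply, htX, map_add, hgX, hτ, ← algebraMap_eq, AlgEquiv.commutes]
  rw [heq]
  exact mul_mem hg htm

end Pool.Agent.TL
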