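import Pool.Agent.TL.TR2
import Pool.Agent.TL.LI

set_option autoImplicit false

namespace Pool.Agent.TL

open MvPolynomial

/-- exponents of degree at most one -/
theorem TR0Aux.deg_le_one (m : Fin 3 →₀ ℕ) (h : m 0 + m 1 + m 2 ≤ 1) :
    m = 0 ∨ ∃ j, m = Finsupp.single j 1 := by
  by_cases h0 : m 0 = 1
  · right; refine ⟨0, ?_⟩
    ext l; fin_cases l <;> simp <;> omega
  by_cases h1 : m 1 = 1
  · right; refine ⟨1, ?_⟩
    ext l; fin_cases l <;> simp <;> omega
  by_cases h2 : m 2 = 1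
  · right; refine ⟨2, ?_⟩
    ext l; fin_cases l <;> simp <;> omega
  left
  ext l; fin_cases l <;> simp <;> omega

variable {k : Type} [Field k]

/-- an affine polynomial is the sum of its constant and linear terms -/
theorem TR0Aux.decomp {f : Rg k} (h : ∀ m, coeff m f ≠ 0 → m 0 + m 1 + m 2 ≤ 1) :
    f = C (coeff 0 f) + ∑ j : Fin 3, C (coeff (Finsupp.single j 1) f) * X j := by
  ext m
  rw [coeff_add, coeff_C, coeff_sum]
  simp only [coeff_C_mul, coeff_X', mul_ite, mul_one, mul_zero]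
  by_cases hm : coeff m f = 0
  · by_cases h0 : 0 = m
    · subst h0; simp [hm]
    · rw [if_neg h0, hm, zero_add]
      symm
      refine Finset.sum_eq_zero fun j _ => ?_
      split_ifs with hj
      · rw [hj]; exact hm
      · rfl
  · rcases TR0Aux.deg_le_one m (h m hm) with rfl | ⟨j, rfl⟩
    · simp
    · have h0 : ¬ ((0 : Fin 3 →₀ ℕ) = Finsupp.single j 1) := by
        intro hcon
        have := DFunLike.congr_fun hcon j
        simp at this
      rw [if_neg h0, zero_add, Finset.sum_eq_single j]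
      · simp
      · intro i _ hij
        rw [if_neg]
        intro hcon
        exact hij ((Finsupp.single_left_inj one_ne_zero).mp hcon)
      · simp

/-- the weight `(1, 1, 1)` -/
theorem TR0Aux.dE_one (m : Fin 3 →₀ ℕ) : dE m (fun _ => (1 : ℝ)) = m 0 + m 1 + m 2 := by
  simp [dE, Fin.sum_univ_three]

theorem TR0Aux.LE_one_iff {f : Rg k} : LE (fun _ => (1 : ℝ)) 1 f ↔
    ∀ m, coeff m f ≠ 0 → m 0 + m 1 + m 2 ≤ 1 := by
  constructor
  · intro h m hm
    have := h m hm
    rw [TR0Aux.dE_one] at this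
    exact_mod_cast this
  · intro h m hm
    rw [TR0Aux.dE_one]
    exact_mod_cast h m hm

/-- a nonzero vector is the first column of an invertible matrix -/
theorem TR0Aux.exists_matrix (a : Fin 3 → k) (ha : a ≠ 0) :
    ∃ A : Matrix (Fin 3) (Fin 3) k, A.det ≠ 0 ∧ ∀ i, A i 0 = a i := by
  have h : a 0 ≠ 0 ∨ a 1 ≠ 0 ∨ a 2 ≠ 0 := by
    by_contra hcon
    push Not at hcon
    apply ha
    funext j
    fin_cases j
    · exact hcon.1
    · exact hcon.2.1
    · exact hcon.2.2
  rcases h with h | h | h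
  · refine ⟨!![a 0, 0, 0; a 1, 1, 0; a 2, 0, 1], ?_, ?_⟩
    · rw [Matrix.det_fin_three]; simpa using h
    · intro i; fin_cases i <;> rfl
  · refine ⟨!![a 0, 1, 0; a 1, 0, 0; a 2, 0, 1], ?_, ?_⟩
    · rw [Matrix.det_fin_three]; simpa using h
    · intro i; fin_cases i <;> rfl
  · refine ⟨!![a 0, 1, 0; a 1, 0, 1; a 2, 0, 0], ?_, ?_⟩
    · rw [Matrix.det_fin_three]; simpa using h
    · intro i; fin_cases i <;> rfl

/-- linear forms -/
theorem TR0Aux.LE_lin (a : Fin 3 → k) :
    LE (fun _ => (1 : ℝ)) 1 (∑ i, C (a i) * X i : Rg k) := by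
  refine LE.sum _ _ fun i _ => ?_
  have := (LE_C (fun _ => (1 : ℝ)) (a i)).mul (LE_X (k := k) (fun _ => (1 : ℝ)) i)
  simpa using this

/-- inverse of a linear automorphism -/
theorem TR0Aux.symm_lin (A : Matrix (Fin 3) (Fin 3) k) (hA : A.det ≠ 0) (g : Au k)
    (hg : ∀ j, g (X j) = ∑ i, C (A i j) * X i) :
    ∀ j, g.symm (X j) = ∑ i, C (A⁻¹ i j) * X i := by
  intro j
  rw [AlgEquiv.symm_apply_eq, map_sum]
  have hAA : A * A⁻¹ = 1 := Matrix.mul_nonsing_inv A (isUnit_iff_ne_zero.mpr hA)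
  have h1 : ∀ i : Fin 3, g (C (A⁻¹ i j) * X i) = ∑ l, C (A l i * A⁻¹ i j) * X l := by
    intro i
    rw [map_mul, hg, Finset.mul_sum]
    refine Finset.sum_congr rfl fun l _ => ?_
    have : g (C (A⁻¹ i j)) = C (A⁻¹ i j) := by
      rw [← algebraMap_eq]; exact g.commutes _
    rw [this, map_mul]; ring
  simp only [h1]
  rw [Finset.sum_comm]
  have h2 : ∀ l : Fin 3, ∑ i, C (A l i * A⁻¹ i j) * (X l : Rg k) = C ((A * A⁻¹) l j) * X l := by
    intro l
    rw [← Finset.sum_mul, ← map_sum, Matrix.mul_apply]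
  simp only [h2, hAA]
  rw [Finset.sum_eq_single j]
  · simp
  · intro i _ hij
    rw [Matrix.one_apply_ne hij]; simp
  · simp

variable [CharZero k]

/-- `D` locally nilpotent with all `D x_j` affine. Proof. The linear parts of the `D x_j` define a nilpotent
endomorphism `N` of the space of linear forms (`D` maps affine forms to affine forms and is nilpotent on them), so some
linear form `ℓ ≠ 0` has `D ℓ` constant; complete `ℓ` to a basis, `lin_mem`: `g x_0 = ℓ`; `conj g D` has `D x_0`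
constant and all `D x_j` affine: `TR2` with `z := 0`, `x := 1`, `y := 2`. -/
theorem TR0 {D : Der k} (hD : IsLND D) (h : ∀ j m, coeff m (D (X j)) ≠ 0 → m 0 + m 1 + m 2 ≤ 1) :
    ∃ σ ∈ Subgroup.closure (Gen : Set (Au k)), TriD (conj σ D) := by
  classical
  -- `D` preserves affine polynomials
  have hDL : ∀ j, LE (fun _ => (1 : ℝ)) 1 (D (X j)) := fun j => TR0Aux.LE_one_iff.mpr (h j)
  have hdec : ∀ f : Rg k, LE (fun _ => (1 : ℝ)) 1 f →
      D f = ∑ j : Fin 3, C (coeff (Finsupp.single j 1) f) * D (X j) := by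
    intro f hf
    conv_lhs => rw [TR0Aux.decomp (TR0Aux.LE_one_iff.mp hf)]
    rw [map_add, map_sum]
    have : D (C (coeff 0 f)) = 0 := by rw [← algebraMap_eq]; exact D.map_algebraMap _
    rw [this, zero_add]
    refine Finset.sum_congr rfl fun j _ => ?_
    rw [← smul_eq_C_mul, D.map_smul, smul_eq_C_mul]
  have hpres : ∀ f : Rg k, LE (fun _ => (1 : ℝ)) 1 f → LE (fun _ => (1 : ℝ)) 1 (D f) := by
    intro f hf
    rw [hdec f hf]
    refine LE.sum _ _ fun j _ => ?_
    have := (LE_C (fun _ => (1 : ℝ)) (coeff (Finsupp.single j 1) f)).mul (hDL j)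
    simpa using this
  have hit : ∀ n, LE (fun _ => (1 : ℝ)) 1 ((⇑D)^[n] (X 0)) := by
    intro n
    induction n with
    | zero => simpa using LE_X (k := k) (fun _ => (1 : ℝ)) 0
    | succ n ih => rw [Function.iterate_succ_apply']; exact hpres _ ih
  -- the last iterate with a linear term
  have hex : ∃ n, ∀ j : Fin 3, coeff (Finsupp.single j 1) ((⇑D)^[n] (X 0)) = 0 := by
    obtain ⟨n, hn⟩ := hD (X 0)
    exact ⟨n, fun j => by rw [hn]; simp⟩
  set n := Nat.find hex with hn
  have hn1 : ∀ j : Fin 3, coeff (Finsupp.single j 1) ((⇑D)^[n] (X 0)) = 0 := Nat.find_spec hex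
  have hn0 : n ≠ 0 := by
    intro h0
    have := hn1 0
    rw [h0] at this
    simp at this
  obtain ⟨n', hn'⟩ := Nat.exists_eq_succ_of_ne_zero hn0
  have hn2 : ¬ ∀ j : Fin 3, coeff (Finsupp.single j 1) ((⇑D)^[n'] (X 0)) = 0 :=
    Nat.find_min hex (by omega)
  set f := (⇑D)^[n'] (X 0) with hf
  have hfL : LE (fun _ => (1 : ℝ)) 1 f := hit n'
  have hDf : D f = (⇑D)^[n] (X 0) := by rw [hn', Function.iterate_succ_apply']
  have hDfc : D f = C (coeff 0 (D f)) := by
    have h1 := TR0Aux.decomp (TR0Aux.LE_one_iff.mp (hpres f hfL))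
    rw [h1]
    rw [hDf]
    simp only [hn1, map_zero, zero_mul, Finset.sum_const_zero, add_zero]
    simp
  set a : Fin 3 → k := fun j => coeff (Finsupp.single j 1) f with ha
  have ha0 : a ≠ 0 := by
    intro hcon
    apply hn2
    intro j
    exact congrFun hcon j
  obtain ⟨A, hA, hAa⟩ := TR0Aux.exists_matrix a ha0
  obtain ⟨g, hgG, hg⟩ := lin_mem A hA
  have hgs := TR0Aux.symm_lin A hA g hg
  have hg0 : D (g (X 0)) = C (coeff 0 (D f)) := by
    rw [hg]
    have h1 := hdec f hfL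
    rw [← hDfc, h1, map_sum]
    refine Finset.sum_congr rfl fun j _ => ?_
    rw [← smul_eq_C_mul, D.map_smul, smul_eq_C_mul, hAa]
  have hgL : ∀ j, LE (fun _ => (1 : ℝ)) 1 (g (X j)) := by
    intro j; rw [hg]; exact TR0Aux.LE_lin _
  have hgsL : ∀ j, LE (fun _ => (1 : ℝ)) 1 (g.symm (X j)) := by
    intro j; rw [hgs]; exact TR0Aux.LE_lin _
  have hc : ∀ j, LE (fun _ => (1 : ℝ)) 1 (conj g D (X j)) := by
    intro j
    rw [conj_apply]
    exact LE.hom (α := fun _ => (1 : ℝ)) (β := fun _ => (1 : ℝ)) (g.symm : Rg k →ₐ[k] Rg k) hgsL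
      (hpres _ (hgL j))
  have hc' := fun j => TR0Aux.LE_one_iff.mp (hc j)
  have h0 : conj g D (X 0) = C (coeff 0 (D f)) := by
    rw [conj_apply, hg0, ← algebraMap_eq]
    exact g.symm.commutes _
  obtain ⟨σ, hσ, hT⟩ := TR2 (hD.conj g) (x := 1) (y := 2) (z := 0) (by decide) (by decide)
    (by decide) (by
      intro m hm
      rw [h0, coeff_C] at hm
      by_contra hcon
      rw [if_neg (Ne.symm hcon)] at hm
      exact hm rfl)
    (fun m hm => by have := hc' 1 m hm; omega) (fun m hm => by have := hc' 2 m hm; omega)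
  refine ⟨g * σ, Subgroup.mul_mem _ hgG hσ, ?_⟩
  rw [conj_mul]
  exact hT

end Pool.Agent.TL
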