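import Pool.Agent.TL.BB

set_option autoImplicit false

/-! # GR: the graded part of an automorphism which preserves a valuation -/

namespace Pool.Agent.TL

open MvPolynomial

variable {k : Type} [Field k]

namespace GRAux

theorem hc_C (α : Wt) (c : k) : hc α 0 (C c : Rg k) = C c := by
  apply hc_of_Hg
  have h := Hg_monomial α 0 c
  rw [dE_zero] at h
  exact h

theorem hc_pow {α : Wt} {s : ℝ} {f : Rg k} (hf : LE α s f) (n : ℕ) :
    hc α (n * s) (f ^ n) = (hc α s f) ^ n := by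
  induction n with
  | zero =>
    rw [pow_zero, pow_zero, Nat.cast_zero, zero_mul, ← C_1]
    exact hc_C α 1
  | succ n ih =>
    have e : ((n + 1 : ℕ) : ℝ) * s = n * s + s := by push_cast; ring
    rw [pow_succ, pow_succ, e, hc_mul (hf.pow n) hf, ih]

theorem hc_sum {ι : Type} (α : Wt) (s : ℝ) (t : Finset ι) (f : ι → Rg k) :
    hc α s (∑ i ∈ t, f i) = ∑ i ∈ t, hc α s (f i) := by
  classical
  induction t using Finset.induction_on with
  | empty =>
    rw [Finset.sum_empty, Finset.sum_empty]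
    have h := hc_smul α s (0 : k) (0 : Rg k)
    rw [zero_smul, zero_smul] at h
    exact h
  | insert a t ha ih =>
    rw [Finset.sum_insert ha, Finset.sum_insert ha, hc_add, ih]

/-- the graded part of an endomorphism -/
noncomputable def gr (α : Wt) (φ : Rg k →ₐ[k] Rg k) : Rg k →ₐ[k] Rg k :=
  aeval (fun j => hc α (α j) (φ (X j)))

theorem gr_X (α : Wt) (φ : Rg k →ₐ[k] Rg k) (j : Fin 3) :
    gr α φ (X j) = hc α (α j) (φ (X j)) := by
  simp [gr]

theorem hom_monomial (φ : Rg k →ₐ[k] Rg k) (m : Fin 3 →₀ ℕ) (c : k) :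
    φ (monomial m c) = c • ((φ (X 0)) ^ (m 0) * (φ (X 1)) ^ (m 1) * (φ (X 2)) ^ (m 2)) := by
  rw [monomial_eq, Finsupp.prod_fintype _ _ (fun i => pow_zero _), Fin.prod_univ_three,
    ← smul_eq_C_mul, map_smul, map_mul, map_mul, map_pow, map_pow, map_pow]

theorem dE_eq (m : Fin 3 →₀ ℕ) (α : Wt) : dE m α = m 0 * α 0 + m 1 * α 1 + m 2 * α 2 := by
  unfold dE
  rw [Fin.sum_univ_three]

theorem gr_monomial (α : Wt) (φ : Rg k →ₐ[k] Rg k) (h : ∀ j, LE α (α j) (φ (X j)))
    (m : Fin 3 →₀ ℕ) (c : k) :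
    hc α (dE m α) (φ (monomial m c)) = gr α φ (monomial m c) := by
  rw [hom_monomial, hom_monomial, hc_smul, dE_eq, hc_mul (((h 0).pow _).mul ((h 1).pow _))
    ((h 2).pow _), hc_mul ((h 0).pow _) ((h 1).pow _), hc_pow (h 0), hc_pow (h 1), hc_pow (h 2),
    gr_X, gr_X, gr_X]

theorem gr_hc (α : Wt) (φ : Rg k →ₐ[k] Rg k) (h : ∀ j, LE α (α j) (φ (X j))) (f : Rg k) (s : ℝ)
    (hf : LE α s f) : hc α s (φ f) = gr α φ (hc α s f) := by
  rw [f.as_sum, map_sum, hc_sum, hc_sum, map_sum]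
  refine Finset.sum_congr rfl ?_
  intro m hm
  have hm' := hf m (mem_support_iff.1 hm)
  rcases eq_or_lt_of_le hm' with h1 | h1
  · subst h1
    rw [gr_monomial α φ h, hc_of_Hg (Hg_monomial α m _)]
  · rw [hc_eq_zero_of_lt (LE.hom φ h (LE_monomial α m _)) h1,
      hc_eq_zero_of_lt (LE_monomial α m _) h1, map_zero]

theorem gr_Hg (α : Wt) (φ : Rg k →ₐ[k] Rg k) (h : ∀ j, LE α (α j) (φ (X j))) (f : Rg k) (s : ℝ)
    (hf : Hg α s f) : Hg α s (gr α φ f) := by
  have h1 := gr_hc α φ h f s hf.LE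
  rw [hc_of_Hg hf] at h1
  rw [← h1]
  exact Hg_hc α s _

theorem gr_comp (α : Wt) (φ ψ : Rg k →ₐ[k] Rg k) (h : ∀ j, LE α (α j) (φ (X j)))
    (h' : ∀ j, LE α (α j) (ψ (X j))) (hid : ∀ f, φ (ψ f) = f) :
    (gr α φ).comp (gr α ψ) = AlgHom.id k _ := by
  apply MvPolynomial.algHom_ext
  intro j
  rw [AlgHom.comp_apply, AlgHom.id_apply, gr_X, ← gr_hc α φ h _ _ (h' j), hid,
    hc_of_Hg (Hg_X α j)]

theorem au_ext {σ τ : Au k} (h : ∀ j, σ (X j) = τ (X j)) : σ = τ := by
  apply AlgEquiv.coe_toAlgHom_injective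
  apply MvPolynomial.algHom_ext
  intro j
  exact h j

end GRAux

open GRAux

/-- The graded part. `τ' x_j` is the component of weight `α j` of `τ x_j`. -/
theorem exists_gr (τ : Au k) (α : Wt) (h : Pres τ α α) :
    ∃ τ' : Au k, (∀ j, τ' (X j) = hc α (α j) (τ (X j))) ∧
      (∀ j, τ'.symm (X j) = hc α (α j) (τ.symm (X j))) ∧
      (∀ f s, LE α s f → hc α s (τ f) = τ' (hc α s f)) ∧
      (∀ f s, Hg α s f → Hg α s (τ' f)) ∧
      ∀ (D : Der k) (s : ℝ), Le (supp D) α s →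
        lead α s (conj τ D) = conj τ' (lead α s D) := by
  have h1 : ∀ j, LE α (α j) ((τ : Rg k →ₐ[k] Rg k) (X j)) := h.1
  have h2 : ∀ j, LE α (α j) ((τ.symm : Rg k →ₐ[k] Rg k) (X j)) := h.2
  refine ⟨AlgEquiv.ofAlgHom (gr α (τ : Rg k →ₐ[k] Rg k)) (gr α (τ.symm : Rg k →ₐ[k] Rg k))
    (gr_comp α _ _ h1 h2 (fun f => τ.apply_symm_apply f))
    (gr_comp α _ _ h2 h1 (fun f => τ.symm_apply_apply f)), ?_, ?_, ?_, ?_, ?_⟩
  · intro j
    exact gr_X α _ j
  · intro j
    exact gr_X α _ j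
  · intro f s hf
    exact gr_hc α _ h1 f s hf
  · intro f s hf
    exact gr_Hg α _ h1 f s hf
  · intro D s hD
    apply MvPolynomial.derivation_ext
    intro j
    rw [lead_X, conj_apply, conj_apply]
    change hc α (s - sm α + α j) (τ.symm (D (τ (X j)))) =
      gr α (τ.symm : Rg k →ₐ[k] Rg k) (lead α s D (gr α (τ : Rg k →ₐ[k] Rg k) (X j)))
    have e : s - sm α + α j = α j + (s - sm α) := by ring
    have hX : LE α (α j) (τ (X j)) := h.1 j
    rw [gr_X, e]
    have h3 := hc_der hD hX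
    change _ = gr α (τ.symm : Rg k →ₐ[k] Rg k) (lead α s D (hc α (α j) (τ (X j))))
    rw [← h3, ← gr_hc α _ h2 _ _ (LE.der hD hX)]
    rfl

/-- a lower order elementary move does not change the leading derivation -/
theorem lead_conj_El_lt {i : Fin 3} {M : Fin 3 →₀ ℕ} {c : k} (h : M i = 0) {α : Wt}
    (hα : dE M α < α i) {D : Der k} {s : ℝ} (hD : Le (supp D) α s) :
    lead α s (conj (El i M c h) D) = lead α s D := by
  obtain ⟨τ', hτ, -, -, -, h5⟩ := exists_gr (El i M c h) α (Pres_El h hα.le)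
  have h1 : τ' = 1 := by
    apply au_ext
    intro j
    rw [hτ j]
    change _ = X j
    by_cases hj : j = i
    · subst hj
      rw [El_apply_self, hc_add, hc_of_Hg (Hg_X α j), hc_eq_zero_of_lt (LE_monomial α M c) hα,
        add_zero]
    · rw [El_apply_ne M c h hj, hc_of_Hg (Hg_X α j)]
  rw [h5 D s hD, h1, conj_one]

/-- a homogeneous elementary move commutes with taking the leading derivation -/
theorem lead_conj_El_eq {i : Fin 3} {M : Fin 3 →₀ ℕ} {c : k} (h : M i = 0) {α : Wt}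
    (hα : dE M α = α i) {D : Der k} {s : ℝ} (hD : Le (supp D) α s) :
    lead α s (conj (El i M c h) D) = conj (El i M c h) (lead α s D) := by
  obtain ⟨τ', hτ, -, -, -, h5⟩ := exists_gr (El i M c h) α (Pres_El h hα.le)
  have h1 : τ' = El i M c h := by
    apply au_ext
    intro j
    rw [hτ j]
    by_cases hj : j = i
    · subst hj
      have h2 := Hg_monomial α M c
      rw [hα] at h2
      rw [El_apply_self, hc_of_Hg ((Hg_X α j).add h2)]
    · rw [El_apply_ne M c h hj, hc_of_Hg (Hg_X α j)]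
  rw [h5 D s hD, h1]

/-- homogeneity is preserved by a homogeneous elementary move -/
theorem dt_conj_El_eq {i : Fin 3} {M : Fin 3 →₀ ℕ} {c : k} (h : M i = 0) {α : Wt}
    (hα : dE M α = α i) {D : Der k} {s : ℝ} (hD : ∀ P ∈ supp D, dt P α = s) :
    ∀ P ∈ supp (conj (El i M c h) D), dt P α = s := by
  intro P hP
  have h1 := lead_conj_El_eq (c := c) h hα (D := D) (s := s) (fun Q hQ => (hD Q hQ).le)
  rw [lead_eq_self hD] at h1
  rw [← h1] at hP
  exact (mem_supp_lead.1 hP).2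

end Pool.Agent.TL
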