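import Pool.Agent.TL.PT

set_option autoImplicit false

/-! # SA: tools for products of generators which preserve a weight -/

namespace Pool.Agent.TL

open MvPolynomial

variable {k : Type} [Field k]

/-- the group generated by the generators preserving the valuation `α` -/
noncomputable def GP (k : Type) [Field k] (α : Wt) : Subgroup (Au k) :=
  Subgroup.closure {g : Au k | g ∈ (Gen : Set (Au k)) ∧ Pres g α α}

theorem GP_pres {α : Wt} {g : Au k} (h : g ∈ GP k α) : Pres g α α := by
  unfold GP at h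
  induction h using Subgroup.closure_induction with
  | mem x hx => exact hx.2
  | one => exact Pres.one α
  | mul x y _ _ hx hy => exact hx.mul hy
  | inv x _ hx => exact hx.inv

/-- for the zero weight there is no condition -/
theorem GP_zero : GP k (fun _ => 0) = Subgroup.closure (Gen : Set (Au k)) := by
  unfold GP
  congr 1
  ext g
  constructor
  · intro h
    exact h.1
  · intro h
    refine ⟨h, fun j m _ => ?_, fun j m _ => ?_⟩ <;> simp [dE]

theorem GP_le {α : Wt} : GP k α ≤ Subgroup.closure (Gen : Set (Au k)) := by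
  apply Subgroup.closure_mono
  intro g hg
  exact hg.1

theorem El_mem {i : Fin 3} {M : Fin 3 →₀ ℕ} {c : k} (h : M i = 0) {α : Wt}
    (hα : dE M α ≤ α i) : El i M c h ∈ GP k α :=
  Subgroup.subset_closure ⟨Or.inl ⟨i, M, c, h, rfl⟩, Pres_El h hα⟩

theorem Sc_mem (u : Fin 3 → kˣ) (α : Wt) : (Sc u : Au k) ∈ GP k α :=
  Subgroup.subset_closure ⟨Or.inr (Or.inl ⟨u, rfl⟩), Pres_Sc u α⟩

theorem SA_sum {i : Fin 3} {α : Wt} (c : (Fin 3 →₀ ℕ) → k) (s : Finset (Fin 3 →₀ ℕ))
    (hs : ∀ m ∈ s, m i = 0 ∧ dE m α ≤ α i) :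
    ∃ g ∈ GP k α, g (X i) = X i + ∑ m ∈ s, monomial m (c m) ∧ ∀ j, j ≠ i → g (X j) = X j := by
  classical
  induction s using Finset.induction_on with
  | empty => exact ⟨1, Subgroup.one_mem _, by simp, fun j _ => rfl⟩
  | insert m0 s hm0 ih =>
    obtain ⟨g, hg, h1, h2⟩ := ih (fun m hm => hs m (Finset.mem_insert_of_mem hm))
    obtain ⟨h3, h4⟩ := hs m0 (Finset.mem_insert_self _ _)
    refine ⟨El i m0 (c m0) h3 * g, Subgroup.mul_mem _ (El_mem h3 h4) hg, ?_, ?_⟩
    · rw [AlgEquiv.mul_apply, h1, map_add, El_apply_self, map_sum, Finset.sum_insert hm0,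
        add_assoc]
      congr 2
      refine Finset.sum_congr rfl fun m hm => ?_
      exact El_monomial i m0 m _ _ h3 (hs m (Finset.mem_insert_of_mem hm)).1
    · intro j hj
      rw [AlgEquiv.mul_apply, h2 j hj, El_apply_ne _ _ _ hj]

/-- `x_i ↦ x_i + p` (product over the monomials of `p`) -/
theorem El_poly {i : Fin 3} {p : Rg k} (hp : ∀ m, coeff m p ≠ 0 → m i = 0) {α : Wt}
    (hα : LE α (α i) p) :
    ∃ g ∈ GP k α, g (X i) = X i + p ∧ ∀ j, j ≠ i → g (X j) = X j := by
  obtain ⟨g, hg, h1, h2⟩ := SA_sum (k := k) (i := i) (α := α) (fun m => coeff m p) p.support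
    (fun m hm => ⟨hp m (mem_support_iff.1 hm), hα m (mem_support_iff.1 hm)⟩)
  refine ⟨g, hg, ?_, h2⟩
  rw [h1, ← p.as_sum]

end Pool.Agent.TL
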