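import Pool.Agent.TL.TP
import Pool.Agent.TL.SA
import Pool.Agent.TL.GR

set_option autoImplicit false

/-! # TR2: derivations with `D z ∈ k`, `D x, D y ∈ k[z] x + k[z] y + k[z]`

Proof. Let `w = e_x + e_y` (weight `0` at `z`), `D̂ = lead w (sm w) D`; it is locally nilpotent and maps
`V = k[z] x + k[z] y` to itself. The last nonzero `D̂^n x` is `e = f x + g y ≠ 0`, `f, g ∈ k[z]`, `D̂ e = 0`.
Induction on `ms f + ms g` (euclidean algorithm by elementary moves). -/

namespace Pool.Agent.TL

open MvPolynomial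

variable {k : Type} [Field k] [CharZero k]

namespace TR2Aux

/-- the weight `1` outside `z` -/
def w (z : Fin 3) : Wt := fun j => if j = z then 0 else 1

/-- polynomials in `z` -/
noncomputable def P (z : Fin 3) : Polynomial k →ₐ[k] Rg k := Polynomial.aeval (X z)

/-- size of a polynomial: `0` for the zero polynomial, degree plus one otherwise -/
noncomputable def ms (f : Polynomial k) : ℕ := by
  classical exact if f = 0 then 0 else f.natDegree + 1

omit [CharZero k] in
theorem ms_eq_zero {f : Polynomial k} (h : ms f = 0) : f = 0 := by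
  classical
  by_contra hf
  simp [ms, hf] at h

omit [CharZero k] in
theorem ms_lt {f g : Polynomial k} (hg : g ≠ 0) (h : f.degree < g.degree) : ms f < ms g := by
  classical
  by_cases hf : f = 0
  · simp [ms, hf, hg]
  · have := Polynomial.natDegree_lt_natDegree hf h
    simp [ms, hf, hg, this]

theorem dE_w {x y z : Fin 3} (hxy : x ≠ y) (hxz : x ≠ z) (hyz : y ≠ z) (m : Fin 3 →₀ ℕ) :
    dE m (w z) = ((m x + m y : ℕ) : ℝ) := by
  rw [dE, sum3 hxy hxz hyz]
  simp [w, hxz, hyz]

omit [CharZero k] in
theorem exists_fg {x y z : Fin 3} (hxy : x ≠ y) (hxz : x ≠ z) (hyz : y ≠ z) {e : Rg k}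
    (he : Hg (w z) 1 e) : ∃ f g : Polynomial k, e = P z f * X x + P z g * X y := by
  have key : ∀ h : Rg k, (∀ m ∈ h.support, m x + m y = 1) →
      ∃ f g : Polynomial k, h = P z f * X x + P z g * X y := by
    intro h hh
    have hs : h = ∑ m ∈ h.support, monomial m (coeff m h) := (support_sum_monomial_coeff h).symm
    rw [hs]
    refine Finset.sum_induction _ (fun h => ∃ f g : Polynomial k, h = P z f * X x + P z g * X y)
      ?_ ?_ ?_
    · rintro a b ⟨f, g, rfl⟩ ⟨f', g', rfl⟩
      exact ⟨f + f', g + g', by rw [map_add, map_add]; ring⟩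
    · exact ⟨0, 0, by simp⟩
    · intro m hm
      have hm' := hh m hm
      have hmon : (monomial m (coeff m h) : Rg k)
          = C (coeff m h) * (X x ^ m x * X y ^ m y * X z ^ m z) := by
        rw [monomial_eq, Finsupp.prod_fintype _ _ (fun i => by simp)]
        congr 1
        have : (Finset.univ : Finset (Fin 3)) = {x, y, z} := by
          ext j
          simpa using eq_of_ne hxy hxz hyz j
        rw [this, Finset.prod_insert (by simp [hxy, hxz]), Finset.prod_insert (by simp [hyz]),
          Finset.prod_singleton]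
        ring
      have hc : (m x = 1 ∧ m y = 0) ∨ (m x = 0 ∧ m y = 1) := by omega
      rcases hc with ⟨h1, h2⟩ | ⟨h1, h2⟩
      · refine ⟨Polynomial.C (coeff m h) * Polynomial.X ^ m z, 0, ?_⟩
        rw [hmon, h1, h2]
        simp [P, MvPolynomial.algebraMap_eq]
        ring
      · refine ⟨0, Polynomial.C (coeff m h) * Polynomial.X ^ m z, ?_⟩
        rw [hmon, h1, h2]
        simp [P, MvPolynomial.algebraMap_eq]
        ring
  apply key
  intro m hm
  have := he m (mem_support_iff.mp hm)
  rw [dE_w hxy hxz hyz] at this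
  exact_mod_cast this

omit [CharZero k] in
/-- splitting off the linear part in `y` -/
theorem exists_bp {y : Fin 3} {h : Rg k} (hh : ∀ m, coeff m h ≠ 0 → m y ≤ 1) :
    ∃ b p : Rg k, (∀ m, coeff m b ≠ 0 → m y = 0) ∧ (∀ m, coeff m p ≠ 0 → m y = 0) ∧
      h = b * X y + p := by
  have key : ∀ h : Rg k, (∀ m ∈ h.support, m y ≤ 1) →
      ∃ b p : Rg k, (∀ m, coeff m b ≠ 0 → m y = 0) ∧ (∀ m, coeff m p ≠ 0 → m y = 0) ∧
      h = b * X y + p := by
    intro h hh
    have hs : h = ∑ m ∈ h.support, monomial m (coeff m h) := (support_sum_monomial_coeff h).symm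
    rw [hs]
    refine Finset.sum_induction _ (fun h => ∃ b p : Rg k, (∀ m, coeff m b ≠ 0 → m y = 0) ∧
      (∀ m, coeff m p ≠ 0 → m y = 0) ∧ h = b * X y + p) ?_ ?_ ?_
    · rintro a b ⟨b1, p1, hb1, hp1, rfl⟩ ⟨b2, p2, hb2, hp2, rfl⟩
      refine ⟨b1 + b2, p1 + p2, ?_, ?_, by ring⟩
      · intro m hm
        by_contra hne
        apply hm
        rw [coeff_add]
        have h1 : coeff m b1 = 0 := by by_contra h1; exact hne (hb1 m h1)
        have h2 : coeff m b2 = 0 := by by_contra h2; exact hne (hb2 m h2)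
        rw [h1, h2, add_zero]
      · intro m hm
        by_contra hne
        apply hm
        rw [coeff_add]
        have h1 : coeff m p1 = 0 := by by_contra h1; exact hne (hp1 m h1)
        have h2 : coeff m p2 = 0 := by by_contra h2; exact hne (hp2 m h2)
        rw [h1, h2, add_zero]
    · exact ⟨0, 0, by simp, by simp, by simp⟩
    · intro m hm
      have hm' := hh m hm
      rcases Nat.le_one_iff_eq_zero_or_eq_one.mp hm' with h0 | h1
      · refine ⟨0, monomial m (coeff m h), by simp, ?_, by simp⟩
        intro n hn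
        rw [coeff_monomial] at hn
        split_ifs at hn with hmn
        · rw [← hmn, h0]
        · exact absurd rfl hn
      · refine ⟨monomial (m - Finsupp.single y 1) (coeff m h), 0, ?_, by simp, ?_⟩
        · intro n hn
          rw [coeff_monomial] at hn
          split_ifs at hn with hmn
          · rw [← hmn]; simp [h1]
          · exact absurd rfl hn
        · rw [add_zero, X, monomial_mul, mul_one, tsub_add_cancel_of_le]
          rw [Finsupp.single_le_iff, h1]
  exact key h (fun m hm => hh m (mem_support_iff.mp hm))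

/-- base case: `D x ∈ k[z]` -/
theorem base {D : Der k} (hD : IsLND D) {x y z : Fin 3} (hxy : x ≠ y) (hxz : x ≠ z)
    (hyz : y ≠ z) (hz : ∀ m, coeff m (D (X z)) ≠ 0 → m = 0)
    (hx : ∀ m, coeff m (D (X x)) ≠ 0 → m x = 0 ∧ m y = 0)
    (hy : ∀ m, coeff m (D (X y)) ≠ 0 → m x + m y ≤ 1) :
    ∃ σ ∈ Subgroup.closure (Gen : Set (Au k)), TriD (conj σ D) := by
  obtain ⟨b, p, hb, hp, hbp⟩ := exists_bp (y := y) (h := D (X y)) (fun m hm => by
    have := hy m hm; omega)
  have hT : b = 0 := by
    refine principleT hD (x := y) ?_ hb hp hbp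
    intro j hj m hm
    rcases eq_of_ne hxy hxz hyz j with rfl | rfl | rfl
    · exact (hx m hm).2
    · exact absurd rfl hj
    · rw [hz m hm]; rfl
  rw [hT, zero_mul, zero_add] at hbp
  obtain ⟨π, hπ⟩ := TriD_perm (D := D) (x := y) (y := x) (z := z) hxy.symm hyz hxz hz
    (fun m hm => ⟨(hx m hm).2, (hx m hm).1⟩) (fun m hm => hp m (by rwa [← hbp]))
  exact ⟨Pm π, Subgroup.subset_closure (Or.inr (Or.inr ⟨π, rfl⟩)), hπ⟩

/-- one division step -/
theorem step (n : ℕ) (ih : ∀ (D : Der k), IsLND D → ∀ (x y z : Fin 3), x ≠ y → x ≠ z → y ≠ z →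
      (∃ c : k, D (X z) = C c) → Le (supp D) (w z) (sm (w z)) → ∀ f g : Polynomial k,
      P z f * X x + P z g * X y ≠ 0 →
      lead (w z) (sm (w z)) D (P z f * X x + P z g * X y) = 0 → ms f + ms g < n →
      ∃ σ ∈ Subgroup.closure (Gen : Set (Au k)), TriD (conj σ D))
    (D : Der k) (hD : IsLND D) (x y z : Fin 3) (hxy : x ≠ y) (hxz : x ≠ z) (hyz : y ≠ z)
    (hz : ∃ c : k, D (X z) = C c) (hle : Le (supp D) (w z) (sm (w z))) (f g : Polynomial k)
    (hne : P z f * X x + P z g * X y ≠ 0)
    (h0 : lead (w z) (sm (w z)) D (P z f * X x + P z g * X y) = 0) (hn : ms f + ms g ≤ n)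
    (hfg : ms g ≤ ms f) :
    ∃ σ ∈ Subgroup.closure (Gen : Set (Au k)), TriD (conj σ D) := by
  have hle' := Le_supp_iff.mp hle
  have hwx : w z x = 1 := by simp [w, hxz]
  have hwy : w z y = 1 := by simp [w, hyz]
  obtain ⟨c₀, hc₀⟩ := hz
  by_cases hg : g = 0
  · -- base case
    rw [hg, map_zero, zero_mul, add_zero] at hne h0
    have hx0 : lead (w z) (sm (w z)) D (X x) = 0 := (ker_factor (hD.lead hle) h0 hne).2
    refine base hD hxy hxz hyz ?_ ?_ ?_
    · intro m hm
      rw [hc₀, coeff_C] at hm
      split_ifs at hm with h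
      · exact h.symm
      · exact absurd rfl hm
    · intro m hm
      have h1 := hle' x m hm
      rw [hwx, dE_w hxy hxz hyz] at h1
      rw [lead_X, hwx] at hx0
      have h2 : dE m (w z) ≠ sm (w z) - sm (w z) + 1 := by
        intro h
        apply hm
        rw [← coeff_hc_eq (D (X x)) h, hx0, coeff_zero]
      rw [dE_w hxy hxz hyz] at h2
      have h3 : ((m x + m y : ℕ) : ℝ) < 1 := by
        refine lt_of_le_of_ne (by linarith) ?_
        intro h
        apply h2
        rw [h]; ring
      have h4 : m x + m y < 1 := by exact_mod_cast h3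
      omega
    · intro m hm
      have h1 := hle' y m hm
      rw [hwy, dE_w hxy hxz hyz] at h1
      have h3 : ((m x + m y : ℕ) : ℝ) ≤ 1 := by linarith
      exact_mod_cast h3
  · have hf : f ≠ 0 := by
      intro hf
      have h1 : ms f = 0 := by simp [ms, hf]
      have h2 : ms g = 0 := by omega
      exact hg (ms_eq_zero h2)
    have hdeg : g.natDegree ≤ f.natDegree := by
      simp only [ms, hf, hg, if_false] at hfg
      omega
    have hglc : g.leadingCoeff ≠ 0 := Polynomial.leadingCoeff_ne_zero.mpr hg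
    have hflc : f.leadingCoeff ≠ 0 := Polynomial.leadingCoeff_ne_zero.mpr hf
    set c : k := f.leadingCoeff / g.leadingCoeff with hc
    have hc0 : c ≠ 0 := div_ne_zero hflc hglc
    set d : ℕ := f.natDegree - g.natDegree with hd
    set q : Polynomial k := Polynomial.C c * Polynomial.X ^ d * g with hq
    have hq0 : q ≠ 0 := by
      rw [hq]
      exact mul_ne_zero (mul_ne_zero (by simpa using hc0) (pow_ne_zero _ Polynomial.X_ne_zero)) hg
    have hqdeg : q.natDegree = f.natDegree := by
      rw [hq, Polynomial.natDegree_mul (mul_ne_zero (by simpa using hc0)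
        (pow_ne_zero _ Polynomial.X_ne_zero)) hg, Polynomial.natDegree_C_mul_X_pow _ _ hc0]
      omega
    have hqlc : q.leadingCoeff = f.leadingCoeff := by
      rw [hq, Polynomial.leadingCoeff_mul, Polynomial.leadingCoeff_mul]
      simp only [Polynomial.leadingCoeff_C, Polynomial.leadingCoeff_X_pow, mul_one]
      rw [hc]; field_simp
    have hlt : ms (f - q) < ms f := by
      refine ms_lt hf (Polynomial.degree_sub_lt_left ?_ hf hqlc.symm)
      rw [Polynomial.degree_eq_natDegree hf, Polynomial.degree_eq_natDegree hq0, hqdeg]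
    -- the elementary move
    set M : Fin 3 →₀ ℕ := Finsupp.single x 1 + Finsupp.single z d with hM
    have hMy : M y = 0 := by simp [hM, hxy, hyz.symm]
    have hMw : dE M (w z) = w z y := by
      rw [dE_w hxy hxz hyz, hMy, hwy]
      simp [hM, hxz.symm]
    set σ : Au k := El y M c hMy with hσ
    have hσs : σ.symm = El y M (-c) hMy := El_symm _ _ _ _
    have hsx : σ.symm (X x) = X x := by rw [hσs, El_apply_ne _ _ _ hxy]
    have hsz : σ.symm (X z) = X z := by rw [hσs, El_apply_ne _ _ _ hyz.symm]
    have hsy : σ.symm (X y) = X y - C c * X z ^ d * X x := by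
      rw [hσs, El_apply_self, monomial_eq, hM]
      rw [Finsupp.prod_add_index' (by simp) (by intros; rw [pow_add]),
        Finsupp.prod_single_index (by simp), Finsupp.prod_single_index (by simp)]
      simp only [map_neg, pow_one]
      ring
    have hsP : ∀ r : Polynomial k, σ.symm (P z r) = P z r := by
      intro r
      have := Polynomial.aeval_algHom_apply σ.symm (X z : Rg k) r
      rw [hsz] at this
      exact this.symm
    have hPq : P z q = C c * X z ^ d * P z g := by
      rw [hq, map_mul, map_mul, map_pow]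
      simp [P, MvPolynomial.algebraMap_eq]
    have he : σ.symm (P z f * X x + P z g * X y) = P z (f - q) * X x + P z g * X y := by
      rw [map_add, map_mul, map_mul, hsP, hsP, hsx, hsy, map_sub, hPq]
      ring
    have hC : ∀ a : k, σ.symm (C a) = C a := fun a => by
      rw [← MvPolynomial.algebraMap_eq]; exact σ.symm.commutes a
    obtain ⟨τ, hτ, hτ'⟩ := ih (conj σ D) (hD.conj σ) x y z hxy hxz hyz
      ⟨c₀, by
        have hσz : σ (X z) = X z := by rw [hσ, El_apply_ne _ _ _ hyz.symm]
        rw [conj_apply, hσz, hc₀, hC]⟩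
      ((Le_conj (Pres_El hMy hMw.le) rfl D _).mpr hle) (f - q) g
      (by
        rw [← he]
        intro h
        apply hne
        have := congrArg σ h
        simpa using this)
      (by
        rw [← he, lead_conj_El_eq hMy hMw hle, conj_apply]
        simp only [← hσ, AlgEquiv.apply_symm_apply]
        rw [h0, map_zero])
      (by omega)
    refine ⟨σ * τ, mul_mem (Subgroup.subset_closure (Or.inl ⟨y, M, c, hMy, rfl⟩)) hτ, ?_⟩
    rw [conj_mul]
    exact hτ'

theorem main (n : ℕ) : ∀ (D : Der k), IsLND D → ∀ (x y z : Fin 3), x ≠ y → x ≠ z → y ≠ z →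
      (∃ c : k, D (X z) = C c) → Le (supp D) (w z) (sm (w z)) → ∀ f g : Polynomial k,
      P z f * X x + P z g * X y ≠ 0 →
      lead (w z) (sm (w z)) D (P z f * X x + P z g * X y) = 0 → ms f + ms g < n →
      ∃ σ ∈ Subgroup.closure (Gen : Set (Au k)), TriD (conj σ D) := by
  induction n with
  | zero => intro D hD x y z _ _ _ _ _ f g _ _ h; omega
  | succ n ih =>
    intro D hD x y z hxy hxz hyz hz hle f g hne h0 hn
    rcases le_total (ms g) (ms f) with hfg | hfg
    · exact step n ih D hD x y z hxy hxz hyz hz hle f g hne h0 (by omega) hfg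
    · exact step n ih D hD y x z hxy.symm hyz hxz hz hle g f (by rwa [add_comm])
        (by rwa [add_comm]) (by omega) hfg

end TR2Aux

open TR2Aux in
theorem TR2 {D : Der k} (hD : IsLND D) {x y z : Fin 3} (hxy : x ≠ y) (hxz : x ≠ z)
    (hyz : y ≠ z) (hz : ∀ m, coeff m (D (X z)) ≠ 0 → m = 0)
    (hx : ∀ m, coeff m (D (X x)) ≠ 0 → m x + m y ≤ 1)
    (hy : ∀ m, coeff m (D (X y)) ≠ 0 → m x + m y ≤ 1) :
    ∃ σ ∈ Subgroup.closure (Gen : Set (Au k)), TriD (conj σ D) := by
  have hwx : w z x = 1 := by simp [w, hxz]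
  have hwy : w z y = 1 := by simp [w, hyz]
  have hwz : w z z = 0 := by simp [w]
  have hle : Le (supp D) (w z) (sm (w z)) := by
    rw [Le_supp_iff]
    intro j m hm
    rw [dE_w hxy hxz hyz, sub_self, zero_add]
    rcases eq_of_ne hxy hxz hyz j with rfl | rfl | rfl
    · rw [hwx]; exact_mod_cast hx m hm
    · rw [hwy]; exact_mod_cast hy m hm
    · rw [hwz, hz m hm]; simp
  have hL : IsLND (lead (w z) (sm (w z)) D) := hD.lead hle
  have hhom : ∀ n : ℕ, Hg (w z) 1 ((⇑(lead (w z) (sm (w z)) D))^[n] (X x)) := by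
    intro n
    induction n with
    | zero => have := Hg_X (k := k) (w z) x; rwa [hwx] at this
    | succ n ih =>
      rw [Function.iterate_succ_apply']
      have := Hg.der (D := lead (w z) (sm (w z)) D) (s := sm (w z))
        (fun P hP => (mem_supp_lead.mp hP).2) ih
      rwa [sub_self, add_zero] at this
  obtain ⟨h1, h2⟩ := top_iterate hL (X_ne_zero x : (X x : Rg k) ≠ 0)
  obtain ⟨f, g, hfg⟩ := exists_fg hxy hxz hyz (hhom (ld _ hL (X x)))
  rw [hfg] at h1 h2
  refine main _ D hD x y z hxy hxz hyz ⟨coeff 0 (D (X z)), ?_⟩ hle f g h1 h2 (Nat.lt_succ_self _)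
  ext m
  rw [coeff_C]
  split_ifs with h
  · rw [h]
  · by_contra hne
    exact h (hz m hne).symm

end Pool.Agent.TL
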