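import Pool.Agent.TL.TR1
import Pool.Agent.TL.TR2
import Pool.Agent.TL.TR0
import Pool.Agent.TL.LJ

set_option autoImplicit false

/-! # TR3: theorem B

Proof. Let `α a ≤ α b ≤ α c` (sort), `α c > 0`. `D x_j` has weight `≤ α j` (`Le_supp_iff` with `s = sm α`).
* `α b < α c`: monomials of weight `≤ α b` do not involve `x_c`, those of weight `≤ α c` at most linearly: `TR1` with
  `x := c`.
* `α a < α b = α c`: `D x_a ∈ k[x_a]`, so constant (`one_var`); monomials `m` of weight `≤ α b` have
  `m b + m c ≤ 1`: `TR2` with `z := a`, `x := b`, `y := c`.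
* `α a = α b = α c > 0`: all `D x_j` are affine: `TR0`. -/

namespace Pool.Agent.TL

open MvPolynomial

variable {k : Type} [Field k] [CharZero k]

/-- sums over three distinct indices -/
theorem TR3_sum {a b c : Fin 3} (hab : a ≠ b) (hac : a ≠ c) (hbc : b ≠ c) (f : Fin 3 → ℝ) :
    ∑ i, f i = f a + f b + f c := by
  rw [Fin.sum_univ_three]
  fin_cases a <;> fin_cases b <;> fin_cases c <;> simp_all <;> ring

/-- three distinct indices are all indices -/
theorem TR3_all {a b c : Fin 3} (hab : a ≠ b) (hac : a ≠ c) (hbc : b ≠ c) (j : Fin 3) :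
    j = a ∨ j = b ∨ j = c := by
  fin_cases a <;> fin_cases b <;> fin_cases c <;> fin_cases j <;> simp_all

/-- sorting three numbers -/
theorem TR3_sort (α : Wt) : ∃ a b c : Fin 3, a ≠ b ∧ a ≠ c ∧ b ≠ c ∧ α a ≤ α b ∧ α b ≤ α c := by
  rcases le_total (α 0) (α 1) with h1 | h1 <;> rcases le_total (α 1) (α 2) with h2 | h2 <;>
    rcases le_total (α 0) (α 2) with h3 | h3
  · exact ⟨0, 1, 2, by decide, by decide, by decide, h1, h2⟩
  · exact ⟨0, 1, 2, by decide, by decide, by decide, h1, h2⟩
  · exact ⟨0, 2, 1, by decide, by decide, by decide, h3, h2⟩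
  · exact ⟨2, 0, 1, by decide, by decide, by decide, h3, h1⟩
  · exact ⟨1, 0, 2, by decide, by decide, by decide, h1, h3⟩
  · exact ⟨1, 2, 0, by decide, by decide, by decide, h2, h3⟩
  · exact ⟨2, 1, 0, by decide, by decide, by decide, h2, h1⟩
  · exact ⟨2, 1, 0, by decide, by decide, by decide, h2, h1⟩

theorem mainB {D : Der k} (hD : IsLND D) {α : Wt} (hα : α ∈ stdSimplex ℝ (Fin 3))
    (h : Le (supp D) α (sm α)) :
    ∃ σ ∈ Subgroup.closure (Gen : Set (Au k)), TriD (conj σ D) := by
  obtain ⟨hα0, hα1⟩ := hα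
  obtain ⟨a, b, c, hab, hac, hbc, h1, h2⟩ := TR3_sort α
  have hs : α a + α b + α c = 1 := by rw [← TR3_sum hab hac hbc]; exact hα1
  have hle : ∀ j, ∀ m, coeff m (D (X j)) ≠ 0 →
      (m a : ℝ) * α a + (m b : ℝ) * α b + (m c : ℝ) * α c ≤ α j := by
    intro j m hm
    have h3 := Le_supp_iff.1 h j m hm
    rw [sub_self, zero_add] at h3
    unfold dE at h3
    rw [TR3_sum hab hac hbc] at h3
    exact h3
  have ha0 := hα0 a
  have hb0 := hα0 b
  have hc0 : 0 < α c := by linarith
  have hm0 : ∀ (m : Fin 3 →₀ ℕ) (i : Fin 3), 0 ≤ (m i : ℝ) * α i := fun m i =>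
    mul_nonneg (Nat.cast_nonneg _) (hα0 i)
  rcases h2.lt_or_eq with h3 | h3
  · -- the largest weight is isolated
    refine TR1 hD (x := c) (y := a) (z := b) hac.symm hbc.symm hab ?_ ?_
    · intro j hj m hm
      by_contra h4
      have h5 : (1 : ℝ) ≤ (m c : ℝ) := by exact_mod_cast Nat.one_le_iff_ne_zero.2 h4
      have h6 : α j ≤ α b := by
        rcases TR3_all hab hac hbc j with rfl | rfl | rfl
        · exact h1
        · exact le_rfl
        · exact absurd rfl hj
      have h7 := hle j m hm
      have h8 := hm0 m a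
      have h9 := hm0 m b
      nlinarith
    · intro m hm
      by_contra h4
      have h5 : (2 : ℝ) ≤ (m c : ℝ) := by
        have : 2 ≤ m c := by omega
        exact_mod_cast this
      have h7 := hle c m hm
      have h8 := hm0 m a
      have h9 := hm0 m b
      nlinarith
  · rcases h1.lt_or_eq with h4 | h4
    · -- the smallest weight is isolated
      have h5 : ∀ j, α j ≤ α c → ∀ m, coeff m (D (X j)) ≠ 0 → m b + m c ≤ 1 := by
        intro j hj m hm
        by_contra h6
        have h7 : (2 : ℝ) ≤ (m b : ℝ) + (m c : ℝ) := by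
          have : 2 ≤ m b + m c := by omega
          exact_mod_cast this
        have h8 := hle j m hm
        have h9 := hm0 m a
        rw [h3] at h8
        nlinarith
      refine TR2 hD (x := b) (y := c) (z := a) hbc hab.symm hac.symm ?_ (h5 b h3.le)
        (h5 c le_rfl)
      obtain ⟨c0, hc0'⟩ := one_var hD (z := a) (by
        intro m hm j hj
        by_contra h6
        have h7 : (1 : ℝ) ≤ (m j : ℝ) := by exact_mod_cast Nat.one_le_iff_ne_zero.2 h6
        have h8 := hle a m hm
        have h9 := hm0 m a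
        have h10 := hm0 m b
        have h11 := hm0 m c
        rcases TR3_all hab hac hbc j with rfl | rfl | rfl
        · exact hj rfl
        · nlinarith
        · nlinarith)
      intro m hm
      rw [hc0', coeff_C] at hm
      by_contra h6
      rw [if_neg (fun h => h6 h.symm)] at hm
      exact hm rfl
    · -- all weights are equal
      refine TR0 hD ?_
      intro j m hm
      by_contra h6
      have h7 : (2 : ℝ) ≤ (m 0 : ℝ) + (m 1 : ℝ) + (m 2 : ℝ) := by
        have : 2 ≤ m 0 + m 1 + m 2 := by omega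
        exact_mod_cast this
      have h8 := hle j m hm
      have h9 : (m a : ℝ) + (m b : ℝ) + (m c : ℝ) = (m 0 : ℝ) + (m 1 : ℝ) + (m 2 : ℝ) := by
        rw [← TR3_sum hab hac hbc (fun i => (m i : ℝ)), Fin.sum_univ_three]
      have h10 : α j = α c := by
        rcases TR3_all hab hac hbc j with rfl | rfl | rfl
        · exact h4.trans h3
        · exact h3
        · rfl
      rw [h4, h3, h10] at h8
      nlinarith

end Pool.Agent.TL
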