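import Pool.Agent.TL.MN
import Pool.Agent.TL.TR3

set_option autoImplicit false

/-! # FN: the final theorem -/

namespace Pool.Agent.TL

open MvPolynomial

theorem final (k : Type) [Field k] [CharZero k] (φ : Au k) (hφ : ∃ D : Der k, IsExp D φ)
    (ht : φ ∈ Subgroup.closure (Fz k)) :
    ∃ σ ∈ Subgroup.closure (Fz k), ∀ i : Fin 3, ((σ * φ * σ⁻¹) (X i)).vars ⊆ Finset.Iic i := by
  obtain ⟨D, hD⟩ := hφ
  obtain ⟨σ, hσ, α, hα, hle⟩ := mainA hD (le_Gen ht)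
  have hD' := hD.conj σ
  obtain ⟨τ, hτ, hT⟩ := mainB hD'.lnd hα hle
  have hD'' := hD'.conj τ
  refine ⟨(σ * τ)⁻¹, inv_mem (Gen_le (mul_mem hσ hτ)), fun i => ?_⟩
  have := hD''.tri hT i
  have e : (σ * τ)⁻¹ * φ * ((σ * τ)⁻¹)⁻¹ = τ⁻¹ * (σ⁻¹ * φ * σ) * τ := by group
  rw [e]; exact this

end Pool.Agent.TL
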