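import Pool.Agent.TL.BC

set_option autoImplicit false

/-! # LN: locally nilpotent derivations in characteristic zero (exponential map, degree function)

`ex D f = ∑ C (D^n f / n!) T^n` is a ring homomorphism `R → R[T]`; `ld D f` is its degree. -/

namespace Pool.Agent.TL

open MvPolynomial

variable {k : Type} [Field k] [CharZero k]

namespace LNAux

omit [CharZero k] in
theorem iter_zero_of_le {D : Der k} {f : Rg k} {n m : ℕ} (h : (⇑D)^[n] f = 0) (hnm : n ≤ m) :
    (⇑D)^[m] f = 0 := by
  obtain ⟨r, rfl⟩ := Nat.exists_eq_add_of_le hnm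
  rw [add_comm, Function.iterate_add_apply, h]
  induction r with
  | zero => rfl
  | succ r ih => rw [Function.iterate_succ_apply, map_zero]; exact ih (by omega)

omit [CharZero k] in
theorem iter_add (D : Der k) (f g : Rg k) (n : ℕ) :
    (⇑D)^[n] (f + g) = (⇑D)^[n] f + (⇑D)^[n] g := by
  induction n with
  | zero => rfl
  | succ n ih => rw [Function.iterate_succ_apply', ih, map_add, ← Function.iterate_succ_apply' D,
      ← Function.iterate_succ_apply' D]

/-- divided iterates -/
noncomputable def exC (D : Der k) (n : ℕ) (f : Rg k) : Rg k :=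
  ((n.factorial : k)⁻¹) • (⇑D)^[n] f

theorem exC_succ (D : Der k) (n : ℕ) (f : Rg k) :
    ((n + 1 : ℕ) : k) • exC D (n + 1) f = D (exC D n f) := by
  unfold exC
  rw [Derivation.map_smul, ← Function.iterate_succ_apply' D, smul_smul, Nat.factorial_succ,
    Nat.cast_mul, mul_inv, ← mul_assoc, mul_inv_cancel₀ (Nat.cast_ne_zero.2 (Nat.succ_ne_zero n)),
    one_mul]

theorem exC_mul (D : Der k) (n : ℕ) (f g : Rg k) :
    exC D n (f * g) = ∑ x ∈ Finset.HasAntidiagonal.antidiagonal n, exC D x.1 f * exC D x.2 g := by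
  induction n with
  | zero => simp [exC]
  | succ n ih =>
    have hn : ((n + 1 : ℕ) : k) ≠ 0 := Nat.cast_ne_zero.2 (Nat.succ_ne_zero n)
    have h1 : ((n + 1 : ℕ) : k) • exC D (n + 1) (f * g) =
        ((n + 1 : ℕ) : k) • ∑ x ∈ Finset.HasAntidiagonal.antidiagonal (n + 1), exC D x.1 f * exC D x.2 g := by
      rw [exC_succ, ih, map_sum]
      have h2 : ∀ x ∈ Finset.HasAntidiagonal.antidiagonal n, D (exC D x.1 f * exC D x.2 g) =
          exC D x.1 f * (((x.2 + 1 : ℕ) : k) • exC D (x.2 + 1) g) +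
          (((x.1 + 1 : ℕ) : k) • exC D (x.1 + 1) f) * exC D x.2 g := by
        intro x _
        rw [Derivation.leibniz, exC_succ, exC_succ, smul_eq_mul, smul_eq_mul,
          mul_comm (exC D x.2 g)]
      rw [Finset.sum_congr rfl h2, Finset.sum_add_distrib]
      have h3 : ((n + 1 : ℕ) : k) • ∑ x ∈ Finset.HasAntidiagonal.antidiagonal (n + 1), exC D x.1 f * exC D x.2 g =
          ∑ x ∈ Finset.HasAntidiagonal.antidiagonal (n + 1), exC D x.1 f * ((x.2 : k) • exC D x.2 g) +
          ∑ x ∈ Finset.HasAntidiagonal.antidiagonal (n + 1), ((x.1 : k) • exC D x.1 f) * exC D x.2 g := by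
        rw [← Finset.sum_add_distrib, Finset.smul_sum]
        refine Finset.sum_congr rfl fun x hx => ?_
        rw [Finset.HasAntidiagonal.mem_antidiagonal] at hx
        rw [← hx, mul_smul_comm, smul_mul_assoc, ← add_smul, Nat.cast_add, add_comm (x.2 : k)]
      rw [h3, Finset.Nat.sum_antidiagonal_succ', Finset.Nat.sum_antidiagonal_succ]
      simp
    exact smul_right_injective _ hn h1

end LNAux

open LNAux in
/-- the exponential homomorphism `f ↦ ∑ (D^n f / n!) T^n` -/
theorem exists_ex (D : Der k) (hD : IsLND D) : ∃ e : Rg k →ₐ[k] Polynomial (Rg k),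
    ∀ f n, (e f).coeff n = ((n.factorial : k)⁻¹) • (⇑D)^[n] f := by
  classical
  let e : Rg k → Polynomial (Rg k) := fun f =>
    ∑ n ∈ Finset.range (Nat.find (hD f)), Polynomial.monomial n (exC D n f)
  have he : ∀ f n, (e f).coeff n = exC D n f := by
    intro f n
    show (∑ n ∈ Finset.range (Nat.find (hD f)), Polynomial.monomial n (exC D n f)).coeff n = _
    rw [Polynomial.finsetSum_coeff]
    simp only [Polynomial.coeff_monomial]
    rw [Finset.sum_ite_eq']
    split_ifs with h
    · rfl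
    · unfold exC
      rw [Finset.mem_range] at h
      rw [iter_zero_of_le (Nat.find_spec (hD f)) (not_lt.1 h), smul_zero]
  have hcst : ∀ (c : k) (n : ℕ), exC D n (algebraMap k (Rg k) c) =
      if n = 0 then algebraMap k (Rg k) c else 0 := by
    intro c n
    unfold exC
    cases n with
    | zero => simp
    | succ n =>
      have h1 : (⇑D)^[1] (algebraMap k (Rg k) c) = 0 := by
        rw [Function.iterate_one, Derivation.map_algebraMap]
      rw [iter_zero_of_le h1 (by omega), smul_zero, if_neg (Nat.succ_ne_zero n)]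
  have hcomm : ∀ c : k, e (algebraMap k (Rg k) c) = algebraMap k (Polynomial (Rg k)) c := by
    intro c
    ext1 n
    rw [he, hcst]
    have h1 : algebraMap k (Polynomial (Rg k)) c = Polynomial.C (algebraMap k (Rg k) c) := rfl
    rw [h1, Polynomial.coeff_C]
  have hmul : ∀ f g, e (f * g) = e f * e g := by
    intro f g
    ext1 n
    rw [he, Polynomial.coeff_mul, exC_mul]
    refine Finset.sum_congr rfl fun x _ => ?_
    rw [he, he]
  have hadd : ∀ f g, e (f + g) = e f + e g := by
    intro f g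
    ext1 n
    rw [he, Polynomial.coeff_add, he, he]
    unfold exC
    rw [iter_add, smul_add]
  refine ⟨{ toFun := e, map_one' := ?_, map_mul' := hmul, map_zero' := ?_, map_add' := hadd,
            commutes' := hcomm }, he⟩
  · have h1 := hcomm 1
    rwa [map_one, map_one] at h1
  · have h1 := hcomm 0
    rwa [map_zero, map_zero] at h1

/-- the exponential homomorphism -/
noncomputable def ex (D : Der k) (hD : IsLND D) : Rg k →ₐ[k] Polynomial (Rg k) :=
  (exists_ex D hD).choose

theorem ex_coeff (D : Der k) (hD : IsLND D) (f : Rg k) (n : ℕ) :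
    (ex D hD f).coeff n = ((n.factorial : k)⁻¹) • (⇑D)^[n] f :=
  (exists_ex D hD).choose_spec f n

/-- degree with respect to `D` (`0` for `f = 0`) -/
noncomputable def ld (D : Der k) (hD : IsLND D) (f : Rg k) : ℕ := (ex D hD f).natDegree

theorem ex_injective (D : Der k) (hD : IsLND D) : Function.Injective (ex D hD) := by
  intro f g h
  have h1 := ex_coeff D hD f 0
  have h2 := ex_coeff D hD g 0
  rw [h] at h1
  rw [h1] at h2
  simpa using h2

theorem LNAux.coeff_eq_zero {D : Der k} (hD : IsLND D) (f : Rg k) (n : ℕ) :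
    (ex D hD f).coeff n = 0 ↔ (⇑D)^[n] f = 0 := by
  rw [ex_coeff, smul_eq_zero]
  constructor
  · rintro (h | h)
    · exact absurd h (inv_ne_zero (Nat.cast_ne_zero.2 n.factorial_ne_zero))
    · exact h
  · exact Or.inr

theorem LNAux.ex_ne_zero {D : Der k} (hD : IsLND D) {f : Rg k} (hf : f ≠ 0) :
    ex D hD f ≠ 0 := by
  intro h
  exact hf (ex_injective D hD (h.trans (map_zero _).symm))

theorem ld_mul {D : Der k} (hD : IsLND D) {f g : Rg k} (hf : f ≠ 0) (hg : g ≠ 0) :
    ld D hD (f * g) = ld D hD f + ld D hD g := by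
  unfold ld
  rw [map_mul, Polynomial.natDegree_mul (LNAux.ex_ne_zero hD hf) (LNAux.ex_ne_zero hD hg)]

theorem iterate_eq_zero_of_lt {D : Der k} (hD : IsLND D) {f : Rg k} {n : ℕ}
    (h : ld D hD f < n) : (⇑D)^[n] f = 0 :=
  (LNAux.coeff_eq_zero hD f n).1 (Polynomial.coeff_eq_zero_of_natDegree_lt h)

theorem LNAux.ld_lt {D : Der k} (hD : IsLND D) {f : Rg k} {n : ℕ} (hn : 0 < n)
    (h : (⇑D)^[n] f = 0) : ld D hD f < n := by
  unfold ld
  have h1 : (ex D hD f).natDegree ≤ n - 1 := by
    rw [Polynomial.natDegree_le_iff_coeff_eq_zero]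
    intro m hm
    exact (LNAux.coeff_eq_zero hD f m).2 (LNAux.iter_zero_of_le h (by omega))
  omega

theorem ld_eq_zero_iff {D : Der k} (hD : IsLND D) (f : Rg k) : ld D hD f = 0 ↔ D f = 0 := by
  constructor
  · intro h
    exact iterate_eq_zero_of_lt hD (n := 1) (by rw [h]; exact one_pos)
  · intro h
    have h1 := LNAux.ld_lt hD (f := f) (n := 1) one_pos h
    omega

/-- the top iterate is a nonzero element of the kernel -/
theorem top_iterate {D : Der k} (hD : IsLND D) {f : Rg k} (hf : f ≠ 0) :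
    (⇑D)^[ld D hD f] f ≠ 0 ∧ D ((⇑D)^[ld D hD f] f) = 0 := by
  constructor
  · intro h
    have h1 := (LNAux.coeff_eq_zero hD f _).2 h
    exact LNAux.ex_ne_zero hD hf (Polynomial.leadingCoeff_eq_zero.1 h1)
  · rw [← Function.iterate_succ_apply' D]
    exact iterate_eq_zero_of_lt hD (Nat.lt_succ_self _)

theorem ld_D {D : Der k} (hD : IsLND D) {f : Rg k} (h : D f ≠ 0) :
    ld D hD (D f) + 1 = ld D hD f := by
  have hf : f ≠ 0 := by
    rintro rfl
    exact h (map_zero _)
  have h0 : ld D hD f ≠ 0 := fun h' => h ((ld_eq_zero_iff hD f).1 h')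
  apply le_antisymm
  · by_contra h1
    have h2 := iterate_eq_zero_of_lt hD (not_le.1 h1)
    exact (top_iterate hD h).1 h2
  · by_contra h1
    have h2 : ld D hD (D f) < ld D hD f - 1 := by omega
    have h3 := iterate_eq_zero_of_lt hD h2
    rw [← Function.iterate_succ_apply D] at h3
    have h4 : (ld D hD f - 1).succ = ld D hD f := by omega
    rw [h4] at h3
    exact (top_iterate hD hf).1 h3

/-- the kernel is factorially closed -/
theorem ker_factor {D : Der k} (hD : IsLND D) {f g : Rg k} (h : D (f * g) = 0)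
    (hne : f * g ≠ 0) : D f = 0 ∧ D g = 0 := by
  have hf : f ≠ 0 := left_ne_zero_of_mul hne
  have hg : g ≠ 0 := right_ne_zero_of_mul hne
  have h1 := (ld_eq_zero_iff hD (f * g)).2 h
  rw [ld_mul hD hf hg] at h1
  exact ⟨(ld_eq_zero_iff hD f).1 (by omega), (ld_eq_zero_iff hD g).1 (by omega)⟩

theorem ker_of_dvd {D : Der k} (hD : IsLND D) {f g : Rg k} (h : D g = 0) (hg : g ≠ 0)
    (hfg : f ∣ g) : D f = 0 := by
  obtain ⟨c, rfl⟩ := hfg
  exact (ker_factor hD h hg).1

theorem ker_of_pow {D : Der k} (hD : IsLND D) {f : Rg k} {n : ℕ} (hn : n ≠ 0)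
    (h : D (f ^ n) = 0) : D f = 0 := by
  by_cases hf : f = 0
  · rw [hf, map_zero]
  · exact ker_of_dvd hD h (pow_ne_zero n hf) (dvd_pow_self f hn)

theorem D_eq_zero_of_dvd {D : Der k} (hD : IsLND D) {f : Rg k} (h : f ∣ D f) : D f = 0 := by
  by_contra hne
  obtain ⟨c, hc⟩ := h
  have hf : f ≠ 0 := by
    rintro rfl
    exact hne (map_zero _)
  have hc0 : c ≠ 0 := by
    rintro rfl
    exact hne (by rw [hc, mul_zero])
  have h1 := ld_D hD hne
  rw [hc, ld_mul hD hf hc0] at h1
  omega

theorem ld_le_of_dvd {D : Der k} (hD : IsLND D) {f g : Rg k} (hg : g ≠ 0) (h : f ∣ g) :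
    ld D hD f ≤ ld D hD g := by
  obtain ⟨c, rfl⟩ := h
  rw [ld_mul hD (left_ne_zero_of_mul hg) (right_ne_zero_of_mul hg)]
  exact Nat.le_add_right _ _

/-- `D x_i ≠ 0` iff some shifted exponent vanishes at `i` -/
theorem DX_ne_zero_iff {D : Der k} (hD : IsLND D) (i : Fin 3) :
    D (X i) ≠ 0 ↔ ∃ P ∈ supp D, P i = 0 := by
  constructor
  · intro h
    by_contra hcon
    push Not at hcon
    exact h (D_eq_zero_of_dvd hD (X_dvd hcon))
  · rintro ⟨P, hP, hi⟩ h
    obtain ⟨m, hm, -⟩ := supp_zero hP hi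
    rw [h, coeff_zero] at hm
    exact hm rfl

/-- `D x_j = 0` for all `j ≠ i` iff all shifted exponents vanish at `i` -/
theorem all_zero_iff {D : Der k} (hD : IsLND D) (i : Fin 3) :
    (∀ j, j ≠ i → D (X j) = 0) ↔ ∀ P ∈ supp D, P i = 0 := by
  constructor
  · intro h P hP
    obtain ⟨j, m, hm, rfl⟩ := mem_supp.1 hP
    have hj : j = i := by
      by_contra hj
      rw [h j hj, coeff_zero] at hm
      exact hm rfl
    subst hj
    have h1 : D = D (X j) • pderiv j := by
      apply MvPolynomial.derivation_ext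
      intro l
      rw [Derivation.smul_apply, smul_eq_mul]
      by_cases hl : l = j
      · subst hl
        rw [pderiv_X_self, mul_one]
      · rw [pderiv_X_of_ne hl, mul_zero, h l hl]
    have h2 : D (D (X j)) = D (X j) * pderiv j (D (X j)) :=
      congrArg (fun E : Der k => E (D (X j))) h1
    have h3 : D (D (X j)) = 0 := D_eq_zero_of_dvd hD ⟨_, h2⟩
    have hne : D (X j) ≠ 0 := by
      intro h4
      rw [h4, coeff_zero] at hm
      exact hm rfl
    rw [h2] at h3
    have h4 := (mul_eq_zero.1 h3).resolve_left hne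
    show sh j m j = 0
    unfold sh
    rw [if_pos rfl]
    by_contra hmj
    have h5 : m - Finsupp.single j 1 + Finsupp.single j 1 = m := by
      apply tsub_add_cancel_of_le
      rw [Finsupp.single_le_iff]
      exact Nat.one_le_iff_ne_zero.2 hmj
    have h6 := coeff_pderiv (i := j) (D (X j)) (m - Finsupp.single j 1)
    rw [h4, h5, coeff_zero] at h6
    have h7 : (((m - Finsupp.single j 1 : Fin 3 →₀ ℕ) j : k) + 1) ≠ 0 := Nat.cast_add_one_ne_zero _
    exact (mul_ne_zero hm h7) h6.symm
  · intro h j hj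
    by_contra hne
    obtain ⟨P, hP, hPj⟩ := (DX_ne_zero_iff hD j).1 hne
    exact hj (supp_zero_unique hP hPj (h P hP))

end Pool.Agent.TL
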