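import Pool.Agent.TL.BC

set_option autoImplicit false

/-! # TH: the min-max value -/

namespace Pool.Agent.TL

theorem TH_sm_one {α : Wt} (h : α ∈ stdSimplex ℝ (Fin 3)) : sm α = 1 := h.2

theorem TH_cont (P : Fin 3 → ℕ) : Continuous (fun α : Wt => dt P α) := by
  unfold dt
  fun_prop

theorem TH_eq {S : Finset (Fin 3 → ℕ)} (hS : S.Nonempty) :
    ∃ α ∈ stdSimplex ℝ (Fin 3),
      (∀ β ∈ stdSimplex ℝ (Fin 3), S.sup' hS (fun P => dt P α) ≤ S.sup' hS (fun P => dt P β)) ∧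
      Th S = S.sup' hS (fun P => dt P α) := by
  have hcont : Continuous (fun α : Wt => S.sup' hS (fun P => dt P α)) :=
    Continuous.finset_sup'_apply hS fun P _ => TH_cont P
  obtain ⟨α, hα, hmin⟩ := (isCompact_stdSimplex ℝ (Fin 3)).exists_isMinOn
    ⟨_, single_mem_stdSimplex ℝ (0 : Fin 3)⟩ hcont.continuousOn
  refine ⟨α, hα, fun β hβ => hmin hβ, ?_⟩
  have hset : {t | ∃ α ∈ stdSimplex ℝ (Fin 3), Le S α t} =
      Set.Ici (S.sup' hS (fun P => dt P α)) := by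
    ext t
    constructor
    · rintro ⟨β, hβ, hle⟩
      exact (hmin hβ).trans ((Finset.sup'_le_iff hS _).2 hle)
    · intro ht
      exact ⟨α, hα, fun P hP => (Finset.le_sup' (fun P => dt P α) hP).trans ht⟩
  unfold Th
  rw [hset, csInf_Ici]

theorem Th_attained (S : Finset (Fin 3 → ℕ)) : ∃ α ∈ stdSimplex ℝ (Fin 3), Le S α (Th S) := by
  rcases S.eq_empty_or_nonempty with rfl | hS
  · exact ⟨_, single_mem_stdSimplex ℝ (0 : Fin 3), fun P hP => absurd hP (Finset.notMem_empty P)⟩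
  · obtain ⟨α, hα, _, h⟩ := TH_eq hS
    refine ⟨α, hα, fun P hP => ?_⟩
    rw [h]
    exact Finset.le_sup' (fun P => dt P α) hP

theorem Th_le {S : Finset (Fin 3 → ℕ)} (hS : S.Nonempty) {α : Wt}
    (hα : α ∈ stdSimplex ℝ (Fin 3)) {t : ℝ} (h : Le S α t) : Th S ≤ t := by
  obtain ⟨α₀, _, hmin, h0⟩ := TH_eq hS
  rw [h0]
  exact (hmin α hα).trans ((Finset.sup'_le_iff hS _).2 h)

theorem TH_dt_smul (P : Fin 3 → ℕ) (α : Wt) (r : ℝ) : dt P (fun j => r * α j) = r * dt P α := by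
  unfold dt
  rw [Finset.mul_sum]
  exact Finset.sum_congr rfl fun i _ => by ring

theorem TH_sm_smul (α : Wt) (r : ℝ) : sm (fun j => r * α j) = r * sm α := by
  unfold sm
  rw [Finset.mul_sum]

theorem TH_dt_nonneg (P : Fin 3 → ℕ) {α : Wt} (h : ∀ i, 0 ≤ α i) : 0 ≤ dt P α :=
  Finset.sum_nonneg fun i _ => mul_nonneg (Nat.cast_nonneg _) (h i)

theorem TH_sm_nonneg {α : Wt} (h : ∀ i, 0 ≤ α i) : 0 ≤ sm α :=
  Finset.sum_nonneg fun i _ => h i

theorem Th_lt_iff {S : Finset (Fin 3 → ℕ)} (hS : S.Nonempty) {θ : ℝ} :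
    Th S < θ ↔ Op S θ := by
  constructor
  · intro h
    obtain ⟨α, hα, hle⟩ := Th_attained S
    refine ⟨α, hα.1, fun P hP => ?_⟩
    rw [TH_sm_one hα, mul_one]
    exact (hle P hP).trans_lt h
  · rintro ⟨α, h0, hlt⟩
    have hsm : 0 < sm α := by
      rcases (TH_sm_nonneg h0).lt_or_eq with h | h
      · exact h
      · exfalso
        obtain ⟨P, hP⟩ := hS
        have h1 := hlt P hP
        rw [← h, mul_zero] at h1
        exact absurd h1 (not_lt.2 (TH_dt_nonneg P h0))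
    have hβ : (fun j => (sm α)⁻¹ * α j) ∈ stdSimplex ℝ (Fin 3) := by
      refine ⟨fun i => mul_nonneg (inv_nonneg.2 hsm.le) (h0 i), ?_⟩
      have := TH_sm_smul α (sm α)⁻¹
      rw [inv_mul_cancel₀ hsm.ne'] at this
      exact this
    obtain ⟨α₀, _, hmin, h0'⟩ := TH_eq hS
    rw [h0']
    refine (hmin _ hβ).trans_lt ((Finset.sup'_lt_iff hS).2 fun P hP => ?_)
    rw [TH_dt_smul, inv_mul_lt_iff₀ hsm, mul_comm]
    exact hlt P hP

theorem Th_nonneg {S : Finset (Fin 3 → ℕ)} (hS : S.Nonempty) : 0 ≤ Th S := by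
  obtain ⟨α, hα, hle⟩ := Th_attained S
  obtain ⟨P, hP⟩ := hS
  exact (TH_dt_nonneg P hα.1).trans (hle P hP)

theorem Op.mono {S : Finset (Fin 3 → ℕ)} {θ θ' : ℝ} (h : Op S θ) (hθ : θ ≤ θ') : Op S θ' := by
  obtain ⟨α, h0, hlt⟩ := h
  exact ⟨α, h0, fun P hP => (hlt P hP).trans_le
    (mul_le_mul_of_nonneg_right hθ (TH_sm_nonneg h0))⟩

/-- monotonicity under domination -/
theorem Th_mono {S T : Finset (Fin 3 → ℕ)} (hS : S.Nonempty)
    (h : ∀ P ∈ S, ∃ Q ∈ T, ∀ i, P i ≤ Q i) : Th S ≤ Th T := by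
  obtain ⟨α, hα, hle⟩ := Th_attained T
  refine Th_le hS hα fun P hP => ?_
  obtain ⟨Q, hQ, hPQ⟩ := h P hP
  refine le_trans ?_ (hle Q hQ)
  exact Finset.sum_le_sum fun i _ =>
    mul_le_mul_of_nonneg_right (by exact_mod_cast hPQ i) (hα.1 i)

/-- openness can be tested on a face (move from `α` a little in the direction of the witness) -/
theorem Op_face {S : Finset (Fin 3 → ℕ)} {α : Wt} (h0 : ∀ i, 0 ≤ α i) {θ : ℝ}
    (hS : Le S α (θ * sm α)) : Op S θ ↔ Op (S.filter (fun P => dt P α = θ * sm α)) θ := by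
  constructor
  · rintro ⟨β, hβ, hlt⟩
    exact ⟨β, hβ, fun P hP => hlt P (Finset.mem_filter.1 hP).1⟩
  · rintro ⟨β, hβ, hlt⟩
    have key : ∀ P ∈ S, ∀ᶠ T : ℝ in Filter.atTop,
        T * dt P α + 1 * dt P β < θ * (T * sm α + 1 * sm β) := by
      intro P hP
      rcases (hS P hP).lt_or_eq with h | h
      · have h1 : Filter.Tendsto (fun T : ℝ => T * (θ * sm α - dt P α)) Filter.atTop
            Filter.atTop := Filter.Tendsto.atTop_mul_const (sub_pos.2 h) Filter.tendsto_id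
        filter_upwards [h1.eventually_gt_atTop (dt P β - θ * sm β)] with T hT
        nlinarith [hT]
      · refine Filter.Eventually.of_forall fun T => ?_
        have h2 := hlt P (Finset.mem_filter.2 ⟨hP, h⟩)
        rw [h]
        nlinarith [h2]
    obtain ⟨T, hT, hT0⟩ := (((Filter.eventually_all_finset S).2 key).and
      (Filter.eventually_ge_atTop (0 : ℝ))).exists
    refine ⟨fun j => T * α j + 1 * β j, fun i => ?_, fun P hP => ?_⟩
    · have := h0 i; have := hβ i; positivity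
    · rw [dt_lin, sm_lin]
      exact hT P hP

theorem TH_dt_perm (P : Fin 3 → ℕ) (π : Equiv.Perm (Fin 3)) (α : Wt) :
    dt (fun j => P (π j)) (fun j => α (π j)) = dt P α := by
  unfold dt
  exact Equiv.sum_comp π (fun i => (P i : ℝ) * α i)

theorem TH_sm_perm (π : Equiv.Perm (Fin 3)) (α : Wt) : sm (fun j => α (π j)) = sm α := by
  unfold sm
  exact Equiv.sum_comp π α

theorem TH_perm_symm {S T : Finset (Fin 3 → ℕ)} (π : Equiv.Perm (Fin 3))
    (h : ∀ P, P ∈ T ↔ (fun j => P (π j)) ∈ S) : ∀ P, P ∈ S ↔ (fun j => P (π.symm j)) ∈ T := by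
  intro P
  rw [h]
  simp only [Equiv.symm_apply_apply]

theorem TH_Op_perm {S T : Finset (Fin 3 → ℕ)} (π : Equiv.Perm (Fin 3))
    (h : ∀ P, P ∈ T ↔ (fun j => P (π j)) ∈ S) {θ : ℝ} (hO : Op T θ) : Op S θ := by
  obtain ⟨β, hβ, hlt⟩ := hO
  refine ⟨fun j => β (π j), fun i => hβ _, fun P hP => ?_⟩
  have h1 := hlt _ ((TH_perm_symm π h P).1 hP)
  rw [TH_sm_perm]
  rw [← TH_dt_perm _ π] at h1
  simpa only [Equiv.symm_apply_apply] using h1

/-- openness only depends on the support up to permutation -/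
theorem Op_perm {S T : Finset (Fin 3 → ℕ)} (π : Equiv.Perm (Fin 3))
    (h : ∀ P, P ∈ T ↔ (fun j => P (π j)) ∈ S) {θ : ℝ} : Op S θ ↔ Op T θ :=
  ⟨TH_Op_perm π.symm (TH_perm_symm π h), TH_Op_perm π h⟩

theorem TH_Le_perm {S T : Finset (Fin 3 → ℕ)} (π : Equiv.Perm (Fin 3))
    (h : ∀ P, P ∈ T ↔ (fun j => P (π j)) ∈ S) {t : ℝ}
    (hO : ∃ α ∈ stdSimplex ℝ (Fin 3), Le T α t) : ∃ α ∈ stdSimplex ℝ (Fin 3), Le S α t := by
  obtain ⟨β, hβ, hle⟩ := hO
  refine ⟨fun j => β (π j), ⟨fun i => hβ.1 _, ?_⟩, fun P hP => ?_⟩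
  · exact (TH_sm_perm π β).trans hβ.2
  · have h1 := hle _ ((TH_perm_symm π h P).1 hP)
    rw [← TH_dt_perm _ π] at h1
    simpa only [Equiv.symm_apply_apply] using h1

theorem Th_perm {S T : Finset (Fin 3 → ℕ)} (π : Equiv.Perm (Fin 3))
    (h : ∀ P, P ∈ T ↔ (fun j => P (π j)) ∈ S) : Th S = Th T := by
  unfold Th
  congr 1
  ext t
  exact ⟨TH_Le_perm π.symm (TH_perm_symm π h), TH_Le_perm π h⟩

/-- if all points vanish at a coordinate then the set is open at every positive level -/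
theorem Op_of_zero {S : Finset (Fin 3 → ℕ)} {i : Fin 3} (h : ∀ P ∈ S, P i = 0) {θ : ℝ}
    (hθ : 0 < θ) : Op S θ := by
  refine ⟨Pi.single i 1, fun j => ?_, fun P hP => ?_⟩
  · rw [Pi.single_apply]; split_ifs <;> norm_num
  · have h1 : dt P (Pi.single i 1) = P i := by
      unfold dt
      rw [Finset.sum_eq_single i]
      · simp
      · intro j _ hj
        rw [Pi.single_eq_of_ne hj, mul_zero]
      · intro h; exact absurd (Finset.mem_univ i) h
    have h2 : sm (Pi.single i (1 : ℝ)) = 1 := by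
      unfold sm
      rw [Finset.sum_eq_single i]
      · simp
      · intro j _ hj
        rw [Pi.single_eq_of_ne hj]
      · intro h; exact absurd (Finset.mem_univ i) h
    rw [h1, h2, h P hP]
    simpa using hθ

/-- a witness with all weights positive -/
theorem Op.pos {S : Finset (Fin 3 → ℕ)} {θ : ℝ} (h : Op S θ) :
    ∃ α : Wt, (∀ i, 0 < α i) ∧ ∀ P ∈ S, dt P α < θ * sm α := by
  obtain ⟨β, hβ, hlt⟩ := h
  have key : ∀ P ∈ S, ∀ᶠ T : ℝ in Filter.atTop,
      T * dt P β + 1 * dt P (fun _ => 1) < θ * (T * sm β + 1 * sm (fun _ => 1)) := by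
    intro P hP
    have h1 : Filter.Tendsto (fun T : ℝ => T * (θ * sm β - dt P β)) Filter.atTop
        Filter.atTop := Filter.Tendsto.atTop_mul_const (sub_pos.2 (hlt P hP)) Filter.tendsto_id
    filter_upwards [h1.eventually_gt_atTop (dt P (fun _ => 1) - θ * sm (fun _ => 1))] with T hT
    nlinarith [hT]
  obtain ⟨T, hT, hT0⟩ := (((Filter.eventually_all_finset S).2 key).and
    (Filter.eventually_ge_atTop (0 : ℝ))).exists
  refine ⟨fun j => T * β j + 1 * 1, fun i => ?_, fun P hP => ?_⟩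
  · have := hβ i; positivity
  · have e1 := dt_lin P β (fun _ => 1) T 1
    have e2 := sm_lin β (fun _ => 1) T 1
    rw [e1, e2]
    exact hT P hP

end Pool.Agent.TL
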