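import Pool.Agent.TL.GR
import Pool.Agent.TL.LN
import Pool.Agent.TL.TH

set_option autoImplicit false

/-! # AD: the adaptation step

Proof (paper proof section 6). `D' = conj (El i M (-κ)) D`, `D_β = lead β t D`, `D'_β = lead β t D' =
conj (El i M (-κ)) D_β`, `D'_β x_i = 0`. `hne` gives `v' ∈ supp D`, `v'·β = t`, `v' i = 0`. `gap = θ|β| - t > 0`.
`α`, `β` are linearly independent (otherwise `β` would be no witness), and span the plane
`{γ : dE M γ = γ i}`, which does not contain `e_i`; so every weight is `t' α + r β - s e_i`, `s = dE M β' - β' i`.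
(a) a witness `β'` of `D` is a witness of `D'`: if `dE M β' ≤ β' i` the values agree (`lt_conj`, `Pres_El`).
Otherwise `s > 0`; `v'·β' < θ|β'|` gives `r gap > s θ > 0`, so `r > 0` and for `P' ∈ supp D'`
`P'·β' = t' θ|α| + r P'·β - s P' i ≤ t' θ|α| + r t < t' θ|α| + r θ|β| - s θ = θ|β'|`.
(b) `β* = T α + θ β - gap e_i`, `T` large (`α i > 0`), is nonnegative; `v'·β* = θ|β*|`, so `v' ∈ Aset D`, not in
`Aset D'` because `β*` is a witness of `D'`: `P'·β* = T θ|α| + θ P'·β - gap P' i < T θ |α| + θ t = θ|β*|`, since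
`P'·β < t` or (`P' ∈ supp D'_β`, `D'_β x_i = 0`) `P' i ≥ 1`. -/

namespace Pool.Agent.TL

open MvPolynomial

variable {k : Type} [Field k] [CharZero k]

/-- points of the plane of `α` at level `θ` which are below `θ` for all witnesses of `S` -/
def Aset (S : Finset (Fin 3 → ℕ)) (α : Wt) (θ : ℝ) : Set (Fin 3 → ℕ) :=
  {P | dt P α = θ * sm α ∧ ∀ β : Wt, (∀ i, 0 ≤ β i) → (∀ Q ∈ S, dt Q β < θ * sm β) →
    dt P β < θ * sm β}

/-- use a positive witness (`Op.pos`) -/
theorem Aset_finite {S : Finset (Fin 3 → ℕ)} {θ : ℝ} (h : Op S θ) (α : Wt) :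
    (Aset S α θ).Finite := by
  obtain ⟨β, hβ, hS⟩ := h.pos
  refine (Set.finite_Iic (fun i => ⌊θ * sm β / β i⌋₊ : Fin 3 → ℕ)).subset ?_
  intro P hP
  rw [Set.mem_Iic]
  intro i
  have h1 := hP.2 β (fun i => (hβ i).le) hS
  have h2 : (P i : ℝ) * β i ≤ dt P β := by
    unfold dt
    exact Finset.single_le_sum (f := fun i => (P i : ℝ) * β i)
      (fun j _ => mul_nonneg (Nat.cast_nonneg _) (hβ j).le) (Finset.mem_univ i)
  apply Nat.le_floor
  rw [le_div_iff₀ (hβ i)]
  linarith

namespace ADAux

theorem dt_shift (P : Fin 3 → ℕ) (i : Fin 3) (α β : Wt) (r t s : ℝ) :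
    dt P (fun j => r * α j + t * β j - if j = i then s else 0) =
      r * dt P α + t * dt P β - s * P i := by
  unfold dt
  rw [Finset.mul_sum, Finset.mul_sum, ← Finset.sum_add_distrib]
  have : (s * (P i : ℝ)) = ∑ j, (P j : ℝ) * (if j = i then s else 0) := by
    rw [Finset.sum_eq_single i]
    · rw [if_pos rfl, mul_comm]
    · intro j _ hj
      rw [if_neg hj, mul_zero]
    · intro h
      exact absurd (Finset.mem_univ i) h
  rw [this, ← Finset.sum_sub_distrib]
  refine Finset.sum_congr rfl ?_
  intro j _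
  ring

theorem sm_shift (i : Fin 3) (α β : Wt) (r t s : ℝ) :
    sm (fun j => r * α j + t * β j - if j = i then s else 0) =
      r * sm α + t * sm β - s := by
  unfold sm
  rw [Finset.sum_sub_distrib, Finset.sum_add_distrib, ← Finset.mul_sum, ← Finset.mul_sum,
    Finset.sum_ite_eq' Finset.univ i]
  simp

/-- two independent vectors of the plane `dE M γ = γ i` span it -/
theorem span {i : Fin 3} {M : Fin 3 →₀ ℕ} (hM : M i = 0) {α β β' : Wt}
    (hMα : dE M α = α i) (hMβ : dE M β = β i) (hαi : 0 < α i)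
    (hind : ∀ c : ℝ, ¬ (∀ j, β j = c * α j)) :
    ∃ t' r : ℝ, β' = fun j => t' * α j + r * β j - if j = i then (dE M β' - β' i) else 0 := by
  obtain ⟨j, hji, -⟩ := exists_third i i
  obtain ⟨l, hli, hlj⟩ := exists_third i j
  have e : ∀ γ : Wt, dE M γ = M j * γ j + M l * γ l := by
    intro γ
    unfold dE
    rw [sum3 (Ne.symm hji) (Ne.symm hli) (Ne.symm hlj) (fun q => (M q : ℝ) * γ q)]
    simp only [hM, Nat.cast_zero, zero_mul, zero_add]
  have hd : α j * β l - α l * β j ≠ 0 := by
    intro hd
    rw [e] at hMα hMβ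
    by_cases h0 : α j = 0
    · have h1 : α l ≠ 0 := by
        intro h1
        rw [h0, h1] at hMα
        simp at hMα
        linarith
      have h2 : β j = 0 := by
        have : α l * β j = 0 := by rw [h0] at hd; linarith
        rcases mul_eq_zero.1 this with h | h
        · exact absurd h h1
        · exact h
      apply hind (β l / α l)
      intro q
      have hl : β l = β l / α l * α l := by field_simp
      rcases eq_of_ne (Ne.symm hji) (Ne.symm hli) (Ne.symm hlj) q with h | h | h
      · subst h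
        rw [← hMβ, ← hMα, h0, h2]
        rw [mul_zero, zero_add, zero_add, mul_left_comm, ← hl]
      · subst h
        rw [h0, h2, mul_zero]
      · subst h
        exact hl
    · apply hind (β j / α j)
      intro q
      have hj : β j = β j / α j * α j := by field_simp
      have hl : β l = β j / α j * α l := by
        rw [div_mul_eq_mul_div, eq_div_iff h0]
        linarith
      rcases eq_of_ne (Ne.symm hji) (Ne.symm hli) (Ne.symm hlj) q with h | h | h
      · subst h
        rw [← hMβ, ← hMα, mul_add, mul_left_comm, ← hj, mul_left_comm, ← hl]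
      · subst h
        exact hj
      · subst h
        exact hl
  refine ⟨(β' j * β l - β' l * β j) / (α j * β l - α l * β j),
    (α j * β' l - α l * β' j) / (α j * β l - α l * β j), ?_⟩
  have hj : β' j = (β' j * β l - β' l * β j) / (α j * β l - α l * β j) * α j +
      (α j * β' l - α l * β' j) / (α j * β l - α l * β j) * β j := by
    rw [div_mul_eq_mul_div, div_mul_eq_mul_div, ← add_div, eq_div_iff hd]
    ring
  have hl : β' l = (β' j * β l - β' l * β j) / (α j * β l - α l * β j) * α l +
      (α j * β' l - α l * β' j) / (α j * β l - α l * β j) * β l := by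
    rw [div_mul_eq_mul_div, div_mul_eq_mul_div, ← add_div, eq_div_iff hd]
    ring
  generalize (β' j * β l - β' l * β j) / (α j * β l - α l * β j) = t' at hj hl ⊢
  generalize (α j * β' l - α l * β' j) / (α j * β l - α l * β j) = r at hj hl ⊢
  funext q
  rcases eq_of_ne (Ne.symm hji) (Ne.symm hli) (Ne.symm hlj) q with h | h | h
  · subst h
    rw [if_pos rfl, e β', ← hMα, ← hMβ, e α, e β]
    linear_combination (M j : ℝ) * hj + (M l : ℝ) * hl
  · subst h
    rw [if_neg hji, sub_zero]
    exact hj
  · subst h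
    rw [if_neg hli, sub_zero]
    exact hl

end ADAux

theorem adapt {D : Der k} (hD : IsLND D) {α : Wt} (hα0 : ∀ j, 0 ≤ α j) {θ : ℝ} (hθ : 0 < θ)
    (hs : ∀ P ∈ supp D, dt P α = θ * sm α) {β : Wt} (hβ0 : ∀ j, 0 ≤ β j)
    (hβ : ∀ P ∈ supp D, dt P β < θ * sm β) {t : ℝ} (ht : Le (supp D) β t) {i : Fin 3}
    {M : Fin 3 →₀ ℕ} (hM : M i = 0) {κ : k} (hMα : dE M α = α i) (hMβ : dE M β = β i)
    (hαi : 0 < α i) (hne : lead β t D (X i) ≠ 0)
    (hker : lead β t D (X i - monomial M κ) = 0) :
    (∀ P ∈ supp (conj (El i M (-κ) hM) D), dt P α = θ * sm α) ∧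
    (∀ P ∈ supp (conj (El i M (-κ) hM) D), dt P β < θ * sm β) ∧
    Aset (supp (conj (El i M (-κ) hM) D)) α θ ⊂ Aset (supp D) α θ := by
  have hs' : ∀ P ∈ supp (conj (El i M (-κ) hM) D), dt P α = θ * sm α :=
    dt_conj_El_eq hM hMα hs
  have hβ' : ∀ P ∈ supp (conj (El i M (-κ) hM) D), dt P β < θ * sm β :=
    (lt_conj (Pres_El hM hMβ.le) rfl D _).2 hβ
  have ht' : Le (supp (conj (El i M (-κ) hM) D)) β t :=
    (Le_conj (Pres_El hM hMβ.le) rfl D t).2 ht
  have hDβ : IsLND (lead β t D) := hD.lead ht
  obtain ⟨v, hv, hvi⟩ := (DX_ne_zero_iff hDβ i).1 hne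
  rw [mem_supp_lead] at hv
  obtain ⟨hvD, hvt⟩ := hv
  have hgap : 0 < θ * sm β - t := by
    have := hβ v hvD
    linarith
  have hD'β : IsLND (lead β t (conj (El i M (-κ) hM) D)) := (hD.conj _).lead ht'
  have hz : lead β t (conj (El i M (-κ) hM) D) (X i) = 0 := by
    rw [lead_conj_El_eq hM hMβ ht, conj_apply, El_apply_self]
    have : (X i + monomial M (-κ) : Rg k) = X i - monomial M κ := by
      rw [map_neg, sub_eq_add_neg]
    rw [this, hker, map_zero]
  have hpos : ∀ P ∈ supp (conj (El i M (-κ) hM) D), dt P β = t → 1 ≤ P i := by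
    intro P hP hPt
    by_contra hlt
    have h0 : P i = 0 := by omega
    exact (DX_ne_zero_iff hD'β i).2 ⟨P, mem_supp_lead.2 ⟨hP, hPt⟩, h0⟩ hz
  have hind : ∀ c : ℝ, ¬ (∀ j, β j = c * α j) := by
    intro c hc
    have h1 : dt v β = c * dt v α := by
      unfold dt
      rw [Finset.mul_sum]
      refine Finset.sum_congr rfl ?_
      intro j _
      rw [hc j]; ring
    have h2 : sm β = c * sm α := by
      unfold sm
      rw [Finset.mul_sum]
      exact Finset.sum_congr rfl (fun j _ => hc j)
    have h3 := hs v hvD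
    have h4 := hβ v hvD
    rw [h1, h2, h3] at h4
    linarith
  -- every witness of `D` is a witness of `D'`
  have hwit : ∀ β' : Wt, (∀ q, 0 ≤ β' q) → (∀ Q ∈ supp D, dt Q β' < θ * sm β') →
      ∀ Q ∈ supp (conj (El i M (-κ) hM) D), dt Q β' < θ * sm β' := by
    intro β' hb0 hb
    by_cases hc : dE M β' ≤ β' i
    · exact (lt_conj (Pres_El hM hc) rfl D _).2 hb
    · push Not at hc
      obtain ⟨t', r, hr⟩ := ADAux.span hM (β' := β') hMα hMβ hαi hind
      have hspos : 0 < dE M β' - β' i := by linarith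
      generalize dE M β' - β' i = s at hr hspos
      have e1 : ∀ P, dt P β' = t' * dt P α + r * dt P β - s * P i := by
        intro P
        rw [hr]
        exact ADAux.dt_shift P i α β t' r s
      have e2 : sm β' = t' * sm α + r * sm β - s := by
        rw [hr]
        exact ADAux.sm_shift i α β t' r s
      have hvb := hb v hvD
      rw [e1 v, e2, hs v hvD, hvt, hvi, Nat.cast_zero, mul_zero, sub_zero] at hvb
      have hrg : s * θ < r * (θ * sm β - t) := by linarith
      have hsθ : 0 < s * θ := mul_pos hspos hθ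
      have hr0 : 0 < r := by
        by_contra hneg
        push Not at hneg
        have := mul_nonneg_of_nonpos_of_nonpos hneg (neg_nonpos.2 hgap.le)
        nlinarith
      intro P hP
      rw [e1 P, e2, hs' P hP]
      have h5 : r * dt P β ≤ r * t := mul_le_mul_of_nonneg_left (ht' P hP) hr0.le
      have h6 : 0 ≤ s * (P i : ℝ) := mul_nonneg hspos.le (Nat.cast_nonneg _)
      linarith
  refine ⟨hs', hβ', ?_⟩
  rw [Set.ssubset_iff_of_subset]
  · refine ⟨v, ⟨hs v hvD, fun β' _ hb => hb v hvD⟩, ?_⟩
    intro hv'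
    have hT : 0 ≤ (θ * sm β - t) / α i := div_nonneg hgap.le hαi.le
    have hTi : (θ * sm β - t) / α i * α i = θ * sm β - t := by field_simp
    generalize (θ * sm β - t) / α i = T at hT hTi
    have h1 := hv'.2 (fun j => T * α j + θ * β j - if j = i then (θ * sm β - t) else 0)
      (by
        intro j
        by_cases hj : j = i
        · subst hj
          simp only [if_true]
          rw [hTi]
          have := mul_nonneg hθ.le (hβ0 j)
          linarith
        · simp only [if_neg hj, sub_zero]
          exact add_nonneg (mul_nonneg hT (hα0 j)) (mul_nonneg hθ.le (hβ0 j)))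
      (by
        intro P hP
        rw [ADAux.dt_shift, ADAux.sm_shift, hs' P hP]
        have h2 : θ * dt P β - (θ * sm β - t) * (P i : ℝ) < θ * t := by
          rcases lt_or_eq_of_le (ht' P hP) with h | h
          · have h3 : θ * dt P β < θ * t := mul_lt_mul_of_pos_left h hθ
            have h4 : 0 ≤ (θ * sm β - t) * (P i : ℝ) := mul_nonneg hgap.le (Nat.cast_nonneg _)
            linarith
          · have h3 : (1 : ℝ) ≤ P i := by exact_mod_cast hpos P hP h
            have h4 : 0 < (θ * sm β - t) * (P i : ℝ) := mul_pos hgap (by linarith)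
            rw [h]
            linarith
        nlinarith [h2])
    rw [ADAux.dt_shift, ADAux.sm_shift, hs v hvD, hvt, hvi, Nat.cast_zero, mul_zero,
      sub_zero] at h1
    nlinarith [h1]
  · intro P hP
    exact ⟨hP.1, fun β' hb0 hb => hP.2 β' hb0 (hwit β' hb0 hb)⟩

end Pool.Agent.TL
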