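import Pool.Agent.TL.Defs

set_option autoImplicit false

/-! # BA: basic facts on weights, filtrations, supports -/

namespace Pool.Agent.TL

open MvPolynomial

variable {k : Type} [Field k]

theorem sum3 {a b c : Fin 3} (hab : a ≠ b) (hac : a ≠ c) (hbc : b ≠ c) (f : Fin 3 → ℝ) :
    ∑ i, f i = f a + f b + f c := by
  have h : (Finset.univ : Finset (Fin 3)) = {a, b, c} := by
    revert hab hac hbc
    clear f
    revert a b c
    decide
  rw [h, Finset.sum_insert (by simp [hab, hac]), Finset.sum_insert (by simp [hbc]),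
    Finset.sum_singleton]
  ring

theorem exists_third (a b : Fin 3) : ∃ c, c ≠ a ∧ c ≠ b := by
  revert a b
  decide

theorem eq_of_ne {a b c : Fin 3} (hab : a ≠ b) (hac : a ≠ c) (hbc : b ≠ c) (j : Fin 3) :
    j = a ∨ j = b ∨ j = c := by
  revert a b c j
  decide

theorem mem_supp {D : Der k} {P : Fin 3 → ℕ} :
    P ∈ supp D ↔ ∃ i m, coeff m (D (X i)) ≠ 0 ∧ sh i m = P := by
  simp [supp]

theorem dE_zero (α : Wt) : dE 0 α = 0 := by
  simp [dE]

theorem dE_add (m n : Fin 3 →₀ ℕ) (α : Wt) : dE (m + n) α = dE m α + dE n α := by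
  simp only [dE, Finsupp.add_apply, Nat.cast_add, add_mul, Finset.sum_add_distrib]

theorem dE_nonneg (m : Fin 3 →₀ ℕ) {α : Wt} (h : ∀ i, 0 ≤ α i) : 0 ≤ dE m α :=
  Finset.sum_nonneg fun i _ => mul_nonneg (Nat.cast_nonneg _) (h i)

theorem dE_single (i : Fin 3) (n : ℕ) (α : Wt) : dE (Finsupp.single i n) α = n * α i := by
  unfold dE
  rw [Finset.sum_eq_single i]
  · simp
  · intro j _ hj
    rw [Finsupp.single_eq_of_ne hj]
    simp
  · intro h
    exact absurd (Finset.mem_univ i) h

theorem dE_lin (m : Fin 3 →₀ ℕ) (α β : Wt) (r t : ℝ) :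
    dE m (fun j => r * α j + t * β j) = r * dE m α + t * dE m β := by
  unfold dE
  rw [Finset.mul_sum, Finset.mul_sum, ← Finset.sum_add_distrib]
  exact Finset.sum_congr rfl fun i _ => by ring

theorem dt_lin (P : Fin 3 → ℕ) (α β : Wt) (r t : ℝ) :
    dt P (fun j => r * α j + t * β j) = r * dt P α + t * dt P β := by
  unfold dt
  rw [Finset.mul_sum, Finset.mul_sum, ← Finset.sum_add_distrib]
  exact Finset.sum_congr rfl fun i _ => by ring

theorem sm_lin (α β : Wt) (r t : ℝ) :
    sm (fun j => r * α j + t * β j) = r * sm α + t * sm β := by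
  unfold sm
  rw [Finset.mul_sum, Finset.mul_sum, ← Finset.sum_add_distrib]

theorem dt_nonneg (P : Fin 3 → ℕ) {α : Wt} (h : ∀ i, 0 ≤ α i) : 0 ≤ dt P α :=
  Finset.sum_nonneg fun i _ => mul_nonneg (Nat.cast_nonneg _) (h i)

theorem dt_sh (i : Fin 3) (m : Fin 3 →₀ ℕ) (α : Wt) : dt (sh i m) α = dE m α + sm α - α i := by
  have h : ∀ j, ((sh i m j : ℕ) : ℝ) * α j =
      (m j : ℝ) * α j + α j - (if j = i then α j else 0) := by
    intro j
    unfold sh
    split_ifs with hj
    · ring
    · push_cast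
      ring
  unfold dt dE sm
  rw [Finset.sum_congr rfl fun j _ => h j, Finset.sum_sub_distrib, Finset.sum_add_distrib]
  simp

/-- a shifted exponent of a derivation has at most one zero -/
theorem supp_zero_unique {D : Der k} {P : Fin 3 → ℕ} (hP : P ∈ supp D) {i j : Fin 3}
    (hi : P i = 0) (hj : P j = 0) : i = j := by
  obtain ⟨l, m, _, rfl⟩ := mem_supp.1 hP
  have h : ∀ n : Fin 3, sh l m n = 0 → n = l := by
    intro n hn
    by_contra hne
    unfold sh at hn
    rw [if_neg hne] at hn
    exact Nat.succ_ne_zero _ hn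
  rw [h i hi, h j hj]

/-- a shifted exponent with a zero at `i` comes from the component `D x_i` -/
theorem supp_zero {D : Der k} {P : Fin 3 → ℕ} (hP : P ∈ supp D) {i : Fin 3} (hi : P i = 0) :
    ∃ m, coeff m (D (X i)) ≠ 0 ∧ sh i m = P := by
  obtain ⟨l, m, hm, rfl⟩ := mem_supp.1 hP
  have h : i = l := by
    by_contra hne
    unfold sh at hi
    rw [if_neg hne] at hi
    exact Nat.succ_ne_zero _ hi
  subst h
  exact ⟨m, hm, rfl⟩

theorem supp_eq_empty {D : Der k} : supp D = ∅ ↔ D = 0 := by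
  constructor
  · intro h
    apply MvPolynomial.derivation_ext
    intro i
    rw [Derivation.zero_apply]
    ext m
    by_contra hne
    rw [coeff_zero] at hne
    have : sh i m ∈ supp D := mem_supp.2 ⟨i, m, hne, rfl⟩
    rw [h] at this
    exact absurd this (Finset.notMem_empty _)
  · rintro rfl
    rw [Finset.eq_empty_iff_forall_notMem]
    intro P hP
    obtain ⟨i, m, hm, _⟩ := mem_supp.1 hP
    simp at hm

theorem supp_nonempty {D : Der k} (h : D ≠ 0) : (supp D).Nonempty :=
  Finset.nonempty_iff_ne_empty.2 fun h' => h (supp_eq_empty.1 h')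

/-- if no shifted exponent vanishes at `i` then `x_i` divides `D x_i` -/
theorem X_dvd {D : Der k} {i : Fin 3} (h : ∀ P ∈ supp D, P i ≠ 0) :
    (X i : Rg k) ∣ D (X i) := by
  rw [(D (X i)).as_sum]
  apply Finset.dvd_sum
  intro m hm
  have hm' : coeff m (D (X i)) ≠ 0 := mem_support_iff.1 hm
  have h1 := h (sh i m) (mem_supp.2 ⟨i, m, hm', rfl⟩)
  have h2 : m i ≠ 0 := by
    unfold sh at h1
    rwa [if_pos rfl] at h1
  have e : m = Finsupp.single i 1 + (m - Finsupp.single i 1) := by
    ext j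
    simp only [Finsupp.add_apply, Finsupp.tsub_apply]
    by_cases hj : j = i
    · subst hj
      rw [Finsupp.single_eq_same]
      omega
    · rw [Finsupp.single_eq_of_ne hj]
      omega
  refine ⟨monomial (m - Finsupp.single i 1) (coeff m (D (X i))), ?_⟩
  rw [X, monomial_mul, one_mul]
  exact congrArg (fun n => monomial n (coeff m (D (X i)))) e

theorem LE_zero (α : Wt) (s : ℝ) : LE α s (0 : Rg k) := by
  intro m hm
  simp at hm

theorem LE.mono {α : Wt} {s t : ℝ} {f : Rg k} (h : LE α s f) (hst : s ≤ t) : LE α t f :=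
  fun m hm => (h m hm).trans hst

theorem LE.add {α : Wt} {s : ℝ} {f g : Rg k} (hf : LE α s f) (hg : LE α s g) :
    LE α s (f + g) := by
  intro m hm
  rw [coeff_add] at hm
  by_cases h : coeff m f = 0
  · rw [h, zero_add] at hm
    exact hg m hm
  · exact hf m h

theorem LE.neg {α : Wt} {s : ℝ} {f : Rg k} (hf : LE α s f) : LE α s (-f) := by
  intro m hm
  rw [coeff_neg] at hm
  exact hf m (neg_ne_zero.1 hm)

theorem LE.sub {α : Wt} {s : ℝ} {f g : Rg k} (hf : LE α s f) (hg : LE α s g) :
    LE α s (f - g) := by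
  rw [sub_eq_add_neg]
  exact hf.add hg.neg

theorem LE.sum {ι : Type} {α : Wt} {s : ℝ} (t : Finset ι) (f : ι → Rg k)
    (h : ∀ i ∈ t, LE α s (f i)) : LE α s (∑ i ∈ t, f i) := by
  intro m hm
  rw [coeff_sum] at hm
  obtain ⟨i, hi, hne⟩ := Finset.exists_ne_zero_of_sum_ne_zero hm
  exact h i hi m hne

theorem LE.mul {α : Wt} {s t : ℝ} {f g : Rg k} (hf : LE α s f) (hg : LE α t g) :
    LE α (s + t) (f * g) := by
  intro m hm
  rw [coeff_mul] at hm
  obtain ⟨p, hp, hne⟩ := Finset.exists_ne_zero_of_sum_ne_zero hm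
  have h1 := hf p.1 (left_ne_zero_of_mul hne)
  have h2 := hg p.2 (right_ne_zero_of_mul hne)
  rw [← Finset.HasAntidiagonal.mem_antidiagonal.1 hp, dE_add]
  exact add_le_add h1 h2

theorem LE_monomial (α : Wt) (m : Fin 3 →₀ ℕ) (c : k) : LE α (dE m α) (monomial m c) := by
  intro n hn
  rw [coeff_monomial] at hn
  split_ifs at hn with h
  · rw [h]
  · exact absurd rfl hn

theorem LE_X (α : Wt) (i : Fin 3) : LE α (α i) (X i : Rg k) := by
  have h := LE_monomial (k := k) α (Finsupp.single i 1) 1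
  rw [dE_single, Nat.cast_one, one_mul] at h
  exact h

theorem LE_C (α : Wt) (c : k) : LE α 0 (C c : Rg k) := by
  have h := LE_monomial (k := k) α 0 c
  rw [dE_zero] at h
  exact h

theorem LE.pow {α : Wt} {s : ℝ} {f : Rg k} (hf : LE α s f) (n : ℕ) :
    LE α (n * s) (f ^ n) := by
  induction n with
  | zero =>
    rw [pow_zero, Nat.cast_zero, zero_mul]
    have h := LE_C (k := k) α 1
    rwa [C_1] at h
  | succ n ih =>
    rw [pow_succ]
    have h := ih.mul hf
    have e : ((n + 1 : ℕ) : ℝ) * s = n * s + s := by push_cast; ring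
    rw [e]
    exact h

theorem LE.smul {α : Wt} {s : ℝ} {f : Rg k} (hf : LE α s f) (c : k) : LE α s (c • f) := by
  intro m hm
  rw [coeff_smul, smul_eq_mul] at hm
  exact hf m (right_ne_zero_of_mul hm)

/-- substitution: if each `τ x_j` has weight at most `β j`, then `τ` maps weight `≤ s` (for `β`)
to weight `≤ s` (for `α`) -/
theorem LE.hom {α β : Wt} {s : ℝ} (τ : Rg k →ₐ[k] Rg k) (h : ∀ j, LE α (β j) (τ (X j)))
    {f : Rg k} (hf : LE β s f) : LE α s (τ f) := by
  rw [f.as_sum, map_sum]
  apply LE.sum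
  intro m hm
  have hm' := hf m (mem_support_iff.1 hm)
  refine LE.mono ?_ hm'
  have e : τ (monomial m (coeff m f)) =
      coeff m f • ((τ (X 0)) ^ (m 0) * (τ (X 1)) ^ (m 1) * (τ (X 2)) ^ (m 2)) := by
    rw [monomial_eq, Finsupp.prod_fintype _ _ (fun i => pow_zero _), Fin.prod_univ_three,
      ← smul_eq_C_mul, map_smul, map_mul, map_mul, map_pow, map_pow, map_pow]
  rw [e]
  refine LE.smul ?_ _
  have e2 : dE m β = m 0 * β 0 + m 1 * β 1 + m 2 * β 2 := by
    unfold dE
    rw [Fin.sum_univ_three]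
  rw [e2]
  exact (((h 0).pow (m 0)).mul ((h 1).pow (m 1))).mul ((h 2).pow (m 2))

theorem Le_supp_iff {D : Der k} {α : Wt} {s : ℝ} :
    Le (supp D) α s ↔ ∀ j, LE α (s - sm α + α j) (D (X j)) := by
  constructor
  · intro h j m hm
    have h1 := h (sh j m) (mem_supp.2 ⟨j, m, hm, rfl⟩)
    rw [dt_sh] at h1
    linarith
  · intro h P hP
    obtain ⟨j, m, hm, rfl⟩ := mem_supp.1 hP
    have h1 := h j m hm
    rw [dt_sh]
    linarith

theorem BA_sum_apply (d : Fin 3 → Der k) (f : Rg k) : (∑ j, d j) f = ∑ j, d j f := by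
  have h := congrFun (map_sum Derivation.coeFnAddMonoidHom d Finset.univ) f
  rw [Finset.sum_apply] at h
  exact h

/-- a derivation as a combination of the partial derivatives -/
theorem BA_der_eq (D : Der k) (f : Rg k) : D f = ∑ j, D (X j) * pderiv j f := by
  have h : D = ∑ j, (D (X j)) • (pderiv j : Der k) := by
    apply MvPolynomial.derivation_ext
    intro i
    rw [BA_sum_apply, Finset.sum_eq_single i]
    · rw [Derivation.smul_apply, pderiv_X_self, smul_eq_mul, mul_one]
    · intro j _ hj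
      rw [Derivation.smul_apply, pderiv_X_of_ne (Ne.symm hj), smul_zero]
    · intro hi
      exact absurd (Finset.mem_univ i) hi
  conv_lhs => rw [h]
  rw [BA_sum_apply]
  rfl

/-- the weight of a partial derivative -/
theorem BA_LE_pderiv {α : Wt} {t : ℝ} {f : Rg k} (hf : LE α t f) (j : Fin 3) :
    LE α (t - α j) (pderiv j f) := by
  rw [f.as_sum, map_sum]
  apply LE.sum
  intro m hm
  have hm' := hf m (mem_support_iff.1 hm)
  rw [pderiv_monomial]
  by_cases h0 : m j = 0
  · rw [h0, Nat.cast_zero, mul_zero, monomial_zero]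
    exact LE_zero _ _
  · refine LE.mono (LE_monomial _ _ _) ?_
    have e : m = (m - Finsupp.single j 1) + Finsupp.single j 1 := by
      ext l
      simp only [Finsupp.add_apply, Finsupp.tsub_apply]
      by_cases hl : l = j
      · subst hl
        rw [Finsupp.single_eq_same]
        omega
      · rw [Finsupp.single_eq_of_ne hl]
        omega
    have e2 : dE m α = dE (m - Finsupp.single j 1) α + α j := by
      conv_lhs => rw [e]
      rw [dE_add, dE_single, Nat.cast_one, one_mul]
    linarith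

/-- `D` raises the weight by at most `s - sm α` -/
theorem LE.der {D : Der k} {α : Wt} {s t : ℝ} (hD : Le (supp D) α s) {f : Rg k}
    (hf : LE α t f) : LE α (t + (s - sm α)) (D f) := by
  rw [BA_der_eq]
  apply LE.sum
  intro j _
  have h := (Le_supp_iff.1 hD j).mul (BA_LE_pderiv hf j)
  have e : s - sm α + α j + (t - α j) = t + (s - sm α) := by ring
  rwa [e] at h

end Pool.Agent.TL
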