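import Pool.Agent.TL.BC

set_option autoImplicit false

/-! # BB: homogeneous components and leading derivations -/

namespace Pool.Agent.TL

open MvPolynomial

variable {k : Type} [Field k]

theorem coeff_hc (α : Wt) (s : ℝ) (f : Rg k) (m : Fin 3 →₀ ℕ) [Decidable (dE m α = s)] :
    coeff m (hc α s f) = if dE m α = s then coeff m f else 0 := by
  classical
  unfold hc
  rw [coeff_sum]
  simp only [coeff_monomial]
  rw [Finset.sum_ite_eq' (f.support.filter (fun m => dE m α = s)) m (fun x => coeff x f)]
  by_cases h : dE m α = s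
  · by_cases h0 : coeff m f = 0
    · simp [h, h0]
    · simp [h, h0]
  · simp [h]

theorem coeff_hc_eq {α : Wt} {s : ℝ} (f : Rg k) {m : Fin 3 →₀ ℕ} (h : dE m α = s) :
    coeff m (hc α s f) = coeff m f := by
  classical
  rw [coeff_hc, if_pos h]

theorem coeff_hc_ne {α : Wt} {s : ℝ} (f : Rg k) {m : Fin 3 →₀ ℕ} (h : dE m α ≠ s) :
    coeff m (hc α s f) = 0 := by
  classical
  rw [coeff_hc, if_neg h]

theorem Hg_hc (α : Wt) (s : ℝ) (f : Rg k) : Hg α s (hc α s f) := by
  intro m hm
  by_contra h
  exact hm (coeff_hc_ne f h)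

theorem Hg.LE {α : Wt} {s : ℝ} {f : Rg k} (h : Hg α s f) : LE α s f := by
  intro m hm
  exact (h m hm).le

theorem hc_of_Hg {α : Wt} {s : ℝ} {f : Rg k} (h : Hg α s f) : hc α s f = f := by
  ext m
  by_cases h0 : coeff m f = 0
  · by_cases h1 : dE m α = s
    · rw [coeff_hc_eq f h1]
    · rw [coeff_hc_ne f h1, h0]
  · rw [coeff_hc_eq f (h m h0)]

/-- two different weights: a homogeneous polynomial has no component of another weight -/
theorem hc_of_Hg_ne {α : Wt} {s t : ℝ} {f : Rg k} (h : Hg α s f) (hst : s ≠ t) :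
    hc α t f = 0 := by
  ext m
  rw [coeff_zero]
  by_cases h1 : dE m α = t
  · rw [coeff_hc_eq f h1]
    by_contra h0
    exact hst ((h m h0).symm.trans h1)
  · exact coeff_hc_ne f h1

theorem hc_add (α : Wt) (s : ℝ) (f g : Rg k) : hc α s (f + g) = hc α s f + hc α s g := by
  ext m
  rw [coeff_add]
  by_cases h1 : dE m α = s
  · rw [coeff_hc_eq _ h1, coeff_hc_eq _ h1, coeff_hc_eq _ h1, coeff_add]
  · rw [coeff_hc_ne _ h1, coeff_hc_ne _ h1, coeff_hc_ne _ h1, add_zero]

theorem hc_smul (α : Wt) (s : ℝ) (c : k) (f : Rg k) : hc α s (c • f) = c • hc α s f := by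
  ext m
  rw [coeff_smul]
  by_cases h1 : dE m α = s
  · rw [coeff_hc_eq _ h1, coeff_hc_eq _ h1, coeff_smul]
  · rw [coeff_hc_ne _ h1, coeff_hc_ne _ h1, smul_zero]

theorem hc_eq_zero_of_lt {α : Wt} {s t : ℝ} {f : Rg k} (h : LE α t f) (hts : t < s) :
    hc α s f = 0 := by
  ext m
  rw [coeff_zero]
  by_cases h1 : dE m α = s
  · rw [coeff_hc_eq f h1]
    by_contra h0
    have := h m h0
    linarith
  · exact coeff_hc_ne f h1

theorem Hg.mul {α : Wt} {s t : ℝ} {f g : Rg k} (hf : Hg α s f) (hg : Hg α t g) :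
    Hg α (s + t) (f * g) := by
  classical
  intro m hm
  rw [coeff_mul] at hm
  obtain ⟨p, hp, hne⟩ := Finset.exists_ne_zero_of_sum_ne_zero hm
  rw [Finset.HasAntidiagonal.mem_antidiagonal] at hp
  rw [← hp, dE_add, hf _ (left_ne_zero_of_mul hne), hg _ (right_ne_zero_of_mul hne)]

theorem Hg.add {α : Wt} {s : ℝ} {f g : Rg k} (hf : Hg α s f) (hg : Hg α s g) :
    Hg α s (f + g) := by
  intro m hm
  rw [coeff_add] at hm
  by_cases h0 : coeff m f = 0
  · apply hg m
    intro h1
    rw [h0, h1, add_zero] at hm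
    exact hm rfl
  · exact hf m h0

theorem Hg.smul {α : Wt} {s : ℝ} {f : Rg k} (hf : Hg α s f) (c : k) : Hg α s (c • f) := by
  intro m hm
  rw [coeff_smul] at hm
  apply hf m
  intro h0
  rw [h0, smul_zero] at hm
  exact hm rfl

theorem Hg_monomial (α : Wt) (m : Fin 3 →₀ ℕ) (c : k) : Hg α (dE m α) (monomial m c) := by
  classical
  intro n hn
  rw [coeff_monomial] at hn
  by_cases h : m = n
  · rw [h]
  · rw [if_neg h] at hn
    exact absurd rfl hn

theorem Hg_X (α : Wt) (i : Fin 3) : Hg α (α i) (X i : Rg k) := by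
  have h := Hg_monomial α (Finsupp.single i 1) (1 : k)
  rw [dE_single] at h
  simpa [X] using h

/-- top components multiply -/
theorem hc_mul {α : Wt} {s t : ℝ} {f g : Rg k} (hf : LE α s f) (hg : LE α t g) :
    hc α (s + t) (f * g) = hc α s f * hc α t g := by
  classical
  ext m
  by_cases h1 : dE m α = s + t
  · rw [coeff_hc_eq _ h1, coeff_mul, coeff_mul]
    apply Finset.sum_congr rfl
    intro p hp
    rw [Finset.HasAntidiagonal.mem_antidiagonal] at hp
    have h2 : dE p.1 α + dE p.2 α = s + t := by rw [← dE_add, hp, h1]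
    by_cases hz : coeff p.1 f * coeff p.2 g = 0
    · rw [hz]
      symm
      rw [coeff_hc, coeff_hc]
      split_ifs
      · exact hz
      · rw [mul_zero]
      · rw [zero_mul]
      · rw [zero_mul]
    · have a1 := hf _ (left_ne_zero_of_mul hz)
      have a2 := hg _ (right_ne_zero_of_mul hz)
      rw [coeff_hc_eq f (by linarith : dE p.1 α = s), coeff_hc_eq g (by linarith : dE p.2 α = t)]
  · rw [coeff_hc_ne _ h1]
    symm
    by_contra h0
    exact h1 (Hg.mul (Hg_hc α s f) (Hg_hc α t g) m h0)

theorem lead_X (α : Wt) (s : ℝ) (D : Der k) (j : Fin 3) :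
    lead α s D (X j) = hc α (s - sm α + α j) (D (X j)) := by
  unfold lead
  rw [mkDerivation_X]

theorem mem_supp_lead {α : Wt} {s : ℝ} {D : Der k} {P : Fin 3 → ℕ} :
    P ∈ supp (lead α s D) ↔ P ∈ supp D ∧ dt P α = s := by
  rw [mem_supp, mem_supp]
  constructor
  · rintro ⟨i, m, h, rfl⟩
    rw [lead_X] at h
    have h1 : dE m α = s - sm α + α i := Hg_hc _ _ _ m h
    rw [coeff_hc_eq _ h1] at h
    refine ⟨⟨i, m, h, rfl⟩, ?_⟩
    rw [dt_sh]
    linarith
  · rintro ⟨⟨i, m, h, rfl⟩, h2⟩
    rw [dt_sh] at h2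
    refine ⟨i, m, ?_, rfl⟩
    rw [lead_X, coeff_hc_eq _ (by linarith)]
    exact h

theorem lead_ne_zero {α : Wt} {s : ℝ} {D : Der k} (h : ∃ P ∈ supp D, dt P α = s) :
    lead α s D ≠ 0 := by
  obtain ⟨P, hP, hd⟩ := h
  intro h0
  have h1 : P ∈ supp (lead α s D) := mem_supp_lead.2 ⟨hP, hd⟩
  rw [supp_eq_empty.2 h0] at h1
  exact absurd h1 (Finset.notMem_empty P)

theorem lead_eq_self {α : Wt} {s : ℝ} {D : Der k} (h : ∀ P ∈ supp D, dt P α = s) :
    lead α s D = D := by
  apply MvPolynomial.derivation_ext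
  intro j
  rw [lead_X]
  apply hc_of_Hg
  intro m hm
  have h1 := h (sh j m) (mem_supp.2 ⟨j, m, hm, rfl⟩)
  rw [dt_sh] at h1
  linarith

/-- the leading derivation computes the top component of `D f` -/
theorem hc_der {α : Wt} {s t : ℝ} {D : Der k} (hD : Le (supp D) α s) {f : Rg k}
    (hf : LE α t f) : hc α (t + (s - sm α)) (D f) = lead α s D (hc α t f) := by
  classical
  -- monomials first, then sums
  have key : ∀ (m : Fin 3 →₀ ℕ) (c : k),
      hc α (dE m α + (s - sm α)) (D (monomial m c)) = lead α s D (monomial m c) := by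
    intro m c
    induction m using Finsupp.induction_linear generalizing c with
    | zero =>
      have h1 : (monomial (0 : Fin 3 →₀ ℕ) c : Rg k) = algebraMap k (Rg k) c := rfl
      rw [h1, Derivation.map_algebraMap, Derivation.map_algebraMap]
      ext n
      by_cases h2 : dE n α = dE 0 α + (s - sm α)
      · rw [coeff_hc_eq _ h2]
      · rw [coeff_hc_ne _ h2, coeff_zero]
    | add m n hm hn =>
      have h1 : (monomial (m + n) c : Rg k) = monomial m c * monomial n 1 := by
        rw [monomial_mul, mul_one]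
      rw [h1, Derivation.leibniz, Derivation.leibniz, hc_add, smul_eq_mul, smul_eq_mul,
        smul_eq_mul, smul_eq_mul]
      have e1 : dE (m + n) α + (s - sm α) = dE m α + (dE n α + (s - sm α)) := by
        rw [dE_add]; ring
      have e2 : dE (m + n) α + (s - sm α) = dE n α + (dE m α + (s - sm α)) := by
        rw [dE_add]; ring
      conv_lhs => rw [e1]
      rw [hc_mul (LE_monomial α m c) (LE.der hD (LE_monomial α n 1)), hn 1,
        hc_of_Hg (Hg_monomial α m c)]
      rw [← e1, e2, hc_mul (LE_monomial α n 1) (LE.der hD (LE_monomial α m c)), hm c,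
        hc_of_Hg (Hg_monomial α n 1)]
    | single i n =>
      induction n generalizing c with
      | zero =>
        rw [Finsupp.single_zero]
        have h1 : (monomial (0 : Fin 3 →₀ ℕ) c : Rg k) = algebraMap k (Rg k) c := rfl
        rw [h1, Derivation.map_algebraMap, Derivation.map_algebraMap]
        ext n
        by_cases h2 : dE n α = dE 0 α + (s - sm α)
        · rw [coeff_hc_eq _ h2]
        · rw [coeff_hc_ne _ h2, coeff_zero]
      | succ n ih =>
        have h1 : (monomial (Finsupp.single i (n + 1)) c : Rg k)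
            = monomial (Finsupp.single i n) c * X i := by
          rw [X, monomial_mul, mul_one, Finsupp.single_add]
        rw [h1, Derivation.leibniz, Derivation.leibniz, hc_add, smul_eq_mul, smul_eq_mul,
          smul_eq_mul, smul_eq_mul]
        have hX : hc α (α i + (s - sm α)) (D (X i)) = lead α s D (X i) := by
          rw [lead_X]
          congr 1
          ring
        have e1 : dE (Finsupp.single i (n + 1)) α + (s - sm α)
            = dE (Finsupp.single i n) α + (α i + (s - sm α)) := by
          rw [dE_single, dE_single]; push_cast; ring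
        have e2 : dE (Finsupp.single i n) α + (α i + (s - sm α))
            = α i + (dE (Finsupp.single i n) α + (s - sm α)) := by ring
        rw [e1, hc_mul (LE_monomial α _ c) (LE.der hD (LE_X α i)), hX,
          hc_of_Hg (Hg_monomial α _ c)]
        rw [e2, hc_mul (LE_X α i) (LE.der hD (LE_monomial α _ c)), ih c, hc_of_Hg (Hg_X α i)]
  -- general
  have h1 : f = ∑ m ∈ f.support, monomial m (coeff m f) := (support_sum_monomial_coeff f).symm
  have hsum : ∀ (S : Finset (Fin 3 →₀ ℕ)), (∀ m ∈ S, coeff m f ≠ 0) →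
      hc α (t + (s - sm α)) (D (∑ m ∈ S, monomial m (coeff m f)))
        = lead α s D (hc α t (∑ m ∈ S, monomial m (coeff m f))) := by
    intro S hS
    induction S using Finset.induction_on with
    | empty =>
      rw [Finset.sum_empty, map_zero]
      have hz : ∀ u, hc α u (0 : Rg k) = 0 := by
        intro u
        ext n
        by_cases h2 : dE n α = u
        · rw [coeff_hc_eq _ h2]
        · rw [coeff_hc_ne _ h2, coeff_zero]
      rw [hz, hz, map_zero]
    | insert a S ha ih =>
      rw [Finset.sum_insert ha, map_add, hc_add, hc_add, map_add,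
        ih (fun m hm => hS m (Finset.mem_insert_of_mem hm))]
      congr 1
      have ha' : dE a α ≤ t := hf a (hS a (Finset.mem_insert_self a S))
      rcases ha'.lt_or_eq with h3 | h3
      · have z1 : hc α t (monomial a (coeff a f)) = (0 : Rg k) :=
          hc_eq_zero_of_lt (LE_monomial α a _) h3
        rw [z1, map_zero]
        exact hc_eq_zero_of_lt (LE.der hD (LE_monomial α a _)) (by linarith)
      · have z2 := key a (coeff a f)
        rw [h3] at z2
        rw [z2]
        congr 1
        symm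
        apply hc_of_Hg
        have := Hg_monomial α a (coeff a f)
        rwa [h3] at this
  have h2 := hsum f.support (fun m hm => mem_support_iff.1 hm)
  rw [← h1] at h2
  exact h2

theorem Hg.der {α : Wt} {s t : ℝ} {D : Der k} (hD : ∀ P ∈ supp D, dt P α = s) {f : Rg k}
    (hf : Hg α t f) : Hg α (t + (s - sm α)) (D f) := by
  have h1 : Le (supp D) α s := fun P hP => (hD P hP).le
  have h2 := hc_der h1 hf.LE
  rw [lead_eq_self hD, hc_of_Hg hf] at h2
  rw [← h2]
  exact Hg_hc _ _ _

theorem IsLND.lead {α : Wt} {s : ℝ} {D : Der k} (h : IsLND D) (hD : Le (supp D) α s) :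
    IsLND (lead α s D) := by
  classical
  -- iterate formula for top components
  have iter : ∀ (n : ℕ) (f : Rg k) (t : ℝ), TL.LE α t f →
      TL.LE α (t + n * (s - sm α)) ((⇑D)^[n] f) ∧
      hc α (t + n * (s - sm α)) ((⇑D)^[n] f) = (⇑(TL.lead α s D))^[n] (hc α t f) := by
    intro n
    induction n with
    | zero =>
      intro f t hf
      simp only [Nat.cast_zero, zero_mul, add_zero, Function.iterate_zero, id_eq]
      exact ⟨hf, trivial⟩
    | succ n ih =>
      intro f t hf
      obtain ⟨h1, h2⟩ := ih f t hf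
      have e : t + ((n + 1 : ℕ) : ℝ) * (s - sm α) = (t + n * (s - sm α)) + (s - sm α) := by
        push_cast; ring
      rw [Function.iterate_succ_apply', Function.iterate_succ_apply', e]
      exact ⟨LE.der hD h1, by rw [hc_der hD h1, h2]⟩
  -- monomials
  have hmon : ∀ (m : Fin 3 →₀ ℕ) (c : k), ∃ n, (⇑(TL.lead α s D))^[n] (monomial m c) = 0 := by
    intro m c
    obtain ⟨n, hn⟩ := h (monomial m c)
    refine ⟨n, ?_⟩
    obtain ⟨-, h2⟩ := iter n (monomial m c) (dE m α) (LE_monomial α m c)
    rw [hn, hc_of_Hg (Hg_monomial α m c)] at h2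
    rw [← h2]
    ext n'
    by_cases h3 : dE n' α = dE m α + n * (s - sm α)
    · rw [coeff_hc_eq _ h3]
    · rw [coeff_hc_ne _ h3, coeff_zero]
  have hzero : ∀ n, (⇑(TL.lead α s D))^[n] 0 = 0 := by
    intro n
    induction n with
    | zero => rfl
    | succ n ih => rw [Function.iterate_succ_apply', ih, map_zero]
  have hadd : ∀ n (f g : Rg k), (⇑(TL.lead α s D))^[n] (f + g)
      = (⇑(TL.lead α s D))^[n] f + (⇑(TL.lead α s D))^[n] g := by
    intro n f g
    induction n with
    | zero => rfl
    | succ n ih => rw [Function.iterate_succ_apply', Function.iterate_succ_apply',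
        Function.iterate_succ_apply', ih, map_add]
  have hup : ∀ n n' (f : Rg k), n ≤ n' → (⇑(TL.lead α s D))^[n] f = 0 →
      (⇑(TL.lead α s D))^[n'] f = 0 := by
    intro n n' f hnn' h0
    obtain ⟨j, rfl⟩ := Nat.exists_eq_add_of_le hnn'
    rw [add_comm, Function.iterate_add_apply, h0, hzero]
  intro f
  induction f using MvPolynomial.induction_on' with
  | monomial m c => exact hmon m c
  | add p q hp hq =>
    obtain ⟨n1, h1⟩ := hp
    obtain ⟨n2, h2⟩ := hq
    refine ⟨max n1 n2, ?_⟩
    rw [hadd, hup n1 _ p (le_max_left _ _) h1, hup n2 _ q (le_max_right _ _) h2, add_zero]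

end Pool.Agent.TL
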