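import Pool.Agent.TL.BA

set_option autoImplicit false

/-! # BC: conjugation, isometries, generators -/

namespace Pool.Agent.TL

open MvPolynomial

variable {k : Type} [Field k]

@[simp] theorem conj_apply (σ : Au k) (D : Der k) (f : Rg k) :
    conj σ D f = σ.symm (D (σ f)) := rfl

theorem conj_one (D : Der k) : conj 1 D = D := by
  ext i
  rfl

theorem conj_mul (σ τ : Au k) (D : Der k) : conj (σ * τ) D = conj τ (conj σ D) := by
  apply Derivation.ext
  intro f
  rfl

theorem conj_iterate (σ : Au k) (D : Der k) (n : ℕ) (f : Rg k) :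
    (⇑(conj σ D))^[n] f = σ.symm ((⇑D)^[n] (σ f)) := by
  induction n with
  | zero => simp
  | succ n ih =>
    rw [Function.iterate_succ_apply', ih, conj_apply, AlgEquiv.apply_symm_apply,
      Function.iterate_succ_apply']

theorem IsLND.conj {D : Der k} (h : IsLND D) (σ : Au k) : IsLND (conj σ D) := by
  intro f
  obtain ⟨n, hn⟩ := h (σ f)
  exact ⟨n, by rw [conj_iterate, hn, map_zero]⟩

theorem conj_ne_zero {D : Der k} (h : D ≠ 0) (σ : Au k) : conj σ D ≠ 0 := by
  intro h0
  apply h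
  apply Derivation.ext
  intro f
  have h1 : TL.conj σ D (σ.symm f) = 0 := by rw [h0]; rfl
  rw [conj_apply, AlgEquiv.apply_symm_apply] at h1
  have h2 := congrArg σ h1
  rwa [AlgEquiv.apply_symm_apply, map_zero] at h2

theorem Pres.one (α : Wt) : Pres (1 : Au k) α α :=
  ⟨fun j => LE_X α j, fun j => LE_X α j⟩

theorem Pres.mul {σ τ : Au k} {α β γ : Wt} (h : Pres σ α β) (h' : Pres τ β γ) :
    Pres (σ * τ) α γ :=
  ⟨fun j => LE.hom (σ : Rg k →ₐ[k] Rg k) h.1 (h'.1 j),
    fun j => LE.hom (τ.symm : Rg k →ₐ[k] Rg k) h'.2 (h.2 j)⟩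

theorem Pres.inv {σ : Au k} {α β : Wt} (h : Pres σ α β) : Pres σ⁻¹ β α :=
  ⟨h.2, h.1⟩

theorem PermW.refl (α : Wt) : PermW α α := ⟨1, fun _ => rfl⟩

theorem PermW.trans {α β γ : Wt} (h : PermW α β) (h' : PermW β γ) : PermW α γ := by
  obtain ⟨π, hπ⟩ := h
  obtain ⟨π', hπ'⟩ := h'
  exact ⟨π * π', fun j => by rw [hπ', hπ]; rfl⟩

theorem PermW.symm {α β : Wt} (h : PermW α β) : PermW β α := by
  obtain ⟨π, hπ⟩ := h
  exact ⟨π.symm, fun j => by rw [hπ, Equiv.apply_symm_apply]⟩

theorem PermW.sm {α β : Wt} (h : PermW α β) : sm α = sm β := by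
  obtain ⟨π, hπ⟩ := h
  unfold TL.sm
  rw [Finset.sum_congr rfl fun j _ => hπ j]
  exact (Equiv.sum_comp π α).symm

/-- weights on the new coordinates are nonnegative if the old ones are -/
theorem Pres.nonneg {σ : Au k} {α β : Wt} (h : Pres σ α β) (h0 : ∀ i, 0 ≤ α i) :
    ∀ i, 0 ≤ β i := by
  intro i
  have hne : σ (X i) ≠ 0 := by
    intro h1
    exact X_ne_zero (R := k) i (σ.injective (by rw [h1, map_zero]))
  obtain ⟨m, hm⟩ := MvPolynomial.ne_zero_iff.1 hne
  exact (dE_nonneg m h0).trans (h.1 i m hm)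

theorem El_apply_self (i : Fin 3) (M : Fin 3 →₀ ℕ) (c : k) (h : M i = 0) :
    El i M c h (X i) = X i + monomial M c := by
  change eh i M c (X i) = _
  simp [eh]

theorem El_apply_ne {i j : Fin 3} (M : Fin 3 →₀ ℕ) (c : k) (h : M i = 0) (hj : j ≠ i) :
    El i M c h (X j) = X j := by
  change eh i M c (X j) = _
  simp [eh, hj]

theorem El_symm (i : Fin 3) (M : Fin 3 →₀ ℕ) (c : k) (h : M i = 0) :
    (El i M c h).symm = El i M (-c) h := by
  apply AlgEquiv.ext
  intro f
  rfl

theorem El_monomial (i : Fin 3) (M N : Fin 3 →₀ ℕ) (c d : k) (h : M i = 0) (hN : N i = 0) :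
    El i M c h (monomial N d) = monomial N d :=
  eh_monomial i M c d N hN

theorem Pres_El {i : Fin 3} {M : Fin 3 →₀ ℕ} {c : k} (h : M i = 0) {α : Wt}
    (hα : dE M α ≤ α i) : Pres (El i M c h) α α := by
  have key : ∀ c : k, ∀ j, LE α (α j) (El i M c h (X j)) := by
    intro c j
    by_cases hj : j = i
    · subst hj
      rw [El_apply_self]
      exact (LE_X α j).add ((LE_monomial α M c).mono hα)
    · rw [El_apply_ne M c h hj]
      exact LE_X α j
  refine ⟨key c, fun j => ?_⟩
  rw [El_symm]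
  exact key (-c) j

theorem BC_Sc_X (u : Fin 3 → kˣ) (j : Fin 3) : Sc u (X j) = C (u j : k) * X j := by
  change aeval (fun j => C (u j : k) * X j) (X j) = _
  rw [aeval_X]

theorem BC_Sc_symm (u : Fin 3 → kˣ) (f : Rg k) :
    (Sc u).symm f = aeval (fun j => C ((u j)⁻¹ : k) * X j) f := rfl

theorem Pres_Sc (u : Fin 3 → kˣ) (α : Wt) : Pres (Sc u : Au k) α α := by
  refine ⟨fun j => ?_, fun j => ?_⟩
  · rw [BC_Sc_X]
    have := (LE_C α (u j : k)).mul (LE_X (k := k) α j)
    rwa [zero_add] at this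
  · rw [BC_Sc_symm, aeval_X]
    have := (LE_C α ((u j : k)⁻¹)).mul (LE_X (k := k) α j)
    rwa [zero_add] at this

theorem BC_Pm_X (π : Equiv.Perm (Fin 3)) (j : Fin 3) : (Pm π : Au k) (X j) = X (π j) := by
  change rename π (X j) = _
  rw [rename_X]

theorem BC_Pm_symm (π : Equiv.Perm (Fin 3)) (f : Rg k) :
    (Pm π : Au k).symm f = rename π.symm f := rfl

/-- `Pm π` sends `x_j` to `x_(π j)`; so the new weights are `α ∘ π` -/
theorem Pres_Pm (π : Equiv.Perm (Fin 3)) (α : Wt) : Pres (Pm π : Au k) α (fun j => α (π j)) := by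
  refine ⟨fun j => ?_, fun j => ?_⟩
  · rw [BC_Pm_X]
    exact LE_X α (π j)
  · rw [BC_Pm_symm, rename_X]
    have := LE_X (k := k) (fun j => α (π j)) (π.symm j)
    simpa only [Equiv.apply_symm_apply] using this

theorem BC_Le_conj {τ : Au k} {α β : Wt} (h : Pres τ α β) (hs : sm α = sm β) (D : Der k) (s : ℝ)
    (hL : Le (supp D) α s) : Le (supp (conj τ D)) β s := by
  rw [Le_supp_iff]
  intro j
  have h1 : LE α (β j + (s - sm α)) (D (τ (X j))) := LE.der hL (h.1 j)
  have h2 : LE β (β j + (s - sm α)) (τ.symm (D (τ (X j)))) :=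
    LE.hom (τ.symm : Rg k →ₐ[k] Rg k) h.2 h1
  rw [conj_apply]
  refine h2.mono (le_of_eq ?_)
  rw [hs]; ring

/-- the weight of `D` is intrinsic -/
theorem Le_conj {τ : Au k} {α β : Wt} (h : Pres τ α β) (hs : sm α = sm β) (D : Der k) (s : ℝ) :
    Le (supp (conj τ D)) β s ↔ Le (supp D) α s := by
  refine ⟨fun hL => ?_, BC_Le_conj h hs D s⟩
  have h1 := BC_Le_conj h.inv hs.symm _ s hL
  rwa [← conj_mul, mul_inv_cancel, conj_one] at h1

theorem BC_lt_iff (S : Finset (Fin 3 → ℕ)) (α : Wt) (s : ℝ) :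
    (∀ P ∈ S, dt P α < s) ↔ ∃ s' < s, Le S α s' := by
  constructor
  · intro h
    rcases S.eq_empty_or_nonempty with rfl | hS
    · exact ⟨s - 1, by linarith, fun P hP => absurd hP (Finset.notMem_empty P)⟩
    · obtain ⟨P, hP, hmax⟩ := S.exists_max_image (fun P => dt P α) hS
      exact ⟨dt P α, h P hP, hmax⟩
  · rintro ⟨s', hs', h⟩ P hP
    exact (h P hP).trans_lt hs'

/-- same with strict inequalities -/
theorem lt_conj {τ : Au k} {α β : Wt} (h : Pres τ α β) (hs : sm α = sm β) (D : Der k) (s : ℝ) :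
    (∀ P ∈ supp (conj τ D), dt P β < s) ↔ (∀ P ∈ supp D, dt P α < s) := by
  rw [BC_lt_iff, BC_lt_iff]
  simp only [Le_conj h hs]

theorem BC_coeff_scale (a : Fin 3 → k) (m : Fin 3 →₀ ℕ) (f : Rg k) :
    coeff m (aeval (fun j => C (a j) * X j : Fin 3 → Rg k) f) = (∏ j, a j ^ m j) * coeff m f := by
  classical
  induction f using MvPolynomial.induction_on' with
  | monomial u c =>
    have h1 : aeval (fun j => C (a j) * X j : Fin 3 → Rg k) (monomial u c) =
        monomial u (c * ∏ j, a j ^ u j) := by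
      rw [aeval_monomial, monomial_eq, Finsupp.prod_fintype _ _ (fun i => pow_zero _),
        Finsupp.prod_fintype _ _ (fun i => pow_zero _), map_mul, map_prod, algebraMap_eq, mul_assoc,
        ← Finset.prod_mul_distrib]
      congr 1
      apply Finset.prod_congr rfl
      intro j _
      rw [mul_pow, map_pow]
    rw [h1, coeff_monomial, coeff_monomial]
    split_ifs with h
    · subst h; ring
    · ring
  | add p q hp hq =>
    rw [map_add, coeff_add, coeff_add, hp, hq]; ring

/-- permutations and diagonal automorphisms only permute the support -/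
theorem supp_conj_Sc (u : Fin 3 → kˣ) (D : Der k) : supp (conj (Sc u) D) = supp D := by
  ext P
  rw [mem_supp, mem_supp]
  have key : ∀ i m, coeff m (conj (Sc u) D (X i)) =
      (u i : k) * ((∏ j, ((u j : k)⁻¹) ^ m j) * coeff m (D (X i))) := by
    intro i m
    rw [conj_apply, BC_Sc_X, BC_Sc_symm]
    have h1 : D (C (u i : k) * X i) = C (u i : k) * D (X i) := by
      rw [← smul_eq_C_mul, ← smul_eq_C_mul, Derivation.map_smul]
    rw [h1, map_mul, ← algebraMap_eq, AlgHom.commutes, algebraMap_eq, coeff_C_mul,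
      BC_coeff_scale]
  have hne : ∀ i m, (coeff m (conj (Sc u) D (X i)) ≠ 0 ↔ coeff m (D (X i)) ≠ 0) := by
    intro i m
    rw [key]
    have h1 : (u i : k) ≠ 0 := (u i).ne_zero
    have h2 : (∏ j, ((u j : k)⁻¹) ^ m j) ≠ 0 :=
      Finset.prod_ne_zero_iff.2 fun j _ => pow_ne_zero _ (inv_ne_zero (u j).ne_zero)
    constructor
    · intro h h0
      exact h (by rw [h0]; ring)
    · intro h
      exact mul_ne_zero h1 (mul_ne_zero h2 h)
  simp only [hne]

theorem mem_supp_conj_Pm (π : Equiv.Perm (Fin 3)) (D : Der k) (P : Fin 3 → ℕ) :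
    P ∈ supp (conj (Pm π) D) ↔ (fun j => P (π.symm j)) ∈ supp D := by
  rw [mem_supp, mem_supp]
  have hmap : ∀ (m : Fin 3 →₀ ℕ) (j : Fin 3), (m.mapDomain π) j = m (π.symm j) := by
    intro m j
    conv_lhs => rw [← π.apply_symm_apply j]
    exact Finsupp.mapDomain_apply π.injective m (π.symm j)
  have hsh : ∀ (i : Fin 3) (m : Fin 3 →₀ ℕ) (j : Fin 3),
      sh (π i) (m.mapDomain π) j = sh i m (π.symm j) := by
    intro i m j
    unfold sh
    rw [hmap]
    have : j = π i ↔ π.symm j = i := by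
      constructor
      · rintro rfl; simp
      · rintro rfl; simp
    simp only [this]
  have hco : ∀ (i : Fin 3) (m : Fin 3 →₀ ℕ), coeff m (conj (Pm π) D (X i)) =
      coeff (m.mapDomain π) (D (X (π i))) := by
    intro i m
    rw [conj_apply, BC_Pm_X, BC_Pm_symm]
    have h1 := coeff_rename_mapDomain (R := k) π.symm π.symm.injective (D (X (π i)))
      (m.mapDomain π)
    rw [← Finsupp.mapDomain_comp] at h1
    have h2 : ((π.symm : Fin 3 → Fin 3) ∘ π) = id := by
      funext j; simp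
    rw [h2, Finsupp.mapDomain_id] at h1
    exact h1
  constructor
  · rintro ⟨i, m, hc, rfl⟩
    refine ⟨π i, m.mapDomain π, ?_, ?_⟩
    · rw [← hco]; exact hc
    · funext j; exact hsh i m j
  · rintro ⟨i, m, hc, hP⟩
    have hm : (m.mapDomain π.symm).mapDomain π = m := by
      rw [← Finsupp.mapDomain_comp]
      have h2 : ((π : Fin 3 → Fin 3) ∘ π.symm) = id := by
        funext j; simp
      rw [h2, Finsupp.mapDomain_id]
    refine ⟨π.symm i, m.mapDomain π.symm, ?_, ?_⟩
    · rw [hco, hm, Equiv.apply_symm_apply]; exact hc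
    · funext j
      have h1 := hsh (π.symm i) (m.mapDomain π.symm) (π j)
      rw [hm, Equiv.apply_symm_apply, Equiv.symm_apply_apply] at h1
      rw [← h1]
      have h2 := congrFun hP (π j)
      simpa only [Equiv.symm_apply_apply] using h2

end Pool.Agent.TL
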