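import Pool.Agent.TL.LN
import Pool.Agent.TL.BB

set_option autoImplicit false

/-! # CL: the kernel of a bihomogeneous locally nilpotent derivation

Proof. Call `f` homogeneous of type `(u, v)` if all its monomials have `m * e_a + p * e_b = u` and
`p * e_c - i * e_a = v` (two integer gradings; monomials of the same type differ by integer
multiples of `w = (p, -m, i)`, because `gcd (p, m, i) = 1`). `D` shifts types by a constant
`(δ₁, δ₂)` (hypothesis `hom`).
(k1) a nonzero homogeneous `f` in the kernel is divisible neither by `x_a` nor by `x_b`, since the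
kernel is factorially closed and `D x_a ≠ 0`, `D x_b ≠ 0`; so it has a monomial with `e_a = 0` and
one with `e_b = 0`.
(k2) two nonzero kernel elements of the same type are proportional: there is exactly one monomial of
that type with `e_b = 0`; eliminate it, the difference is divisible by `x_b`.
Let `x = ld x_a ≥ 1`, `y = ld x_b ≥ 1`, `ld x_c = 0`, `P = x_a^p x_c^i`, `Q = x_b^m`, same type,
first grading `p m`; `ld P = p x`, `ld Q = m y`.
(1) `ld P = ld Q`: otherwise one of `D^(ld P) P`, `D^(ld Q) Q` has positive first grading (they are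
`p m + ld P * δ₁` and `p m + ld Q * δ₁`, both `≥ 0`, and they are different or `δ₁ = 0`); by (k1) it
contains `J + 1 ≥ 2` positions `(0, J m, *) + j w`; the monomials have pairwise different `ld`
(`ld` changes by `p x - m y ≠ 0` along `w`), so its `ld` is the maximum of the `ld`s of its
monomials, which is positive; contradiction.
(2) put `t = ld P = ld Q`; `D^t P` and `D^t Q` are kernel elements of the same type, so
`D^t P = κ D^t Q`, `κ ≠ 0`; then `L = P - κ Q ≠ 0` has `ld L = l < t`.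
(3) If `l ≥ 1` let `f = D^l L`, in the kernel, of first grading `p m + l δ₁ > 0` (because
`p m + t δ₁ ≥ 0` and `l < t`). By (k1) `f = x_c^z F`, `F = ∑ c_j P^j Q^(J-j)`, `J ≥ 1`,
`F` in the kernel. Comparing the coefficients of `T^(t J)` in `ex D F` (`t J ≥ 1`):
`∑ c_j κ^j = 0`. So `L` divides `F` and `L` is in the kernel, contradiction. Hence `D L = 0`.
(4) `p x_a^(p-1) x_c^i D x_a = κ m x_b^(m-1) D x_b`. If `p ≥ 2` then `x_a ∣ D x_b`, so
`ld x_b - 1 ≥ ld x_a`; if `m ≥ 2` then `x_b ∣ D x_a`, so `ld x_a - 1 ≥ ld x_b`. Not both. -/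

namespace Pool.Agent.TL

open MvPolynomial

variable {k : Type} [Field k]

namespace CLAux

theorem X_dvd_of {f : Rg k} {j : Fin 3} (h : ∀ e, coeff e f ≠ 0 → e j ≠ 0) :
    (X j : Rg k) ∣ f := by
  rw [f.as_sum]
  apply Finset.dvd_sum
  intro e he
  have h1 := h e (mem_support_iff.mp he)
  refine ⟨monomial (e - Finsupp.single j 1) (coeff e f), ?_⟩
  rw [X, monomial_mul, one_mul]
  have h2 : Finsupp.single j 1 + (e - Finsupp.single j 1) = e := by
    apply add_tsub_cancel_of_le
    rw [Finsupp.single_le_iff]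
    omega
  rw [h2]

/-- first weight -/
def W1 (a b : Fin 3) (p m : ℕ) : Wt := fun j => if j = a then (m : ℝ) else if j = b then (p : ℝ) else 0
/-- second weight -/
def W2 (a c : Fin 3) (p i : ℕ) : Wt := fun j => if j = a then -(i : ℝ) else if j = c then (p : ℝ) else 0

theorem dE_W1 {a b c : Fin 3} (hab : a ≠ b) (hac : a ≠ c) (hbc : b ≠ c) (p m : ℕ)
    (e : Fin 3 →₀ ℕ) : dE e (W1 a b p m) = m * e a + p * e b := by
  rw [dE, sum3 hab hac hbc]
  simp [W1, hab.symm, hac.symm, hbc.symm]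
  ring

theorem dE_W2 {a b c : Fin 3} (hab : a ≠ b) (hac : a ≠ c) (hbc : b ≠ c) (p i : ℕ)
    (e : Fin 3 →₀ ℕ) : dE e (W2 a c p i) = p * e c - i * e a := by
  rw [dE, sum3 hab hac hbc]
  simp [W2, hab.symm, hac.symm, hbc]
  ring

theorem dt_W1 {a b c : Fin 3} (hab : a ≠ b) (hac : a ≠ c) (hbc : b ≠ c) (p m : ℕ)
    (e : Fin 3 → ℕ) : dt e (W1 a b p m) = m * e a + p * e b := by
  rw [dt, sum3 hab hac hbc]
  simp [W1, hab.symm, hac.symm, hbc.symm]
  ring

theorem dt_W2 {a b c : Fin 3} (hab : a ≠ b) (hac : a ≠ c) (hbc : b ≠ c) (p i : ℕ)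
    (e : Fin 3 → ℕ) : dt e (W2 a c p i) = p * e c - i * e a := by
  rw [dt, sum3 hab hac hbc]
  simp [W2, hab.symm, hac.symm, hbc]
  ring

/-- integral vectors of type zero -/
theorem bez {p m i : ℕ} (hp : 1 ≤ p) (hg : Nat.gcd p (Nat.gcd m i) = 1) {x y z : ℤ}
    (h1 : m * x + p * y = 0) (h2 : p * z = i * x) :
    ∃ t : ℤ, x = t * p ∧ y = -t * m ∧ z = t * i := by
  have e1 := Nat.gcd_eq_gcd_ab m i
  have e2 := Nat.gcd_eq_gcd_ab p (Nat.gcd m i)
  rw [hg, e1] at e2
  set A := Nat.gcdA p (Nat.gcd m i)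
  set B := Nat.gcdB p (Nat.gcd m i)
  set A' := Nat.gcdA m i
  set B' := Nat.gcdB m i
  have hp0 : (p : ℤ) ≠ 0 := by positivity
  have h3 : (m : ℤ) * z = -(i * y) := by
    apply mul_left_cancel₀ hp0
    linear_combination (m : ℤ) * h2 - (-(i : ℤ)) * h1
  push_cast at e2
  refine ⟨A * x - A' * B * y + B' * B * z, ?_, ?_, ?_⟩
  · linear_combination x * e2 + (A' * B) * h1 - (B' * B) * h2
  · linear_combination y * e2 + A * h1 + (B' * B) * h3
  · linear_combination z * e2 + A * h2 + (A' * B) * h3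

theorem same_type {a b c : Fin 3} (hab : a ≠ b) (hac : a ≠ c) (hbc : b ≠ c)
    {p m i : ℕ} (hp : 1 ≤ p) (hg : Nat.gcd p (Nat.gcd m i) = 1) {e e' : Fin 3 →₀ ℕ}
    (h1 : dE e (W1 a b p m) = dE e' (W1 a b p m)) (h2 : dE e (W2 a c p i) = dE e' (W2 a c p i)) :
    ∃ t : ℤ, (e' a : ℤ) = e a + t * p ∧ (e' b : ℤ) = e b - t * m ∧ (e' c : ℤ) = e c + t * i := by
  rw [dE_W1 hab hac hbc, dE_W1 hab hac hbc] at h1
  rw [dE_W2 hab hac hbc, dE_W2 hab hac hbc] at h2
  have h1' : (m : ℤ) * e a + p * e b = m * e' a + p * e' b := by exact_mod_cast h1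
  have h2' : (p : ℤ) * e c - i * e a = p * e' c - i * e' a := by exact_mod_cast h2
  obtain ⟨t, h3, h4, h5⟩ := bez (m := m) (i := i) (x := (e' a : ℤ) - e a) (y := (e' b : ℤ) - e b)
    (z := (e' c : ℤ) - e c) hp hg (by linarith) (by linarith)
  exact ⟨t, by linarith, by linarith, by linarith⟩

/-- structure of homogeneous polynomials not divisible by `x_a`, `x_b` -/
theorem struct {a b c : Fin 3} (hab : a ≠ b) (hac : a ≠ c) (hbc : b ≠ c)
    {p m i : ℕ} (hp : 1 ≤ p) (hm : 1 ≤ m) (hg : Nat.gcd p (Nat.gcd m i) = 1) {f : Rg k} {u v : ℝ}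
    (h1 : Hg (W1 a b p m) u f) (h2 : Hg (W2 a c p i) v f)
    (ha : ¬ (X a : Rg k) ∣ f) (hb : ¬ (X b : Rg k) ∣ f) :
    ∃ (J z : ℕ) (d : ℕ → k), u = p * m * J ∧
      f = X c ^ z * ∑ j ∈ Finset.range (J + 1),
        C (d j) * ((X a ^ p * X c ^ i) ^ j * (X b ^ m) ^ (J - j)) ∧ d 0 ≠ 0 ∧ d J ≠ 0 := by
  obtain ⟨e0, he0, ha0⟩ : ∃ e, coeff e f ≠ 0 ∧ e a = 0 := by
    by_contra hcon
    push Not at hcon
    exact ha (X_dvd_of hcon)
  obtain ⟨e1, he1, hb1⟩ : ∃ e, coeff e f ≠ 0 ∧ e b = 0 := by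
    by_contra hcon
    push Not at hcon
    exact hb (X_dvd_of hcon)
  have key : ∀ e, coeff e f ≠ 0 → ∃ t : ℕ, e a = t * p ∧ (e b : ℤ) = e0 b - t * m ∧
      e c = e0 c + t * i := by
    intro e he
    obtain ⟨t, h3, h4, h5⟩ := same_type hab hac hbc hp hg (e := e0) (e' := e)
      ((h1 e0 he0).trans (h1 e he).symm) ((h2 e0 he0).trans (h2 e he).symm)
    rw [ha0] at h3
    have ht : 0 ≤ t := by
      have : 0 ≤ t * (p : ℤ) := by
        have := Int.natCast_nonneg (e a)
        push_cast at h3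
        linarith
      exact nonneg_of_mul_nonneg_left this (by exact_mod_cast hp)
    obtain ⟨t, rfl⟩ := Int.eq_ofNat_of_zero_le ht
    refine ⟨t, ?_, ?_, ?_⟩
    · zify; push_cast at h3; linarith
    · exact h4
    · zify; linarith
  obtain ⟨J, hJa, hJb, hJc⟩ := key e1 he1
  rw [hb1] at hJb
  have hJb' : e0 b = J * m := by zify; push_cast at hJb; linarith
  -- bounds
  have bound : ∀ t : ℕ, ∀ x : ℕ, (x : ℤ) = e0 b - t * m → t ≤ J ∧ x = (J - t) * m := by
    intro t x hx
    rw [hJb'] at hx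
    push_cast at hx
    have h3 : (t : ℤ) * m ≤ J * m := by
      have := Int.natCast_nonneg x
      linarith
    have h4 : (t : ℤ) ≤ J := le_of_mul_le_mul_right h3 (by exact_mod_cast hm)
    have h5 : t ≤ J := by exact_mod_cast h4
    refine ⟨h5, ?_⟩
    zify [h5]
    linarith
  -- exponents
  let E : ℕ → (Fin 3 →₀ ℕ) := fun j => Finsupp.single a (j * p) + Finsupp.single b ((J - j) * m) +
    Finsupp.single c (e0 c + j * i)
  have hE : ∀ e, coeff e f ≠ 0 → ∃ t, t ≤ J ∧ e = E t := by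
    intro e he
    obtain ⟨t, h3, h4, h5⟩ := key e he
    obtain ⟨h6, h7⟩ := bound t (e b) h4
    refine ⟨t, h6, ?_⟩
    ext j
    rcases eq_of_ne hab hac hbc j with rfl | rfl | rfl
    · simp [E, h3, hab, hac, hab.symm, hac.symm]
    · simp [E, h7, hab, hbc, hab.symm, hbc.symm]
    · simp [E, h5, hac, hbc, hac.symm, hbc.symm]
  have hEa : ∀ t, (E t) a = t * p := by
    intro t
    simp [E, hab, hac, hab.symm, hac.symm]
  have hEb : ∀ t, (E t) b = (J - t) * m := by
    intro t
    simp [E, hab, hbc, hab.symm, hbc.symm]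
  have hinj : ∀ s t, E s = E t → s = t := by
    intro s t h
    have := congrArg (fun e => e a) h
    simp only [hEa] at this
    exact Nat.eq_of_mul_eq_mul_right (by omega) this
  have hmon : ∀ j, (monomial (E j) (coeff (E j) f) : Rg k) =
      X c ^ (e0 c) * (C (coeff (E j) f) * ((X a ^ p * X c ^ i) ^ j * (X b ^ m) ^ (J - j))) := by
    intro j
    have : (monomial (E j) (coeff (E j) f) : Rg k) = C (coeff (E j) f) *
        (X a ^ (j * p) * X b ^ ((J - j) * m) * X c ^ (e0 c + j * i)) := by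
      simp only [E, X_pow_eq_monomial, C_mul_monomial, monomial_mul]
      simp
    rw [this, mul_pow, ← pow_mul, ← pow_mul, ← pow_mul, pow_add, mul_comm p j, mul_comm i j,
      mul_comm m (J - j)]
    ring
  refine ⟨J, e0 c, fun j => coeff (E j) f, ?_, ?_, ?_, ?_⟩
  · have h3 := h1 e0 he0
    rw [dE_W1 hab hac hbc, ha0, hJb'] at h3
    rw [← h3]
    push_cast
    ring
  · rw [Finset.mul_sum]
    rw [← Finset.sum_congr rfl (fun j _ => hmon j)]
    conv_lhs => rw [f.as_sum]
    have hsub : f.support ⊆ (Finset.range (J + 1)).image E := by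
      intro e he
      obtain ⟨t, h3, h4⟩ := hE e (mem_support_iff.mp he)
      exact Finset.mem_image.mpr ⟨t, Finset.mem_range.mpr (by omega), h4.symm⟩
    rw [Finset.sum_subset hsub, Finset.sum_image]
    · intro s _ t _ h; exact hinj s t h
    · intro e _ he
      rw [notMem_support_iff.mp he]; simp
  · obtain ⟨t, h3, h4⟩ := hE e0 he0
    have h5 : t = 0 := by
      have := hEa t
      rw [← h4, ha0] at this
      rcases Nat.mul_eq_zero.mp this.symm with h | h
      · exact h
      · omega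
    subst h5
    show coeff (E 0) f ≠ 0
    rw [← h4]; exact he0
  · obtain ⟨t, h3, h4⟩ := hE e1 he1
    have h5 : t = J := by
      have := hEb t
      rw [← h4, hb1] at this
      rcases Nat.mul_eq_zero.mp this.symm with h | h
      · omega
      · omega
    subst h5
    show coeff (E t) f ≠ 0
    rw [← h4]; exact he1

theorem Hg_sub {α : Wt} {s : ℝ} {f g : Rg k} (hf : Hg α s f) (hg : Hg α s g) (κ : k) :
    Hg α s (f - C κ * g) := by
  intro e he
  rw [coeff_sub, coeff_C_mul] at he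
  by_cases h : coeff e f = 0
  · apply hg
    intro h2
    rw [h, h2] at he
    simp at he
  · exact hf e h

theorem iter_Hg {α : Wt} {s t : ℝ} {D : Der k} (hD : ∀ P ∈ supp D, dt P α = s) {f : Rg k}
    (hf : Hg α t f) (n : ℕ) : Hg α (t + n * (s - sm α)) ((⇑D)^[n] f) := by
  induction n with
  | zero => simpa using hf
  | succ n ih =>
    rw [Function.iterate_succ_apply']
    have := Hg.der hD ih
    convert this using 1
    push_cast
    ring

theorem W1_nonneg {a b c : Fin 3} (hab : a ≠ b) (hac : a ≠ c) (hbc : b ≠ c) {p m : ℕ} {u : ℝ}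
    {f : Rg k} (h : Hg (W1 a b p m) u f) (hf : f ≠ 0) : 0 ≤ u := by
  obtain ⟨e, he⟩ := ne_zero_iff.mp hf
  rw [← h e he, dE_W1 hab hac hbc]
  positivity

section char0

variable [CharZero k]

theorem ld_pow {D : Der k} (hD : IsLND D) {f : Rg k} (hf : f ≠ 0) (n : ℕ) :
    ld D hD (f ^ n) = n * ld D hD f := by
  induction n with
  | zero =>
    rw [pow_zero, zero_mul, ld_eq_zero_iff]
    exact D.map_one_eq_zero
  | succ n ih =>
    rw [pow_succ, ld_mul hD (pow_ne_zero n hf) hf, ih]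
    ring

theorem ld_C {D : Der k} (hD : IsLND D) (κ : k) : ld D hD (C κ) = 0 := by
  rw [ld_eq_zero_iff]
  exact D.map_algebraMap κ

/-- one dominating term -/
theorem sum_top {D : Der k} (hD : IsLND D) {ι : Type} (s : Finset ι) (g : ι → Rg k) {j0 : ι}
    (hj0 : j0 ∈ s) (h0 : g j0 ≠ 0) (hpos : 0 < ld D hD (g j0))
    (h : ∀ j ∈ s, j ≠ j0 → ld D hD (g j) < ld D hD (g j0)) : D (∑ j ∈ s, g j) ≠ 0 := by
  intro hcon
  rw [← ld_eq_zero_iff hD] at hcon
  have h1 : (ex D hD (∑ j ∈ s, g j)).coeff (ld D hD (g j0)) = 0 := by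
    apply Polynomial.coeff_eq_zero_of_natDegree_lt
    change ld D hD _ < _
    omega
  rw [map_sum, Polynomial.finset_sum_coeff, Finset.sum_eq_single j0] at h1
  · change (ex D hD (g j0)).leadingCoeff = 0 at h1
    rw [Polynomial.leadingCoeff_eq_zero] at h1
    exact h0 (ex_injective D hD (h1.trans (map_zero _).symm))
  · intro j hj hne
    apply Polynomial.coeff_eq_zero_of_natDegree_lt
    exact h j hj hne
  · intro h2; exact absurd hj0 h2

theorem ne_top {D : Der k} (hD : IsLND D) {P Q : Rg k} (hP : P ≠ 0) (hQ : Q ≠ 0)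
    (hne : ld D hD P ≠ ld D hD Q) {J : ℕ} (hJ : 1 ≤ J) (d : ℕ → k) (h0 : d 0 ≠ 0) (h1 : d J ≠ 0) :
    D (∑ j ∈ Finset.range (J + 1), C (d j) * (P ^ j * Q ^ (J - j))) ≠ 0 := by
  have hl : ∀ j, d j ≠ 0 → ld D hD (C (d j) * (P ^ j * Q ^ (J - j))) =
      j * ld D hD P + (J - j) * ld D hD Q := by
    intro j hj
    have hCj : (C (d j) : Rg k) ≠ 0 := by rwa [Ne, C_eq_zero]
    rw [ld_mul hD hCj (mul_ne_zero (pow_ne_zero _ hP) (pow_ne_zero _ hQ)),
      ld_mul hD (pow_ne_zero _ hP) (pow_ne_zero _ hQ), ld_pow hD hP, ld_pow hD hQ, ld_C, zero_add]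
  have hz : ∀ j, d j = 0 → ld D hD (C (d j) * (P ^ j * Q ^ (J - j))) = 0 := by
    intro j hj
    rw [hj, C_0, zero_mul, ld_eq_zero_iff, map_zero]
  rcases Nat.lt_or_gt_of_ne hne with hlt | hlt
  · -- `j = 0` dominates
    apply sum_top hD _ _ (j0 := 0) (by simp)
    · have hCj : (C (d 0) : Rg k) ≠ 0 := by rwa [Ne, C_eq_zero]
      exact mul_ne_zero hCj (mul_ne_zero (pow_ne_zero _ hP) (pow_ne_zero _ hQ))
    · rw [hl 0 h0]
      have : 0 < J * ld D hD Q := Nat.mul_pos (by omega) (by omega)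
      simpa using this
    · intro j hj hj0
      have hjJ : j ≤ J := by have := Finset.mem_range.mp hj; omega
      rw [hl 0 h0]
      have hpos : 0 < J * ld D hD Q := Nat.mul_pos (by omega) (by omega)
      by_cases hd : d j = 0
      · rw [hz j hd]
        simpa using hpos
      · rw [hl j hd]
        obtain ⟨r, rfl⟩ := Nat.exists_eq_add_of_le hjJ
        have h3 : j * ld D hD P < j * ld D hD Q := Nat.mul_lt_mul_of_pos_left hlt (by omega)
        have h4 : j + r - j = r := by omega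
        rw [h4, Nat.sub_zero, add_mul]
        omega
  · apply sum_top hD _ _ (j0 := J) (by simp)
    · have hCj : (C (d J) : Rg k) ≠ 0 := by rwa [Ne, C_eq_zero]
      exact mul_ne_zero hCj (mul_ne_zero (pow_ne_zero _ hP) (pow_ne_zero _ hQ))
    · rw [hl J h1]
      have : 0 < J * ld D hD P := Nat.mul_pos (by omega) (by omega)
      simpa using this
    · intro j hj hj0
      have hjJ : j ≤ J := by have := Finset.mem_range.mp hj; omega
      rw [hl J h1]
      have hpos : 0 < J * ld D hD P := Nat.mul_pos (by omega) (by omega)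
      by_cases hd : d j = 0
      · rw [hz j hd]
        simpa using hpos
      · rw [hl j hd]
        obtain ⟨r, rfl⟩ := Nat.exists_eq_add_of_le hjJ
        have h3 : r * ld D hD Q < r * ld D hD P := Nat.mul_lt_mul_of_pos_left hlt (by omega)
        have h4 : j + r - j = r := by omega
        rw [h4, Nat.sub_self, add_mul]
        omega

/-- kernel element of degree `J ≥ 1` in `P, Q` with proportional leading coefficients -/
theorem dvd_of_ker {D : Der k} (hD : IsLND D) {P Q : Rg k} {t : ℕ} (ht : 1 ≤ t)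
    (hPt : ld D hD P = t) (hQt : ld D hD Q = t) {κ : k} (hQ : Q ≠ 0)
    (hκ : (⇑D)^[t] P = C κ * (⇑D)^[t] Q) {J : ℕ} (hJ : 1 ≤ J) (d : ℕ → k)
    (hF : D (∑ j ∈ Finset.range (J + 1), C (d j) * (P ^ j * Q ^ (J - j))) = 0) :
    (P - C κ * Q) ∣ ∑ j ∈ Finset.range (J + 1), C (d j) * (P ^ j * Q ^ (J - j)) := by
  have hsum : ∑ j ∈ Finset.range (J + 1), d j * κ ^ j = 0 := by
    have hcoefP : (ex D hD P).coeff t = C κ * (ex D hD Q).coeff t := by
      rw [ex_coeff, ex_coeff, hκ, mul_smul_comm]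
    have hcoefQ : (ex D hD Q).coeff t ≠ 0 := by
      rw [← hQt]
      change (ex D hD Q).leadingCoeff ≠ 0
      rw [Ne, Polynomial.leadingCoeff_eq_zero]
      intro h
      exact hQ (ex_injective D hD (h.trans (map_zero _).symm))
    have h1 : (ex D hD (∑ j ∈ Finset.range (J + 1), C (d j) * (P ^ j * Q ^ (J - j)))).coeff
        (J * t) = 0 := by
      apply Polynomial.coeff_eq_zero_of_natDegree_lt
      change ld D hD _ < _
      rw [(ld_eq_zero_iff hD _).mpr hF]
      exact Nat.mul_pos (by omega) (by omega)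
    rw [map_sum, Polynomial.finset_sum_coeff] at h1
    have h2 : ∀ j ∈ Finset.range (J + 1),
        (ex D hD (C (d j) * (P ^ j * Q ^ (J - j)))).coeff (J * t) =
          C (d j * κ ^ j) * (ex D hD Q).coeff t ^ J := by
      intro j hj
      have hjJ : j ≤ J := by have := Finset.mem_range.mp hj; omega
      obtain ⟨r, rfl⟩ := Nat.exists_eq_add_of_le hjJ
      have h4 : j + r - j = r := by omega
      rw [h4, map_mul, map_mul, map_pow, map_pow]
      have h5 : ex D hD (C (d j)) = Polynomial.C (C (d j)) := by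
        have := (ex D hD).commutes (d j)
        rw [← algebraMap_eq, this]
        rfl
      rw [h5, Polynomial.coeff_C_mul, add_mul,
        Polynomial.coeff_mul_add_eq_of_natDegree_le
          (Polynomial.natDegree_pow_le_of_le j (show (ex D hD P).natDegree ≤ t from hPt.le))
          (Polynomial.natDegree_pow_le_of_le r (show (ex D hD Q).natDegree ≤ t from hQt.le)),
        Polynomial.coeff_pow_of_natDegree_le (show (ex D hD P).natDegree ≤ t from hPt.le),
        Polynomial.coeff_pow_of_natDegree_le (show (ex D hD Q).natDegree ≤ t from hQt.le), hcoefP]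
      rw [mul_pow, C_mul, C_pow, pow_add]
      ring
    rw [Finset.sum_congr rfl h2, ← Finset.sum_mul, ← map_sum] at h1
    rcases mul_eq_zero.mp h1 with h3 | h3
    · rwa [C_eq_zero] at h3
    · exact absurd h3 (pow_ne_zero _ hcoefQ)
  have h3 : ∑ j ∈ Finset.range (J + 1), C (d j) * (P ^ j * Q ^ (J - j)) =
      ∑ j ∈ Finset.range (J + 1), C (d j) * ((P ^ j - (C κ * Q) ^ j) * Q ^ (J - j)) := by
    have h4 : ∑ j ∈ Finset.range (J + 1), C (d j) * ((C κ * Q) ^ j * Q ^ (J - j)) = 0 := by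
      have : ∀ j ∈ Finset.range (J + 1), (C (d j) : Rg k) * ((C κ * Q) ^ j * Q ^ (J - j)) =
          C (d j * κ ^ j) * Q ^ J := by
        intro j hj
        have hjJ : j ≤ J := by have := Finset.mem_range.mp hj; omega
        obtain ⟨r, rfl⟩ := Nat.exists_eq_add_of_le hjJ
        have h4 : j + r - j = r := by omega
        rw [h4, mul_pow, C_mul, C_pow, pow_add]; ring
      rw [Finset.sum_congr rfl this, ← Finset.sum_mul, ← map_sum, hsum, C_0, zero_mul]
    rw [← sub_zero (∑ j ∈ Finset.range (J + 1), C (d j) * (P ^ j * Q ^ (J - j))), ← h4,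
      ← Finset.sum_sub_distrib]
    apply Finset.sum_congr rfl
    intro j _
    ring
  rw [h3]
  apply Finset.dvd_sum
  intro j _
  exact Dvd.dvd.mul_left (Dvd.dvd.mul_right (sub_dvd_pow_sub_pow _ _ j) _) _

end char0

end CLAux

variable [CharZero k]

open CLAux in
theorem CL {D : Der k} (hD : IsLND D) {a b c : Fin 3} (hab : a ≠ b) (hac : a ≠ c) (hbc : b ≠ c)
    {p m i : ℕ} (hp : 1 ≤ p) (hm : 1 ≤ m) (hg : Nat.gcd p (Nat.gcd m i) = 1)
    (hc : D (X c) = 0) (ha : D (X a) ≠ 0) (hb : D (X b) ≠ 0)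
    (hom : ∀ P ∈ supp D, ∀ Q ∈ supp D, ∃ z : ℤ, (P a : ℤ) - Q a = z * p ∧
      (P b : ℤ) - Q b = -z * m ∧ (P c : ℤ) - Q c = z * i) :
    (p = 1 ∨ m = 1) ∧ ∃ κ : k, κ ≠ 0 ∧ D (X a ^ p * X c ^ i - C κ * X b ^ m) = 0 := by
  classical
  have hD0 : D ≠ 0 := by rintro rfl; simp at ha
  obtain ⟨P0, hP0⟩ := supp_nonempty hD0
  set s1 := dt P0 (W1 a b p m) with hs1
  set s2 := dt P0 (W2 a c p i) with hs2
  have hT1 : ∀ P ∈ supp D, dt P (W1 a b p m) = s1 := by
    intro P hP
    obtain ⟨z, h1, h2, h3⟩ := hom P hP P0 hP0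
    rw [hs1, dt_W1 hab hac hbc, dt_W1 hab hac hbc]
    have h1' : (P a : ℝ) - P0 a = z * p := by exact_mod_cast h1
    have h2' : (P b : ℝ) - P0 b = -z * m := by exact_mod_cast h2
    linear_combination (m : ℝ) * h1' + (p : ℝ) * h2'
  have hT2 : ∀ P ∈ supp D, dt P (W2 a c p i) = s2 := by
    intro P hP
    obtain ⟨z, h1, h2, h3⟩ := hom P hP P0 hP0
    rw [hs2, dt_W2 hab hac hbc, dt_W2 hab hac hbc]
    have h1' : (P a : ℝ) - P0 a = z * p := by exact_mod_cast h1
    have h3' : (P c : ℝ) - P0 c = z * i := by exact_mod_cast h3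
    linear_combination (p : ℝ) * h3' - (i : ℝ) * h1'
  set δ1 := s1 - sm (W1 a b p m) with hδ1
  set δ2 := s2 - sm (W2 a c p i) with hδ2
  -- nonzero kernel elements are not divisible by the variables
  have ndvda : ∀ f : Rg k, f ≠ 0 → D f = 0 → ¬ (X a : Rg k) ∣ f :=
    fun f hf hDf h => ha (ker_of_dvd hD hDf hf h)
  have ndvdb : ∀ f : Rg k, f ≠ 0 → D f = 0 → ¬ (X b : Rg k) ∣ f :=
    fun f hf hDf h => hb (ker_of_dvd hD hDf hf h)
  -- the two elements
  set P : Rg k := X a ^ p * X c ^ i with hPdef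
  set Q : Rg k := X b ^ m with hQdef
  have hXa : (X a : Rg k) ≠ 0 := X_ne_zero a
  have hXb : (X b : Rg k) ≠ 0 := X_ne_zero b
  have hXc : (X c : Rg k) ≠ 0 := X_ne_zero c
  have hP0' : P ≠ 0 := mul_ne_zero (pow_ne_zero _ hXa) (pow_ne_zero _ hXc)
  have hQ0' : Q ≠ 0 := pow_ne_zero _ hXb
  have hPmon : P = monomial (Finsupp.single a p + Finsupp.single c i) 1 := by
    rw [hPdef, X_pow_eq_monomial, X_pow_eq_monomial, monomial_mul, one_mul]
  have hQmon : Q = monomial (Finsupp.single b m) 1 := by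
    rw [hQdef, X_pow_eq_monomial]
  have hP1 : Hg (W1 a b p m) (p * m) P := by
    have := Hg_monomial (W1 a b p m) (Finsupp.single a p + Finsupp.single c i) (1 : k)
    rw [hPmon]
    convert this using 1
    rw [dE_W1 hab hac hbc]
    simp [hab, hac, hab.symm, hac.symm, hbc, hbc.symm]
    ring
  have hP2 : Hg (W2 a c p i) 0 P := by
    have := Hg_monomial (W2 a c p i) (Finsupp.single a p + Finsupp.single c i) (1 : k)
    rw [hPmon]
    convert this using 1
    rw [dE_W2 hab hac hbc]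
    simp [hab, hac, hab.symm, hac.symm, hbc, hbc.symm]
    ring
  have hQ1 : Hg (W1 a b p m) (p * m) Q := by
    have := Hg_monomial (W1 a b p m) (Finsupp.single b m) (1 : k)
    rw [hQmon]
    convert this using 1
    rw [dE_W1 hab hac hbc]
    simp [hab, hac, hab.symm, hac.symm, hbc, hbc.symm]
  have hQ2 : Hg (W2 a c p i) 0 Q := by
    have := Hg_monomial (W2 a c p i) (Finsupp.single b m) (1 : k)
    rw [hQmon]
    convert this using 1
    rw [dE_W2 hab hac hbc]
    simp [hab, hac, hab.symm, hac.symm, hbc, hbc.symm]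
  have hpm : (0 : ℝ) < p * m := by positivity
  -- top iterates
  have hPt := top_iterate hD hP0'
  have hQt := top_iterate hD hQ0'
  have hPn : 0 ≤ (p * m : ℝ) + ld D hD P * δ1 := W1_nonneg hab hac hbc (iter_Hg hT1 hP1 _) hPt.1
  have hQn : 0 ≤ (p * m : ℝ) + ld D hD Q * δ1 := W1_nonneg hab hac hbc (iter_Hg hT1 hQ1 _) hQt.1
  -- (1)
  have hld : ld D hD P = ld D hD Q := by
    by_contra hne
    obtain ⟨f, u, v, hf0, hfk, hf1, hf2, hu⟩ : ∃ (f : Rg k) (u v : ℝ), f ≠ 0 ∧ D f = 0 ∧
        Hg (W1 a b p m) u f ∧ Hg (W2 a c p i) v f ∧ 0 < u := by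
      by_cases h : 0 < (p * m : ℝ) + ld D hD P * δ1
      · exact ⟨_, _, _, hPt.1, hPt.2, iter_Hg hT1 hP1 _, iter_Hg hT2 hP2 _, h⟩
      · refine ⟨_, _, _, hQt.1, hQt.2, iter_Hg hT1 hQ1 _, iter_Hg hT2 hQ2 _, ?_⟩
        have h1 : (p * m : ℝ) + ld D hD P * δ1 = 0 := le_antisymm (not_lt.mp h) hPn
        rcases lt_or_eq_of_le hQn with h2 | h2
        · exact h2
        · exfalso
          have h3 : ((ld D hD P : ℝ) - ld D hD Q) * δ1 = 0 := by linarith
          rcases mul_eq_zero.mp h3 with h4 | h4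
          · apply hne
            have : (ld D hD P : ℝ) = ld D hD Q := by linarith
            exact_mod_cast this
          · rw [h4, mul_zero, add_zero] at h1
            exact absurd h1 hpm.ne'
    obtain ⟨J, z, d, hJ, hfJ, hd0, hdJ⟩ := struct hab hac hbc hp hm hg hf1 hf2
      (ndvda f hf0 hfk) (ndvdb f hf0 hfk)
    have hJ1 : 1 ≤ J := by
      rcases Nat.eq_zero_or_pos J with h | h
      · rw [h] at hJ; simp at hJ; linarith
      · exact h
    apply ne_top hD hP0' hQ0' hne hJ1 d hd0 hdJ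
    exact (ker_factor hD (by rw [← hfJ]; exact hfk) (by rw [← hfJ]; exact hf0)).2
  -- (2)
  set t := ld D hD P with ht
  have hk : ∃ κ : k, κ ≠ 0 ∧ (⇑D)^[t] P = C κ * (⇑D)^[t] Q := by
    rw [← hld] at hQt
    have hf1 := iter_Hg hT1 hP1 t
    have hf2 := iter_Hg hT2 hP2 t
    have hg1 := iter_Hg hT1 hQ1 t
    have hg2 := iter_Hg hT2 hQ2 t
    obtain ⟨e, he, heb⟩ : ∃ e, coeff e ((⇑D)^[t] P) ≠ 0 ∧ e b = 0 := by
      by_contra hcon
      push Not at hcon
      exact ndvdb _ hPt.1 hPt.2 (X_dvd_of hcon)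
    obtain ⟨e', he', heb'⟩ : ∃ e, coeff e ((⇑D)^[t] Q) ≠ 0 ∧ e b = 0 := by
      by_contra hcon
      push Not at hcon
      exact ndvdb _ hQt.1 hQt.2 (X_dvd_of hcon)
    have huniq : ∀ e' : Fin 3 →₀ ℕ, dE e' (W1 a b p m) = dE e (W1 a b p m) →
        dE e' (W2 a c p i) = dE e (W2 a c p i) → e' b = 0 → e' = e := by
      intro e' h1 h2 h3
      obtain ⟨z, h4, h5, h6⟩ := same_type hab hac hbc hp hg h1 h2
      rw [heb, h3] at h5
      have hz : z = 0 := by
        have : z * (m : ℤ) = 0 := by push_cast at h5; linarith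
        rcases mul_eq_zero.mp this with h | h
        · exact h
        · have : (m : ℤ) ≠ 0 := by positivity
          exact absurd h this
      subst hz
      ext j
      rcases eq_of_ne hab hac hbc j with rfl | rfl | rfl
      · have : (e j : ℤ) = e' j := by simpa using h4
        exact_mod_cast this.symm
      · rw [heb, h3]
      · have : (e j : ℤ) = e' j := by simpa using h6
        exact_mod_cast this.symm
    have hee : e' = e := huniq e' ((hg1 e' he').trans (hf1 e he).symm)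
      ((hg2 e' he').trans (hf2 e he).symm) heb'
    subst hee
    refine ⟨coeff e' ((⇑D)^[t] P) / coeff e' ((⇑D)^[t] Q), div_ne_zero he he', ?_⟩
    set κ := coeff e' ((⇑D)^[t] P) / coeff e' ((⇑D)^[t] Q) with hκ
    by_contra hne
    have hh0 : (⇑D)^[t] P - C κ * (⇑D)^[t] Q ≠ 0 := sub_ne_zero.mpr hne
    have hhk : D ((⇑D)^[t] P - C κ * (⇑D)^[t] Q) = 0 := by
      rw [map_sub, hPt.2, ← smul_eq_C_mul, D.map_smul, hQt.2, smul_zero, sub_zero]
    have hh1 := Hg_sub hf1 hg1 κ
    have hh2 := Hg_sub hf2 hg2 κ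
    obtain ⟨e'', he'', heb''⟩ : ∃ e, coeff e ((⇑D)^[t] P - C κ * (⇑D)^[t] Q) ≠ 0 ∧ e b = 0 := by
      by_contra hcon
      push Not at hcon
      exact ndvdb _ hh0 hhk (X_dvd_of hcon)
    have : e'' = e' := huniq e'' ((hh1 e'' he'').trans (hf1 e' he).symm)
      ((hh2 e'' he'').trans (hf2 e' he).symm) heb''
    subst this
    apply he''
    rw [coeff_sub, coeff_C_mul, hκ, div_mul_cancel₀ _ he', sub_self]
  obtain ⟨κ, hκ0, hκ⟩ := hk
  have ht1 : 1 ≤ t := by
    rw [ht]
    have h1 : ld D hD P = p * ld D hD (X a) + i * ld D hD (X c) := by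
      rw [hPdef, ld_mul hD (pow_ne_zero _ hXa) (pow_ne_zero _ hXc), ld_pow hD hXa, ld_pow hD hXc]
    have h2 : ld D hD (X a) ≠ 0 := fun h => ha ((ld_eq_zero_iff hD _).mp h)
    rw [h1]
    have : 0 < p * ld D hD (X a) := Nat.mul_pos (by omega) (by omega)
    omega
  have hL0 : P - C κ * Q ≠ 0 := by
    intro h
    have h1 := congrArg (coeff (Finsupp.single b m)) h
    rw [coeff_sub, coeff_C_mul, hPmon, hQmon, coeff_monomial, coeff_monomial, if_neg,
      if_pos rfl, coeff_zero] at h1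
    · apply hκ0; simpa using h1
    · intro h2
      have := congrArg (fun e => e a) h2
      simp [hab, hac, hab.symm, hac.symm] at this
      omega
  have hLt : (⇑D)^[t] (P - C κ * Q) = 0 := by
    have h1 : ∀ n (f g : Rg k), (⇑D)^[n] (f - C κ * g) = (⇑D)^[n] f - C κ * (⇑D)^[n] g := by
      intro n
      induction n with
      | zero => intro f g; rfl
      | succ n ih =>
        intro f g
        rw [Function.iterate_succ_apply', Function.iterate_succ_apply',
          Function.iterate_succ_apply', ih, map_sub, ← smul_eq_C_mul, D.map_smul, smul_eq_C_mul]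
    rw [h1, hκ, sub_self]
  have hLtop := top_iterate hD hL0
  set l := ld D hD (P - C κ * Q) with hl
  have hlt : l < t := by
    by_contra hcon
    push Not at hcon
    apply hLtop.1
    obtain ⟨r, hr⟩ := Nat.exists_eq_add_of_le hcon
    rw [hr, add_comm, Function.iterate_add_apply, hLt]
    clear hr
    induction r with
    | zero => rfl
    | succ r ih => rw [Function.iterate_succ_apply', ih, map_zero]
  -- (3)
  have hker : D (P - C κ * Q) = 0 := by
    by_contra hne
    have hl1 : 1 ≤ l := by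
      have : l ≠ 0 := fun h => hne ((ld_eq_zero_iff hD _).mp h)
      omega
    have hf1 := iter_Hg hT1 (Hg_sub hP1 hQ1 κ) l
    have hf2 := iter_Hg hT2 (Hg_sub hP2 hQ2 κ) l
    have hu : 0 < (p * m : ℝ) + l * δ1 := by
      rcases le_or_gt 0 δ1 with h | h
      · have : 0 ≤ (l : ℝ) * δ1 := mul_nonneg (by positivity) h
        linarith
      · have h1 : (t : ℝ) * δ1 < l * δ1 := by
          apply mul_lt_mul_of_neg_right _ h
          exact_mod_cast hlt
        linarith
    obtain ⟨J, z, d, hJ, hfJ, hd0, hdJ⟩ := struct hab hac hbc hp hm hg hf1 hf2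
      (ndvda _ hLtop.1 hLtop.2) (ndvdb _ hLtop.1 hLtop.2)
    have hJ1 : 1 ≤ J := by
      rcases Nat.eq_zero_or_pos J with h | h
      · rw [h] at hJ; simp at hJ; linarith
      · exact h
    have hFne : X c ^ z * ∑ j ∈ Finset.range (J + 1),
        C (d j) * ((X a ^ p * X c ^ i) ^ j * (X b ^ m) ^ (J - j)) ≠ (0 : Rg k) := by
      rw [← hfJ]; exact hLtop.1
    have hFker := (ker_factor hD (by rw [← hfJ]; exact hLtop.2) hFne).2
    have hdvd := dvd_of_ker hD ht1 rfl hld.symm hQ0' hκ hJ1 d hFker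
    exact hne (ker_of_dvd hD hFker (right_ne_zero_of_mul hFne) hdvd)
  refine ⟨?_, κ, hκ0, hker⟩
  -- (4)
  by_contra hcon
  push Not at hcon
  obtain ⟨hp1, hm1⟩ := hcon
  have hp2 : 2 ≤ p := by omega
  have hm2 : 2 ≤ m := by omega
  have hDP : D P = X a ^ (p - 1) * (C (p : k) * (X c ^ i * D (X a))) := by
    rw [hPdef, Derivation.leibniz, Derivation.leibniz_pow, Derivation.leibniz_pow, hc]
    simp only [smul_eq_mul, nsmul_eq_mul, mul_zero, zero_add, map_natCast]
    ring
  have hDQ : D (C κ * Q) = X b ^ (m - 1) * (C (κ * m) * D (X b)) := by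
    rw [← smul_eq_C_mul, D.map_smul, hQdef, Derivation.leibniz_pow, smul_eq_C_mul]
    simp only [smul_eq_mul, nsmul_eq_mul, C_mul, map_natCast]
    ring
  have heq : X a ^ (p - 1) * (C (p : k) * (X c ^ i * D (X a))) =
      X b ^ (m - 1) * (C (κ * m) * D (X b)) := by
    rw [← hDP, ← hDQ, ← sub_eq_zero, ← map_sub]
    exact hker
  have hprime : ∀ j : Fin 3, Prime (X j : Rg k) := fun j => X_prime
  have hnd : ∀ j j' : Fin 3, j ≠ j' → ∀ n, ¬ (X j : Rg k) ∣ X j' ^ n := by
    intro j j' hjj n h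
    have h1 := (hprime j).dvd_of_dvd_pow h
    rw [X_dvd_X] at h1
    exact hjj h1
  have hCu : ∀ (j : Fin 3) (c : k), c ≠ 0 → ¬ (X j : Rg k) ∣ C c := by
    intro j c hc0 h
    have h1 : IsUnit (C c : Rg k) := (isUnit_iff_ne_zero.mpr hc0).map C
    exact (hprime j).not_isUnit (isUnit_of_dvd_unit h h1)
  have hp0k : (p : k) ≠ 0 := by
    have : p ≠ 0 := by omega
    exact_mod_cast this
  have hm0k : κ * (m : k) ≠ 0 := by
    apply mul_ne_zero hκ0
    have : m ≠ 0 := by omega
    exact_mod_cast this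
  have h1 : (X a : Rg k) ∣ D (X b) := by
    have h2 : (X a : Rg k) ∣ X b ^ (m - 1) * (C (κ * m) * D (X b)) := by
      rw [← heq]
      exact Dvd.dvd.mul_right (dvd_pow_self _ (by omega)) _
    rcases (hprime a).dvd_or_dvd h2 with h3 | h3
    · exact absurd h3 (hnd a b hab _)
    · rcases (hprime a).dvd_or_dvd h3 with h4 | h4
      · exact absurd h4 (hCu a _ hm0k)
      · exact h4
  have h2 : (X b : Rg k) ∣ D (X a) := by
    have h2 : (X b : Rg k) ∣ X a ^ (p - 1) * (C (p : k) * (X c ^ i * D (X a))) := by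
      rw [heq]
      exact Dvd.dvd.mul_right (dvd_pow_self _ (by omega)) _
    rcases (hprime b).dvd_or_dvd h2 with h3 | h3
    · exact absurd h3 (hnd b a hab.symm _)
    · rcases (hprime b).dvd_or_dvd h3 with h4 | h4
      · exact absurd h4 (hCu b _ hp0k)
      · rcases (hprime b).dvd_or_dvd h4 with h5 | h5
        · exact absurd h5 (hnd b c hbc _)
        · exact h5
  have h3 := ld_le_of_dvd hD hb h1
  have h4 := ld_le_of_dvd hD ha h2
  have h5 := ld_D hD ha
  have h6 := ld_D hD hb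
  omega

end Pool.Agent.TL
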