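import Mathlib

set_option autoImplicit false

/-!
# Tame exponential automorphisms of affine 3-space: basic definitions

Weights `α : Fin 3 → ℝ`, shifted supports of derivations, leading derivations, generators of the
tame group, and the relations used in the argument (MP_8844d3_ag).
-/

namespace Pool.Agent.TL

open MvPolynomial

/-- the polynomial ring in three variables -/
abbrev Rg (k : Type) [Field k] := MvPolynomial (Fin 3) k
/-- derivations -/
abbrev Der (k : Type) [Field k] := Derivation k (MvPolynomial (Fin 3) k) (MvPolynomial (Fin 3) k)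
/-- automorphisms -/
abbrev Au (k : Type) [Field k] := MvPolynomial (Fin 3) k ≃ₐ[k] MvPolynomial (Fin 3) k
/-- weights -/
abbrev Wt := Fin 3 → ℝ

/-- total weight -/
def sm (α : Wt) : ℝ := ∑ i, α i
/-- weight of an exponent vector -/
def dE (m : Fin 3 →₀ ℕ) (α : Wt) : ℝ := ∑ i, (m i : ℝ) * α i
/-- weight of a shifted exponent vector -/
def dt (P : Fin 3 → ℕ) (α : Wt) : ℝ := ∑ i, (P i : ℝ) * α i

/-- shifted exponent: the term `x^m ∂_i` has shifted exponent `m + (1,1,1) - e_i` -/
def sh (i : Fin 3) (m : Fin 3 →₀ ℕ) : Fin 3 → ℕ := fun j => if j = i then m j else m j + 1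

variable {k : Type} [Field k]

open Classical in
/-- the set of shifted exponents of a derivation -/
noncomputable def supp (D : Der k) : Finset (Fin 3 → ℕ) :=
  Finset.univ.biUnion fun i => (D (X i)).support.image (sh i)

/-- all monomials of `f` have weight at most `s` -/
def LE (α : Wt) (s : ℝ) (f : Rg k) : Prop := ∀ m, coeff m f ≠ 0 → dE m α ≤ s

/-- all monomials of `f` have weight exactly `s` -/
def Hg (α : Wt) (s : ℝ) (f : Rg k) : Prop := ∀ m, coeff m f ≠ 0 → dE m α = s

open Classical in
/-- homogeneous component of weight `s` -/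
noncomputable def hc (α : Wt) (s : ℝ) (f : Rg k) : Rg k :=
  ∑ m ∈ f.support.filter (fun m => dE m α = s), monomial m (coeff m f)

/-- the part of `D` whose shifted exponents have weight exactly `s` -/
noncomputable def lead (α : Wt) (s : ℝ) (D : Der k) : Der k :=
  mkDerivation k (fun j => hc α (s - sm α + α j) (D (X j)))

/-- all points of `S` have weight at most `s` -/
def Le (S : Finset (Fin 3 → ℕ)) (α : Wt) (s : ℝ) : Prop := ∀ P ∈ S, dt P α ≤ s

/-- `S` is open at level `θ`: there is a nonnegative weight with all points strictly below -/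
def Op (S : Finset (Fin 3 → ℕ)) (θ : ℝ) : Prop :=
  ∃ α : Wt, (∀ i, 0 ≤ α i) ∧ ∀ P ∈ S, dt P α < θ * sm α

/-- the min-max value of `S` over the simplex of weights -/
noncomputable def Th (S : Finset (Fin 3 → ℕ)) : ℝ :=
  sInf {t | ∃ α ∈ stdSimplex ℝ (Fin 3), Le S α t}

/-- locally nilpotent derivations -/
def IsLND (D : Der k) : Prop := ∀ f, ∃ n, (⇑D)^[n] f = 0

/-- the conjugate derivation `σ⁻¹ D σ` -/
noncomputable def conj (σ : Au k) (D : Der k) : Der k :=
  Derivation.mk' (σ.symm.toLinearMap ∘ₗ (D : Rg k →ₗ[k] Rg k) ∘ₗ σ.toLinearMap) (by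
    intro a b
    simp only [LinearMap.comp_apply, AlgEquiv.toLinearMap_apply, map_mul]
    change σ.symm (D (σ a * σ b)) = _
    rw [Derivation.leibniz]
    simp [smul_eq_mul, map_add, map_mul])

/-- substitution `x_i ↦ x_i + c x^M` -/
noncomputable def eh (i : Fin 3) (M : Fin 3 →₀ ℕ) (c : k) : Rg k →ₐ[k] Rg k :=
  aeval (fun j => if j = i then X i + monomial M c else X j)

theorem eh_monomial (i : Fin 3) (M : Fin 3 →₀ ℕ) (c d : k) (N : Fin 3 →₀ ℕ) (h : N i = 0) :
    eh i M c (monomial N d) = monomial N d := by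
  rw [eh, aeval_monomial]
  have h1 : N.prod (fun j e => (if j = i then (X i + monomial M c : Rg k) else X j) ^ e)
      = N.prod (fun j e => (X j : Rg k) ^ e) := by
    refine Finsupp.prod_congr ?_
    intro j hj
    have : j ≠ i := by rintro rfl; simp [h] at hj
    simp [this]
  rw [h1]
  rw [monomial_eq (s := N) (a := d)]
  simp [MvPolynomial.algebraMap_eq]

theorem eh_comp (i : Fin 3) (M : Fin 3 →₀ ℕ) (c d : k) (h : M i = 0) (h2 : c + d = 0) :
    (eh i M c).comp (eh i M d) = AlgHom.id k _ := by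
  apply MvPolynomial.algHom_ext
  intro j
  simp only [AlgHom.comp_apply, AlgHom.id_apply]
  by_cases hj : j = i
  · subst hj
    have : (eh j M d) (X j) = X j + monomial M d := by simp [eh]
    rw [this, map_add, eh_monomial j M c d M h]
    have : (eh j M c) (X j) = X j + monomial M c := by simp [eh]
    rw [this, add_assoc, ← map_add, h2]; simp
  · simp [eh, hj]

/-- the elementary automorphism `x_i ↦ x_i + c x^M`, `M` not involving `x_i` -/
noncomputable def El (i : Fin 3) (M : Fin 3 →₀ ℕ) (c : k) (h : M i = 0) : Au k :=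
  AlgEquiv.ofAlgHom (eh i M c) (eh i M (-c)) (eh_comp i M c (-c) h (by ring))
    (eh_comp i M (-c) c h (by ring))

/-- diagonal automorphism -/
noncomputable def Sc (u : Fin 3 → kˣ) : Au k :=
  AlgEquiv.ofAlgHom (aeval (fun j => C (u j : k) * X j)) (aeval (fun j => C ((u j)⁻¹ : k) * X j))
    (by
      apply MvPolynomial.algHom_ext
      intro j
      simp only [AlgHom.comp_apply, AlgHom.id_apply, aeval_X, map_mul]
      rw [← algebraMap_eq, AlgHom.commutes, ← mul_assoc, ← map_mul]; simp)
    (by
      apply MvPolynomial.algHom_ext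
      intro j
      simp only [AlgHom.comp_apply, AlgHom.id_apply, aeval_X, map_mul]
      rw [← algebraMap_eq, AlgHom.commutes, ← mul_assoc, ← map_mul]; simp)

/-- permutation of the variables -/
noncomputable def Pm (π : Equiv.Perm (Fin 3)) : Au k := renameEquiv k π

/-- the generators: single monomial elementary, diagonal, permutations -/
def Gen : Set (Au k) :=
  {g | (∃ i M c, ∃ h : M i = 0, g = El i M c h) ∨ (∃ u, g = Sc u) ∨ ∃ π, g = Pm π}

/-- `τ` carries the valuation with weights `β` (on the new coordinates) to the one with weights `α` -/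
def Pres (τ : Au k) (α β : Wt) : Prop :=
  (∀ j, LE α (β j) (τ (X j))) ∧ ∀ j, LE β (α j) (τ.symm (X j))

/-- `β` is a permutation of `α` -/
def PermW (α β : Wt) : Prop := ∃ π : Equiv.Perm (Fin 3), ∀ j, β j = α (π j)

/-- one step below the level `θ` -/
def Stp (D : Der k) (θ : ℝ) (σ σ' : Au k) : Prop :=
  ∃ g ∈ (Gen : Set (Au k)), σ' = σ * g ∧ Op (supp (conj σ D)) θ ∧ Op (supp (conj σ' D)) θ

/-- connected below the level `θ` -/
def RT (D : Der k) (θ : ℝ) : Au k → Au k → Prop := Relation.ReflTransGen (Stp D θ)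

/-- one generator step of coordinate systems with weights -/
def WStp (p q : Au k × Wt) : Prop :=
  ∃ g ∈ (Gen : Set (Au k)), q.1 = p.1 * g ∧ Pres g p.2 q.2 ∧ sm p.2 = sm q.2

/-- generator path of coordinate systems carrying the same valuation -/
def WP : Au k × Wt → Au k × Wt → Prop := Relation.ReflTransGen WStp

/-- second final form (Nagata type edge); roles `a, b, c` of `X, Y, Z` -/
structure F2 (S : Finset (Fin 3 → ℕ)) (α : Wt) (a b c : Fin 3) (i m N E : ℕ) : Prop where
  hab : a ≠ b
  hac : a ≠ c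
  hbc : b ≠ c
  hm : 2 ≤ m
  hi : 1 ≤ i
  hN : 1 ≤ N
  hE : 1 ≤ E
  hb : 0 < α b
  hc : 0 < α c
  rel : α a + i * α c = m * α b
  low : ∀ P ∈ S, E + i * P a ≤ P c
  q1 : ∃ P ∈ S, P a = 0 ∧ P b = m * N ∧ P c = E
  q2 : ∃ P ∈ S, P a = N ∧ P b = 0 ∧ P c = E + i * N

/-- final forms -/
def Fin' (S : Finset (Fin 3 → ℕ)) (α : Wt) : Prop :=
  (∃ a, ∀ P ∈ S, P a = 0) ∨ ∃ a b c i m N E, F2 S α a b c i m N E

/-- good weights: all different, or two equal positive ones and a different positive one -/
def Good (α : Wt) : Prop :=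
  (∀ i, 0 ≤ α i) ∧ ((∀ i j, α i = α j → i = j) ∨
    ∃ a, 0 < α a ∧ ∀ i j, i ≠ a → j ≠ a → (α i = α j ∧ 0 < α i ∧ α i ≠ α a))

/-- triangular derivation: `D x_i` involves only `x_j` with `j < i` -/
def TriD (D : Der k) : Prop := ∀ i, ∀ j ∈ (D (X i)).vars, j < i

end Pool.Agent.TL
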