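import Pool.Agent.TL.RO
import Pool.Agent.TL.CL

set_option autoImplicit false

/-! # ED: classification of bihomogeneous locally nilpotent derivations (edges)

`D` locally nilpotent, its support lies on a line (two independent weights) and has at least two
points. Three types:
(1) all points vanish at the same coordinate;
(2) `D (x_i - κ x^M) = 0`, `D x_i ≠ 0`, `D x_c = 0` for some `c ≠ i` (elementary edge);
(3) Nagata type.

Proof. `root_ends` gives the ends `q₁, q₂`, with zeros at `a'` and `b'`. If some coordinate is zero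
at both ends it is zero on the whole segment: type 1. Otherwise `q₁ a = 0`, `q₂ b = 0`, `a ≠ b`
(zeros are unique, `supp_zero_unique`), `q₁ b > 0`, `q₂ a > 0`, and for the third index `c`
`q₁ c, q₂ c ≥ 1`, hence `P c ≥ 1` on the support and `D x_c = 0`; `D x_a ≠ 0`, `D x_b ≠ 0`.
Exchange the roles of `a` and `b` if `q₂ c < q₁ c`. Let `N = gcd (q₂ a, q₁ b, q₂ c - q₁ c) ≥ 1`,
`q₂ - q₁ = N (p, -m, i)`, `gcd (p, m, i) = 1`; every point of the support is `q₁ + t (p, -m, i)`,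
`0 ≤ t ≤ N` integer. Apply `CL`. If `p = 1` and `i = 0` take the moved variable `x_a`,
`x^M = x_b^m` (`κ`). If `m = 1` take the moved variable `x_b`, `x^M = x_a^p x_c^i` (`κ⁻¹`).
Otherwise `p = 1`, `m ≥ 2`, `i ≥ 1`: type 3, `E = q₁ c`. The weight relations hold because
`dt q₂ - dt q₁ = 0` for `α` and `β`. -/

namespace Pool.Agent.TL

open MvPolynomial

variable {k : Type} [Field k] [CharZero k]

namespace EDAux

/-- a real number is an integer if its products with three coprime numbers are integers -/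
theorem int_of_gcd {p m i : ℕ} (hg : Nat.gcd p (Nat.gcd m i) = 1) {ρ : ℝ} {A B G : ℤ}
    (hA : ρ * p = A) (hB : ρ * m = B) (hG : ρ * i = G) : ∃ z : ℤ, ρ = z := by
  have h1 := Nat.gcd_eq_gcd_ab p (Nat.gcd m i)
  have h2 := Nat.gcd_eq_gcd_ab m i
  rw [hg] at h1
  rw [h2] at h1
  set x := Nat.gcdA p (Nat.gcd m i)
  set y := Nat.gcdB p (Nat.gcd m i)
  set u := Nat.gcdA m i
  set v := Nat.gcdB m i
  refine ⟨x * A + y * (u * B + v * G), ?_⟩
  have h3 : (1 : ℝ) = p * x + (m * u + i * v) * y := by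
    have := congrArg (fun z : ℤ => (z : ℝ)) h1
    push_cast at this
    exact this
  push_cast
  rw [← hA, ← hB, ← hG]
  calc ρ = ρ * 1 := by ring
    _ = ρ * (p * x + (m * u + i * v) * y) := by rw [← h3]
    _ = _ := by ring

theorem rel {q₁ q₂ : Fin 3 → ℕ} {a b c : Fin 3} (hab : a ≠ b) (hac : a ≠ c) (hbc : b ≠ c)
    {N p m i : ℕ} (hN : 1 ≤ N) (h1a : q₁ a = 0) (h2b : q₂ b = 0) (h2a : q₂ a = N * p)
    (h1b : q₁ b = N * m) (hcc : q₂ c = q₁ c + N * i) {α : Wt} {s : ℝ} (h1 : dt q₁ α = s)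
    (h2 : dt q₂ α = s) : p * α a + i * α c = m * α b := by
  unfold dt at h1 h2
  rw [sum3 hab hac hbc] at h1 h2
  rw [h1a, h1b] at h1
  rw [h2a, h2b, hcc] at h2
  push_cast at h1 h2
  have hN' : (0 : ℝ) < N := by exact_mod_cast hN
  have : (N : ℝ) * (p * α a + i * α c - m * α b) = 0 := by linarith
  rcases mul_eq_zero.mp this with h | h
  · linarith
  · linarith

theorem edge_aux {D : Der k} (hD : IsLND D) {α β : Wt} {s t : ℝ}
    (hα : ∀ P ∈ supp D, dt P α = s) (hβ : ∀ P ∈ supp D, dt P β = t)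
    {q₁ q₂ : Fin 3 → ℕ} (hq₁ : q₁ ∈ supp D) (hq₂ : q₂ ∈ supp D)
    {a b c : Fin 3} (hab : a ≠ b) (hac : a ≠ c) (hbc : b ≠ c)
    (h1a : q₁ a = 0) (h2b : q₂ b = 0) (h1b : 0 < q₁ b) (h2a : 0 < q₂ a)
    (h1c : 1 ≤ q₁ c) (hle : q₁ c ≤ q₂ c)
    (hseg : ∀ P ∈ supp D, ∃ r : ℝ, 0 ≤ r ∧ r ≤ 1 ∧
        ∀ j, (P j : ℝ) = q₁ j + r * ((q₂ j : ℝ) - q₁ j)) :
    (∃ a, ∀ P ∈ supp D, P a = 0) ∨
    (∃ (i : Fin 3) (M : Fin 3 →₀ ℕ) (κ : k) (c : Fin 3), M i = 0 ∧ M ≠ 0 ∧ c ≠ i ∧ κ ≠ 0 ∧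
      D (X c) = 0 ∧ D (X i) ≠ 0 ∧ D (X i - monomial M κ) = 0 ∧ dE M α = α i ∧ dE M β = β i) ∨
    (∃ (a b c : Fin 3) (i m N E : ℕ), a ≠ b ∧ a ≠ c ∧ b ≠ c ∧ 2 ≤ m ∧ 1 ≤ i ∧ 1 ≤ N ∧ 1 ≤ E ∧
      α a + i * α c = m * α b ∧ β a + i * β c = m * β b ∧
      (∀ P ∈ supp D, ∃ r : ℕ, r ≤ N ∧ P a = r ∧ P b = m * (N - r) ∧ P c = E + i * r) ∧
      (∃ P ∈ supp D, P a = 0 ∧ P b = m * N ∧ P c = E) ∧
      (∃ P ∈ supp D, P a = N ∧ P b = 0 ∧ P c = E + i * N)) := by
  obtain ⟨d, hd⟩ : ∃ d, q₂ c = q₁ c + d := ⟨q₂ c - q₁ c, by omega⟩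
  -- the gcd
  obtain ⟨N, p, m, i, hN, hpN, hmN, hiN, hg⟩ : ∃ N p m i : ℕ, 1 ≤ N ∧ q₂ a = N * p ∧
      q₁ b = N * m ∧ d = N * i ∧ Nat.gcd p (Nat.gcd m i) = 1 := by
    set N := Nat.gcd (q₂ a) (Nat.gcd (q₁ b) d) with hNdef
    have hN : 0 < N := Nat.gcd_pos_of_pos_left _ h2a
    have e1 : N ∣ q₂ a := Nat.gcd_dvd_left _ _
    have e2 : N ∣ Nat.gcd (q₁ b) d := Nat.gcd_dvd_right _ _
    have e3 : N ∣ q₁ b := e2.trans (Nat.gcd_dvd_left _ _)
    have e4 : N ∣ d := e2.trans (Nat.gcd_dvd_right _ _)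
    obtain ⟨p, hp⟩ := e1
    obtain ⟨m, hm⟩ := e3
    obtain ⟨i, hi⟩ := e4
    refine ⟨N, p, m, i, hN, hp, hm, hi, ?_⟩
    have : N * Nat.gcd p (Nat.gcd m i) = N * 1 := by
      rw [← Nat.gcd_mul_left, ← Nat.gcd_mul_left, ← hp, ← hm, ← hi, mul_one]
    exact Nat.eq_of_mul_eq_mul_left hN this
  have hp : 1 ≤ p := by
    rcases Nat.eq_zero_or_pos p with h | h
    · rw [h, mul_zero] at hpN; omega
    · exact h
  have hm : 1 ≤ m := by
    rcases Nat.eq_zero_or_pos m with h | h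
    · rw [h, mul_zero] at hmN; omega
    · exact h
  have hcc : q₂ c = q₁ c + N * i := by rw [hd, hiN]
  -- points of the support
  have hpts : ∀ P ∈ supp D, ∃ r : ℕ, r ≤ N ∧ P a = r * p ∧ P b = m * (N - r) ∧
      P c = q₁ c + i * r := by
    intro P hP
    obtain ⟨r, hr0, hr1, hr⟩ := hseg P hP
    have ha := hr a
    have hb := hr b
    have hc := hr c
    rw [h1a, hpN] at ha
    rw [h2b, hmN] at hb
    rw [hcc] at hc
    push_cast at ha hb hc
    obtain ⟨z, hz⟩ : ∃ z : ℤ, r * N = z := by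
      refine int_of_gcd hg (A := (P a : ℤ)) (B := (N * m - P b : ℤ)) (G := (P c - q₁ c : ℤ))
        ?_ ?_ ?_
      · push_cast; linarith
      · push_cast; linarith
      · push_cast; linarith
    have hN' : (0 : ℝ) < N := by exact_mod_cast hN
    have hz0 : (0 : ℝ) ≤ z := by rw [← hz]; positivity
    have hz1 : (z : ℝ) ≤ N := by rw [← hz]; nlinarith
    have hz0' : 0 ≤ z := by exact_mod_cast hz0
    have hz1' : z ≤ N := by exact_mod_cast hz1
    obtain ⟨w, rfl⟩ : ∃ w : ℕ, z = w := ⟨z.toNat, by omega⟩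
    have hw : w ≤ N := by exact_mod_cast hz1'
    refine ⟨w, hw, ?_, ?_, ?_⟩
    · have : (P a : ℝ) = (w * p : ℕ) := by
        push_cast at hz ⊢
        rw [← hz]; linarith
      exact_mod_cast this
    · have : (P b : ℝ) = (m * (N - w) : ℕ) := by
        push_cast [Nat.cast_sub hw] at hz ⊢
        rw [← hz]; linarith
      exact_mod_cast this
    · have : (P c : ℝ) = (q₁ c + i * w : ℕ) := by
        push_cast at hz ⊢
        rw [← hz]; linarith
      exact_mod_cast this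
  -- the images of the variables
  have hDc : D (X c) = 0 := by
    by_contra h
    obtain ⟨P, hP, hP0⟩ := (DX_ne_zero_iff hD c).mp h
    obtain ⟨r, -, -, -, h3⟩ := hpts P hP
    omega
  have hDa : D (X a) ≠ 0 := (DX_ne_zero_iff hD a).mpr ⟨q₁, hq₁, h1a⟩
  have hDb : D (X b) ≠ 0 := (DX_ne_zero_iff hD b).mpr ⟨q₂, hq₂, h2b⟩
  have hom : ∀ P ∈ supp D, ∀ Q ∈ supp D, ∃ z : ℤ, (P a : ℤ) - Q a = z * p ∧
      (P b : ℤ) - Q b = -z * m ∧ (P c : ℤ) - Q c = z * i := by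
    intro P hP Q hQ
    obtain ⟨r, hrN, h1, h2, h3⟩ := hpts P hP
    obtain ⟨r', hrN', h1', h2', h3'⟩ := hpts Q hQ
    refine ⟨(r : ℤ) - r', ?_, ?_, ?_⟩
    · rw [h1, h1']; push_cast; ring
    · rw [h2, h2']; push_cast [Nat.cast_sub hrN, Nat.cast_sub hrN']; ring
    · rw [h3, h3']; push_cast; ring
  obtain ⟨hpm, κ, hκ, hker⟩ := CL hD hab hac hbc hp hm hg hDc hDa hDb hom
  have relα : p * α a + i * α c = m * α b :=
    rel hab hac hbc hN h1a h2b hpN hmN hcc (hα q₁ hq₁) (hα q₂ hq₂)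
  have relβ : p * β a + i * β c = m * β b :=
    rel hab hac hbc hN h1a h2b hpN hmN hcc (hβ q₁ hq₁) (hβ q₂ hq₂)
  by_cases hm1 : m = 1
  · -- type 2, moved variable `b`
    right; left
    refine ⟨b, Finsupp.single a p + Finsupp.single c i, κ⁻¹, c, ?_, ?_, hbc.symm,
      inv_ne_zero hκ, hDc, hDb, ?_, ?_, ?_⟩
    · simp [hab, hbc.symm]
    · intro h
      have := DFunLike.congr_fun h a
      simp at this
      omega
    · have h1 : (X b - monomial (Finsupp.single a p + Finsupp.single c i) κ⁻¹ : Rg k)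
          = (-κ⁻¹) • (X a ^ p * X c ^ i - C κ * X b ^ m) := by
        have e : (monomial (Finsupp.single a p + Finsupp.single c i) κ⁻¹ : Rg k)
            = C κ⁻¹ * (X a ^ p * X c ^ i) := by
          rw [X_pow_eq_monomial, X_pow_eq_monomial, monomial_mul, C_mul_monomial]
          simp
        have h0 : (C κ⁻¹ * C κ : Rg k) = 1 := by
          rw [← map_mul, inv_mul_cancel₀ hκ, map_one]
        rw [e, hm1, pow_one, smul_eq_C_mul, map_neg]
        linear_combination (-(X b : Rg k)) * h0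
      rw [h1, D.map_smul, hker, smul_zero]
    · rw [dE_add, dE_single, dE_single, relα, hm1]; simp
    · rw [dE_add, dE_single, dE_single, relβ, hm1]; simp
  · have hp1 : p = 1 := by
      rcases hpm with h | h
      · exact h
      · exact absurd h hm1
    subst hp1
    rcases Nat.eq_zero_or_pos i with hi0 | hi0
    · -- type 2, moved variable `a`
      right; left
      refine ⟨a, Finsupp.single b m, κ, c, ?_, ?_, hac.symm, hκ, hDc, hDa, ?_, ?_, ?_⟩
      · simp [hab.symm]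
      · intro h
        have := DFunLike.congr_fun h b
        simp at this
        omega
      · have h1 : (X a - monomial (Finsupp.single b m) κ : Rg k)
            = X a ^ 1 * X c ^ i - C κ * X b ^ m := by
          rw [hi0, pow_one, pow_zero, mul_one, X_pow_eq_monomial, C_mul_monomial, mul_one]
        rw [h1, hker]
      · rw [dE_single]
        rw [hi0] at relα
        simp at relα
        linarith
      · rw [dE_single]
        rw [hi0] at relβ
        simp at relβ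
        linarith
    · -- type 3
      right; right
      refine ⟨a, b, c, i, m, N, q₁ c, hab, hac, hbc, by omega, hi0, hN, h1c, ?_, ?_, ?_, ?_, ?_⟩
      · simpa using relα
      · simpa using relβ
      · intro P hP
        obtain ⟨r, hr, h1, h2, h3⟩ := hpts P hP
        exact ⟨r, hr, by rw [h1, mul_one], h2, h3⟩
      · exact ⟨q₁, hq₁, h1a, by rw [hmN, mul_comm], rfl⟩
      · exact ⟨q₂, hq₂, by rw [hpN, mul_one], h2b, by rw [hcc, mul_comm]⟩

end EDAux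

theorem edge {D : Der k} (hD : IsLND D) {α β : Wt} {s t : ℝ}
    (hα : ∀ P ∈ supp D, dt P α = s) (hβ : ∀ P ∈ supp D, dt P β = t)
    (hind : LinearIndependent ℝ ![α, β]) (hcard : ∃ P ∈ supp D, ∃ Q ∈ supp D, P ≠ Q) :
    (∃ a, ∀ P ∈ supp D, P a = 0) ∨
    (∃ (i : Fin 3) (M : Fin 3 →₀ ℕ) (κ : k) (c : Fin 3), M i = 0 ∧ M ≠ 0 ∧ c ≠ i ∧ κ ≠ 0 ∧
      D (X c) = 0 ∧ D (X i) ≠ 0 ∧ D (X i - monomial M κ) = 0 ∧ dE M α = α i ∧ dE M β = β i) ∨
    (∃ (a b c : Fin 3) (i m N E : ℕ), a ≠ b ∧ a ≠ c ∧ b ≠ c ∧ 2 ≤ m ∧ 1 ≤ i ∧ 1 ≤ N ∧ 1 ≤ E ∧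
      α a + i * α c = m * α b ∧ β a + i * β c = m * β b ∧
      (∀ P ∈ supp D, ∃ r : ℕ, r ≤ N ∧ P a = r ∧ P b = m * (N - r) ∧ P c = E + i * r) ∧
      (∃ P ∈ supp D, P a = 0 ∧ P b = m * N ∧ P c = E) ∧
      (∃ P ∈ supp D, P a = N ∧ P b = 0 ∧ P c = E + i * N)) := by
  obtain ⟨q₁, hq₁, q₂, hq₂, hne, ⟨a, ha⟩, ⟨b, hb⟩, hseg⟩ := root_ends hD hα hβ hind hcard
  by_cases h2a : q₂ a = 0
  · left
    refine ⟨a, fun P hP => ?_⟩
    obtain ⟨r, -, -, hr⟩ := hseg P hP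
    have := hr a
    rw [ha, h2a] at this
    simpa using this
  by_cases h1b : q₁ b = 0
  · left
    refine ⟨b, fun P hP => ?_⟩
    obtain ⟨r, -, -, hr⟩ := hseg P hP
    have := hr b
    rw [hb, h1b] at this
    simpa using this
  have hab : a ≠ b := by
    rintro rfl
    exact h1b ha
  obtain ⟨c, hca, hcb⟩ := exists_third a b
  have h1c : 1 ≤ q₁ c := by
    rcases Nat.eq_zero_or_pos (q₁ c) with h | h
    · exact absurd (supp_zero_unique hq₁ h ha) hca
    · exact h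
  have h2c : 1 ≤ q₂ c := by
    rcases Nat.eq_zero_or_pos (q₂ c) with h | h
    · exact absurd (supp_zero_unique hq₂ h hb) hcb
    · exact h
  have hseg' : ∀ P ∈ supp D, ∃ r : ℝ, 0 ≤ r ∧ r ≤ 1 ∧
      ∀ j, (P j : ℝ) = q₂ j + r * ((q₁ j : ℝ) - q₂ j) := by
    intro P hP
    obtain ⟨r, hr0, hr1, hr⟩ := hseg P hP
    refine ⟨1 - r, by linarith, by linarith, fun j => ?_⟩
    rw [hr j]; ring
  rcases le_total (q₁ c) (q₂ c) with h | h
  · exact EDAux.edge_aux hD hα hβ hq₁ hq₂ hab hca.symm hcb.symm ha hb (Nat.pos_of_ne_zero h1b)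
      (Nat.pos_of_ne_zero h2a) h1c h hseg
  · exact EDAux.edge_aux hD hα hβ hq₂ hq₁ hab.symm hcb.symm hca.symm hb ha
      (Nat.pos_of_ne_zero h2a) (Nat.pos_of_ne_zero h1b) h2c h hseg'

end Pool.Agent.TL
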