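import Pool.Agent.TL.LN
import Pool.Agent.TL.BC

set_option autoImplicit false

/-! # F11: two coordinate derivations `f ∂_a`, `f' ∂_a'`

Proof. By `all_zero_iff`: `D x_j = 0` for `j ≠ a`, so (`D ≠ 0`) the kernel of `D` consists of the polynomials not
involving `x_a` (a polynomial `f` with `D f = 0`: `∂_a f · D x_a = 0`). Same for `conj τ D = τ⁻¹ D τ` with `a'`;
`D (τ x_j) = τ ((conj τ D) x_j) = 0` for `j ≠ a'`, so `τ x_j` does not involve `x_a`. For `j = a'`: `τ x_{a'}` has
degree at most one in `x_a`: let `A = k[x_j : j ≠ a]`; `τ` maps `k[x_j : j ≠ a']` onto `A` (kernels); `x_a` is a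
polynomial in `τ x_{a'}` with coefficients in `A`, compare degrees in `x_a`: `1 = n · deg_{x_a} (τ x_{a'})`.
(Alternatively: `D (τ x_{a'}) = ∂_a (τ x_{a'}) · D x_a` and `D (τ x_{a'}) = τ ((conj τ D) x_{a'})` lies in
`ker D`, so it does not involve `x_a`: degree at most one.) The statement for `τ⁻¹` by symmetry
(`conj τ⁻¹ (conj τ D) = D`). -/

namespace Pool.Agent.TL

open MvPolynomial

variable {k : Type} [Field k] [CharZero k]

namespace F11Aux

omit [CharZero k] in
theorem der_eq {D : Der k} {a : Fin 3} (h : ∀ j, j ≠ a → D (X j) = 0) (f : Rg k) :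
    D f = pderiv a f * D (X a) := by
  classical
  have h1 : D = (D (X a)) • (pderiv a : Der k) := by
    apply MvPolynomial.derivation_ext
    intro j
    by_cases hj : j = a
    · subst hj
      simp
    · rw [h j hj, Derivation.smul_apply, pderiv_X_of_ne hj, smul_zero]
  conv_lhs => rw [h1]
  rw [Derivation.smul_apply, smul_eq_mul, mul_comm]

theorem of_pderiv {f : Rg k} {a : Fin 3} (h : pderiv a f = 0) (m : Fin 3 →₀ ℕ)
    (hm : coeff m f ≠ 0) : m a = 0 := by
  by_contra hne
  have h1 : m - Finsupp.single a 1 + Finsupp.single a 1 = m := by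
    ext j
    simp only [Finsupp.add_apply, Finsupp.tsub_apply]
    by_cases hj : j = a
    · subst hj
      simp only [Finsupp.single_eq_same]
      omega
    · rw [Finsupp.single_eq_of_ne hj]
      omega
  have h2 := coeff_pderiv (i := a) f (m - Finsupp.single a 1)
  rw [h1, h, coeff_zero] at h2
  have h3 : (((m - Finsupp.single a 1 : Fin 3 →₀ ℕ) a : k) + 1) ≠ 0 := by
    exact Nat.cast_add_one_ne_zero _
  exact (mul_ne_zero hm h3) h2.symm

theorem of_pderiv2 {f : Rg k} {a : Fin 3} (h : pderiv a (pderiv a f) = 0) (m : Fin 3 →₀ ℕ)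
    (hm : coeff m f ≠ 0) : m a ≤ 1 := by
  by_contra hne
  have h1 : m - Finsupp.single a 1 + Finsupp.single a 1 = m := by
    ext j
    simp only [Finsupp.add_apply, Finsupp.tsub_apply]
    by_cases hj : j = a
    · subst hj
      simp only [Finsupp.single_eq_same]
      omega
    · rw [Finsupp.single_eq_of_ne hj]
      omega
  have h2 := coeff_pderiv (i := a) f (m - Finsupp.single a 1)
  rw [h1] at h2
  have h3 : (((m - Finsupp.single a 1 : Fin 3 →₀ ℕ) a : k) + 1) ≠ 0 := by
    exact Nat.cast_add_one_ne_zero _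
  have h4 : coeff (m - Finsupp.single a 1) (pderiv a f) ≠ 0 := by
    rw [h2]; exact mul_ne_zero hm h3
  have h5 := of_pderiv h _ h4
  simp only [Finsupp.tsub_apply, Finsupp.single_eq_same] at h5
  omega

theorem half {D : Der k} (hD : IsLND D) (h0 : D ≠ 0) {τ : Au k} {a a' : Fin 3}
    (h : ∀ P ∈ supp D, P a = 0) (h' : ∀ P ∈ supp (conj τ D), P a' = 0) :
    ∀ j m, coeff m (τ (X j)) ≠ 0 → m a ≤ if j = a' then 1 else 0 := by
  have hD' : IsLND (conj τ D) := hD.conj τ
  have e1 := (all_zero_iff hD a).2 h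
  have e2 := (all_zero_iff hD' a').2 h'
  have hp : D (X a) ≠ 0 := by
    intro hz
    apply h0
    apply MvPolynomial.derivation_ext
    intro j
    by_cases hj : j = a
    · subst hj; simpa using hz
    · simpa using e1 j hj
  have key : ∀ f, D (τ f) = τ (conj τ D f) := by
    intro f
    rw [conj_apply]
    simp
  intro j m hm
  by_cases hj : j = a'
  · rw [if_pos hj]
    subst hj
    have g1 : conj τ D (conj τ D (X j)) = 0 := by
      apply D_eq_zero_of_dvd hD'
      rw [der_eq e2 (conj τ D (X j))]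
      exact Dvd.intro_left _ rfl
    have g2 : D (D (τ (X j))) = 0 := by
      rw [key, key, g1, map_zero]
    have g3 : D (D (X a)) = 0 := by
      apply D_eq_zero_of_dvd hD
      rw [der_eq e1 (D (X a))]
      exact Dvd.intro_left _ rfl
    rw [der_eq e1 (τ (X j)), Derivation.leibniz, g3, smul_zero, zero_add, smul_eq_mul,
      der_eq e1 (pderiv a (τ (X j)))] at g2
    have g4 : pderiv a (pderiv a (τ (X j))) = 0 := by
      rcases mul_eq_zero.1 g2 with h1 | h1
      · exact absurd h1 hp
      · rcases mul_eq_zero.1 h1 with h2 | h2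
        · exact h2
        · exact absurd h2 hp
    exact of_pderiv2 g4 m hm
  · rw [if_neg hj]
    have g1 : D (τ (X j)) = 0 := by
      rw [key, e2 j hj, map_zero]
    rw [der_eq e1] at g1
    rcases mul_eq_zero.1 g1 with h2 | h2
    · rw [of_pderiv h2 m hm]
    · exact absurd h2 hp

end F11Aux

theorem F11 {D : Der k} (hD : IsLND D) (h0 : D ≠ 0) {τ : Au k} {a a' : Fin 3}
    (h : ∀ P ∈ supp D, P a = 0) (h' : ∀ P ∈ supp (conj τ D), P a' = 0) :
    (∀ j m, coeff m (τ (X j)) ≠ 0 → m a ≤ if j = a' then 1 else 0) ∧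
    (∀ j m, coeff m (τ.symm (X j)) ≠ 0 → m a' ≤ if j = a then 1 else 0) := by
  refine ⟨F11Aux.half hD h0 h h', ?_⟩
  have hD' : IsLND (conj τ D) := hD.conj τ
  have h0' : conj τ D ≠ 0 := conj_ne_zero h0 τ
  have e : conj τ⁻¹ (conj τ D) = D := by
    rw [← conj_mul, mul_inv_cancel, conj_one]
  have h2 : ∀ P ∈ supp (conj τ⁻¹ (conj τ D)), P a = 0 := by
    rw [e]; exact h
  exact F11Aux.half hD' h0' (τ := τ⁻¹) h' h2

end Pool.Agent.TL
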