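import Pool.Agent.TL.F22i

set_option autoImplicit false

namespace Pool.Agent.TL

open MvPolynomial

variable {k : Type} [Field k] [CharZero k]

namespace F22bAux

theorem dE_one (u : Fin 3 →₀ ℕ) (b : Fin 3) :
    dE u (fun l => if l = b then 1 else 0) = u b := by
  simp [dE]

theorem dE_two (u : Fin 3 →₀ ℕ) {a b : Fin 3} (hab : a ≠ b) :
    dE u (fun l => if l = a ∨ l = b then 1 else 0) = u a + u b := by
  obtain ⟨c, hca, hcb⟩ := exists_third a b
  unfold dE
  rw [sum3 hab hca.symm hcb.symm]
  simp [hca, hcb]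

/-- a derivation is the combination of the partial derivatives -/
theorem der_eq (D : Der k) {a b c : Fin 3} (hab : a ≠ b) (hac : a ≠ c) (hbc : b ≠ c)
    (f : Rg k) :
    D f = pderiv a f * D (X a) + pderiv b f * D (X b) + pderiv c f * D (X c) := by
  have h : D = (D (X a)) • (pderiv a : Der k) + (D (X b)) • (pderiv b : Der k)
      + (D (X c)) • (pderiv c : Der k) := by
    apply MvPolynomial.derivation_ext
    intro j
    rcases eq_of_ne hab hac hbc j with rfl | rfl | rfl
    · simp [pderiv_X, hab, hac, Pi.single_apply, hab.symm, hac.symm]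
    · simp [pderiv_X, hab, hbc, Pi.single_apply, hab.symm, hbc.symm]
    · simp [pderiv_X, hac, hbc, Pi.single_apply, hac.symm, hbc.symm]
  conv_lhs => rw [h]
  simp only [Derivation.add_apply, Derivation.smul_apply, smul_eq_mul]
  ring

/-- chain rule -/
theorem chain (τ : Au k) (l : Fin 3) {a b c : Fin 3} (hab : a ≠ b) (hac : a ≠ c) (hbc : b ≠ c)
    (f : Rg k) :
    pderiv l (τ f) = τ (pderiv a f) * pderiv l (τ (X a)) + τ (pderiv b f) * pderiv l (τ (X b))
      + τ (pderiv c f) * pderiv l (τ (X c)) := by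
  have h := der_eq (conj τ (pderiv l : Der k)) hab hac hbc f
  simp only [conj_apply] at h
  have h2 := congrArg τ h
  simpa using h2

theorem pderiv_eq_zero_of {l : Fin 3} {f : Rg k} (h : ∀ u, coeff u f ≠ 0 → u l = 0) :
    pderiv l f = 0 := by
  apply pderiv_eq_zero_of_notMem_vars
  intro hl
  rw [mem_vars] at hl
  obtain ⟨u, hu, hul⟩ := hl
  have := h u (mem_support_iff.1 hu)
  simp [this] at hul

theorem of_pderiv_eq_zero {l : Fin 3} {f : Rg k} (h : pderiv l f = 0) (u : Fin 3 →₀ ℕ)
    (hu : coeff u f ≠ 0) : u l = 0 := by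
  by_contra hl
  have h1 := coeff_pderiv (i := l) f (u - Finsupp.single l 1)
  have h2 : u - Finsupp.single l 1 + Finsupp.single l 1 = u := by
    ext j
    by_cases hj : j = l
    · subst hj; simp; omega
    · simp [Finsupp.single_apply, Ne.symm hj]
  rw [h, h2, coeff_zero] at h1
  have h3 : (((u - Finsupp.single l 1 : Fin 3 →₀ ℕ) l : ℕ) : k) + 1 ≠ 0 := by
    exact Nat.cast_add_one_ne_zero ((u - Finsupp.single l 1 : Fin 3 →₀ ℕ) l)
  exact hu (by
    rcases mul_eq_zero.1 h1.symm with h4 | h4
    · exact h4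
    · exact absurd h4 h3)

/-- the key contradiction: `w` on the old, `w'` on the new coordinates -/
theorem key {D : Der k} {τ : Au k} {w w' : Wt} {b' : Fin 3} {n n' : ℝ}
    (hw : ∀ j, LE w (w' j) (τ (X j))) (h' : LE w' n' (conj τ D (X b')))
    (hD : ∃ u, coeff u (D (τ (X b'))) ≠ 0 ∧ dE u w = n) (hn : n' < n) : False := by
  have h1 : LE w n' (τ (conj τ D (X b'))) := by
    have := LE.hom (α := w) (β := w') (s := n') (τ : Rg k →ₐ[k] Rg k) (by simpa using hw) h'
    simpa using this
  rw [conj_apply, AlgEquiv.apply_symm_apply] at h1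
  obtain ⟨u, hu, hun⟩ := hD
  have := h1 u hu
  linarith

end F22bAux

open F22bAux in
/-- Matching weights: no offending monomial. Here `α a' = α a`, `α b' = α b`, so `m N = m' N'`.
Conclusion for `j = b'`: every monomial `u` of `Y' = τ x_{b'}` has `u a ≤ u c`; in fact `u a = 0`. -/
theorem F22_b {D : Der k} (hD : IsLND D) {α : Wt} (hα0 : ∀ j, 0 ≤ α j) {s : ℝ}
    (hs : ∀ P ∈ supp D, dt P α = s) {a b c : Fin 3} {i m N E : ℕ}
    (h : F2 (supp D) α a b c i m N E) {τ : Au k} (hτ : GrA τ α)
    (hs' : ∀ P ∈ supp (conj τ D), dt P α = s) {a' b' c' : Fin 3}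
    {i' m' N' E' : ℕ} (h' : F2 (supp (conj τ D)) α a' b' c' i' m' N' E')
    (ha : α a' = α a) (hb : α b' = α b) :
    ∀ u, coeff u (τ (X b')) ≠ 0 → u a = 0 := by
  obtain ⟨⟨κ, hκ, hZ⟩, hcc, hE, hmN, -⟩ := F22_inv hD hα0 hs h hτ hs' h'
  obtain ⟨-, -, hDc, hDb, hDa, ⟨u0, hu0, hu0a, hu0b, hu0c⟩, hXa, hXb⟩ := F2_facts hD hα0 hs h
  obtain ⟨-, -, -, -, -, -, -, hXb'⟩ := F2_facts (hD.conj τ) hα0 hs' h'
  have hαb := h.hb
  have hαc := h.hc
  have hαa := hα0 a
  have hmN' : m * N = m' * N' := by
    rw [hb] at hmN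
    have : ((m * N : ℕ) : ℝ) = ((m' * N' : ℕ) : ℝ) := by
      push_cast
      exact mul_right_cancel₀ hαb.ne' hmN
    exact_mod_cast this
  have hm := h.hm
  have hm' := h'.hm
  have hdE : ∀ u : Fin 3 →₀ ℕ, dE u α = u a * α a + u b * α b + u c * α c := by
    intro u
    unfold dE
    rw [sum3 h.hab h.hac h.hbc]
  have hY : Hg α (α b) (τ (X b')) := by
    have := hτ.1 b'
    rwa [hb] at this
  have hX : Hg α (α a) (τ (X a')) := by
    have := hτ.1 a'
    rwa [ha] at this
  rcases lt_trichotomy (α b) (α a) with hlt | heq | hlt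
  · -- `α b < α a`
    intro u hu
    by_contra hua
    have h1 := hY u hu
    rw [hdE] at h1
    have h2 : (1 : ℝ) ≤ u a := by exact_mod_cast Nat.one_le_iff_ne_zero.2 hua
    have h3 : 0 ≤ (u b : ℝ) * α b := by positivity
    have h4 : 0 ≤ (u c : ℝ) * α c := by positivity
    nlinarith
  · -- `α b = α a`
    have hsmall : ∀ u : Fin 3 →₀ ℕ, dE u α = α b → u a + u b ≤ 1 ∧ (u a + u b = 1 → u c = 0) := by
      intro u hu
      rw [hdE, ← heq] at hu
      have h4 : 0 ≤ (u c : ℝ) * α c := by positivity
      have h5 : ((u a : ℝ) + u b) * α b ≤ 1 * α b := by nlinarith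
      have h6 : (u a : ℝ) + u b ≤ 1 := le_of_mul_le_mul_right h5 hαb
      refine ⟨by exact_mod_cast h6, fun h7 => ?_⟩
      have h8 : (u a : ℝ) + u b = 1 := by exact_mod_cast h7
      have h9 : (u c : ℝ) * α c = 0 := by nlinarith
      rcases mul_eq_zero.1 h9 with h10 | h10
      · exact_mod_cast h10
      · exact absurd h10 hαc.ne'
    -- the partial derivatives of `Y'` are constants
    have hpa : ∃ e : k, pderiv a (τ (X b')) = C e := by
      refine ⟨coeff 0 (pderiv a (τ (X b'))), ?_⟩
      ext u
      rw [coeff_C]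
      split_ifs with h1
      · rw [h1]
      · by_contra h2
        rw [coeff_pderiv] at h2
        have h3 := left_ne_zero_of_mul h2
        obtain ⟨h4, h5⟩ := hsmall _ (hY _ h3)
        simp [Finsupp.single_apply, h.hab, h.hac] at h4 h5
        apply h1
        ext j
        rcases eq_of_ne h.hab h.hac h.hbc j with rfl | rfl | rfl
        · simp; omega
        · simp; omega
        · simp; omega
    have hpb : ∃ e : k, pderiv b (τ (X b')) = C e := by
      refine ⟨coeff 0 (pderiv b (τ (X b'))), ?_⟩
      ext u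
      rw [coeff_C]
      split_ifs with h1
      · rw [h1]
      · by_contra h2
        rw [coeff_pderiv] at h2
        have h3 := left_ne_zero_of_mul h2
        obtain ⟨h4, h5⟩ := hsmall _ (hY _ h3)
        simp [Finsupp.single_apply, h.hab.symm, h.hbc] at h4 h5
        apply h1
        ext j
        rcases eq_of_ne h.hab h.hac h.hbc j with rfl | rfl | rfl
        · simp; omega
        · simp; omega
        · simp; omega
    obtain ⟨e1, he1⟩ := hpa
    obtain ⟨e2, he2⟩ := hpb
    by_cases hz : e1 = 0
    · rw [hz, C_0] at he1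
      exact of_pderiv_eq_zero he1
    · exfalso
      have hDY : D (τ (X b')) = C e1 * D (X a) + C e2 * D (X b) := by
        rw [der_eq D h.hab h.hac h.hbc, he1, he2, hDc]; ring
      refine key (D := D) (τ := τ) (w := fun l => if l = a ∨ l = b then 1 else 0)
        (w' := fun l => if l = a' ∨ l = b' then 1 else 0) (b' := b') (n := (m * N : ℕ) - 1)
        (n' := (m' * N' : ℕ) - m') ?_ ?_ ⟨u0, ?_, ?_⟩ ?_
      · intro j
        rcases eq_of_ne h'.hab h'.hac h'.hbc j with rfl | rfl | rfl
        · intro u hu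
          rw [dE_two u h.hab]
          obtain ⟨h4, -⟩ := hsmall u (by rw [hX u hu, heq])
          simp
          exact_mod_cast h4
        · intro u hu
          rw [dE_two u h.hab]
          obtain ⟨h4, -⟩ := hsmall u (hY u hu)
          simp
          exact_mod_cast h4
        · intro u hu
          rw [hZ] at hu
          rw [dE_two u h.hab]
          have : u = Finsupp.single c 1 := by
            by_contra hne
            apply hu
            rw [coeff_C_mul, coeff_X, if_neg (Ne.symm hne), mul_zero]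
          subst this
          simp [Finsupp.single_apply, h.hac.symm, h.hbc.symm, h'.hac.symm, h'.hbc.symm]
      · intro u hu
        rw [dE_two u h'.hab]
        obtain ⟨-, h5, -⟩ := hXb' u hu
        have : ((u a' + u b' + m' : ℕ) : ℝ) ≤ ((m' * N' : ℕ) : ℝ) := by exact_mod_cast h5
        push_cast at this ⊢
        linarith
      · rw [hDY, coeff_add, coeff_C_mul, coeff_C_mul]
        have : coeff u0 (D (X b)) = 0 := by
          by_contra h6
          obtain ⟨h7, -, -⟩ := hXb u0 h6
          omega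
        rw [this, mul_zero, add_zero]
        exact mul_ne_zero hz hu0
      · rw [dE_two u0 h.hab, hu0a]
        have : ((u0 b + 1 : ℕ) : ℝ) = ((m * N : ℕ) : ℝ) := by exact_mod_cast hu0b
        push_cast at this ⊢
        linarith
      · have h8 : (2 : ℝ) ≤ m' := by exact_mod_cast hm'
        have h9 : ((m * N : ℕ) : ℝ) = ((m' * N' : ℕ) : ℝ) := by exact_mod_cast hmN'
        rw [h9]
        linarith
  · -- `α a < α b`
    have hXb0 : ∀ u, coeff u (τ (X a')) ≠ 0 → u b = 0 := by
      intro u hu
      by_contra hub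
      have h1 := hX u hu
      rw [hdE] at h1
      have h2 : (1 : ℝ) ≤ u b := by exact_mod_cast Nat.one_le_iff_ne_zero.2 hub
      have h3 : 0 ≤ (u a : ℝ) * α a := by positivity
      have h4 : 0 ≤ (u c : ℝ) * α c := by positivity
      nlinarith
    have hYb1 : ∀ u, coeff u (τ (X b')) ≠ 0 → u b ≤ 1 := by
      intro u hu
      by_contra hub
      have h1 := hY u hu
      rw [hdE] at h1
      have h2 : (2 : ℝ) ≤ u b := by exact_mod_cast (by omega : 2 ≤ u b)
      have h3 : 0 ≤ (u a : ℝ) * α a := by positivity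
      have h4 : 0 ≤ (u c : ℝ) * α c := by positivity
      nlinarith
    -- `∂_b Y'` is a constant
    have hpb : ∃ e : k, pderiv b (τ (X b')) = C e := by
      have h1 := chain τ b h'.hab h'.hac h'.hbc (τ.symm (X b))
      rw [AlgEquiv.apply_symm_apply, pderiv_X_self, pderiv_eq_zero_of hXb0, mul_zero, zero_add,
        hZ, pderiv_C_mul, pderiv_X_of_ne h.hbc.symm] at h1
      simp only [smul_zero, mul_zero, add_zero] at h1
      have h2 : IsUnit (pderiv b (τ (X b'))) := IsUnit.of_mul_eq_one_right _ h1.symm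
      rw [MvPolynomial.isUnit_iff_eq_C_of_isReduced] at h2
      obtain ⟨e, -, he⟩ := h2
      exact ⟨e, he⟩
    obtain ⟨e2, he2⟩ := hpb
    by_contra hcon
    push Not at hcon
    have hQ : pderiv a (τ (X b')) ≠ 0 := by
      intro h0
      obtain ⟨u, hu, hua⟩ := hcon
      exact hua (of_pderiv_eq_zero h0 u hu)
    have hQb : pderiv b (pderiv a (τ (X b'))) = 0 := by
      have : pderiv b (pderiv a (τ (X b'))) = pderiv a (pderiv b (τ (X b'))) := by
        ext u
        simp only [coeff_pderiv, Finsupp.add_apply, Finsupp.single_apply, h.hab, h.hab.symm,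
          if_false, add_zero]
        rw [add_right_comm]
        ring
      rw [this, he2, pderiv_C]
    have hQ0 : ∀ u, coeff u (pderiv a (τ (X b'))) ≠ 0 → u b = 0 := of_pderiv_eq_zero hQb
    have hDY : D (τ (X b')) = pderiv a (τ (X b')) * D (X a) + C e2 * D (X b) := by
      rw [der_eq D h.hab h.hac h.hbc, he2, hDc]; ring
    set w : Wt := fun l => if l = b then 1 else 0 with hw
    have hex : ∃ u, coeff u (D (τ (X b'))) ≠ 0 ∧ dE u w = ((m * N : ℕ) : ℝ) - 1 := by
      have h1 : LE w (((m * N : ℕ) : ℝ) - 1) (D (X a)) := by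
        intro u hu
        rw [dE_one]
        obtain ⟨h2, -⟩ := hXa u hu
        have : ((u b + 1 : ℕ) : ℝ) ≤ ((m * N : ℕ) : ℝ) := by exact_mod_cast h2
        push_cast at this ⊢
        linarith
      have h2 : hc w (((m * N : ℕ) : ℝ) - 1) (D (X a)) ≠ 0 := by
        intro h3
        have h4 := congrArg (coeff u0) h3
        rw [coeff_hc_eq, coeff_zero] at h4
        · exact hu0 h4
        · rw [dE_one]
          have : ((u0 b + 1 : ℕ) : ℝ) = ((m * N : ℕ) : ℝ) := by exact_mod_cast hu0b
          push_cast at this ⊢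
          linarith
      have h3 : Hg w 0 (pderiv a (τ (X b'))) := by
        intro u hu
        rw [dE_one, hQ0 u hu]; simp
      have h4 := hc_mul h3.LE h1
      rw [zero_add, hc_of_Hg h3] at h4
      have h5 : LE w (((m * N : ℕ) : ℝ) - m) (C e2 * D (X b)) := by
        have h6 : LE w (((m * N : ℕ) : ℝ) - m) (D (X b)) := by
          intro u hu
          rw [dE_one]
          obtain ⟨h2, -⟩ := hXb u hu
          have : ((u b + m : ℕ) : ℝ) ≤ ((m * N : ℕ) : ℝ) := by exact_mod_cast h2
          push_cast at this ⊢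
          linarith
        have := (LE_C w e2).mul h6
        rwa [zero_add] at this
      have h7 : hc w (((m * N : ℕ) : ℝ) - 1) (C e2 * D (X b)) = 0 := by
        refine hc_eq_zero_of_lt h5 ?_
        have h8 : (2 : ℝ) ≤ m := by exact_mod_cast hm
        linarith
      have h8 : hc w (((m * N : ℕ) : ℝ) - 1) (D (τ (X b'))) ≠ 0 := by
        rw [hDY, hc_add, h7, add_zero, h4]
        exact mul_ne_zero hQ h2
      obtain ⟨u, hu⟩ := MvPolynomial.ne_zero_iff.1 h8
      classical
      rw [coeff_hc] at hu
      split_ifs at hu with h9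
      · exact ⟨u, hu, h9⟩
      · exact absurd rfl hu
    refine key (D := D) (τ := τ) (w := w)
        (w' := fun l => if l = b' then 1 else 0) (b' := b') (n := (m * N : ℕ) - 1)
        (n' := (m' * N' : ℕ) - m') ?_ ?_ hex ?_
    · intro j
      rcases eq_of_ne h'.hab h'.hac h'.hbc j with rfl | rfl | rfl
      · intro u hu
        rw [dE_one, hXb0 u hu]
        simp [h'.hab]
      · intro u hu
        rw [dE_one]
        simp
        exact_mod_cast hYb1 u hu
      · intro u hu
        rw [hZ] at hu
        rw [dE_one]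
        have : u = Finsupp.single c 1 := by
          by_contra hne
          apply hu
          rw [coeff_C_mul, coeff_X, if_neg (Ne.symm hne), mul_zero]
        subst this
        simp [Finsupp.single_apply, h.hbc.symm, h'.hbc.symm]
    · intro u hu
      rw [dE_one]
      obtain ⟨h5, -⟩ := hXb' u hu
      have : ((u b' + m' : ℕ) : ℝ) ≤ ((m' * N' : ℕ) : ℝ) := by exact_mod_cast h5
      push_cast at this ⊢
      linarith
    · have h8 : (2 : ℝ) ≤ m' := by exact_mod_cast hm'
      have h9 : ((m * N : ℕ) : ℝ) = ((m' * N' : ℕ) : ℝ) := by exact_mod_cast hmN'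
      rw [h9]
      linarith

end Pool.Agent.TL
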