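import Pool.Agent.TL.F22s
import Pool.Agent.TL.F22b

set_option autoImplicit false

namespace Pool.Agent.TL

open MvPolynomial

variable {k : Type} [Field k] [CharZero k]

namespace F22Aux

theorem exists_poly {α : Wt} (hα0 : ∀ j, 0 ≤ α j) {a : Fin 3} (h0 : α a = 0)
    (h1 : ∀ i j, α i = 0 → α j = 0 → i = j) {f : Rg k} (hf : Hg α (α a) f) :
    ∃ p : Polynomial k, Polynomial.aeval (X a : Rg k) p = f := by
  have h2 : ∀ u, coeff u f ≠ 0 → ∀ j, j ≠ a → u j = 0 := by
    intro u hu j hj
    have h3 := hf u hu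
    rw [h0] at h3
    have h4 := (Finset.sum_eq_zero_iff_of_nonneg
      (fun l _ => mul_nonneg (Nat.cast_nonneg (u l)) (hα0 l))).1 h3 j (Finset.mem_univ _)
    rcases mul_eq_zero.1 h4 with h5 | h5
    · exact_mod_cast h5
    · exact absurd (h1 j a h5 h0) hj
  have h3 : f ∈ supported k ({a} : Set (Fin 3)) := by
    rw [mem_supported]
    intro j hj
    rw [Finset.mem_coe, mem_vars_iff_mem_support] at hj
    obtain ⟨u, hu, hj⟩ := hj
    rw [mem_support_iff] at hu
    by_contra hja
    exact Finsupp.mem_support_iff.1 hj (h2 u hu j hja)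
  rw [supported_eq_adjoin_X, Set.image_singleton, Algebra.adjoin_singleton_eq_range_aeval] at h3
  exact h3

theorem injective (a : Fin 3) :
    Function.Injective (Polynomial.aeval (X a : Rg k) : Polynomial k →ₐ[k] Rg k) := by
  have h := transcendental_polynomial_aeval_X k a (Polynomial.transcendental_X k)
  rw [Polynomial.aeval_X] at h
  exact transcendental_iff_injective.1 h

theorem degree_one {p q : Polynomial k} (h : q.comp p = Polynomial.X) : p.natDegree ≤ 1 := by
  have h1 : (q.comp p).natDegree = 1 := by rw [h, Polynomial.natDegree_X]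
  rw [Polynomial.natDegree_comp] at h1
  exact (Nat.eq_one_of_mul_eq_one_left h1).le

theorem coeff_le_one {p : Polynomial k} (hp : p.natDegree ≤ 1) (a : Fin 3) (u : Fin 3 →₀ ℕ)
    (hu : coeff u (Polynomial.aeval (X a : Rg k) p) ≠ 0) : u a ≤ 1 := by
  rw [Polynomial.eq_X_add_C_of_natDegree_le_one hp, map_add, map_mul, Polynomial.aeval_X,
    Polynomial.aeval_C, Polynomial.aeval_C, algebraMap_eq, coeff_add, coeff_C_mul, coeff_C,
    coeff_X] at hu
  by_contra h
  rw [if_neg, if_neg, mul_zero, add_zero] at hu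
  · exact hu rfl
  · rintro rfl
    simp at h
  · rintro rfl
    simp at h

theorem dE_delta {a b c : Fin 3} (hab : a ≠ b) (hac : a ≠ c) (hbc : b ≠ c) (u : Fin 3 →₀ ℕ) :
    dE u (fun l => if l = a then 1 else if l = c then -1 else 0) = (u a : ℝ) - u c := by
  unfold dE
  rw [sum3 hab hac hbc]
  simp [hab.symm, hac.symm, hbc]
  ring

end F22Aux

/-- every monomial `u` of `X' = τ x_{a'}` has `u a ≤ 1`. Proof. If `α a > 0` this is homogeneity
(`u a α a ≤ α a`). If `α a = 0`: `τ x_{a'}` and `τ⁻¹ x_a` have weight `0`. All weights other than `α a` are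
positive (`α b, α c > 0`), so `a' = a` (the only index of weight `0`), `τ x_a ∈ k[x_a]`, `τ⁻¹ x_a ∈ k[x_a]`, so
`τ x_a` has degree one. -/
theorem F22_a {α : Wt} (hα0 : ∀ j, 0 ≤ α j) {a a' : Fin 3} {τ : Au k} (hτ : GrA τ α)
    (ha : α a' = α a) (h1 : ∀ i j, α i = 0 → α j = 0 → i = j) :
    ∀ u, coeff u (τ (X a')) ≠ 0 → u a ≤ 1 := by
  intro u hu
  rcases (hα0 a).lt_or_eq with h0 | h0
  · have h2 := hτ.1 a' u hu
    rw [ha] at h2
    have h3 : (u a : ℝ) * α a ≤ dE u α :=
      Finset.single_le_sum (f := fun l => (u l : ℝ) * α l)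
        (fun l _ => mul_nonneg (Nat.cast_nonneg (u l)) (hα0 l)) (Finset.mem_univ a)
    rw [h2] at h3
    have h4 : (u a : ℝ) ≤ 1 := by
      by_contra h
      have h5 := mul_lt_mul_of_pos_right (not_le.1 h) h0
      linarith
    exact_mod_cast h4
  · have h2 : a' = a := h1 a' a (ha.trans h0.symm) h0.symm
    subst h2
    obtain ⟨p, hp⟩ := F22Aux.exists_poly hα0 h0.symm h1 (hτ.1 a')
    obtain ⟨q, hq⟩ := F22Aux.exists_poly hα0 h0.symm h1 (hτ.2 a')
    have h3 : Polynomial.aeval (X a' : Rg k) (q.comp p) =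
        Polynomial.aeval (X a' : Rg k) (Polynomial.X : Polynomial k) := by
      rw [Polynomial.aeval_X, Polynomial.aeval_comp, hp]
      have h4 : τ (Polynomial.aeval (X a' : Rg k) q) = X a' := by
        rw [hq, AlgEquiv.apply_symm_apply]
      exact (Polynomial.aeval_algHom_apply (τ : Rg k →ₐ[k] Rg k) (X a') q).trans h4
    have h4 := F22Aux.degree_one (F22Aux.injective a' h3)
    rw [← hp] at hu
    exact F22Aux.coeff_le_one h4 a' u hu

/-- the `δ`-inequalities with `δ = (1, 0, -1)` at `(a, b, c)` -/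
theorem F22 {D : Der k} (hD : IsLND D) {α : Wt} (hα0 : ∀ j, 0 ≤ α j) {s : ℝ}
    (hs : ∀ P ∈ supp D, dt P α = s) {a b c : Fin 3} {i m N E : ℕ}
    (h : F2 (supp D) α a b c i m N E) {τ : Au k} (hτ : GrA τ α)
    (hs' : ∀ P ∈ supp (conj τ D), dt P α = s) {a' b' c' : Fin 3}
    {i' m' N' E' : ℕ} (h' : F2 (supp (conj τ D)) α a' b' c' i' m' N' E') :
    ∀ j u, coeff u (τ (X j)) ≠ 0 →
      dE u (fun l => if l = a then 1 else if l = c then -1 else 0) ≤
        (if j = a' then 1 else if j = c' then -1 else 0) := by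
  obtain ⟨⟨κ, hκ, hκc⟩, hc, hEE, hmN, hcase⟩ := F22_inv hD hα0 hs h hτ hs' h'
  have hmatch : α a' = α a ∧ α b' = α b := by
    rcases hcase with h1 | ⟨h1, h2⟩
    · exact h1
    · rcases lt_trichotomy (α a) (α b) with h3 | h3 | h3
      · exact (F22_swap hD hα0 hs h hτ hs' h' h1 h2 h3).elim
      · exact ⟨h1.trans h3.symm, h2.trans h3⟩
      · exfalso
        have hback : conj τ.symm (conj τ D) = D := by
          have h4 := conj_mul τ τ⁻¹ D
          rw [mul_inv_cancel, conj_one] at h4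
          exact h4.symm
        have hs2 : ∀ P ∈ supp (conj τ.symm (conj τ D)), dt P α = s := by
          rw [hback]
          exact hs
        have h5 : F2 (supp (conj τ.symm (conj τ D))) α a b c i m N E := by
          rw [hback]
          exact h
        refine F22_swap (hD.conj τ) hα0 hs' h' (τ := τ.symm) ⟨hτ.2, ?_⟩ hs2 h5 h2.symm h1.symm ?_
        · exact hτ.1
        · rw [h1, h2]
          exact h3
  have h1 : ∀ i j, α i = 0 → α j = 0 → i = j := by
    have h2 : ∀ i, α i = 0 → i = a := fun i hi => by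
      rcases eq_of_ne h.hab h.hac h.hbc i with h3 | h3 | h3
      · exact h3
      · rw [h3] at hi
        exact absurd hi h.hb.ne'
      · rw [h3] at hi
        exact absurd hi h.hc.ne'
    exact fun i j hi hj => (h2 i hi).trans (h2 j hj).symm
  intro j u hu
  rw [F22Aux.dE_delta h.hab h.hac h.hbc]
  have hua : (0 : ℝ) ≤ u c := Nat.cast_nonneg _
  rcases eq_of_ne h'.hab h'.hac h'.hbc j with rfl | rfl | rfl
  · rw [if_pos rfl]
    have h2 := F22_a hα0 hτ hmatch.1 h1 u hu
    have h3 : (u a : ℝ) ≤ 1 := by exact_mod_cast h2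
    linarith
  · rw [if_neg h'.hab.symm, if_neg h'.hbc,
      F22_b hD hα0 hs h hτ hs' h' hmatch.1 hmatch.2 u hu]
    simp
  · rw [if_neg h'.hac.symm, if_pos rfl]
    rw [hκc, coeff_C_mul, coeff_X] at hu
    have h2 : Finsupp.single c 1 = u := by
      by_contra h3
      rw [if_neg h3, mul_zero] at hu
      exact hu rfl
    rw [← h2]
    simp [h.hac.symm]

end Pool.Agent.TL
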