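import Pool.Agent.TL.KC

set_option autoImplicit false

/-! # F22: two final forms F2

`D` has form F2 with roles `a, b, c`, `D' = conj τ D` has form F2 with roles `a', b', c'`, the same weight `α`, the
same value `s` (automatic), `τ` graded. Write `X = x_a`, `Y = x_b`, `Z = x_c`, `X' = τ x_{a'}` etc.

Proof (paper proof section 8). `ker_coord` (as `D' x_{c'} = 0`): `Z' = κ Z`, `α c' = α c`. `E = E'`:
`x_c^(E-1)` divides all `D x_j` and `x_c^E` does not divide `D x_a`; `D (τ f) = τ (D' f)`, `τ x_{c'} = κ x_c`.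
So `m N α b = m' N' α b'` (first item of `F2_facts`), and `α a + α b = α a' + α b'` (`sm`), and
`{α a', α b'} = {α a, α b}` (all three are the same weight function; if `c' = c` then `{a', b'} = {a, b}`, if
`c' ≠ c` then `α c' = α c` and the remaining indices have the remaining weights). -/

namespace Pool.Agent.TL

open MvPolynomial

variable {k : Type} [Field k] [CharZero k]

namespace F22iAux

omit [CharZero k] in
/-- a power of a variable divides `f` if it divides all monomials -/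
theorem X_pow_dvd (c : Fin 3) (n : ℕ) (f : Rg k) (h : ∀ u, coeff u f ≠ 0 → n ≤ u c) :
    (X c : Rg k) ^ n ∣ f := by
  classical
  rw [f.as_sum]
  refine Finset.dvd_sum fun u hu => ?_
  have hu' := h u (mem_support_iff.1 hu)
  rw [X_pow_eq_monomial]
  rw [monomial_dvd_monomial]
  refine ⟨Or.inr ?_, one_dvd _⟩
  intro j
  by_cases hj : j = c
  · subst hj
    simpa using hu'
  · rw [Finsupp.single_eq_of_ne hj]
    exact Nat.zero_le _

omit [CharZero k] in
theorem le_of_X_pow_dvd (c : Fin 3) (n : ℕ) (f : Rg k) (h : (X c : Rg k) ^ n ∣ f)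
    (u : Fin 3 →₀ ℕ) (hu : coeff u f ≠ 0) : n ≤ u c := by
  classical
  obtain ⟨g, rfl⟩ := h
  rw [X_pow_eq_monomial, coeff_monomial_mul'] at hu
  by_contra hlt
  push Not at hlt
  apply hu
  rw [if_neg]
  intro hle
  have := hle c
  rw [Finsupp.single_eq_same] at this
  omega

omit [CharZero k] in
/-- divisibility of the values of a derivation follows from that on the variables -/
theorem dvd_der (D : Der k) (p : Rg k) (h : ∀ j, p ∣ D (X j)) (f : Rg k) : p ∣ D f := by
  induction f using MvPolynomial.induction_on with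
  | C a =>
    rw [← algebraMap_eq, Derivation.map_algebraMap]
    exact dvd_zero _
  | add f g hf hg =>
    rw [map_add]
    exact dvd_add hf hg
  | mul_X f j hf =>
    rw [Derivation.leibniz]
    exact dvd_add ((h j).mul_left _) (hf.mul_left _)

theorem E_le {D : Der k} (hD : IsLND D) {α : Wt} (hα0 : ∀ j, 0 ≤ α j) {s : ℝ}
    (hs : ∀ P ∈ supp D, dt P α = s) {a b c : Fin 3} {i m N E : ℕ}
    (h : F2 (supp D) α a b c i m N E) (f : Rg k) : (X c : Rg k) ^ (E - 1) ∣ D f := by
  obtain ⟨-, -, h3, -, -, -, h7, h8⟩ := F2_facts hD hα0 hs h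
  apply dvd_der
  intro j
  rcases eq_of_ne h.hab h.hac h.hbc j with rfl | rfl | rfl
  · apply X_pow_dvd
    intro u hu
    have := (h7 u hu).2
    omega
  · apply X_pow_dvd
    intro u hu
    have := (h8 u hu).2.2
    omega
  · rw [h3]
    exact dvd_zero _

end F22iAux

/-- the invariants -/
theorem F22_inv {D : Der k} (hD : IsLND D) {α : Wt} (hα0 : ∀ j, 0 ≤ α j) {s : ℝ}
    (hs : ∀ P ∈ supp D, dt P α = s) {a b c : Fin 3} {i m N E : ℕ}
    (h : F2 (supp D) α a b c i m N E) {τ : Au k} (hτ : GrA τ α)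
    (hs' : ∀ P ∈ supp (conj τ D), dt P α = s) {a' b' c' : Fin 3}
    {i' m' N' E' : ℕ} (h' : F2 (supp (conj τ D)) α a' b' c' i' m' N' E') :
    (∃ κ : k, κ ≠ 0 ∧ τ (X c') = C κ * X c) ∧ α c' = α c ∧ E = E' ∧
      (m : ℝ) * N * α b = m' * N' * α b' ∧
      ((α a' = α a ∧ α b' = α b) ∨ (α a' = α b ∧ α b' = α a)) := by
  have hD' := hD.conj τ
  obtain ⟨f1, -, -, -, -, ⟨u, hu, -, -, huc⟩, -, -⟩ := F2_facts hD hα0 hs h
  obtain ⟨g1, -, g3, -, -, ⟨v, hv, -, -, hvc⟩, -, -⟩ := F2_facts hD' hα0 hs' h'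
  have hker : D (τ (X c')) = 0 := by
    rw [conj_apply] at g3
    exact (map_eq_zero_iff τ.symm τ.symm.injective).1 g3
  obtain ⟨hc, κ, hκ, hκ'⟩ := ker_coord hD hα0 hs h hτ hker
  have hsymm : τ.symm (X c) = C κ⁻¹ * X c' := by
    have h1 : τ.symm (τ (X c')) = τ.symm (C κ * X c) := by rw [hκ']
    rw [AlgEquiv.symm_apply_apply, map_mul] at h1
    have h2 : τ.symm (C κ : Rg k) = C κ := by
      rw [← algebraMap_eq, AlgEquiv.commutes]
    rw [h2] at h1
    rw [h1, ← mul_assoc, ← C_mul, inv_mul_cancel₀ hκ, C_1, one_mul]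
  have hCunit : ∀ (r : k), r ≠ 0 → ∀ n : ℕ, IsUnit ((C r : Rg k) ^ n) := fun r hr n =>
    IsUnit.pow n ((isUnit_iff_ne_zero.2 hr).map C)
  have hE1 : E' ≤ E := by
    have h1 := F22iAux.E_le hD' hα0 hs' h' (τ.symm (X a))
    have h2 : τ ((X c' : Rg k) ^ (E' - 1)) ∣ τ (conj τ D (τ.symm (X a))) := map_dvd τ h1
    rw [conj_apply, AlgEquiv.apply_symm_apply, AlgEquiv.apply_symm_apply, map_pow, hκ',
      mul_pow] at h2
    have h3 : (X c : Rg k) ^ (E' - 1) ∣ D (X a) := (Dvd.intro_left _ rfl).trans h2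
    have h4 := F22iAux.le_of_X_pow_dvd c (E' - 1) _ h3 u hu
    omega
  have hE2 : E ≤ E' := by
    have h1 := F22iAux.E_le hD hα0 hs h (τ (X a'))
    have h2 : τ.symm ((X c : Rg k) ^ (E - 1)) ∣ τ.symm (D (τ (X a'))) := map_dvd τ.symm h1
    rw [← conj_apply, map_pow, hsymm, mul_pow] at h2
    have h3 : (X c' : Rg k) ^ (E - 1) ∣ conj τ D (X a') := (Dvd.intro_left _ rfl).trans h2
    have h4 := F22iAux.le_of_X_pow_dvd c' (E - 1) _ h3 v hv
    omega
  have hEE : E = E' := le_antisymm hE2 hE1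
  refine ⟨⟨κ, hκ, hκ'⟩, hc, hEE, ?_, ?_⟩
  · subst hEE
    rw [hc] at g1
    linarith
  · have ha' := eq_of_ne h.hab h.hac h.hbc a'
    have hb' := eq_of_ne h.hab h.hac h.hbc b'
    have hc' := eq_of_ne h.hab h.hac h.hbc c'
    have n1 := h'.hab
    have n2 := h'.hac
    have n3 := h'.hbc
    rcases ha' with e1 | e1 | e1 <;> rcases hb' with e2 | e2 | e2 <;>
      rcases hc' with e3 | e3 | e3 <;> simp_all
end Pool.Agent.TL
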