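import Pool.Agent.TL.F22i

set_option autoImplicit false

namespace Pool.Agent.TL

open MvPolynomial

variable {k : Type} [Field k] [CharZero k]

namespace F22sAux

theorem dE3 {a b c : Fin 3} (hab : a ≠ b) (hac : a ≠ c) (hbc : b ≠ c) (u : Fin 3 →₀ ℕ) (α : Wt) :
    dE u α = u a * α a + u b * α b + u c * α c := sum3 hab hac hbc (fun j => (u j : ℝ) * α j)

omit [CharZero k] in
/-- a polynomial in a kernel coordinate is in the kernel -/
theorem der_eq_zero {D : Der k} {c : Fin 3} (hc : D (X c) = 0) (f : Rg k)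
    (h : ∀ u, coeff u f ≠ 0 → ∀ j, j ≠ c → u j = 0) : D f = 0 := by
  classical
  rw [f.as_sum, map_sum]
  refine Finset.sum_eq_zero fun u hu => ?_
  have h1 := h u (mem_support_iff.1 hu)
  have h2 : u = Finsupp.single c (u c) := by
    ext j
    by_cases hj : j = c
    · subst hj
      simp
    · rw [h1 j hj, Finsupp.single_eq_of_ne hj]
  have h3 : (monomial u (coeff u f) : Rg k) = C (coeff u f) * X c ^ (u c) := by
    rw [C_mul_X_pow_eq_monomial, ← h2]
  rw [h3, Derivation.leibniz, Derivation.leibniz_pow, hc]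
  rw [← algebraMap_eq, Derivation.map_algebraMap]
  simp

end F22sAux

/-- Swapped weights with `α a < α b` are impossible. Proof. `α b' = α a`, `α a' = α b`. Homogeneity: all
monomials of `Y' = τ x_{b'}` (weight `α a`, `0 < α b' = α a < α b`) are `x_a` or powers of `x_c`; those of
`X' = τ x_{a'}` (weight `α b`) are `x_b` or in `k[x_a, x_c]`. `D Y' = u D x_a` with `u ≠ 0` (`u = 0` would give
`D Y' = 0`, but `D' x_{b'} ≠ 0`). So `D Y' = u D X` has a monomial with `x_b`-exponent `m N - 1`, and none larger. Also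
`D Y' = τ (D' x_{b'})`, and every monomial `u'` of `D' x_{b'}` has `u' a' + 1 ≤ N'` (as `m' P a' + P b' ≤ m' N'`);
`τ` maps the monomial `u'` to a polynomial of `x_b`-degree at most `u' a'` (only `X'` involves `x_b`, with degree
at most one). So `m N - 1 ≤ N' - 1`. Then `m N α b = m' N' α a ≥ m' m N α a`, so `α b ≥ m' α a = m' α b'
= α a' + i' α c' = α b + i' α c > α b`. -/
theorem F22_swap {D : Der k} (hD : IsLND D) {α : Wt} (hα0 : ∀ j, 0 ≤ α j) {s : ℝ}
    (hs : ∀ P ∈ supp D, dt P α = s) {a b c : Fin 3} {i m N E : ℕ}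
    (h : F2 (supp D) α a b c i m N E) {τ : Au k} (hτ : GrA τ α)
    (hs' : ∀ P ∈ supp (conj τ D), dt P α = s) {a' b' c' : Fin 3}
    {i' m' N' E' : ℕ} (h' : F2 (supp (conj τ D)) α a' b' c' i' m' N' E')
    (ha : α a' = α b) (hb : α b' = α a) (hlt : α a < α b) : False := by
  classical
  have hD' := hD.conj τ
  obtain ⟨⟨κ, hκ, hκ'⟩, hcc, hEE, hinv, -⟩ := F22_inv hD hα0 hs h hτ hs' h'
  obtain ⟨f1, f2, f3, -, -, ⟨u, hu, hua, hub, huc⟩, -, -⟩ := F2_facts hD hα0 hs h
  obtain ⟨g1, g2, g3, g4, -, -, -, g8⟩ := F2_facts hD' hα0 hs' h'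
  have hαc := h.hc
  have hαb := h.hb
  have hαa : 0 < α a := by
    rw [← hb]
    exact h'.hb
  -- monomials of `Y'`
  have hY : ∀ w, coeff w (τ (X b')) ≠ 0 →
      w b = 0 ∧ (w = Finsupp.single a 1 ∨ w a = 0) := by
    intro w hw
    have h1 := hτ.1 b' w hw
    rw [F22sAux.dE3 h.hab h.hac h.hbc, hb] at h1
    have hwb : w b = 0 := by
      by_contra hne
      have h2 : (1 : ℝ) ≤ w b := by exact_mod_cast Nat.one_le_iff_ne_zero.2 hne
      have h3 : 0 ≤ (w a : ℝ) * α a := mul_nonneg (Nat.cast_nonneg _) hαa.le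
      have h4 : 0 ≤ (w c : ℝ) * α c := mul_nonneg (Nat.cast_nonneg _) hαc.le
      nlinarith
    refine ⟨hwb, ?_⟩
    by_cases hwa : w a = 0
    · exact Or.inr hwa
    · left
      have h2 : (1 : ℝ) ≤ w a := by exact_mod_cast Nat.one_le_iff_ne_zero.2 hwa
      rw [hwb, Nat.cast_zero, zero_mul, add_zero] at h1
      have h4 : 0 ≤ (w c : ℝ) * α c := mul_nonneg (Nat.cast_nonneg _) hαc.le
      have h5 : (w a : ℝ) = 1 := by
        apply le_antisymm _ h2
        by_contra hlt'
        push Not at hlt'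
        nlinarith
      have h6 : (w c : ℝ) * α c = 0 := by
        rw [h5] at h1
        linarith
      have h7 : w c = 0 := by
        rcases mul_eq_zero.1 h6 with h7 | h7
        · exact_mod_cast h7
        · exact (hαc.ne' h7).elim
      have h8 : w a = 1 := by exact_mod_cast h5
      ext j
      rcases eq_of_ne h.hab h.hac h.hbc j with rfl | rfl | rfl
      · rw [Finsupp.single_eq_same, h8]
      · rw [Finsupp.single_eq_of_ne h.hab.symm, hwb]
      · rw [Finsupp.single_eq_of_ne h.hac.symm, h7]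
  -- `x_b`-degree of `X'`
  have hX : ∀ w, coeff w (τ (X a')) ≠ 0 → w b ≤ 1 := by
    intro w hw
    have h1 := hτ.1 a' w hw
    rw [F22sAux.dE3 h.hab h.hac h.hbc, ha] at h1
    by_contra hne
    push Not at hne
    have h2 : (2 : ℝ) ≤ w b := by exact_mod_cast hne
    have h3 : 0 ≤ (w a : ℝ) * α a := mul_nonneg (Nat.cast_nonneg _) hαa.le
    have h4 : 0 ≤ (w c : ℝ) * α c := mul_nonneg (Nat.cast_nonneg _) hαc.le
    nlinarith
  -- the derivative of `Y'`
  set r : k := coeff (Finsupp.single a 1) (τ (X b')) with hr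
  have hDY : D (τ (X b')) = C r * D (X a) := by
    have h1 : D (τ (X b') - C r * X a) = 0 := by
      apply F22sAux.der_eq_zero f3
      intro w hw j hj
      have hX1 : (C r * X a : Rg k) = monomial (Finsupp.single a 1) r := by
        rw [C_mul_X_eq_monomial]
      rw [coeff_sub, hX1, coeff_monomial] at hw
      by_cases hw1 : Finsupp.single a 1 = w
      · exfalso
        rw [if_pos hw1, ← hw1, ← hr, sub_self] at hw
        exact hw rfl
      · rw [if_neg hw1, sub_zero] at hw
        obtain ⟨h2, h3⟩ := hY w hw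
        rcases h3 with h3 | h3
        · exact (hw1 h3.symm).elim
        · rcases eq_of_ne h.hab h.hac h.hbc j with rfl | rfl | rfl
          · exact h3
          · exact h2
          · exact (hj rfl).elim
    rw [map_sub, sub_eq_zero] at h1
    rw [h1, Derivation.leibniz, ← algebraMap_eq, Derivation.map_algebraMap]
    simp
  have hr0 : r ≠ 0 := by
    intro h0
    apply g4
    rw [conj_apply, hDY, h0, C_0, zero_mul, map_zero]
  -- degree bounds
  let β : Wt := Pi.single b 1
  let β' : Wt := Pi.single a' 1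
  have hβ : ∀ w : Fin 3 →₀ ℕ, dE w β = w b := by
    intro w
    rw [F22sAux.dE3 h.hab h.hac h.hbc]
    simp [β, h.hab, h.hbc.symm]
  have hβ' : ∀ w : Fin 3 →₀ ℕ, dE w β' = w a' := by
    intro w
    rw [F22sAux.dE3 h'.hab h'.hac h'.hbc]
    simp [β', h'.hab.symm, h'.hac.symm]
  have hle : LE β ((N' : ℝ) - 1) (τ (conj τ D (X b'))) := by
    refine LE.hom (α := β) (β := β') (τ : Rg k →ₐ[k] Rg k) ?_ ?_
    · intro j w hw
      have hw' : coeff w (τ (X j)) ≠ 0 := hw
      rw [hβ]
      rcases eq_of_ne h'.hab h'.hac h'.hbc j with rfl | rfl | rfl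
      · have := hX w hw'
        have h1 : β' j = 1 := by simp [β']
        rw [h1]
        exact_mod_cast this
      · have := (hY w hw').1
        have h1 : β' j = 0 := by simp [β', h'.hab.symm]
        rw [h1, this, Nat.cast_zero]
      · have h1 : β' j = 0 := by simp [β', h'.hac.symm]
        rw [hκ', C_mul_X_eq_monomial, coeff_monomial] at hw'
        split_ifs at hw' with h2
        · rw [h1, ← h2, Finsupp.single_eq_of_ne h.hbc, Nat.cast_zero]
        · exact (hw' rfl).elim
    · intro w hw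
      rw [hβ']
      have h1 : sh b' w ∈ supp (conj τ D) := mem_supp.2 ⟨b', w, hw, rfl⟩
      have h2 := g2 _ h1
      have h3 : sh b' w a' = w a' + 1 := by
        simp [sh, h'.hab]
      rw [h3] at h2
      have hm' := h'.hm
      have h4 : m' * (w a' + 1) ≤ m' * N' := le_trans (Nat.le_add_left _ _) h2
      have h5 : w a' + 1 ≤ N' := Nat.le_of_mul_le_mul_left h4 (by omega)
      have h6 : (w a' : ℝ) + 1 ≤ N' := by exact_mod_cast h5
      linarith
  have hmain : (m : ℝ) * N ≤ N' := by
    have h1 : τ (conj τ D (X b')) = C r * D (X a) := by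
      rw [conj_apply, AlgEquiv.apply_symm_apply, hDY]
    rw [h1] at hle
    have h2 := hle u (by
      rw [coeff_C_mul]
      exact mul_ne_zero hr0 hu)
    rw [hβ] at h2
    have h3 : (u b : ℝ) + 1 = m * N := by exact_mod_cast hub
    linarith
  have hmN : 0 < (m : ℝ) * N := by
    have h1 := h.hm
    have h2 := h.hN
    have h3 : (0 : ℝ) < m := by exact_mod_cast (by omega : 0 < m)
    have h4 : (0 : ℝ) < N := by exact_mod_cast (by omega : 0 < N)
    positivity
  have hm'0 : (0 : ℝ) < m' := by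
    have := h'.hm
    exact_mod_cast (by omega : 0 < m')
  have hrel := h'.rel
  rw [ha, hcc, hb] at hrel
  rw [hb] at hinv
  have hi' : (1 : ℝ) ≤ i' := by exact_mod_cast h'.hi
  -- `m N α b = m' N' α a ≥ m' m N α a`
  have h5 : (m : ℝ) * N * (m' * α a) ≤ m * N * α b := by
    rw [hinv]
    have : (m : ℝ) * N * (m' * α a) ≤ N' * (m' * α a) :=
      mul_le_mul_of_nonneg_right hmain (by positivity)
    linarith
  have h6 : (m' : ℝ) * α a ≤ α b := le_of_mul_le_mul_left h5 hmN
  have h7 : 0 < (i' : ℝ) * α c := by positivity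
  linarith

end Pool.Agent.TL
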