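import Pool.Agent.TL.LN

set_option autoImplicit false

/-! # FX: exponentials -/

namespace Pool.Agent.TL

open MvPolynomial

variable {k : Type} [Field k] [CharZero k]

/-- `φ = exp D` -/
def IsExp (D : Der k) (φ : Au k) : Prop :=
  ∀ f : Rg k, ∃ N : ℕ, (⇑D)^[N] f = 0 ∧
    φ f = ∑ n ∈ Finset.range N, ((n.factorial : k)⁻¹) • (⇑D)^[n] f

namespace FXAux

omit [CharZero k] in
theorem iter_zero (D : Der k) (n : ℕ) : (⇑D)^[n] (0 : Rg k) = 0 := by
  induction n with
  | zero => rfl
  | succ n ih => rw [Function.iterate_succ_apply, map_zero, ih]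

omit [CharZero k] in
theorem iter_ge {D : Der k} {f : Rg k} {N M : ℕ} (hN : (⇑D)^[N] f = 0) (h : N ≤ M) :
    (⇑D)^[M] f = 0 := by
  obtain ⟨c, rfl⟩ := Nat.exists_eq_add_of_le h
  rw [Nat.add_comm, Function.iterate_add_apply, hN, iter_zero]

omit [CharZero k] in
theorem sum_le (a : ℕ → k) {D : Der k} {f : Rg k} {N M : ℕ} (hN : (⇑D)^[N] f = 0)
    (h : N ≤ M) : ∑ n ∈ Finset.range N, a n • (⇑D)^[n] f =
      ∑ n ∈ Finset.range M, a n • (⇑D)^[n] f := by
  refine Finset.sum_subset (Finset.range_subset_range.2 h) ?_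
  intro n _ hn
  have : N ≤ n := by simpa using hn
  rw [iter_ge hN this, smul_zero]

omit [CharZero k] in
theorem sum_eq (a : ℕ → k) {D : Der k} {f : Rg k} {N M : ℕ} (hN : (⇑D)^[N] f = 0)
    (hM : (⇑D)^[M] f = 0) : ∑ n ∈ Finset.range N, a n • (⇑D)^[n] f =
      ∑ n ∈ Finset.range M, a n • (⇑D)^[n] f := by
  rw [sum_le a hN (le_max_left N M), sum_le a hM (le_max_right N M)]

theorem binom (n m : ℕ) :
    ∑ i ∈ Finset.range (m + 1), ((n : k) ^ i * (i.factorial : k)⁻¹) *
      (((m - i).factorial : k)⁻¹) = ((n + 1 : ℕ) : k) ^ m * (m.factorial : k)⁻¹ := by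
  have hm : (m.factorial : k) ≠ 0 := by exact_mod_cast m.factorial_ne_zero
  rw [eq_mul_inv_iff_mul_eq₀ hm, Nat.cast_add, Nat.cast_one, add_pow, Finset.sum_mul]
  refine Finset.sum_congr rfl ?_
  intro i hi
  have hi' : i ≤ m := by
    have := Finset.mem_range.1 hi
    omega
  have h1 : (i.factorial : k) ≠ 0 := by exact_mod_cast i.factorial_ne_zero
  have h2 : ((m - i).factorial : k) ≠ 0 := by exact_mod_cast (m - i).factorial_ne_zero
  have h3 : ((m.choose i : ℕ) : k) * i.factorial * (m - i).factorial = m.factorial := by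
    exact_mod_cast Nat.choose_mul_factorial_mul_factorial hi'
  rw [← h3]
  field_simp
  ring

end FXAux

omit [CharZero k] in
theorem IsExp.lnd {D : Der k} {φ : Au k} (h : IsExp D φ) : IsLND D := by
  intro f
  obtain ⟨N, hN, _⟩ := h f
  exact ⟨N, hN⟩

omit [CharZero k] in
/-- the sum may be taken up to any `N` with `D^N f = 0` -/
theorem IsExp.apply {D : Der k} {φ : Au k} (h : IsExp D φ) {f : Rg k} {N : ℕ}
    (hN : (⇑D)^[N] f = 0) :
    φ f = ∑ n ∈ Finset.range N, ((n.factorial : k)⁻¹) • (⇑D)^[n] f := by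
  obtain ⟨M, hM, he⟩ := h f
  rw [he]
  exact FXAux.sum_eq _ hM hN

omit [CharZero k] in
theorem IsExp.comm {D : Der k} {φ : Au k} (h : IsExp D φ) (f : Rg k) : φ (D f) = D (φ f) := by
  obtain ⟨N, hN, he⟩ := h f
  have hN' : (⇑D)^[N] (D f) = 0 := by
    rw [← Function.iterate_succ_apply, Function.iterate_succ_apply', hN, map_zero]
  rw [h.apply hN', he, map_sum]
  refine Finset.sum_congr rfl fun n _ => ?_
  rw [Derivation.map_smul, ← Function.iterate_succ_apply, Function.iterate_succ_apply']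

omit [CharZero k] in
theorem IsExp.conj_self {D : Der k} {φ : Au k} (h : IsExp D φ) : conj φ D = D := by
  ext1 i
  rw [conj_apply, ← h.comm, AlgEquiv.symm_apply_apply]

omit [CharZero k] in
theorem IsExp.conj {D : Der k} {φ : Au k} (h : IsExp D φ) (σ : Au k) :
    IsExp (conj σ D) (σ⁻¹ * φ * σ) := by
  intro f
  obtain ⟨N, hN, he⟩ := h (σ f)
  refine ⟨N, ?_, ?_⟩
  · rw [conj_iterate, hN, map_zero]
  · change σ.symm (φ (σ f)) = _
    rw [he, map_sum]
    refine Finset.sum_congr rfl fun n _ => ?_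
    rw [map_smul, conj_iterate]

/-- `φ^n = exp (n D)` -/
theorem IsExp.pow {D : Der k} {φ : Au k} (h : IsExp D φ) (n : ℕ) {f : Rg k} {N : ℕ}
    (hN : (⇑D)^[N] f = 0) :
    (φ ^ n) f = ∑ j ∈ Finset.range N, ((n : k) ^ j * (j.factorial : k)⁻¹) • (⇑D)^[j] f := by
  induction n with
  | zero =>
    rw [pow_zero]
    change f = _
    rcases Nat.eq_zero_or_pos N with h0 | h0
    · subst h0
      simpa using hN
    · obtain ⟨M, rfl⟩ := Nat.exists_eq_succ_of_ne_zero h0.ne'
      rw [Finset.sum_range_succ']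
      have : ∀ j ∈ Finset.range M, (((0 : ℕ) : k) ^ (j + 1) * ((j + 1).factorial : k)⁻¹) •
          (⇑D)^[j + 1] f = 0 := by
        intro j _
        rw [Nat.cast_zero, zero_pow (Nat.succ_ne_zero j), zero_mul, zero_smul]
      rw [Finset.sum_eq_zero this]
      simp
  | succ n ih =>
    rw [pow_succ']
    change φ ((φ ^ n) f) = _
    rw [ih, map_sum]
    have h1 : ∀ j ∈ Finset.range N, φ (((n : k) ^ j * (j.factorial : k)⁻¹) • (⇑D)^[j] f) =
        ∑ i ∈ Finset.range (N - j), (((n : k) ^ j * (j.factorial : k)⁻¹) *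
          (i.factorial : k)⁻¹) • (⇑D)^[j + i] f := by
      intro j hj
      have hj' : j ≤ N := (Finset.mem_range.1 hj).le
      have h2 : (⇑D)^[N - j] ((⇑D)^[j] f) = 0 := by
        rw [← Function.iterate_add_apply, Nat.sub_add_cancel hj', hN]
      rw [map_smul, h.apply h2, Finset.smul_sum]
      refine Finset.sum_congr rfl fun i _ => ?_
      rw [smul_smul, ← Function.iterate_add_apply, Nat.add_comm i j]
    rw [Finset.sum_congr rfl h1, ← Finset.sum_range_diag_flip N
      (fun j i => (((n : k) ^ j * (j.factorial : k)⁻¹) * (i.factorial : k)⁻¹) • (⇑D)^[j + i] f)]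
    refine Finset.sum_congr rfl fun m _ => ?_
    rw [← FXAux.binom n m, Finset.sum_smul]
    refine Finset.sum_congr rfl fun i hi => ?_
    have hi' : i ≤ m := by
      have := Finset.mem_range.1 hi
      omega
    rw [Nat.add_sub_cancel' hi']

omit [CharZero k] in
theorem FXAux.pres_pow {φ : Au k} {α : Wt} (hP : Pres φ α α) (n : ℕ) : Pres (φ ^ n) α α := by
  induction n with
  | zero => rw [pow_zero]; exact Pres.one α
  | succ n ih => rw [pow_succ]; exact ih.mul hP

/-- If `exp D` preserves the valuation `α` then `D` has degree `≤ 0`. Proof: `φ^n x_j` has weight `≤ α j` for all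
`n ∈ ℕ`; for a monomial `m` of weight `> α j` the coefficient of `m` in `φ^n x_j` is a polynomial in `n`
(`IsExp.pow`) vanishing at all natural numbers, so it is zero; its linear coefficient is
`coeff m (D x_j)`. Then `Le_supp_iff`. -/
theorem FX {D : Der k} {φ : Au k} (h : IsExp D φ) {α : Wt} (hP : Pres φ α α) :
    Le (supp D) α (sm α) := by
  rw [Le_supp_iff]
  intro j m hm
  rw [sub_self, zero_add]
  by_contra hlt
  apply hm
  obtain ⟨N₀, hN₀⟩ := h.lnd (X j)
  have hN : (⇑D)^[N₀ + 2] (X j) = 0 := FXAux.iter_ge hN₀ (by omega)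
  have hz : ∀ n : ℕ, ∑ i ∈ Finset.range (N₀ + 2), ((n : k) ^ i * (i.factorial : k)⁻¹) *
      coeff m ((⇑D)^[i] (X j)) = 0 := by
    intro n
    have h1 : coeff m ((φ ^ n) (X j)) = 0 := by
      by_contra h2
      exact hlt ((FXAux.pres_pow hP n).1 j m h2)
    rw [h.pow n hN, coeff_sum] at h1
    rw [← h1]
    refine Finset.sum_congr rfl fun i _ => ?_
    rw [coeff_smul, smul_eq_mul]
  set p : Polynomial k := ∑ i ∈ Finset.range (N₀ + 2),
    Polynomial.C ((i.factorial : k)⁻¹ * coeff m ((⇑D)^[i] (X j))) * Polynomial.X ^ i with hp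
  have hroot : ∀ n : ℕ, p.IsRoot (n : k) := by
    intro n
    rw [Polynomial.IsRoot.def, hp, Polynomial.eval_finsetSum, ← hz n]
    refine Finset.sum_congr rfl fun i _ => ?_
    rw [Polynomial.eval_mul, Polynomial.eval_C, Polynomial.eval_pow, Polynomial.eval_X]
    ring
  have hp0 : p = 0 := by
    refine Polynomial.eq_zero_of_infinite_isRoot p ?_
    refine Set.Infinite.mono (s := Set.range (fun n : ℕ => (n : k))) ?_
      (Set.infinite_range_of_injective Nat.cast_injective)
    rintro _ ⟨n, rfl⟩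
    exact hroot n
  have hc := congrArg (fun q => Polynomial.coeff q 1) hp0
  simp only [Polynomial.coeff_zero] at hc
  rw [hp, Polynomial.finsetSum_coeff, Finset.sum_eq_single 1] at hc
  · simpa using hc
  · intro i _ hi
    rw [Polynomial.coeff_C_mul_X_pow, if_neg (fun h' => hi h'.symm)]
  · intro h'
    exact absurd (Finset.mem_range.2 (by omega)) h'

omit [CharZero k] in
theorem FXAux.der_supported (D : Der k) (s : Set (Fin 3))
    (hD : ∀ i ∈ s, D (X i) ∈ supported k s) {f : Rg k} (hf : f ∈ supported k s) :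
    D f ∈ supported k s := by
  rw [supported] at hf
  induction hf using Algebra.adjoin_induction with
  | mem x hx =>
    obtain ⟨i, hi, rfl⟩ := hx
    exact hD i hi
  | algebraMap r =>
    rw [Derivation.map_algebraMap]
    exact zero_mem _
  | add x y _ _ hx hy =>
    rw [map_add]
    exact add_mem hx hy
  | mul x y hx' hy' hx hy =>
    rw [Derivation.leibniz, smul_eq_mul, smul_eq_mul]
    exact add_mem (mul_mem hx' hy) (mul_mem hy' hx)

omit [CharZero k] in
/-- the exponential of a triangular derivation is triangular -/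
theorem IsExp.tri {D : Der k} {φ : Au k} (h : IsExp D φ) (hT : TriD D) (i : Fin 3) :
    (φ (X i)).vars ⊆ Finset.Iic i := by
  have key : ∀ n : ℕ, (⇑D)^[n] (X i) ∈ supported k (Set.Iic i) := by
    intro n
    induction n with
    | zero =>
      change (X i : Rg k) ∈ _
      exact Algebra.subset_adjoin ⟨i, Set.mem_Iic.2 le_rfl, rfl⟩
    | succ n ih =>
      rw [Function.iterate_succ_apply']
      refine FXAux.der_supported D _ ?_ ih
      intro j hj
      rw [mem_supported]
      intro l hl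
      exact Set.mem_Iic.2 ((hT j l hl).le.trans hj)
  obtain ⟨N, _, he⟩ := h (X i)
  have h1 : φ (X i) ∈ supported k (Set.Iic i) := by
    rw [he]
    exact sum_mem fun n _ => Subalgebra.smul_mem _ (key n) _
  rw [mem_supported] at h1
  intro j hj
  exact Finset.mem_Iic.2 (h1 hj)

end Pool.Agent.TL
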