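import Pool.Agent.TL.U2

set_option autoImplicit false

namespace Pool.Agent.TL

open MvPolynomial

variable {k : Type} [Field k] [CharZero k]

namespace KCAux

omit [CharZero k] in
/-- a polynomial whose monomials have `(b, c)`-exponents `(0, 1)` or `(m, 0)` -/
theorem split {a b c : Fin 3} (hab : a ≠ b) (hac : a ≠ c) (hbc : b ≠ c) {m : ℕ} (F : Rg k)
    (h : ∀ u, coeff u F ≠ 0 → (u b = 0 ∧ u c = 1) ∨ (u b = m ∧ u c = 0)) :
    ∃ A B : Polynomial k, F = Polynomial.aeval (X a : Rg k) A * X c
      + Polynomial.aeval (X a : Rg k) B * X b ^ m := by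
  classical
  have hmon : ∀ u : Fin 3 →₀ ℕ, ∀ κ : k, monomial u κ = C κ * (X a ^ (u a) * X b ^ (u b) * X c ^ (u c)) := by
    intro u κ
    rw [monomial_eq]
    congr 1
    rw [Finsupp.prod_fintype _ _ (by intro i; simp)]
    have hu : (Finset.univ : Finset (Fin 3)) = {a, b, c} := by
      ext j
      simp only [Finset.mem_univ, Finset.mem_insert, Finset.mem_singleton, true_iff]
      omega
    rw [hu, Finset.prod_insert (by simp [hab, hac]), Finset.prod_insert (by simp [hbc]),
      Finset.prod_singleton]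
    ring
  refine ⟨∑ u ∈ F.support.filter (fun u => u b = 0 ∧ u c = 1), Polynomial.monomial (u a) (coeff u F),
    ∑ u ∈ F.support.filter (fun u => ¬ (u b = 0 ∧ u c = 1)), Polynomial.monomial (u a) (coeff u F), ?_⟩
  conv_lhs => rw [F.as_sum, ← Finset.sum_filter_add_sum_filter_not F.support (fun u => u b = 0 ∧ u c = 1)]
  rw [map_sum, map_sum, Finset.sum_mul, Finset.sum_mul]
  congr 1
  · refine Finset.sum_congr rfl ?_
    intro u hu
    rw [Finset.mem_filter] at hu
    rw [hmon, hu.2.1, hu.2.2, Polynomial.aeval_monomial]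
    simp [MvPolynomial.algebraMap_eq]
    ring
  · refine Finset.sum_congr rfl ?_
    intro u hu
    rw [Finset.mem_filter] at hu
    have h1 := h u (by simpa [mem_support_iff] using hu.1)
    have h2 : u b = m ∧ u c = 0 := h1.resolve_left hu.2
    rw [hmon, h2.1, h2.2, Polynomial.aeval_monomial]
    simp [MvPolynomial.algebraMap_eq]
    ring

omit [CharZero k] in
/-- a polynomial all of whose monomials contain `x_b` vanishes at `x_b = 0` -/
theorem eval_zero {b : Fin 3} (ψ : Rg k →ₐ[k] Rg k) (hψ : ψ (X b) = 0) (F : Rg k)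
    (h : ∀ u, coeff u F ≠ 0 → u b ≠ 0) : ψ F = 0 := by
  rw [F.as_sum, map_sum]
  refine Finset.sum_eq_zero ?_
  intro u hu
  have hub := h u (by simpa [mem_support_iff] using hu)
  rw [monomial_eq, map_mul, Finsupp.prod_fintype _ _ (by intro i; simp), map_prod,
    Finset.prod_eq_zero (Finset.mem_univ b) (by rw [map_pow, hψ, zero_pow hub]), mul_zero]

omit [CharZero k] in
/-- a power of a coordinate is not a coordinate -/
theorem exp_one (τ : Au k) {j c : Fin 3} {n : ℕ} {κ : k} (h : τ (X j) = C κ * X c ^ n) :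
    n = 1 ∧ κ ≠ 0 := by
  have h1 : (X j : Rg k) = C κ * (τ.symm (X c)) ^ n := by
    have := congrArg τ.symm h
    rw [AlgEquiv.symm_apply_apply, map_mul, map_pow] at this
    rw [this]
    congr 1
    rw [← algebraMap_eq, AlgEquiv.commutes]
  have hκ : κ ≠ 0 := by
    rintro rfl
    rw [map_zero, zero_mul] at h1
    exact X_ne_zero j h1
  refine ⟨?_, hκ⟩
  set g := τ.symm (X c) with hg
  have hg0 : g.totalDegree ≠ 0 := by
    intro h0
    rw [totalDegree_eq_zero_iff_eq_C] at h0
    rw [h0, ← map_pow, ← map_mul] at h1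
    have h3 := congrArg totalDegree h1
    rw [totalDegree_X, totalDegree_C] at h3
    exact one_ne_zero h3
  have hgne : g ≠ 0 := by
    rintro h0
    rw [h0] at hg0
    exact hg0 totalDegree_zero
  rcases n with _ | _ | n
  · exfalso
    rw [pow_zero, mul_one] at h1
    have h3 := congrArg totalDegree h1
    rw [totalDegree_X, totalDegree_C] at h3
    exact one_ne_zero h3
  · rfl
  · exfalso
    have hp : g ^ n ≠ 0 := pow_ne_zero _ hgne
    have h3 := congrArg totalDegree h1
    rw [totalDegree_X, pow_succ, pow_succ, totalDegree_mul_of_isDomain (by simpa using hκ)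
      (mul_ne_zero (mul_ne_zero hp hgne) hgne), totalDegree_C,
      totalDegree_mul_of_isDomain (mul_ne_zero hp hgne) hgne,
      totalDegree_mul_of_isDomain hp hgne] at h3
    omega

end KCAux

/-- Kernel coordinates are proportional to `x_c`. Proof. Let `V = τ x_j`, homogeneous of weight `α j`, `D V = 0`.
If `V ∈ k[x_c]`: `V = κ x_c^n` (`α c > 0`; not constant), `n = 1` since `V` is irreducible (`x_j` is).
Otherwise `α j ≥ m α b = α a + i α c` by `claimU`; `j ≠ b` (`m ≥ 2`, `α b > 0`), `j ≠ a` (`α c > 0`), so `j = c`,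
`α a = 0`, `i = 1`, `α c = m α b`. By homogeneity (weights `0 < α b < m α b = α c`): `τ x_a`, `τ⁻¹ x_a ∈ k[x_a]`;
`τ x_b = e(x_a) x_b`, `τ⁻¹ x_b = e'(x_a) x_b`, `τ x_c = p(x_a) x_c + r(x_a) x_b^m`, same for `τ⁻¹`; from
`τ (τ⁻¹ x_c) = x_c` the coefficient of `x_c` gives that `p` is a unit, so constant. `D V = 0`, `D x_c = 0`, so
`D (r(x_a) x_b^m) = 0`; if `r ≠ 0` then `D x_b = 0` (factorially closed), contradiction. So `V = p x_c` would be in
`k[x_c]`, contradiction with the assumption; in any case the conclusion holds. -/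
theorem ker_coord {D : Der k} (hD : IsLND D) {α : Wt} (hα0 : ∀ j, 0 ≤ α j) {s : ℝ}
    (hs : ∀ P ∈ supp D, dt P α = s) {a b c : Fin 3} {i m N E : ℕ}
    (h : F2 (supp D) α a b c i m N E) {τ : Au k} (hτ : GrA τ α) {j : Fin 3}
    (hj : D (τ (X j)) = 0) : α j = α c ∧ ∃ κ : k, κ ≠ 0 ∧ τ (X j) = C κ * X c := by
  classical
  obtain ⟨-, -, hDc, hDb, hDa, -, -, -⟩ := F2_facts hD hα0 hs h
  have hHg : Hg α (α j) (τ (X j)) := hτ.1 j
  have hwt : ∀ u : Fin 3 →₀ ℕ, dE u α = (u a : ℝ) * α a + (u b : ℝ) * α b + (u c : ℝ) * α c :=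
    fun u => sum3 h.hab h.hac h.hbc (fun i => (u i : ℝ) * α i)
  have hm2 : (2 : ℝ) ≤ m := by exact_mod_cast h.hm
  have hi1 : (1 : ℝ) ≤ i := by exact_mod_cast h.hi
  by_cases hcase : ∃ u, coeff u (τ (X j)) ≠ 0 ∧ (u a ≠ 0 ∨ u b ≠ 0)
  · -- second case
    have hge : (m : ℝ) * α b ≤ α j := claimU hD hα0 hs h hj hHg hcase
    have hrel := h.rel
    have hb := h.hb
    have hc := h.hc
    have ha0 := hα0 a
    have hja : j ≠ a := by
      rintro rfl
      nlinarith
    have hjb : j ≠ b := by
      rintro rfl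
      nlinarith
    have hjc : j = c := by
      rcases eq_of_ne h.hab h.hac h.hbc j with h1 | h1 | h1
      · exact absurd h1 hja
      · exact absurd h1 hjb
      · exact h1
    subst hjc
    have haz : α a = 0 := by nlinarith
    have hcb : α j = m * α b := by nlinarith
    have hstr : ∀ F : Rg k, Hg α (α j) F →
        ∀ u, coeff u F ≠ 0 → (u b = 0 ∧ u j = 1) ∨ (u b = m ∧ u j = 0) := by
      intro F hF u hu
      have h1 := hF u hu
      rw [hwt u, haz, hcb] at h1
      have h2 : ((u b : ℝ) + (u j : ℝ) * m - m) * α b = 0 := by linarith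
      have h3 : (u b : ℝ) + (u j : ℝ) * m - m = 0 := by
        rcases mul_eq_zero.mp h2 with h | h
        · exact h
        · exact absurd h hb.ne'
      have h4 : u b + u j * m = m := by
        have : ((u b + u j * m : ℕ) : ℝ) = (m : ℝ) := by push_cast; linarith
        exact_mod_cast this
      have hm := h.hm
      rcases Nat.eq_zero_or_pos (u j) with h5 | h5
      · right
        rw [h5] at h4
        exact ⟨by omega, h5⟩
      · left
        have h6 : u j * m ≤ m := by omega
        have h7 : u j ≤ 1 := by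
          by_contra h8
          have : 2 * m ≤ u j * m := Nat.mul_le_mul_right m (by omega)
          omega
        have h8 : u j = 1 := by omega
        rw [h8] at h4
        exact ⟨by omega, h8⟩
    obtain ⟨p, r, hV⟩ := KCAux.split h.hab h.hac h.hbc (τ (X j)) (hstr _ hHg)
    obtain ⟨A, B, hW⟩ := KCAux.split h.hab h.hac h.hbc (τ.symm (X j)) (hstr _ (hτ.2 j))
    -- evaluation at x_b = 0
    let ψ : Rg k →ₐ[k] Rg k := aeval (fun l => if l = b then 0 else X l)
    have ψb : ψ (X b) = 0 := by simp [ψ]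
    have ψa : ψ (X a) = X a := by simp [ψ, h.hab]
    have ψj : ψ (X j) = X j := by simp [ψ, Ne.symm h.hbc]
    have hτb : ψ (τ (X b)) = 0 := by
      refine KCAux.eval_zero ψ ψb _ ?_
      intro u hu hub
      have h1 := hτ.1 b u hu
      rw [hwt u, haz, hcb, hub] at h1
      have h2 : ((u j : ℝ) * m - 1) * α b = 0 := by push_cast at h1; linarith
      have h3 : (u j : ℝ) * m - 1 = 0 := by
        rcases mul_eq_zero.mp h2 with h | h
        · exact h
        · exact absurd h hb.ne'
      have h4 : u j * m = 1 := by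
        have : ((u j * m : ℕ) : ℝ) = (1 : ℝ) := by push_cast; linarith
        exact_mod_cast this
      have := Nat.eq_one_of_mul_eq_one_left h4
      have hm := h.hm
      omega
    have hm0 : m ≠ 0 := by have := h.hm; omega
    have hpψ : ∀ q : Polynomial k, ψ (Polynomial.aeval (X a : Rg k) q)
        = Polynomial.aeval (X a : Rg k) q := by
      intro q
      rw [← Polynomial.aeval_algHom_apply, ψa]
    have hψV : ψ (τ (X j)) = Polynomial.aeval (X a : Rg k) p * X j := by
      rw [hV, map_add, map_mul, map_mul, map_pow, ψb, zero_pow hm0, mul_zero, add_zero, ψj, hpψ]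
    have hunit : IsUnit (Polynomial.aeval (X a : Rg k) p) := by
      have h1 : τ (τ.symm (X j)) = X j := AlgEquiv.apply_symm_apply τ (X j)
      rw [hW, map_add, map_mul, map_mul, map_pow] at h1
      have h2 := congrArg ψ h1
      rw [map_add, map_mul, map_mul, map_pow, hτb, zero_pow hm0, mul_zero, add_zero, hψV, ψj] at h2
      have h3 : (ψ (τ (Polynomial.aeval (X a : Rg k) A)) * Polynomial.aeval (X a : Rg k) p) * X j
          = 1 * X j := by
        rw [one_mul]
        rw [← mul_assoc] at h2
        exact h2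
      have h4 := mul_right_cancel₀ (X_ne_zero j) h3
      exact IsUnit.of_mul_eq_one_right _ h4
    obtain ⟨κ, hκu, hκ⟩ := isUnit_iff_eq_C_of_isReduced.mp hunit
    have hκ0 : κ ≠ 0 := hκu.ne_zero
    rw [hκ] at hV
    have hzero : D (Polynomial.aeval (X a : Rg k) r * X b ^ m) = 0 := by
      have h1 : D (C κ * X j) = 0 := by
        rw [← smul_eq_C_mul, D.map_smul, hDc, smul_zero]
      rw [hV, map_add, h1, zero_add] at hj
      exact hj
    have hr : Polynomial.aeval (X a : Rg k) r = 0 := by
      by_contra hr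
      have h1 := (ker_factor hD hzero (mul_ne_zero hr (pow_ne_zero _ (X_ne_zero b)))).2
      exact hDb (ker_of_pow hD hm0 h1)
    rw [hr, zero_mul, add_zero] at hV
    exact ⟨rfl, κ, hκ0, hV⟩
  · push Not at hcase
    have hc := h.hc
    -- first case
    have hne : τ (X j) ≠ 0 := by
      intro h0
      have := τ.injective (h0.trans (map_zero τ).symm)
      exact X_ne_zero j this
    obtain ⟨u₀, hu₀⟩ := ne_zero_iff.mp hne
    have h0 := hcase u₀ hu₀
    have hw0 : (u₀ c : ℝ) * α c = α j := by
      have := hHg u₀ hu₀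
      rw [hwt, h0.1, h0.2] at this
      simpa using this
    have hall : ∀ u, coeff u (τ (X j)) ≠ 0 → u = u₀ := by
      intro u hu
      have h1 := hcase u hu
      have hw : (u c : ℝ) * α c = α j := by
        have := hHg u hu
        rw [hwt, h1.1, h1.2] at this
        simpa using this
      have h2 : (u c : ℝ) = u₀ c := mul_right_cancel₀ hc.ne' (hw.trans hw0.symm)
      have h3 : u c = u₀ c := by exact_mod_cast h2
      ext l
      rcases eq_of_ne h.hab h.hac h.hbc l with h4 | h4 | h4
      · rw [h4, h1.1, h0.1]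
      · rw [h4, h1.2, h0.2]
      · rw [h4, h3]
    have hu₀s : u₀ = Finsupp.single c (u₀ c) := by
      ext l
      rcases eq_of_ne h.hab h.hac h.hbc l with h4 | h4 | h4
      · rw [h4, h0.1, Finsupp.single_eq_of_ne h.hac]
      · rw [h4, h0.2, Finsupp.single_eq_of_ne h.hbc]
      · rw [h4, Finsupp.single_eq_same]
    have hV : τ (X j) = C (coeff u₀ (τ (X j))) * X c ^ (u₀ c) := by
      have hV' : τ (X j) = monomial u₀ (coeff u₀ (τ (X j))) := by
        ext u
        rw [coeff_monomial]
        split_ifs with hu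
        · rw [hu]
        · by_contra hne
          exact hu (hall u hne).symm
      rw [C_mul_X_pow_eq_monomial, ← hu₀s]
      exact hV'
    obtain ⟨h1, h2⟩ := KCAux.exp_one τ hV
    rw [h1, pow_one] at hV
    refine ⟨?_, _, h2, hV⟩
    rw [← hw0, h1]
    simp

/-- F1 and F2 are never related. Proof. `conj τ D` kills `x_j` for `j ≠ a'` (`all_zero_iff`), so
`D (τ x_j) = 0` for two different `j`; by `ker_coord` both are proportional to `x_c`, contradiction with
injectivity of `τ` (`x_j`, `x_l` are not proportional). -/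
theorem F12 {D : Der k} (hD : IsLND D) {α : Wt} (hα0 : ∀ j, 0 ≤ α j) {s : ℝ}
    (hs : ∀ P ∈ supp D, dt P α = s) {a b c : Fin 3} {i m N E : ℕ}
    (h : F2 (supp D) α a b c i m N E) {τ : Au k} (hτ : GrA τ α) {a' : Fin 3}
    (h' : ∀ P ∈ supp (conj τ D), P a' = 0) : False := by
  have hL : IsLND (conj τ D) := hD.conj τ
  have hz := (all_zero_iff hL a').mpr h'
  have hker : ∀ j, j ≠ a' → D (τ (X j)) = 0 := by
    intro j hj
    have h1 := hz j hj
    rw [conj_apply] at h1
    have := congrArg τ h1
    rwa [AlgEquiv.apply_symm_apply, map_zero] at this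
  obtain ⟨j, l, hja, hla, hjl⟩ : ∃ j l : Fin 3, j ≠ a' ∧ l ≠ a' ∧ j ≠ l := by
    fin_cases a'
    · exact ⟨1, 2, by decide, by decide, by decide⟩
    · exact ⟨0, 2, by decide, by decide, by decide⟩
    · exact ⟨0, 1, by decide, by decide, by decide⟩
  obtain ⟨-, κ, hκ, h1⟩ := ker_coord hD hα0 hs h hτ (hker j hja)
  obtain ⟨-, μ, hμ, h2⟩ := ker_coord hD hα0 hs h hτ (hker l hla)
  have h3 : τ (μ • X j) = τ (κ • X l) := by
    rw [map_smul, map_smul, h1, h2, smul_eq_C_mul, smul_eq_C_mul]
    ring
  have h4 := τ.injective h3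
  have h5 := congrArg (coeff (Finsupp.single j 1)) h4
  rw [coeff_smul, coeff_smul, coeff_X, if_pos rfl, smul_eq_mul, mul_one, coeff_X, if_neg,
    smul_zero] at h5
  · exact hμ h5
  · intro h6
    exact hjl (Finsupp.single_left_injective one_ne_zero h6).symm

end Pool.Agent.TL
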