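import Pool.Agent.TL.BB
import Pool.Agent.TL.LN

set_option autoImplicit false

/-! # RO: extreme points of the support of a locally nilpotent derivation are roots -/

namespace Pool.Agent.TL

open MvPolynomial

variable {k : Type} [Field k] [CharZero k]

/-- If `P` is the unique maximum of a linear functional (arbitrary real weights `β`) on the support
of the locally nilpotent `D`, then `P` has a zero.
Proof: `lead β (dt P β) D` is locally nilpotent with support `{P}`; if all `P i ≠ 0` then every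
`x_i` divides its image, so it is `0`. -/
theorem root_of_max {D : Der k} (hD : IsLND D) (β : Wt) {P : Fin 3 → ℕ} (hP : P ∈ supp D)
    (hmax : ∀ Q ∈ supp D, Q ≠ P → dt Q β < dt P β) : ∃ i, P i = 0 := by
  by_contra hcon
  push Not at hcon
  have hLe : Le (supp D) β (dt P β) := by
    intro Q hQ
    by_cases h : Q = P
    · rw [h]
    · exact (hmax Q hQ h).le
  have hL : IsLND (lead β (dt P β) D) := hD.lead hLe
  have hne : lead β (dt P β) D ≠ 0 := lead_ne_zero ⟨P, hP, rfl⟩
  apply hne
  apply MvPolynomial.derivation_ext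
  intro i
  rw [Derivation.zero_apply]
  refine D_eq_zero_of_dvd hL (X_dvd ?_)
  intro Q hQ
  rw [mem_supp_lead] at hQ
  have : Q = P := by
    by_contra h
    exact absurd hQ.2 (ne_of_lt (hmax Q hQ.1 h))
  rw [this]
  exact hcon i

namespace ROAux

theorem dt3 (P : Fin 3 → ℕ) (α : Wt) :
    dt P α = (P 0 : ℝ) * α 0 + (P 1 : ℝ) * α 1 + (P 2 : ℝ) * α 2 := by
  simp [dt, Fin.sum_univ_three]

/-- vectors orthogonal to two independent weights are proportional -/
theorem exists_normal {α β : Wt} (hind : LinearIndependent ℝ ![α, β]) :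
    ∃ n : Wt, n ≠ 0 ∧ ∀ u : Wt, u 0 * α 0 + u 1 * α 1 + u 2 * α 2 = 0 →
      u 0 * β 0 + u 1 * β 1 + u 2 * β 2 = 0 → ∃ c : ℝ, u = c • n := by
  rw [LinearIndependent.pair_iff] at hind
  refine ⟨![α 1 * β 2 - α 2 * β 1, α 2 * β 0 - α 0 * β 2, α 0 * β 1 - α 1 * β 0], ?_, ?_⟩
  · intro h
    have h0 := congrFun h 0
    have h1 := congrFun h 1
    have h2 := congrFun h 2
    simp at h0 h1 h2
    have key : ∀ j, α j = 0 := by
      intro j
      have h3 : (β j) • α + (-(α j)) • β = 0 := by
        funext i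
        simp only [Pi.add_apply, Pi.smul_apply, smul_eq_mul, Pi.zero_apply]
        fin_cases i <;> fin_cases j <;> simp <;> linarith
      have h4 := (hind _ _ h3).2
      linarith
    have h5 : (1 : ℝ) • α + (0 : ℝ) • β = 0 := by
      funext i
      simp [key i]
    exact absurd (hind _ _ h5).1 one_ne_zero
  · intro u hu hv
    set n : Wt := ![α 1 * β 2 - α 2 * β 1, α 2 * β 0 - α 0 * β 2, α 0 * β 1 - α 1 * β 0] with hn
    have n0 : n 0 = α 1 * β 2 - α 2 * β 1 := rfl
    have n1 : n 1 = α 2 * β 0 - α 0 * β 2 := rfl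
    have n2 : n 2 = α 0 * β 1 - α 1 * β 0 := rfl
    have e01 : u 0 * n 1 = u 1 * n 0 := by
      rw [n0, n1]; linear_combination α 2 * hv - β 2 * hu
    have e12 : u 1 * n 2 = u 2 * n 1 := by
      rw [n1, n2]; linear_combination α 0 * hv - β 0 * hu
    have e20 : u 2 * n 0 = u 0 * n 2 := by
      rw [n0, n2]; linear_combination α 1 * hv - β 1 * hu
    by_cases h0 : n 0 = 0
    · by_cases h1 : n 1 = 0
      · by_cases h2 : n 2 = 0
        · exfalso
          have key : ∀ j, α j = 0 := by
            rw [n0] at h0; rw [n1] at h1; rw [n2] at h2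
            intro j
            have h3 : (β j) • α + (-(α j)) • β = 0 := by
              funext i
              simp only [Pi.add_apply, Pi.smul_apply, smul_eq_mul, Pi.zero_apply]
              fin_cases i <;> fin_cases j <;> simp <;> linarith
            have h4 := (hind _ _ h3).2
            linarith
          have h5 : (1 : ℝ) • α + (0 : ℝ) • β = 0 := by
            funext i
            simp [key i]
          exact absurd (hind _ _ h5).1 one_ne_zero
        · refine ⟨u 2 / n 2, ?_⟩
          funext i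
          simp only [Pi.smul_apply, smul_eq_mul]
          fin_cases i
          · simp only [Fin.zero_eta]; field_simp; linarith
          · simp only [Fin.mk_one]; field_simp; linarith
          · simp only [Fin.reduceFinMk]; field_simp
      · refine ⟨u 1 / n 1, ?_⟩
        funext i
        simp only [Pi.smul_apply, smul_eq_mul]
        fin_cases i
        · simp only [Fin.zero_eta]; field_simp; linarith
        · simp only [Fin.mk_one]; field_simp
        · simp only [Fin.reduceFinMk]; field_simp; linarith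
    · refine ⟨u 0 / n 0, ?_⟩
      funext i
      simp only [Pi.smul_apply, smul_eq_mul]
      fin_cases i
      · simp only [Fin.zero_eta]; field_simp
      · simp only [Fin.mk_one]; field_simp; linarith
      · simp only [Fin.reduceFinMk]; field_simp; linarith

end ROAux

/-- The two ends of a support contained in a line are roots. -/
theorem root_ends {D : Der k} (hD : IsLND D) {α β : Wt} {s t : ℝ}
    (hα : ∀ P ∈ supp D, dt P α = s) (hβ : ∀ P ∈ supp D, dt P β = t)
    (hind : LinearIndependent ℝ ![α, β]) (hcard : ∃ P ∈ supp D, ∃ Q ∈ supp D, P ≠ Q) :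
    ∃ q₁ ∈ supp D, ∃ q₂ ∈ supp D, q₁ ≠ q₂ ∧ (∃ i, q₁ i = 0) ∧ (∃ j, q₂ j = 0) ∧
      ∀ P ∈ supp D, ∃ r : ℝ, 0 ≤ r ∧ r ≤ 1 ∧
        ∀ j, (P j : ℝ) = q₁ j + r * ((q₂ j : ℝ) - q₁ j) := by
  obtain ⟨n, hn, hnorm⟩ := ROAux.exists_normal hind
  have hpar : ∀ P ∈ supp D, ∀ Q ∈ supp D, ∃ c : ℝ, ∀ j, (P j : ℝ) - Q j = c * n j := by
    intro P hP Q hQ
    obtain ⟨c, hc⟩ := hnorm (fun j => (P j : ℝ) - Q j)
      (by
        have h1 := hα P hP
        have h2 := hα Q hQ
        rw [ROAux.dt3] at h1 h2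
        linarith)
      (by
        have h1 := hβ P hP
        have h2 := hβ Q hQ
        rw [ROAux.dt3] at h1 h2
        linarith)
    exact ⟨c, fun j => by have := congrFun hc j; simpa using this⟩
  have hnn : 0 < n 0 * n 0 + n 1 * n 1 + n 2 * n 2 := by
    by_contra h
    push Not at h
    apply hn
    have h0 := mul_self_nonneg (n 0)
    have h1 := mul_self_nonneg (n 1)
    have h2 := mul_self_nonneg (n 2)
    have k0 : n 0 = 0 := mul_self_eq_zero.mp (by linarith)
    have k1 : n 1 = 0 := mul_self_eq_zero.mp (by linarith)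
    have k2 : n 2 = 0 := mul_self_eq_zero.mp (by linarith)
    funext i
    fin_cases i
    · exact k0
    · exact k1
    · exact k2
  have hval : ∀ P Q : Fin 3 → ℕ, ∀ c : ℝ, (∀ j, (P j : ℝ) - Q j = c * n j) →
      dt P n - dt Q n = c * (n 0 * n 0 + n 1 * n 1 + n 2 * n 2) := by
    intro P Q c hc
    rw [ROAux.dt3, ROAux.dt3]
    have h0 := hc 0
    have h1 := hc 1
    have h2 := hc 2
    linear_combination n 0 * h0 + n 1 * h1 + n 2 * h2
  have hinj : ∀ P ∈ supp D, ∀ Q ∈ supp D, dt P n = dt Q n → P = Q := by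
    intro P hP Q hQ h
    obtain ⟨c, hc⟩ := hpar P hP Q hQ
    have h1 := hval P Q c hc
    rw [h, sub_self] at h1
    have hc0 : c = 0 := by
      rcases mul_eq_zero.mp h1.symm with h | h
      · exact h
      · exact absurd h hnn.ne'
    funext j
    have := hc j
    rw [hc0, zero_mul, sub_eq_zero] at this
    exact_mod_cast this
  obtain ⟨P₀, hP₀, Q₀, hQ₀, hPQ⟩ := hcard
  obtain ⟨q₁, hq₁, hmin⟩ := Finset.exists_min_image (supp D) (fun P => dt P n) ⟨P₀, hP₀⟩
  obtain ⟨q₂, hq₂, hmax⟩ := Finset.exists_max_image (supp D) (fun P => dt P n) ⟨P₀, hP₀⟩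
  have hne : q₁ ≠ q₂ := by
    intro h
    apply hPQ
    apply hinj P₀ hP₀ Q₀ hQ₀
    have a1 := hmin P₀ hP₀
    have a2 := hmin Q₀ hQ₀
    have a3 := hmax P₀ hP₀
    have a4 := hmax Q₀ hQ₀
    simp only [h] at a1 a2 a3 a4
    linarith
  refine ⟨q₁, hq₁, q₂, hq₂, hne, ?_, ?_, ?_⟩
  · refine root_of_max hD (fun j => -n j) hq₁ ?_
    intro Q hQ hQne
    have h1 := hmin Q hQ
    have h2 : dt q₁ n ≠ dt Q n := fun h => hQne (hinj q₁ hq₁ Q hQ h).symm
    have h3 : dt q₁ n < dt Q n := lt_of_le_of_ne h1 h2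
    rw [ROAux.dt3] at h3 ⊢
    rw [ROAux.dt3] at h3 ⊢
    linarith
  · refine root_of_max hD n hq₂ ?_
    intro Q hQ hQne
    exact lt_of_le_of_ne (hmax Q hQ) (fun h => hQne (hinj Q hQ q₂ hq₂ h))
  · intro P hP
    obtain ⟨c₁, hc₁⟩ := hpar P hP q₁ hq₁
    obtain ⟨c₂, hc₂⟩ := hpar q₂ hq₂ q₁ hq₁
    have v1 := hval P q₁ c₁ hc₁
    have v2 := hval q₂ q₁ c₂ hc₂
    have m1 : dt q₁ n ≤ dt P n := hmin P hP
    have m2 : dt P n ≤ dt q₂ n := hmax P hP
    have hlt : dt q₁ n < dt q₂ n :=
      lt_of_le_of_ne (hmin q₂ hq₂) (fun h => hne (hinj q₁ hq₁ q₂ hq₂ h))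
    have hc2 : 0 < c₂ := by
      by_contra h
      push Not at h
      have := mul_nonpos_of_nonpos_of_nonneg h hnn.le
      linarith
    have hc1 : 0 ≤ c₁ := by
      by_contra h
      push Not at h
      have := mul_neg_of_neg_of_pos h hnn
      linarith
    have hc12 : c₁ ≤ c₂ := by
      by_contra h
      push Not at h
      have := mul_lt_mul_of_pos_right h hnn
      linarith
    refine ⟨c₁ / c₂, div_nonneg hc1 hc2.le, (div_le_one hc2).mpr hc12, ?_⟩
    intro j
    rw [hc₂ j]
    have h1 := hc₁ j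
    field_simp
    linarith

end Pool.Agent.TL
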