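import Pool.Agent.TL.GR
import Pool.Agent.TL.RO

set_option autoImplicit false

/-! # KI: the key inequality for an elementary move along a line

Proof (paper proof section 3). `w' = M - e_i`. `D' = conj (El i M c) D`.
* `v ∈ supp D'` and `P i ≤ v i`: weight `β = e_i` (`M·β = 0 < 1 = β_i`), `lead_conj_El_lt` and
  `Le_conj`; line: for every weight `α` with `dE M α = α i` all `P ∈ supp D'` have `dt P α = dt v α`
  (`dt_conj_El_eq`); use `α = e_j + M_j e_i` for `j ≠ i`.
* inequality: `o = min P_i` over `supp D`, `o' = min P'_i` over `supp D'`. If `o = 0` take `P' = v`; if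
  `o' = 0` take `P = v`. If both are `≥ 1` then `D x_i = 0` and `D' x_i = 0`, i.e.
  `D (x_i + c x^M) = 0`, so `D x^M = 0` and `D x_l = 0` (factorially closed). `v` is an end of the line, so
  it has a zero (`root_of_max` with `β = e_i`), not at `i`, `l` (`DX_ne_zero_iff`), so `v_r = 0` for the
  third index, `D x_r ≠ 0`, `M_r = 0`, all `P_r = 0`; `D = f ∂_r`, `f ∈ k[x_i, x_l]`,
  `f = x_l^(v_l - 1) G(x_i, x_l^(M_l))`, `G` a binary form of degree `v_i - 1`, `G ≠ 0`.
  `D' x_r = El(-c) f`. `x_i^(o-1) ∣ f`, `x_i^(o'-1) ∣ El(-c) f`, i.e. `(x_i + c x_l^(M_l))^(o'-1) ∣ f`.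
  Dehomogenise (`x_l ↦ 1`): a nonzero polynomial of degree `≤ v_i - 1` in one variable divisible by the
  coprime `x^(o-1)` and `(x + c)^(o'-1)`. So `(o-1) + (o'-1) ≤ v_i - 1`, `o + o' ≤ v_i + 1 ≤ v_i + v_l`. -/

namespace Pool.Agent.TL

open MvPolynomial

variable {k : Type} [Field k] [CharZero k]

namespace KIAux

theorem X_pow_dvd_of {f : Rg k} {j : Fin 3} {n : ℕ} (h : ∀ e, coeff e f ≠ 0 → n ≤ e j) :
    (X j : Rg k) ^ n ∣ f := by
  rw [f.as_sum]
  apply Finset.dvd_sum
  intro e he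
  have h1 := h e (mem_support_iff.mp he)
  refine ⟨monomial (e - Finsupp.single j n) (coeff e f), ?_⟩
  rw [X_pow_eq_monomial, monomial_mul, one_mul]
  have h2 : Finsupp.single j n + (e - Finsupp.single j n) = e := by
    apply add_tsub_cancel_of_le
    rw [Finsupp.single_le_iff]
    omega
  rw [h2]

theorem X_dvd_monomial {M : Fin 3 →₀ ℕ} {l : Fin 3} (h : 1 ≤ M l) (c : k) :
    (X l : Rg k) ∣ monomial M c := by
  have : (X l : Rg k) ^ 1 ∣ monomial M c := by
    apply X_pow_dvd_of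
    intro e he
    rw [coeff_monomial] at he
    by_cases h1 : M = e
    · rw [← h1]; exact h
    · rw [if_neg h1] at he; exact absurd rfl he
  simpa using this

theorem not_X_dvd_monomial {M : Fin 3 →₀ ℕ} {i : Fin 3} (h : M i = 0) {c : k} (hc : c ≠ 0) :
    ¬ (X i : Rg k) ∣ monomial M c := by
  rintro ⟨g, hg⟩
  have h1 := congrArg (coeff M) hg
  rw [coeff_monomial, if_pos rfl, mul_comm, coeff_mul_X', if_neg] at h1
  · exact hc h1
  · simpa using h

/-- the weight `e_i` -/
def ev (i : Fin 3) : Wt := fun j => if j = i then 1 else 0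

theorem sm_ev (i : Fin 3) : sm (ev i) = 1 := by
  simp [sm, ev]

theorem dE_ev (i : Fin 3) (e : Fin 3 →₀ ℕ) : dE e (ev i) = e i := by
  simp [dE, ev]

theorem dt_ev (i : Fin 3) (e : Fin 3 → ℕ) : dt e (ev i) = e i := by
  simp [dt, ev]

/-- the weight `e_j + n e_i` -/
def ew (i j : Fin 3) (n : ℕ) : Wt := fun r => (if r = j then 1 else 0) + n * if r = i then 1 else 0

theorem dE_ew (i j : Fin 3) (n : ℕ) (e : Fin 3 →₀ ℕ) : dE e (ew i j n) = e j + n * e i := by
  have h : ∀ r, (e r : ℝ) * ew i j n r =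
      (if r = j then (e r : ℝ) else 0) + if r = i then (n : ℝ) * e r else 0 := by
    intro r
    unfold ew
    split_ifs <;> ring
  rw [dE, Finset.sum_congr rfl (fun r _ => h r), Finset.sum_add_distrib]
  simp

theorem dt_ew (i j : Fin 3) (n : ℕ) (e : Fin 3 → ℕ) : dt e (ew i j n) = e j + n * e i := by
  have h : ∀ r, (e r : ℝ) * ew i j n r =
      (if r = j then (e r : ℝ) else 0) + if r = i then (n : ℝ) * e r else 0 := by
    intro r
    unfold ew
    split_ifs <;> ring
  rw [dt, Finset.sum_congr rfl (fun r _ => h r), Finset.sum_add_distrib]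
  simp

end KIAux

open KIAux in
theorem KI_line {D : Der k} {i : Fin 3} {M : Fin 3 →₀ ℕ} (hM : M i = 0) {c : k}
    {v : Fin 3 → ℕ} (hv : v ∈ supp D)
    (hline : ∀ P ∈ supp D, ∃ z : ℕ, P i + z = v i ∧ ∀ j, j ≠ i → P j = v j + z * M j) :
    v ∈ supp (conj (El i M c hM) D) ∧
    ∀ P ∈ supp (conj (El i M c hM) D),
      ∃ z : ℕ, P i + z = v i ∧ ∀ j, j ≠ i → P j = v j + z * M j := by
  have hlt : dE M (ev i) < (ev i) i := by
    rw [dE_ev, hM]; simp [ev]
  have hLe : Le (supp D) (ev i) (v i) := by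
    intro P hP
    rw [dt_ev]
    obtain ⟨z, hz, _⟩ := hline P hP
    exact_mod_cast (by omega : P i ≤ v i)
  constructor
  · have h1 : v ∈ supp (lead (ev i) (v i) D) := mem_supp_lead.mpr ⟨hv, dt_ev i v⟩
    rw [← lead_conj_El_lt (c := c) hM hlt hLe] at h1
    exact (mem_supp_lead.mp h1).1
  · intro P hP
    have hLe' := (Le_conj (Pres_El (c := c) hM hlt.le) rfl D (v i)).mpr hLe
    have h1 := hLe' P hP
    rw [dt_ev] at h1
    have h1' : P i ≤ v i := by exact_mod_cast h1
    refine ⟨v i - P i, by omega, ?_⟩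
    intro j hj
    have hα : dE M (ew i j (M j)) = (ew i j (M j)) i := by
      rw [dE_ew, hM]
      simp [ew, hj.symm]
    have hD : ∀ P ∈ supp D, dt P (ew i j (M j)) = v j + M j * v i := by
      intro P hP
      obtain ⟨z, hz, hz2⟩ := hline P hP
      rw [dt_ew, hz2 j hj, ← hz]
      push_cast
      ring
    have h2 := dt_conj_El_eq (c := c) hM hα hD P hP
    rw [dt_ew] at h2
    have h3 : P j + M j * P i = v j + M j * v i := by exact_mod_cast h2
    obtain ⟨z, hz⟩ := Nat.exists_eq_add_of_le h1'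
    rw [hz] at h3 ⊢
    rw [Nat.add_sub_cancel_left]
    nlinarith

open KIAux in
theorem KI {D : Der k} (hD : IsLND D) {i : Fin 3} {M : Fin 3 →₀ ℕ} (hM : M i = 0) {c : k}
    (hc : c ≠ 0) {v : Fin 3 → ℕ} (hv : v ∈ supp D)
    (hline : ∀ P ∈ supp D, ∃ z : ℕ, P i + z = v i ∧ ∀ j, j ≠ i → P j = v j + z * M j)
    {l : Fin 3} (hl : l ≠ i) (hMl : 1 ≤ M l) :
    ∃ P ∈ supp D, ∃ P' ∈ supp (conj (El i M c hM) D), P i + P' i ≤ v i + v l := by
  obtain ⟨hv', hline'⟩ := KI_line (c := c) hM hv hline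
  by_cases hA : ∃ P ∈ supp D, P i = 0
  · obtain ⟨P, hP, hP0⟩ := hA
    exact ⟨P, hP, v, hv', by omega⟩
  by_cases hB : ∃ P' ∈ supp (conj (El i M c hM) D), P' i = 0
  · obtain ⟨P, hP, hP0⟩ := hB
    exact ⟨v, hv, P, hP, by omega⟩
  have hD' : IsLND (conj (El i M c hM) D) := hD.conj _
  have hDi : D (X i) = 0 := by
    by_contra h
    exact hA ((DX_ne_zero_iff hD i).mp h)
  have hDi' : conj (El i M c hM) D (X i) = 0 := by
    by_contra h
    exact hB ((DX_ne_zero_iff hD' i).mp h)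
  have hDM : D (monomial M c) = 0 := by
    rw [conj_apply, El_apply_self, map_add, hDi, zero_add] at hDi'
    exact (map_eq_zero_iff _ (El i M c hM).symm.injective).mp hDi'
  have hM0 : (monomial M c : Rg k) ≠ 0 := by
    rwa [Ne, monomial_eq_zero]
  have hDl : D (X l) = 0 := ker_of_dvd hD hDM hM0 (X_dvd_monomial hMl c)
  have hvl : 1 ≤ v l := by
    by_contra h
    have h0 : v l = 0 := by omega
    exact (DX_ne_zero_iff hD l).mpr ⟨v, hv, h0⟩ hDl
  have hvi : 1 ≤ v i := by
    by_contra h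
    exact hA ⟨v, hv, by omega⟩
  obtain ⟨r, hr⟩ := root_of_max hD (ev i) hv (by
    intro Q hQ hne
    rw [dt_ev, dt_ev]
    obtain ⟨z, hz, hz2⟩ := hline Q hQ
    have : Q i < v i := by
      rcases Nat.eq_zero_or_pos z with h | h
      · exfalso
        apply hne
        ext j
        by_cases hj : j = i
        · subst hj; omega
        · rw [hz2 j hj, h]; simp
      · omega
    exact_mod_cast this)
  have hri : r ≠ i := by rintro rfl; omega
  have hrl : r ≠ l := by rintro rfl; omega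
  have hDr : D (X r) ≠ 0 := (DX_ne_zero_iff hD r).mpr ⟨v, hv, hr⟩
  obtain ⟨P, hP, hPmin⟩ := Finset.exists_min_image (supp D) (fun P => P i) ⟨v, hv⟩
  obtain ⟨P', hP', hPmin'⟩ := Finset.exists_min_image (supp (conj (El i M c hM) D))
    (fun P => P i) ⟨v, hv'⟩
  refine ⟨P, hP, P', hP', ?_⟩
  have hPi : 1 ≤ P i := by
    by_contra h
    exact hA ⟨P, hP, by omega⟩
  have hPi' : 1 ≤ P' i := by
    by_contra h
    exact hB ⟨P', hP', by omega⟩
  -- the polynomial `f = D x_r`
  have h1 : (X i : Rg k) ^ (P i - 1) ∣ D (X r) := by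
    apply X_pow_dvd_of
    intro e he
    have h2 := hPmin (sh r e) (mem_supp.mpr ⟨r, e, he, rfl⟩)
    simp only [sh, if_neg hri.symm] at h2
    omega
  have h2 : (X i : Rg k) ^ (P' i - 1) ∣ conj (El i M c hM) D (X r) := by
    apply X_pow_dvd_of
    intro e he
    have h2 := hPmin' (sh r e) (mem_supp.mpr ⟨r, e, he, rfl⟩)
    simp only [sh, if_neg hri.symm] at h2
    omega
  set g : Rg k := X i + monomial M c with hg
  have h3 : g ^ (P' i - 1) ∣ D (X r) := by
    rw [conj_apply, El_apply_ne M c hM hri] at h2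
    have h4 := map_dvd (El i M c hM) h2
    rwa [map_pow, El_apply_self, AlgEquiv.apply_symm_apply] at h4
  have hXg : ¬ (X i : Rg k) ∣ g := by
    intro h
    exact not_X_dvd_monomial hM hc ((dvd_add_right (dvd_refl _)).mp h)
  have hXp : Prime (X i : Rg k) := X_prime
  obtain ⟨h, hh⟩ := h3
  have h4 : (X i : Rg k) ^ (P i - 1) ∣ h := by
    apply hXp.pow_dvd_of_dvd_mul_left _ _ (a := g ^ (P' i - 1))
    · rw [← hh]; exact h1
    · intro h5; exact hXg (hXp.dvd_of_dvd_pow h5)
  obtain ⟨h', hh'⟩ := h4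
  have hh0 : h' ≠ 0 := by
    rintro rfl
    rw [mul_zero] at hh'
    rw [hh', mul_zero] at hh
    exact hDr hh
  have hg0 : g ≠ 0 := by
    intro h5; apply hXg; rw [h5]; exact dvd_zero _
  have hdegg : degreeOf i g = 1 := by
    rw [hg, degreeOf_add_eq_of_degreeOf_lt, degreeOf_X_self]
    rw [degreeOf_monomial_eq _ _ hc, degreeOf_X_self, hM]
    exact one_pos
  have hdeg : degreeOf i (D (X r)) = (P' i - 1) + ((P i - 1) + degreeOf i h') := by
    rw [hh, hh', degreeOf_mul_eq (pow_ne_zero _ hg0) (mul_ne_zero (pow_ne_zero _ (X_ne_zero i)) hh0),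
      degreeOf_mul_eq (pow_ne_zero _ (X_ne_zero i)) hh0, degreeOf_pow_eq _ _ _ hg0, hdegg,
      degreeOf_pow_eq _ _ _ (X_ne_zero i), degreeOf_X_self]
    ring
  have hdegle : degreeOf i (D (X r)) ≤ v i - 1 := by
    rw [degreeOf_le_iff]
    intro e he
    obtain ⟨z, hz, _⟩ := hline (sh r e) (mem_supp.mpr ⟨r, e, mem_support_iff.mp he, rfl⟩)
    simp only [sh, if_neg hri.symm] at hz
    omega
  omega

end Pool.Agent.TL
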