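import Pool.Agent.TL.TH

set_option autoImplicit false

/-! # LA1: the combinatorial part of the wall lemma (only finite sets and linear inequalities)

Proof (paper proof section 4). `w' = M - e_i`, `S0 = {α ∈ Δ : M·α ≤ α_i}` (contains `e_i`, compact, convex),
`h(α) = max_{P ∈ S} P·α` for `α ∈ S0`. `μ` a minimiser of `h` on `S0`, `θS = h μ`. Suppose `θS > θ`. The
given `ν₀`, `ν₁` are not in `S0` (for `ν₁` use `H1`), so `w'·ν_j > 0`, `M ≠ 0`. By convexity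
(`h ((1-t) μ + t ν₀) ≤ (1-t) θS + t θ < θS`) `M·μ = μ_i`. The wall is the segment between
`ω_l = (M_l e_i + e_l)/(M_l + 1)` and `ω_j = (M_j e_i + e_j)/(M_j + 1)`, `{i, j, l}` all indices.
For each end `ω_e ≠ μ` there is `P ∈ S` with `P·μ = θS`, `P·ω_e ≥ θS` (otherwise move a little towards `ω_e`);
let `t_e = max {P·ω_e : P ∈ S, P·μ = θS} ≥ θS` and `v_e` a point with `v_e·μ = θS`, `v_e·ω_e = t_e` and
maximal `i`-coordinate `J_e`. All `P` with the same two values are `v_e + (J_e - P_i) w'`.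
`H2` with `α = μ`, `β = ω_e` gives `P_e ∈ S`, `P'_e ∈ S'`; `o_e = (P_e)_i ≤ J_e`, `o'_e = (P'_e)_i`.
(a) `μ` interior: convex combination `V = κ_j v_j + κ_l v_l` with `V·ω_j = V·ω_l = θS`, so
`V = θS 𝟙 - λ w'`. `P_e·ν₀ ≤ θ < θS` gives `(Σ κ (J - o) - λ) w'·ν₀ < 0`, so `λ > Σ κ (J - o) ≥ 0`; same for
`ν₁`; `Σ κ (o + o') > 2 Σ κ J - 2 λ = 2 θS`, but `o + o' ≤ J + v_{l*}` gives `≤ 2 θS + λ (1 - M_{l*}) ≤ 2 θS`.
(b) `μ = ω_l`: one direction `ω_j`. If `M_l ≥ 1`: `v = θS 𝟙 - λ w' + η e_j`, `η ≥ 0`, `l* = l`. If `M_l = 0`: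
`μ = e_l`, `v = θS 𝟙 - λ w' + η e_i`, `η ≥ 0`, `l* = j`. `λ > J - o ≥ 0`, `λ > J - o'`,
`o + o' > 2 J - 2 λ`, `o + o' ≤ J + v_{l*}`, contradiction. -/

namespace Pool.Agent.TL

namespace LA1Aux

/-- the basic identity -/
theorem basic (vi ve vf τ a b ni ne nf o : ℝ) (hn : ni + ne + nf = 1) :
    vi * ni + ve * ne + vf * nf + (vi - o) * (a * ne + b * nf - ni) =
      τ + ((τ - o) * (a * ne + b * nf - ni) + (a * vi + ve - τ * (a + 1)) * ne +
        (b * vi + vf - τ * (b + 1)) * nf) := by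
  have h : ni = 1 - ne - nf := by linarith
  subst h
  ring

/-- data of an end of the wall -/
structure EndD (τ a b : ℝ) (ν₀e ν₀f w₀ ν₁e ν₁f w₁ : ℝ) (vi ve vf o o' : ℝ) : Prop where
  ho : o ≤ vi
  h0 : (τ - o) * w₀ + (a * vi + ve - τ * (a + 1)) * ν₀e + (b * vi + vf - τ * (b + 1)) * ν₀f < 0
  h1 : (τ - o') * w₁ + (a * vi + ve - τ * (a + 1)) * ν₁e + (b * vi + vf - τ * (b + 1)) * ν₁f < 0

theorem lt_of_combo {τ O w x : ℝ} (hw : 0 < w) (hx : 0 ≤ x) (h : (τ - O) * w + x < 0) :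
    τ < O := by
  by_contra hcon
  have h1 : 0 ≤ (τ - O) * w := mul_nonneg (by linarith) hw.le
  linarith

/-- interior case -/
theorem caseA {τ a b ν₀e ν₀f w₀ ν₁e ν₁f w₁ vi ve vf o o' ui ue uf p p' μe μf : ℝ}
    (hμe : 0 < μe) (hμf : 0 < μf) (hw₀ : 0 < w₀) (hw₁ : 0 < w₁) (ha : 1 ≤ a)
    (hv : EndD τ a b ν₀e ν₀f w₀ ν₁e ν₁f w₁ vi ve vf o o')
    (hu : EndD τ a b ν₀e ν₀f w₀ ν₁e ν₁f w₁ ui ue uf p p')
    (hv1 : μe * (a * vi + ve - τ * (a + 1)) + μf * (b * vi + vf - τ * (b + 1)) = 0)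
    (hu1 : μe * (a * ui + ue - τ * (a + 1)) + μf * (b * ui + uf - τ * (b + 1)) = 0)
    (hv2 : 0 ≤ a * vi + ve - τ * (a + 1)) (hu2 : 0 ≤ b * ui + uf - τ * (b + 1))
    (hv3 : o + o' ≤ vi + ve) (hu3 : p + p' ≤ ui + ue) : False := by
  obtain ⟨x, y, hx, hy, hxy, hA⟩ : ∃ x y : ℝ, 0 ≤ x ∧ 0 ≤ y ∧ x + y = 1 ∧
      x * (a * vi + ve - τ * (a + 1)) + y * (a * ui + ue - τ * (a + 1)) = 0 := by
    have hA' : a * ui + ue - τ * (a + 1) ≤ 0 := by
      by_contra h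
      have h1 : 0 < μe * (a * ui + ue - τ * (a + 1)) := mul_pos hμe (not_le.1 h)
      have h2 : 0 ≤ μf * (b * ui + uf - τ * (b + 1)) := mul_nonneg hμf.le hu2
      linarith
    generalize a * vi + ve - τ * (a + 1) = A at *
    generalize a * ui + ue - τ * (a + 1) = A' at *
    rcases hv2.eq_or_lt with h | h
    · exact ⟨1, 0, zero_le_one, le_rfl, by ring, by rw [← h]; ring⟩
    · have hne : 0 < A - A' := by linarith
      refine ⟨-A' / (A - A'), A / (A - A'), div_nonneg (by linarith) hne.le,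
        div_nonneg h.le hne.le, ?_, ?_⟩
      · rw [← add_div, div_eq_one_iff_eq hne.ne']
        ring
      · field_simp
        ring
  have hB : x * (b * vi + vf - τ * (b + 1)) + y * (b * ui + uf - τ * (b + 1)) = 0 := by
    have h1 : μf * (x * (b * vi + vf - τ * (b + 1)) + y * (b * ui + uf - τ * (b + 1))) = 0 := by
      linear_combination x * hv1 + y * hu1 - μe * hA
    exact (mul_eq_zero.1 h1).resolve_left hμf.ne'
  have key : ∀ s t : ℝ, s < 0 → t < 0 → x * s + y * t < 0 := by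
    intro s t hs ht
    rcases hx.eq_or_lt with h | h
    · have hy1 : y = 1 := by linarith
      rw [← h, hy1]
      linarith
    · have h1 : x * s < 0 := mul_neg_of_pos_of_neg h hs
      have h2 : y * t ≤ 0 := mul_nonpos_of_nonneg_of_nonpos hy ht.le
      linarith
  have hO : τ < x * o + y * p := by
    refine lt_of_combo hw₀ le_rfl ?_
    have h1 := key _ _ hv.h0 hu.h0
    have h2 : (τ - (x * o + y * p)) * w₀ + 0 =
        x * ((τ - o) * w₀ + (a * vi + ve - τ * (a + 1)) * ν₀e +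
          (b * vi + vf - τ * (b + 1)) * ν₀f) +
        y * ((τ - p) * w₀ + (a * ui + ue - τ * (a + 1)) * ν₀e +
          (b * ui + uf - τ * (b + 1)) * ν₀f) := by
      linear_combination (-τ * w₀) * hxy - ν₀e * hA - ν₀f * hB
    rw [h2]
    exact h1
  have hO' : τ < x * o' + y * p' := by
    refine lt_of_combo hw₁ le_rfl ?_
    have h1 := key _ _ hv.h1 hu.h1
    have h2 : (τ - (x * o' + y * p')) * w₁ + 0 =
        x * ((τ - o') * w₁ + (a * vi + ve - τ * (a + 1)) * ν₁e +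
          (b * vi + vf - τ * (b + 1)) * ν₁f) +
        y * ((τ - p') * w₁ + (a * ui + ue - τ * (a + 1)) * ν₁e +
          (b * ui + uf - τ * (b + 1)) * ν₁f) := by
      linear_combination (-τ * w₁) * hxy - ν₁e * hA - ν₁f * hB
    rw [h2]
    exact h1
  have h1 : x * o + y * p ≤ x * vi + y * ui :=
    add_le_add (mul_le_mul_of_nonneg_left hv.ho hx) (mul_le_mul_of_nonneg_left hu.ho hy)
  have h2 : x * (o + o') + y * (p + p') ≤ x * (vi + ve) + y * (ui + ue) :=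
    add_le_add (mul_le_mul_of_nonneg_left hv3 hx) (mul_le_mul_of_nonneg_left hu3 hy)
  -- `V_e = τ (a + 1) - a V_i`
  have h3 : x * ve + y * ue = τ * (a + 1) - a * (x * vi + y * ui) := by
    linear_combination hA + (τ * (a + 1)) * hxy
  have h4 : 0 ≤ (a - 1) * ((x * vi + y * ui) - τ) := mul_nonneg (by linarith) (by linarith)
  nlinarith

/-- boundary case, `M_f ≥ 1` -/
theorem caseB {τ a b ν₀e ν₀f w₀ ν₁e ν₁f w₁ vi ve vf o o' : ℝ}
    (hw₀ : 0 < w₀) (hw₁ : 0 < w₁) (hν₀ : 0 ≤ ν₀e) (hν₁ : 0 ≤ ν₁e) (hb : 1 ≤ b)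
    (hv : EndD τ a b ν₀e ν₀f w₀ ν₁e ν₁f w₁ vi ve vf o o')
    (hv1 : b * vi + vf - τ * (b + 1) = 0)
    (hv2 : 0 ≤ a * vi + ve - τ * (a + 1))
    (hv3 : o + o' ≤ vi + vf) : False := by
  have hO : τ < o := by
    refine lt_of_combo hw₀ (mul_nonneg hv2 hν₀) ?_
    have := hv.h0
    rw [hv1] at this
    linarith
  have hO' : τ < o' := by
    refine lt_of_combo hw₁ (mul_nonneg hv2 hν₁) ?_
    have := hv.h1
    rw [hv1] at this
    linarith
  have h4 : 0 ≤ (b - 1) * (vi - τ) := mul_nonneg (by linarith) (by linarith [hv.ho])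
  nlinarith

/-- boundary case, `M_f = 0`, `M_e ≥ 1` -/
theorem caseC {τ a ν₀i ν₀e ν₀f w₀ ν₁i ν₁e ν₁f w₁ vi ve vf o o' : ℝ}
    (hw₀ : 0 < w₀) (hw₁ : 0 < w₁) (hν₀ : 0 ≤ ν₀i) (hν₁ : 0 ≤ ν₁i) (ha : 1 ≤ a)
    (hw₀' : w₀ = a * ν₀e - ν₀i) (hw₁' : w₁ = a * ν₁e - ν₁i)
    (hv : EndD τ a 0 ν₀e ν₀f w₀ ν₁e ν₁f w₁ vi ve vf o o')
    (hv1 : 0 * vi + vf - τ * (0 + 1) = 0)
    (hv2 : 0 ≤ a * vi + ve - τ * (a + 1))
    (hv3 : o + o' ≤ vi + ve) : False := by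
  have ha0 : 0 < a := by linarith
  obtain ⟨η, hη⟩ : ∃ η, η = (a * vi + ve - τ * (a + 1)) / a := ⟨_, rfl⟩
  have hη0 : 0 ≤ η := by
    rw [hη]
    exact div_nonneg hv2 ha0.le
  have hη1 : a * vi + ve - τ * (a + 1) = η * a := by
    rw [hη]
    field_simp
  have key : ∀ (O νi νe w x : ℝ), 0 < w → 0 ≤ νi → w = a * νe - νi →
      (τ - O) * w + (a * vi + ve - τ * (a + 1)) * νe + 0 * x < 0 → τ + η < O := by
    intro O νi νe w x hw hνi hw' h
    rw [hη1] at h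
    have h1 : (τ + η - O) * w + η * νi < 0 := by
      have h2 : (τ + η - O) * w + η * νi = (τ - O) * w + η * a * νe + 0 * x := by
        rw [hw']
        ring
      rw [h2]
      exact h
    exact lt_of_combo hw (mul_nonneg hη0 hνi) h1
  have h0 := hv.h0
  have h1 := hv.h1
  rw [hv1] at h0 h1
  have hO := key _ _ _ _ _ hw₀ hν₀ hw₀' h0
  have hO' := key _ _ _ _ _ hw₁ hν₁ hw₁' h1
  have h4 : 0 ≤ (a - 1) * (vi - τ - η) := mul_nonneg (by linarith) (by linarith [hv.ho])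
  nlinarith

theorem dt3 {i e f : Fin 3} (hie : i ≠ e) (hif : i ≠ f) (hef : e ≠ f) (P : Fin 3 → ℕ) (α : Wt) :
    dt P α = P i * α i + P e * α e + P f * α f :=
  sum3 hie hif hef (fun j => (P j : ℝ) * α j)

theorem dE3 {i e f : Fin 3} (hie : i ≠ e) (hif : i ≠ f) (hef : e ≠ f) {M : Fin 3 →₀ ℕ}
    (hM : M i = 0) (α : Wt) : dE M α = M e * α e + M f * α f := by
  have h := sum3 hie hif hef (fun j => (M j : ℝ) * α j)
  rw [hM, Nat.cast_zero, zero_mul, zero_add] at h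
  exact h

theorem simplex3 {i e f : Fin 3} (hie : i ≠ e) (hif : i ≠ f) (hef : e ≠ f) {α : Wt}
    (h : α ∈ stdSimplex ℝ (Fin 3)) : α i + α e + α f = 1 := by
  rw [← sum3 hie hif hef α]
  exact h.2

open Filter Topology in
/-- moving from `μ` towards `ω` -/
theorem move {S : Finset (Fin 3 → ℕ)} {μ ω : Wt} {τ : ℝ} (hμ : Le S μ τ)
    (hmin : ∀ t : ℝ, 0 < t → t ≤ 1 → ∃ P ∈ S, τ ≤ dt P (fun j => (1 - t) * μ j + t * ω j)) :
    ∃ P ∈ S, dt P μ = τ ∧ τ ≤ dt P ω := by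
  by_contra hcon
  push Not at hcon
  have h1 : ∀ P ∈ S, ∀ᶠ t in 𝓝[>] (0 : ℝ), dt P (fun j => (1 - t) * μ j + t * ω j) < τ := by
    intro P hP
    simp only [dt_lin]
    rcases (hμ P hP).lt_or_eq with h | h
    · have hc : Continuous fun t : ℝ => (1 - t) * dt P μ + t * dt P ω := by fun_prop
      have h2 : Tendsto (fun t : ℝ => (1 - t) * dt P μ + t * dt P ω) (𝓝[>] 0) (𝓝 (dt P μ)) := by
        have h3 := (hc.tendsto 0).mono_left (nhdsWithin_le_nhds (s := Set.Ioi 0))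
        simpa using h3
      exact h2.eventually_lt_const h
    · have h2 := hcon P hP h
      filter_upwards [self_mem_nhdsWithin] with t ht
      have ht : 0 < t := ht
      rw [h]
      nlinarith
  have h2 : ∀ᶠ t in 𝓝[>] (0 : ℝ), ∀ P ∈ S, dt P (fun j => (1 - t) * μ j + t * ω j) < τ :=
    (Finset.eventually_all S).2 h1
  have h3 : ∀ᶠ t in 𝓝[>] (0 : ℝ), t ∈ Set.Ioc (0 : ℝ) 1 := Ioc_mem_nhdsGT zero_lt_one
  obtain ⟨t, ht1, ht2⟩ := (h2.and h3).exists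
  obtain ⟨P, hP, h4⟩ := hmin t ht2.1 ht2.2
  exact absurd (ht1 P hP) (not_lt.2 h4)

theorem simplex_comb {μ ω : Wt} (hμ : μ ∈ stdSimplex ℝ (Fin 3)) (hω : ω ∈ stdSimplex ℝ (Fin 3))
    {t : ℝ} (ht0 : 0 ≤ t) (ht1 : t ≤ 1) :
    (fun j => (1 - t) * μ j + t * ω j) ∈ stdSimplex ℝ (Fin 3) := by
  refine ⟨fun j => add_nonneg (mul_nonneg (by linarith) (hμ.1 j)) (mul_nonneg ht0 (hω.1 j)), ?_⟩
  rw [Finset.sum_add_distrib, ← Finset.mul_sum, ← Finset.mul_sum, hμ.2, hω.2]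
  ring

theorem end_exists {S S' : Finset (Fin 3 → ℕ)} {i e f : Fin 3} (hie : i ≠ e) (hif : i ≠ f)
    (hef : e ≠ f) {M : Fin 3 →₀ ℕ} (hM : M i = 0)
    (H2 : ∀ α β : Wt, (∀ j, 0 ≤ α j) → (∀ j, 0 ≤ β j) → LinearIndependent ℝ ![α, β] →
      dE M α = α i → dE M β = β i → ∀ s t : ℝ, Le S α s →
      (∀ P ∈ S, dt P α = s → dt P β ≤ t) → ∀ v ∈ S, dt v α = s → dt v β = t →
      (∀ P ∈ S, dt P α = s → dt P β = t → P i ≤ v i) → ∀ l, l ≠ i → 1 ≤ M l →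
      ∃ P ∈ S, dt P α = s ∧ dt P β = t ∧ ∃ P' ∈ S', dt P' α = s ∧ dt P' β = t ∧
        P i + P' i ≤ v i + v l)
    {μ : Wt} (hμ : μ ∈ stdSimplex ℝ (Fin 3)) (hμw : dE M μ = μ i) (hμf : 0 < μ f) {τ : ℝ}
    (hLe : Le S μ τ)
    (hmin : ∀ α ∈ stdSimplex ℝ (Fin 3), dE M α ≤ α i → ∃ P ∈ S, τ ≤ dt P α)
    {ν₀ ν₁ : Wt} (hν₀ : ν₀ ∈ stdSimplex ℝ (Fin 3)) (hν₁ : ν₁ ∈ stdSimplex ℝ (Fin 3)) {θ : ℝ}
    (hθ : θ < τ) (h0 : Le S ν₀ θ) (h1 : Le S' ν₁ θ) {l : Fin 3} (hl : l ≠ i) (hMl : 1 ≤ M l) :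
    ∃ (v : Fin 3 → ℕ) (o o' : ℕ),
      EndD τ (M e) (M f) (ν₀ e) (ν₀ f) (dE M ν₀ - ν₀ i) (ν₁ e) (ν₁ f) (dE M ν₁ - ν₁ i)
        (v i) (v e) (v f) o o' ∧
      μ e * (M e * v i + v e - τ * (M e + 1)) + μ f * (M f * v i + v f - τ * (M f + 1)) = 0 ∧
      (0 : ℝ) ≤ M e * v i + v e - τ * (M e + 1) ∧ (o : ℝ) + o' ≤ v i + v l := by
  classical
  let β : Wt := fun j => if j = i then (M e : ℝ) else if j = e then 1 else 0
  have hβi : β i = M e := if_pos rfl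
  have hβe : β e = 1 := (if_neg hie.symm).trans (if_pos rfl)
  have hβf : β f = 0 := (if_neg hif.symm).trans (if_neg hef.symm)
  have hβ0 : ∀ j, 0 ≤ β j := by
    intro j
    rcases eq_of_ne hie hif hef j with rfl | rfl | rfl
    · rw [hβi]
      exact Nat.cast_nonneg _
    · rw [hβe]
      exact zero_le_one
    · rw [hβf]
  have hβw : dE M β = β i := by
    rw [dE3 hie hif hef hM, hβe, hβf, hβi, mul_one, mul_zero, add_zero]
  have hLI : LinearIndependent ℝ ![μ, β] := by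
    rw [LinearIndependent.pair_iff]
    intro s t hst
    have h2 : s * μ f + t * β f = 0 := congrFun hst f
    have h3 : s * μ e + t * β e = 0 := congrFun hst e
    rw [hβf, mul_zero, add_zero] at h2
    have h4 : s = 0 := (mul_eq_zero.1 h2).resolve_right hμf.ne'
    rw [h4, hβe, zero_mul, zero_add, mul_one] at h3
    exact ⟨h4, h3⟩
  have hMe : (0 : ℝ) < (M e : ℝ) + 1 := by positivity
  let ω : Wt := fun j => (1 - 1) * β j + ((M e : ℝ) + 1)⁻¹ * β j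
  have hdtω : ∀ P, dt P ω = ((M e : ℝ) + 1)⁻¹ * dt P β := by
    intro P
    have h2 : dt P ω = (1 - 1) * dt P β + ((M e : ℝ) + 1)⁻¹ * dt P β :=
      dt_lin P β β (1 - 1) ((M e : ℝ) + 1)⁻¹
    rw [sub_self, zero_mul, zero_add] at h2
    exact h2
  have hω : ω ∈ stdSimplex ℝ (Fin 3) := by
    refine ⟨fun j => ?_, ?_⟩
    · show 0 ≤ (1 - 1) * β j + ((M e : ℝ) + 1)⁻¹ * β j
      rw [sub_self, zero_mul, zero_add]
      exact mul_nonneg (inv_nonneg.2 hMe.le) (hβ0 j)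
    · rw [sum3 hie hif hef ω]
      show (1 - 1) * β i + ((M e : ℝ) + 1)⁻¹ * β i + ((1 - 1) * β e + ((M e : ℝ) + 1)⁻¹ * β e) +
        ((1 - 1) * β f + ((M e : ℝ) + 1)⁻¹ * β f) = 1
      rw [hβi, hβe, hβf]
      field_simp
      ring
  have hωw : dE M ω = ω i := by
    have h2 := dE_lin M β β (1 - 1) ((M e : ℝ) + 1)⁻¹
    rw [hβw] at h2
    exact h2
  obtain ⟨P₀, hP₀, hP₀μ, hP₀ω⟩ := move (ω := ω) hLe (by
    intro t ht0 ht1
    refine hmin _ (simplex_comb hμ hω ht0.le ht1) ?_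
    rw [dE_lin, hμw, hωw])
  have hP₀β : τ * (M e + 1) ≤ dt P₀ β := by
    rw [hdtω] at hP₀ω
    have h2 := mul_le_mul_of_nonneg_right hP₀ω hMe.le
    rwa [mul_comm ((M e : ℝ) + 1)⁻¹, mul_assoc, inv_mul_cancel₀ hMe.ne', mul_one] at h2
  obtain ⟨v₀, hv₀, hv₀m⟩ := (S.filter fun P => dt P μ = τ).exists_max_image (fun P => dt P β)
    ⟨P₀, Finset.mem_filter.2 ⟨hP₀, hP₀μ⟩⟩
  obtain ⟨v, hv, hvm⟩ := ((S.filter fun P => dt P μ = τ).filter
    fun P => dt P β = dt v₀ β).exists_max_image (fun P => P i)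
    ⟨v₀, Finset.mem_filter.2 ⟨hv₀, rfl⟩⟩
  obtain ⟨hv1, hvβ⟩ := Finset.mem_filter.1 hv
  obtain ⟨hvS, hvμ⟩ := Finset.mem_filter.1 hv1
  obtain ⟨P, hP, hPμ, hPβ, P', hP', hP'μ, hP'β, hle⟩ := H2 μ β hμ.1 hβ0 hLI hμw hβw τ (dt v₀ β) hLe
    (fun P hP h => hv₀m P (Finset.mem_filter.2 ⟨hP, h⟩)) v hvS hvμ hvβ
    (fun P hP h h' => hvm P (Finset.mem_filter.2 ⟨Finset.mem_filter.2 ⟨hP, h⟩, h'⟩)) l hl hMl
  have hvτ : τ * (M e + 1) ≤ dt v β := by
    rw [hvβ]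
    exact hP₀β.trans (hv₀m P₀ (Finset.mem_filter.2 ⟨hP₀, hP₀μ⟩))
  have hPv : P i ≤ v i := hvm P (Finset.mem_filter.2 ⟨Finset.mem_filter.2 ⟨hP, hPμ⟩, hPβ⟩)
  have hvβ' : dt v β = v i * M e + v e := by
    rw [dt3 hie hif hef, hβi, hβe, hβf]
    ring
  have hμs := simplex3 hie hif hef hμ
  have hμw' := hμw
  rw [dE3 hie hif hef hM] at hμw'
  -- points with the same values
  have hrel : ∀ Q : Fin 3 → ℕ, dt Q μ = τ → dt Q β = dt v₀ β →
      (Q e : ℝ) = v e + (v i - Q i) * M e ∧ (Q f : ℝ) = v f + (v i - Q i) * M f := by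
    intro Q h2 h3
    rw [← hvβ, hvβ', dt3 hie hif hef, hβi, hβe, hβf] at h3
    have h4 : (Q e : ℝ) = v e + (v i - Q i) * M e := by linarith
    refine ⟨h4, ?_⟩
    rw [← hvμ, dt3 hie hif hef, dt3 hie hif hef, h4] at h2
    have h5 : ((Q f : ℝ) - (v f + (v i - Q i) * M f)) * μ f = 0 := by
      linear_combination h2 - (v i - Q i) * hμw'
    have h6 := (mul_eq_zero.1 h5).resolve_right hμf.ne'
    linarith
  have hval : ∀ (Q : Fin 3 → ℕ) (ν : Wt), dt Q μ = τ → dt Q β = dt v₀ β →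
      ν ∈ stdSimplex ℝ (Fin 3) → dt Q ν ≤ θ →
      (τ - Q i) * (dE M ν - ν i) + (M e * v i + v e - τ * (M e + 1)) * ν e +
        (M f * v i + v f - τ * (M f + 1)) * ν f < 0 := by
    intro Q ν h2 h3 h4 h5
    obtain ⟨h6, h7⟩ := hrel Q h2 h3
    have h8 := basic (v i) (v e) (v f) τ (M e) (M f) (ν i) (ν e) (ν f) (Q i)
      (simplex3 hie hif hef h4)
    rw [dt3 hie hif hef, h6, h7] at h5
    rw [dE3 hie hif hef hM]
    have h9 : (Q i : ℝ) * ν i + (v e + (v i - Q i) * M e) * ν e +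
        (v f + (v i - Q i) * M f) * ν f = v i * ν i + v e * ν e + v f * ν f +
        (v i - Q i) * (M e * ν e + M f * ν f - ν i) := by ring
    rw [h9, h8] at h5
    linarith
  refine ⟨v, P i, P' i, ⟨Nat.cast_le.2 hPv, hval P ν₀ hPμ hPβ hν₀ (h0 P hP),
    hval P' ν₁ hP'μ hP'β hν₁ (h1 P' hP')⟩, ?_, ?_, ?_⟩
  · have h2 := hvμ
    rw [dt3 hie hif hef] at h2
    have h3 : μ i = 1 - μ e - μ f := by linarith
    linear_combination h2 + v i * hμw' - τ * hμw' - τ * hμs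
  · rw [hvβ'] at hvτ
    linarith
  · exact_mod_cast hle

end LA1Aux

open LA1Aux in
theorem wall_comb {S S' : Finset (Fin 3 → ℕ)} (hS : S.Nonempty) {i : Fin 3}
    {M : Fin 3 →₀ ℕ} (hM : M i = 0)
    (H1 : ∀ α : Wt, (∀ j, 0 ≤ α j) → dE M α ≤ α i → ∀ s, Le S α s ↔ Le S' α s)
    (H2 : ∀ α β : Wt, (∀ j, 0 ≤ α j) → (∀ j, 0 ≤ β j) → LinearIndependent ℝ ![α, β] →
      dE M α = α i → dE M β = β i → ∀ s t : ℝ, Le S α s →
      (∀ P ∈ S, dt P α = s → dt P β ≤ t) → ∀ v ∈ S, dt v α = s → dt v β = t →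
      (∀ P ∈ S, dt P α = s → dt P β = t → P i ≤ v i) → ∀ l, l ≠ i → 1 ≤ M l →
      ∃ P ∈ S, dt P α = s ∧ dt P β = t ∧ ∃ P' ∈ S', dt P' α = s ∧ dt P' β = t ∧
        P i + P' i ≤ v i + v l)
    {θ : ℝ} (h1 : ∃ ν ∈ stdSimplex ℝ (Fin 3), Le S ν θ)
    (h2 : ∃ ν ∈ stdSimplex ℝ (Fin 3), Le S' ν θ) :
    ∃ α ∈ stdSimplex ℝ (Fin 3), dE M α ≤ α i ∧ Le S α θ := by
  classical
  obtain ⟨ν₀, hν₀, hν₀θ⟩ := h1
  obtain ⟨ν₁, hν₁, hν₁θ⟩ := h2
  -- the minimiser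
  have hdE : Continuous fun α : Wt => dE M α := by
    unfold dE
    fun_prop
  have hdt : ∀ P, Continuous fun α : Wt => dt P α := by
    intro P
    unfold dt
    fun_prop
  have hK : IsCompact {α : Wt | α ∈ stdSimplex ℝ (Fin 3) ∧ dE M α ≤ α i} :=
    (isCompact_stdSimplex ℝ (Fin 3)).inter_right (isClosed_le hdE (continuous_apply i))
  have hK0 : ({α : Wt | α ∈ stdSimplex ℝ (Fin 3) ∧ dE M α ≤ α i}).Nonempty := by
    refine ⟨Pi.single i 1, single_mem_stdSimplex ℝ i, ?_⟩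
    have h3 : dE M (Pi.single i 1 : Wt) = 0 := by
      unfold dE
      refine Finset.sum_eq_zero fun j _ => ?_
      by_cases hj : j = i
      · rw [hj, hM, Nat.cast_zero, zero_mul]
      · rw [Pi.single_eq_of_ne hj, mul_zero]
    rw [h3, Pi.single_eq_same]
    exact zero_le_one
  obtain ⟨μ, ⟨hμ, hμw⟩, hμmin⟩ := hK.exists_isMinOn (f := fun α : Wt => S.sup' hS (fun P => dt P α))
    hK0 (Continuous.continuousOn (Continuous.finset_sup'_apply hS fun P _ => hdt P))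
  obtain ⟨τ, hτ⟩ : ∃ τ, τ = S.sup' hS (fun P => dt P μ) := ⟨_, rfl⟩
  have hLe : Le S μ τ := by
    intro P hP
    rw [hτ]
    exact Finset.le_sup' (fun P => dt P μ) hP
  have hmin : ∀ α ∈ stdSimplex ℝ (Fin 3), dE M α ≤ α i → ∃ P ∈ S, τ ≤ dt P α := by
    intro α hα hαw
    obtain ⟨P, hP, h3⟩ := Finset.exists_mem_eq_sup' hS (fun P => dt P α)
    refine ⟨P, hP, ?_⟩
    have h4 := hμmin (a := α) ⟨hα, hαw⟩
    have h5 : S.sup' hS (fun P => dt P μ) ≤ S.sup' hS (fun P => dt P α) := h4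
    rw [hτ, ← h3]
    exact h5
  by_cases hτθ : τ ≤ θ
  · exact ⟨μ, hμ, hμw, fun P hP => (hLe P hP).trans hτθ⟩
  rw [not_le] at hτθ
  exfalso
  have hw₀ : 0 < dE M ν₀ - ν₀ i := by
    by_contra h
    obtain ⟨P, hP, h3⟩ := hmin ν₀ hν₀ (by linarith)
    linarith [hν₀θ P hP]
  have hw₁ : 0 < dE M ν₁ - ν₁ i := by
    by_contra h
    obtain ⟨P, hP, h3⟩ := hmin ν₁ hν₁ (by linarith)
    have h4 := (H1 ν₁ hν₁.1 (by linarith) θ).2 hν₁θ P hP
    linarith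
  -- the minimiser is on the wall
  have hμw : dE M μ = μ i := by
    by_contra hne
    have hlt : 0 < μ i - dE M μ := by
      have := lt_of_le_of_ne hμw hne
      linarith
    obtain ⟨x, hx⟩ : ∃ x, x = μ i - dE M μ := ⟨_, rfl⟩
    obtain ⟨y, hy⟩ : ∃ y, y = dE M ν₀ - ν₀ i := ⟨_, rfl⟩
    rw [← hx] at hlt
    rw [← hy] at hw₀
    have hxy : 0 < x + y := by linarith
    have ht0 : 0 < x / (x + y) := div_pos hlt hxy
    have ht1 : x / (x + y) ≤ 1 := (div_le_one hxy).2 (by linarith)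
    obtain ⟨P, hP, h3⟩ := hmin _ (simplex_comb hμ hν₀ ht0.le ht1) (by
      rw [dE_lin]
      have h4 : (1 - x / (x + y)) * (-x) + x / (x + y) * y = 0 := by
        field_simp
        ring
      have h5 : dE M μ = μ i - x := by linarith
      have h6 : dE M ν₀ = ν₀ i + y := by linarith
      rw [h5, h6]
      linarith)
    rw [dt_lin] at h3
    have h4 := hLe P hP
    have h5 := hν₀θ P hP
    have h6 : (1 - x / (x + y)) * dt P μ ≤ (1 - x / (x + y)) * τ :=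
      mul_le_mul_of_nonneg_left h4 (by linarith)
    have h7 : x / (x + y) * dt P ν₀ < x / (x + y) * τ :=
      mul_lt_mul_of_pos_left (by linarith) ht0
    linarith
  -- the indices
  obtain ⟨e, hei⟩ : ∃ e : Fin 3, e ≠ i := exists_ne i
  obtain ⟨f, hfi, hfe⟩ := exists_third i e
  have hie := hei.symm
  have hif := hfi.symm
  have hef := hfe.symm
  have hμs := simplex3 hie hif hef hμ
  have hμw' := hμw
  rw [dE3 hie hif hef hM] at hμw'
  have h0e := dE3 hie hif hef hM ν₀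
  have hMne : 1 ≤ M e ∨ 1 ≤ M f := by
    by_contra h
    push Not at h
    have h3 : M e = 0 := by omega
    have h4 : M f = 0 := by omega
    rw [h0e, h3, h4] at hw₀
    have := hν₀.1 i
    push_cast at hw₀
    linarith
  -- boundary case
  have bdry : ∀ e f : Fin 3, i ≠ e → i ≠ f → e ≠ f → (1 ≤ M e ∨ 1 ≤ M f) → μ e = 0 → 0 < μ f →
      False := by
    intro e f hie hif hef hMne hμe hμf
    have hwe₀ := dE3 hie hif hef hM ν₀
    have hwe₁ := dE3 hie hif hef hM ν₁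
    by_cases hMf : 1 ≤ M f
    · obtain ⟨v, o, o', hv, hv1, hv2, hv3⟩ := end_exists hie hif hef hM H2 hμ hμw hμf hLe hmin
        hν₀ hν₁ hτθ hν₀θ hν₁θ hif.symm hMf
      rw [hμe, zero_mul, zero_add] at hv1
      have hv1 := (mul_eq_zero.1 hv1).resolve_left hμf.ne'
      exact caseB hw₀ hw₁ (hν₀.1 e) (hν₁.1 e) (by exact_mod_cast hMf) hv hv1 hv2 hv3
    · have hMe : 1 ≤ M e := hMne.resolve_right hMf
      have hMf0 : M f = 0 := by omega
      obtain ⟨v, o, o', hv, hv1, hv2, hv3⟩ := end_exists hie hif hef hM H2 hμ hμw hμf hLe hmin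
        hν₀ hν₁ hτθ hν₀θ hν₁θ hie.symm hMe
      rw [hμe, zero_mul, zero_add] at hv1
      have hv1 := (mul_eq_zero.1 hv1).resolve_left hμf.ne'
      rw [hMf0, Nat.cast_zero] at hv hv1 hwe₀ hwe₁
      refine caseC hw₀ hw₁ (hν₀.1 i) (hν₁.1 i) (by exact_mod_cast hMe) ?_ ?_ hv hv1 hv2 hv3
      · rw [hwe₀]
        ring
      · rw [hwe₁]
        ring
  have inner : ∀ e f : Fin 3, i ≠ e → i ≠ f → e ≠ f → 1 ≤ M e → 0 < μ e → 0 < μ f → False := by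
    intro e f hie hif hef hMe hμe hμf
    obtain ⟨v, o, o', hv, hv1, hv2, hv3⟩ := end_exists hie hif hef hM H2 hμ hμw hμf hLe hmin
      hν₀ hν₁ hτθ hν₀θ hν₁θ hie.symm hMe
    obtain ⟨u, p, p', hu, hu1, hu2, hu3⟩ := end_exists hif hie hef.symm hM H2 hμ hμw hμe hLe hmin
      hν₀ hν₁ hτθ hν₀θ hν₁θ hie.symm hMe
    refine caseA hμe hμf hw₀ hw₁ (by exact_mod_cast hMe) hv ⟨hu.ho, ?_, ?_⟩ hv1 ?_ hv2 hu2 hv3 hu3
    · linarith [hu.h0]
    · linarith [hu.h1]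
    · linarith
  rcases (hμ.1 e).eq_or_lt with h3 | h3
  · have hμf : 0 < μ f := by
      rcases (hμ.1 f).eq_or_lt with h4 | h4
      · rw [← h3, ← h4] at hμw' hμs
        linarith
      · exact h4
    exact bdry e f hie hif hef hMne h3.symm hμf
  · rcases (hμ.1 f).eq_or_lt with h4 | h4
    · exact bdry f e hif hie hfe hMne.symm h4.symm h3
    · rcases hMne with h5 | h5
      · exact inner e f hie hif hef h5 h3 h4
      · exact inner f e hif hie hfe h5 h4 h3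

end Pool.Agent.TL
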