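import Pool.Agent.TL.LA1
import Pool.Agent.TL.KI

set_option autoImplicit false

/-! # LA2: the wall lemma

Proof. Apply `wall_comb` to `S = supp D`, `S' = supp D'`, `D' = conj (El i M c) D`. `H1` is
`Le_conj` with `Pres_El`. `H2`: `D_f = lead β t (lead α s D)` is locally nilpotent, its support is
`{P ∈ supp D : dt P α = s, dt P β = t}` (`mem_supp_lead`), it lies on a line through `v` in direction
`M - e_i` (`α`, `β` independent, `dE M α = α i`, `dE M β = β i`; the `i`-coordinate of a point determines it: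
`z = v i - P i ≥ 0`). `lead_conj_El_eq` twice gives `lead β t (lead α s D') = conj (El i M c) D_f`
(for the second application: all points of `lead α s D` have `dt P β ≤ t`). Then `KI`. -/

namespace Pool.Agent.TL

open MvPolynomial

variable {k : Type} [Field k] [CharZero k]

namespace LA2Aux

/-- two independent linear forms in three variables both vanishing on a vector with `i`-coordinate `0`
which are also both vanishing on a vector with nonzero `i`-coordinate: the vector is zero -/
theorem line_aux {α β u w : Fin 3 → ℝ} (hind : LinearIndependent ℝ ![α, β]) {i : Fin 3}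
    (hw : w i = -1) (h1 : ∑ j, u j * α j = 0) (h2 : ∑ j, u j * β j = 0)
    (h3 : ∑ j, w j * α j = 0) (h4 : ∑ j, w j * β j = 0) (hu : u i = 0) : u = 0 := by
  by_contra hne
  -- the vectors u, w are linearly independent, both orthogonal to α, β; rank contradiction
  have hli : LinearIndependent ℝ ![u, w] := by
    rw [LinearIndependent.pair_iff]
    intro s t hst
    have ht : t = 0 := by
      have := congrFun hst i
      simp [hu, hw] at this
      linarith
    subst ht
    simp at hst
    rcases hst with h | h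
    · exact ⟨h, rfl⟩
    · exact absurd h hne
  have hdet : ∀ a b c d : Fin 3 → ℝ, True := fun _ _ _ _ => trivial
  rw [LinearIndependent.pair_iff] at hind hli
  -- cross products
  obtain ⟨j, hj⟩ : ∃ j, u j ≠ 0 := by
    by_contra h; push Not at h; exact hne (funext h)
  have hji : j ≠ i := by rintro rfl; exact hj hu
  obtain ⟨l, hl1, hl2⟩ := exists_third j i
  rw [sum3 hji (Ne.symm hl1) (Ne.symm hl2)] at h1 h2 h3 h4
  simp only [hu, hw, zero_mul, add_zero] at h1 h2 h3 h4
  -- α j = - (u l / u j) α l, α i = w j α j + w l α l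
  have a1 : α j = -(u l / u j) * α l := by field_simp; linarith
  have b1 : β j = -(u l / u j) * β l := by field_simp; linarith
  have a2 : α i = w j * α j + w l * α l := by linarith
  have b2 : β i = w j * β j + w l * β l := by linarith
  by_cases hz : α l = 0 ∧ β l = 0
  · obtain ⟨z1, z2⟩ := hz
    have : (1:ℝ) = 0 ∧ (0:ℝ) = 0 := hind 1 0 (by
      funext m
      rcases eq_of_ne hji (Ne.symm hl1) (Ne.symm hl2) m with rfl | rfl | rfl
      · simp [a1, z1]
      · simp [a2, a1, z1]
      · simp [z1])
    exact one_ne_zero this.1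
  · have := hind (β l) (-α l) (by
      funext m
      rcases eq_of_ne hji (Ne.symm hl1) (Ne.symm hl2) m with rfl | rfl | rfl
      · simp [a1, b1]; ring
      · simp [a2, b2, a1, b1]; ring
      · simp; ring)
    exact hz ⟨by linarith [this.2], this.1⟩

end LA2Aux

theorem wall {D : Der k} (hD : IsLND D) (h0 : D ≠ 0) {i : Fin 3} {M : Fin 3 →₀ ℕ}
    (hM : M i = 0) {c : k} (hc : c ≠ 0) {θ : ℝ} (h1 : Th (supp D) ≤ θ)
    (h2 : Th (supp (conj (El i M c hM) D)) ≤ θ) :
    ∃ α ∈ stdSimplex ℝ (Fin 3), dE M α ≤ α i ∧ Le (supp D) α θ ∧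
      Le (supp (conj (El i M c hM) D)) α θ := by
  set g := El i M c hM with hg
  have H1 : ∀ α : Wt, (∀ j, 0 ≤ α j) → dE M α ≤ α i → ∀ s, Le (supp D) α s ↔
      Le (supp (conj g D)) α s := fun α _ hα s => (Le_conj (Pres_El hM hα) rfl D s).symm
  have H2 : ∀ α β : Wt, (∀ j, 0 ≤ α j) → (∀ j, 0 ≤ β j) → LinearIndependent ℝ ![α, β] →
      dE M α = α i → dE M β = β i → ∀ s t : ℝ, Le (supp D) α s →
      (∀ P ∈ supp D, dt P α = s → dt P β ≤ t) → ∀ v ∈ supp D, dt v α = s → dt v β = t →
      (∀ P ∈ supp D, dt P α = s → dt P β = t → P i ≤ v i) → ∀ l, l ≠ i → 1 ≤ M l →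
      ∃ P ∈ supp D, dt P α = s ∧ dt P β = t ∧ ∃ P' ∈ supp (conj g D), dt P' α = s ∧
        dt P' β = t ∧ P i + P' i ≤ v i + v l := by
    intro α β hα0 hβ0 hind hMα hMβ s t hs ht v hv hvα hvβ hmax l hl hMl
    have hLt : Le (supp (lead α s D)) β t := fun P hP =>
      ht P (mem_supp_lead.1 hP).1 (mem_supp_lead.1 hP).2
    set F := lead β t (lead α s D) with hF
    have hFL : IsLND F := (hD.lead hs).lead hLt
    have hmem : ∀ P, P ∈ supp F ↔ P ∈ supp D ∧ dt P α = s ∧ dt P β = t := by
      intro P
      rw [hF, mem_supp_lead, mem_supp_lead]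
      tauto
    have hline : ∀ P ∈ supp F, ∃ z : ℕ, P i + z = v i ∧ ∀ j, j ≠ i → P j = v j + z * M j := by
      intro P hP
      obtain ⟨hPD, hPα, hPβ⟩ := (hmem P).1 hP
      obtain ⟨z, hz⟩ := Nat.exists_eq_add_of_le (hmax P hPD hPα hPβ)
      refine ⟨z, hz.symm, ?_⟩
      -- the vector P - v - z (M - e_i) vanishes
      have key := LA2Aux.line_aux (α := α) (β := β)
        (u := fun j => (P j : ℝ) - v j - z * (if j = i then -1 else (M j : ℝ)))
        (w := fun j => if j = i then -1 else (M j : ℝ)) hind (i := i) (by simp)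
      have hsumw : ∀ γ : Wt, dE M γ = γ i →
          ∑ j, (if j = i then (-1:ℝ) else (M j : ℝ)) * γ j = 0 := by
        intro γ hγ
        have e : ∀ j, (if j = i then (-1:ℝ) else (M j : ℝ)) * γ j
            = (M j : ℝ) * γ j - (if j = i then γ j else 0) := by
          intro j
          by_cases hj : j = i
          · subst hj; simp [hM]
          · simp [hj]
        simp_rw [e]
        rw [Finset.sum_sub_distrib]
        simp only [Finset.sum_ite_eq', Finset.mem_univ, if_true]
        unfold dE at hγ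
        rw [hγ]; ring
      have hsumu : ∀ γ : Wt, dE M γ = γ i → dt P γ = dt v γ →
          ∑ j, ((P j : ℝ) - v j - z * (if j = i then -1 else (M j : ℝ))) * γ j = 0 := by
        intro γ hγ hPv
        have e : ∀ j, ((P j : ℝ) - v j - z * (if j = i then -1 else (M j : ℝ))) * γ j
            = (P j : ℝ) * γ j - v j * γ j
              - z * ((if j = i then (-1:ℝ) else (M j : ℝ)) * γ j) := fun j => by ring
        simp_rw [e]
        rw [Finset.sum_sub_distrib, Finset.sum_sub_distrib, ← Finset.mul_sum, hsumw γ hγ]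
        unfold dt at hPv
        rw [hPv]; ring
      have := key (hsumu α hMα (by rw [hPα, hvα])) (hsumu β hMβ (by rw [hPβ, hvβ]))
        (hsumw α hMα) (hsumw β hMβ) (by
          simp only [if_true]
          have : (v i : ℝ) = P i + z := by exact_mod_cast hz
          rw [this]; ring)
      intro j hj
      have := congrFun this j
      simp only [hj, if_false, Pi.zero_apply] at this
      have : (P j : ℝ) = v j + z * M j := by linarith
      exact_mod_cast this
    have hvF : v ∈ supp F := (hmem v).2 ⟨hv, hvα, hvβ⟩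
    obtain ⟨P, hP, P', hP', hle⟩ := KI hFL hM hc hvF hline hl hMl
    obtain ⟨hPD, hPα, hPβ⟩ := (hmem P).1 hP
    refine ⟨P, hPD, hPα, hPβ, P', ?_⟩
    have e1 : lead α s (conj g D) = conj g (lead α s D) := lead_conj_El_eq hM hMα hs
    have e2 : lead β t (conj g (lead α s D)) = conj g F := lead_conj_El_eq hM hMβ hLt
    rw [← hg, ← e2, ← e1, mem_supp_lead, mem_supp_lead] at hP'
    exact ⟨hP'.1.1, hP'.1.2, hP'.2, hle⟩
  have att : ∀ S : Finset (Fin 3 → ℕ), Th S ≤ θ → ∃ ν ∈ stdSimplex ℝ (Fin 3), Le S ν θ := by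
    intro S hS
    obtain ⟨ν, hν, hl⟩ := Th_attained S
    exact ⟨ν, hν, fun P hP => (hl P hP).trans hS⟩
  obtain ⟨α, hα, hMα, hl⟩ := wall_comb (supp_nonempty h0) hM H1 H2 (att _ h1) (att _ h2)
  exact ⟨α, hα, hMα, hl, (H1 α hα.1 hMα θ).1 hl⟩

end Pool.Agent.TL
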