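import Pool.Agent.TL.ED
import Pool.Agent.TL.GR
import Pool.Agent.TL.TH

set_option autoImplicit false

/-! # PS: the plane step (used for weights with two zeros and for Rentschler's theorem)

`D` locally nilpotent, `{x, y, z}` the indices, all points have `P x = t ≥ 1` (so `D x_x = 0`), `D x_y ≠ 0`,
`D x_z ≠ 0`. Put `p = max P y`, `q = max P z`. Then there are `{i, j} = {y, z}`, `n ≥ 1`, `κ` such that
`D' = conj (El i (n e_j) κ) D` has again all `P x = t`, its maxima satisfy `p' ≤ p`, `q' ≤ q`, not both equal, and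
with the weight `β = (0 at x, q at y, p at z)` we have `n β j = β i` and all points of `D`, `D'` have
`dt P β ≤ p q`; moreover if `D` is open at `θ`, `0 < θ ≤ t`, then `β` is a witness for `D` and `D'`.
Proof. `p, q ≥ 1`. For every `β₀ = (0, u, v)`, `u, v > 0`, the maximal face of `D` has a vertex which is a root
(`root_of_max`, for instance with `β₀` perturbed), with a zero at `y` or `z` (`P x ≥ 1`): its value is at most
`max (p u, q v)`; so all points satisfy `q P y + p P z ≤ p q` (take `u = q`, `v = p`) and, for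
`u / v` large or small, `(t, p, 0)` and `(t, 0, q)` are points of `supp D`. `edge` for `lead β (p q) D` with the
weights `e_x` and `β` : type 1 is impossible (`(t,p,0)`, `(t,0,q)`, `t ≥ 1`), type 3 is impossible (the weight
relations for `e_x` and `β` and the points: `P c = E + i r` is not constant, `P a`, `P b` are not constant either, so no
coordinate is constant on the edge, but `P x = t`); type 2: `dE M e_x = e_x i`; `i ≠ x` since
`D x_x = 0`; so `M x = 0`, `M = n e_j`. After `g = El i M (-κ)` the face at `β` is killed by `x_i` and `x_c`, so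
all its points vanish at `j`: `c = x`; so on the face `P' j = 0`, it is the single point with `P' i β i = p q`, and
the maximum of `P' j` is smaller than before: `P' j β j ≤ p q` with equality only if `P' i = 0` and the point is on the
face. Witness: `D` open gives `u, v ≥ 0` (and some weight at `x`, `θ ≤ t`) with
`p u < θ (u + v)`, `q v < θ (u + v)`; so `p q (u + v) = q (p u) + p (q v) < θ (u + v) (p + q)` (if `u = 0` or
`v = 0` check directly), i.e. `p q < θ (p + q) = θ sm β`. -/

namespace Pool.Agent.TL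

open MvPolynomial

variable {k : Type} [Field k] [CharZero k]

/-- some maximiser of `u P_y + v P_z`, `v > 0`, has a zero at `y` or `z` -/
theorem PSAux.vertex {D : Der k} (hD : IsLND D) {x y z : Fin 3} (hxy : x ≠ y) (hxz : x ≠ z)
    (hyz : y ≠ z) {t : ℕ} (ht : 1 ≤ t) (hx : ∀ P ∈ supp D, P x = t) (hne : (supp D).Nonempty)
    {β : Wt} (hβx : β x = 0) (hβz : 0 < β z) :
    ∃ P ∈ supp D, (P y = 0 ∨ P z = 0) ∧ ∀ Q ∈ supp D, dt Q β ≤ dt P β := by
  classical
  have hdt : ∀ (P : Fin 3 → ℕ) (γ : Wt), dt P γ = P x * γ x + P y * γ y + P z * γ z := by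
    intro P γ
    exact sum3 hxy hxz hyz (fun i => (P i : ℝ) * γ i)
  obtain ⟨q, hq, hmax⟩ := (supp D).exists_max_image (fun P => dt P β) hne
  have hLe : Le (supp D) β (dt q β) := fun Q hQ => hmax Q hQ
  set D' := lead β (dt q β) D with hD'
  have hD'L : IsLND D' := hD.lead hLe
  have hq' : q ∈ supp D' := mem_supp_lead.mpr ⟨hq, rfl⟩
  obtain ⟨P, hP, hPmax⟩ := (supp D').exists_max_image (fun P => P y) ⟨q, hq'⟩
  have hPm := mem_supp_lead.mp hP
  have hroot : ∃ i, P i = 0 := by
    refine root_of_max hD'L (fun j => if j = y then 1 else 0) hP ?_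
    intro Q hQ hQP
    have hQm := mem_supp_lead.mp hQ
    have h1 : Q y ≤ P y := hPmax Q hQ
    have h2 : Q y ≠ P y := by
      intro hcon
      apply hQP
      have e1 : dt Q β = dt P β := by rw [hQm.2, hPm.2]
      rw [hdt, hdt, hβx, hcon] at e1
      have e2 : (Q z : ℝ) = P z := by
        have : ((Q z : ℝ) - P z) * β z = 0 := by linarith
        rcases mul_eq_zero.mp this with h | h
        · linarith
        · exact absurd h hβz.ne'
      funext j
      rcases eq_of_ne hxy hxz hyz j with rfl | rfl | rfl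
      · rw [hx Q hQm.1, hx P hPm.1]
      · exact hcon
      · exact_mod_cast e2
    have h3 : Q y < P y := lt_of_le_of_ne h1 h2
    rw [hdt, hdt]
    simp only [hxy, if_false, mul_zero, if_true, mul_one, hyz.symm]
    have : (Q y : ℝ) < P y := by exact_mod_cast h3
    linarith
  refine ⟨P, hPm.1, ?_, fun Q hQ => by rw [hPm.2]; exact hLe Q hQ⟩
  obtain ⟨i, hi⟩ := hroot
  rcases eq_of_ne hxy hxz hyz i with rfl | rfl | rfl
  · rw [hx P hPm.1] at hi; omega
  · exact Or.inl hi
  · exact Or.inr hi

theorem plane_step {D : Der k} (hD : IsLND D) {x y z : Fin 3} (hxy : x ≠ y) (hxz : x ≠ z)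
    (hyz : y ≠ z) {t : ℕ} (ht : 1 ≤ t) (hx : ∀ P ∈ supp D, P x = t) (hy : D (X y) ≠ 0)
    (hz : D (X z) ≠ 0) {p q : ℕ} (hp : ∀ P ∈ supp D, P y ≤ p) (hq : ∀ P ∈ supp D, P z ≤ q)
    (hp' : ∃ P ∈ supp D, P y = p) (hq' : ∃ P ∈ supp D, P z = q) :
    ∃ (i j : Fin 3) (n : ℕ) (κ : k) (hM : (Finsupp.single j n) i = 0) (β : Wt),
      1 ≤ n ∧ i ≠ x ∧ j ≠ x ∧ i ≠ j ∧ (∀ l, 0 ≤ β l) ∧ (n : ℝ) * β j = β i ∧
      (∀ P ∈ supp (conj (El i (Finsupp.single j n) κ hM) D), P x = t ∧ P y ≤ p ∧ P z ≤ q) ∧
      ((∀ P ∈ supp (conj (El i (Finsupp.single j n) κ hM) D), P y < p) ∨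
        ∀ P ∈ supp (conj (El i (Finsupp.single j n) κ hM) D), P z < q) ∧
      ∀ θ : ℝ, 0 < θ → θ ≤ t → Op (supp D) θ →
        (∀ P ∈ supp D, dt P β < θ * sm β) ∧
        ∀ P ∈ supp (conj (El i (Finsupp.single j n) κ hM) D), dt P β < θ * sm β := by
  classical
  have hdt : ∀ (P : Fin 3 → ℕ) (γ : Wt), dt P γ = P x * γ x + P y * γ y + P z * γ z := by
    intro P γ
    exact sum3 hxy hxz hyz (fun i => (P i : ℝ) * γ i)
  have hdE : ∀ (P : Fin 3 →₀ ℕ) (γ : Wt), dE P γ = P x * γ x + P y * γ y + P z * γ z := by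
    intro P γ
    exact sum3 hxy hxz hyz (fun i => (P i : ℝ) * γ i)
  have hsm : ∀ (γ : Wt), sm γ = γ x + γ y + γ z := by
    intro γ
    exact sum3 hxy hxz hyz (fun i => γ i)
  obtain ⟨Ry, hRy, hRy0⟩ := (DX_ne_zero_iff hD y).mp hy
  obtain ⟨Rz, hRz, hRz0⟩ := (DX_ne_zero_iff hD z).mp hz
  have hq1 : 1 ≤ q := by
    have h1 : Ry z ≠ 0 := fun h => hyz (supp_zero_unique hRy hRy0 h)
    have h2 := hq Ry hRy
    omega
  have hp1 : 1 ≤ p := by
    have h1 : Rz y ≠ 0 := fun h => hyz (supp_zero_unique hRz h hRz0)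
    have h2 := hp Rz hRz
    omega
  have hp1' : (1 : ℝ) ≤ p := by exact_mod_cast hp1
  have hq1' : (1 : ℝ) ≤ q := by exact_mod_cast hq1
  set β : Wt := fun j => if j = x then 0 else if j = y then (q : ℝ) else (p : ℝ) with hβ
  have βx : β x = 0 := by simp [hβ]
  have βy : β y = q := by simp [hβ, hxy.symm]
  have βz : β z = p := by simp [hβ, hxz.symm, hyz.symm]
  have hβ0 : ∀ l, 0 ≤ β l := by
    intro l
    simp only [hβ]
    split_ifs <;> linarith
  have hdtβ : ∀ P : Fin 3 → ℕ, dt P β = q * P y + p * P z := by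
    intro P
    rw [hdt, βx, βy, βz]; ring
  have hLe : Le (supp D) β (p * q) := by
    obtain ⟨P, hP, h0, hmax⟩ := PSAux.vertex hD hxy hxz hyz ht hx ⟨Ry, hRy⟩ βx
      (by rw [βz]; linarith)
    intro Q hQ
    refine (hmax Q hQ).trans ?_
    rw [hdtβ]
    rcases h0 with h0 | h0
    · have h1 : (P z : ℝ) ≤ q := by exact_mod_cast hq P hP
      rw [h0]
      push_cast
      nlinarith
    · have h1 : (P y : ℝ) ≤ p := by exact_mod_cast hp P hP
      rw [h0]
      push_cast
      nlinarith
  obtain ⟨P1, hP1, hP1y⟩ := hp'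
  obtain ⟨P2, hP2, hP2z⟩ := hq'
  have hP1z : P1 z = 0 := by
    have h1 := hLe P1 hP1
    rw [hdtβ, hP1y] at h1
    have h2 : (p : ℝ) * P1 z ≤ 0 := by linarith
    have h3 : (P1 z : ℝ) ≤ 0 := by
      by_contra hcon
      push Not at hcon
      nlinarith
    have : (0 : ℝ) ≤ P1 z := by positivity
    have : (P1 z : ℝ) = 0 := le_antisymm h3 this
    exact_mod_cast this
  have hP2y : P2 y = 0 := by
    have h1 := hLe P2 hP2
    rw [hdtβ, hP2z] at h1
    have h2 : (q : ℝ) * P2 y ≤ 0 := by linarith
    have h3 : (P2 y : ℝ) ≤ 0 := by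
      by_contra hcon
      push Not at hcon
      nlinarith
    have : (0 : ℝ) ≤ P2 y := by positivity
    have : (P2 y : ℝ) = 0 := le_antisymm h3 this
    exact_mod_cast this
  have hd1 : dt P1 β = p * q := by rw [hdtβ, hP1y, hP1z]; push_cast; ring
  have hd2 : dt P2 β = p * q := by rw [hdtβ, hP2y, hP2z]; push_cast; ring
  have hP12 : P1 ≠ P2 := by
    intro h
    rw [h, hP2y] at hP1y
    omega
  set D0 := lead β (p * q) D with hD0
  have hD0L : IsLND D0 := hD.lead hLe
  have hP1' : P1 ∈ supp D0 := mem_supp_lead.mpr ⟨hP1, hd1⟩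
  have hP2' : P2 ∈ supp D0 := mem_supp_lead.mpr ⟨hP2, hd2⟩
  set ε : Wt := fun j => if j = x then 1 else 0 with hε
  have εx : ε x = 1 := by simp [hε]
  have εy : ε y = 0 := by simp [hε, hxy.symm]
  have εz : ε z = 0 := by simp [hε, hxz.symm]
  have hdtε : ∀ P : Fin 3 → ℕ, dt P ε = P x := by
    intro P
    rw [hdt, εx, εy, εz]; ring
  have hα1 : ∀ P ∈ supp D, dt P ε = t := by
    intro P hP
    rw [hdtε, hx P hP]
  have hind : LinearIndependent ℝ ![ε, β] := by
    rw [LinearIndependent.pair_iff]
    intro s r h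
    have h1 := congrFun h x
    have h2 := congrFun h y
    simp only [Pi.add_apply, Pi.smul_apply, smul_eq_mul, Pi.zero_apply, εx, βx, εy, βy] at h1 h2
    have h3 : r * (q : ℝ) = 0 := by linarith
    have h4 : r = 0 := by
      rcases mul_eq_zero.mp h3 with h | h
      · exact h
      · exfalso; linarith
    exact ⟨by linarith, h4⟩
  have hx1 : P1 x = t := hx P1 hP1
  have hx2 : P2 x = t := hx P2 hP2
  rcases edge hD0L (fun P hP => hα1 P (mem_supp_lead.mp hP).1)
    (fun P hP => (mem_supp_lead.mp hP).2) hind ⟨P1, hP1', P2, hP2', hP12⟩ with h | h | h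
  · exfalso
    obtain ⟨a, ha⟩ := h
    have h1 := ha P1 hP1'
    have h2 := ha P2 hP2'
    rcases eq_of_ne hxy hxz hyz a with rfl | rfl | rfl <;> omega
  · obtain ⟨i, M, κ, c, hMi, hM0, hci, hκ, hDc, hDi, hDM, hMε, hMβ⟩ := h
    have hix : i ≠ x := by
      rintro rfl
      obtain ⟨P, hP, hP0⟩ := (DX_ne_zero_iff hD0L i).mp hDi
      have := hx P (mem_supp_lead.mp hP).1
      omega
    have hMx : M x = 0 := by
      have h1 : dE M ε = M x := by rw [hdE, εx, εy, εz]; ring
      have h2 : ε i = 0 := by simp [hε, hix]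
      rw [h1, h2] at hMε
      exact_mod_cast hMε
    have hDy : D0 (X y) ≠ 0 := (DX_ne_zero_iff hD0L y).mpr ⟨P2, hP2', hP2y⟩
    have hDz : D0 (X z) ≠ 0 := (DX_ne_zero_iff hD0L z).mpr ⟨P1, hP1', hP1z⟩
    have hcx : c = x := by
      rcases eq_of_ne hxy hxz hyz c with rfl | rfl | rfl
      · rfl
      · exact absurd hDc hDy
      · exact absurd hDc hDz
    rw [hcx] at hDc
    obtain ⟨j, hjx, hji, hjy⟩ : ∃ j, j ≠ x ∧ j ≠ i ∧ (j = y ∨ j = z) := by
      rcases eq_of_ne hxy hxz hyz i with rfl | rfl | rfl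
      · exact absurd rfl hix
      · exact ⟨z, hxz.symm, hyz.symm, Or.inr rfl⟩
      · exact ⟨y, hxy.symm, hyz, Or.inl rfl⟩
    have hMs : M = Finsupp.single j (M j) := by
      ext l
      rcases eq_of_ne hix.symm hjx.symm hji.symm l with rfl | rfl | rfl
      · rw [hMx, Finsupp.single_eq_of_ne hjx.symm]
      · rw [hMi, Finsupp.single_eq_of_ne hji.symm]
      · rw [Finsupp.single_eq_same]
    set n := M j with hn
    have hn1 : 1 ≤ n := by
      rcases Nat.eq_zero_or_pos n with h | h
      · exfalso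
        apply hM0
        rw [hMs, h, Finsupp.single_zero]
      · exact h
    rw [hMs] at hMi hMβ hMε hDM
    clear_value n
    clear hMs
    have hMβ' := hMβ
    rw [dE_single] at hMβ'
    set g := El i (Finsupp.single j n) (-κ) hMi with hg
    have hPres : Pres g β β := Pres_El hMi (le_of_eq hMβ)
    have hlead : lead β (p * q) (conj g D) = conj g D0 := lead_conj_El_eq hMi hMβ hLe
    have hL' : Le (supp (conj g D)) β (p * q) := (Le_conj hPres rfl D _).mpr hLe
    have hgi : g (X i) = X i - monomial (Finsupp.single j n) κ := by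
      rw [hg, El_apply_self, map_neg, sub_eq_add_neg]
    have hgx : g (X x) = X x := El_apply_ne _ _ _ hix.symm
    have hzero : ∀ P ∈ supp (conj g D), dt P β = p * q → P j = 0 := by
      intro P hP hPt
      refine (all_zero_iff (hD0L.conj g) j).mp ?_ P (by rw [← hlead]; exact mem_supp_lead.mpr ⟨hP, hPt⟩)
      intro l hl
      rcases eq_of_ne hix.symm hjx.symm hji.symm l with rfl | rfl | rfl
      · rw [conj_apply, hgx, hDc, map_zero]
      · rw [conj_apply, hgi, hDM, map_zero]
      · exact absurd rfl hl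
    have hx' : ∀ P ∈ supp (conj g D), P x = t := by
      intro P hP
      have h1 := dt_conj_El_eq hMi hMε hα1 P hP
      rw [hdtε] at h1
      exact_mod_cast h1
    have hpq : ∀ P ∈ supp (conj g D), P y ≤ p ∧ P z ≤ q := by
      intro P hP
      have h1 := hL' P hP
      rw [hdtβ] at h1
      have h2 : (0 : ℝ) ≤ P y := by positivity
      have h3 : (0 : ℝ) ≤ P z := by positivity
      constructor
      · have : (P y : ℝ) ≤ p := by
          by_contra hcon
          push Not at hcon
          nlinarith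
        exact_mod_cast this
      · have : (P z : ℝ) ≤ q := by
          by_contra hcon
          push Not at hcon
          nlinarith
        exact_mod_cast this
    refine ⟨i, j, n, -κ, hMi, β, hn1, hix, hjx, hji.symm, hβ0, hMβ', ?_, ?_, ?_⟩
    · intro P hP
      exact ⟨hx' P hP, hpq P hP⟩
    · rcases hjy with rfl | rfl
      · left
        intro P hP
        refine lt_of_le_of_ne (hpq P hP).1 ?_
        intro hcon
        have h1 := hL' P hP
        rw [hdtβ, hcon] at h1
        have h3 : (0 : ℝ) ≤ P z := by positivity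
        have h4 : (P z : ℝ) = 0 := by
          apply le_antisymm _ h3
          by_contra hcon
          push Not at hcon
          nlinarith
        have := hzero P hP (by rw [hdtβ, hcon, h4]; ring)
        omega
      · right
        intro P hP
        refine lt_of_le_of_ne (hpq P hP).2 ?_
        intro hcon
        have h1 := hL' P hP
        rw [hdtβ, hcon] at h1
        have h3 : (0 : ℝ) ≤ P y := by positivity
        have h4 : (P y : ℝ) = 0 := by
          apply le_antisymm _ h3
          by_contra hcon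
          push Not at hcon
          nlinarith
        have := hzero P hP (by rw [hdtβ, hcon, h4]; ring)
        omega
    · intro θ hθ hθt hOp
      obtain ⟨α, hα0, hw⟩ := hOp
      have w1 := hw P1 hP1
      have w2 := hw P2 hP2
      rw [hdt, hsm, hx1, hP1y, hP1z] at w1
      rw [hdt, hsm, hx2, hP2y, hP2z] at w2
      push_cast at w1 w2
      have a1 : θ * α x ≤ t * α x := mul_le_mul_of_nonneg_right hθt (hα0 x)
      have b1 : (p : ℝ) * α y < θ * (α y + α z) := by linarith
      have b2 : (q : ℝ) * α z < θ * (α y + α z) := by linarith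
      have hy0 := hα0 y
      have hz0 := hα0 z
      have hs0 : 0 < α y + α z := by
        by_contra hcon
        push Not at hcon
        have c1 : α y = 0 := by linarith
        have c2 : α z = 0 := by linarith
        rw [c1, c2] at b1
        simp at b1
      have key : (p : ℝ) * q * (α y + α z) < θ * (p + q) * (α y + α z) := by nlinarith
      have key2 : (p : ℝ) * q < θ * sm β := by
        have := lt_of_mul_lt_mul_right key hs0.le
        rw [hsm, βx, βy, βz]
        linarith
      exact ⟨fun P hP => lt_of_le_of_lt (hLe P hP) key2, fun P hP => lt_of_le_of_lt (hL' P hP) key2⟩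
  · exfalso
    obtain ⟨a, b, c, i, m, N, E, hab, hac, hbc, hm, hi, hN, hE, _, _, _, ⟨Q, hQ, q1, q2, q3⟩,
      ⟨R, hR, r1, r2, r3⟩⟩ := h
    have e1 := hx Q (mem_supp_lead.mp hQ).1
    have e2 := hx R (mem_supp_lead.mp hR).1
    rcases eq_of_ne hab hac hbc x with rfl | rfl | rfl
    · omega
    · omega
    · rw [e1] at q3
      rw [e2, ← q3] at r3
      have : 1 ≤ i * N := Nat.one_le_iff_ne_zero.mpr (by positivity)
      omega

end Pool.Agent.TL
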