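import Pool.Agent.TL.LC1
import Pool.Agent.TL.PS

set_option autoImplicit false

/-! # LC1b: reaching a final form (weights with two zeros)

`α y = α z = 0 < α x`. On the face all points have `P x = θ` (so `θ` is a positive integer `t`).
Strong induction on `max P y + max P z` over the face `D̄ = lead α (θ|α|) D`. If `D̄ x_y = 0` then (as
`D̄ x_x = 0` too) all points of `D̄` vanish at `z` (`all_zero_iff`): final. Same for `z`. Otherwise `plane_step` for
`D̄`, `g₁ = El i (n e_j) κ`, `dE (n e_j) α = 0 = α i`: `lead α (θ|α|) (conj g₁ D) = conj g₁ D̄`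
(`lead_conj_El_eq`), open by `Op_face`. -/

namespace Pool.Agent.TL

open MvPolynomial

variable {k : Type} [Field k] [CharZero k]

theorem LC1b {D : Der k} (hD : IsLND D) {α : Wt} (hα0 : ∀ j, 0 ≤ α j) {x y z : Fin 3}
    (hxy : x ≠ y) (hxz : x ≠ z) (hyz : y ≠ z) (hx : 0 < α x) (hy : α y = 0) (hz : α z = 0)
    {θ : ℝ} (hθ : 0 < θ) (hLe : Le (supp D) α (θ * sm α))
    (hne : ∃ P ∈ supp D, dt P α = θ * sm α) (hOp : Op (supp D) θ) :
    ∃ g : Au k, Pres g α α ∧ RT D θ 1 g ∧ Fin' (supp (lead α (θ * sm α) (conj g D))) α := by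
  have hsm : sm α = α x := by
    unfold sm
    rw [sum3 hxy hxz hyz, hy, hz, add_zero, add_zero]
  have hdt : ∀ P : Fin 3 → ℕ, dt P α = (P x : ℝ) * α x := fun P => by
    unfold dt
    rw [sum3 hxy hxz hyz (fun i => (P i : ℝ) * α i), hy, hz, mul_zero, mul_zero, add_zero,
      add_zero]
  have hPx : ∀ P : Fin 3 → ℕ, dt P α = θ * sm α ↔ (P x : ℝ) = θ := fun P => by
    rw [hdt, hsm, mul_left_inj' hx.ne']
  obtain ⟨t, ht⟩ : ∃ t : ℕ, (t : ℝ) = θ := by
    obtain ⟨P, -, hP⟩ := hne
    exact ⟨P x, (hPx P).1 hP⟩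
  have ht1 : 1 ≤ t := by
    rw [Nat.one_le_iff_ne_zero]
    rintro rfl
    rw [Nat.cast_zero] at ht
    exact absurd ht hθ.ne
  generalize hn : (supp (lead α (θ * sm α) D)).sup (fun P => P y) +
    (supp (lead α (θ * sm α) D)).sup (fun P => P z) = n
  induction n using Nat.strong_induction_on generalizing D with
  | _ n ih =>
    have hDb : IsLND (lead α (θ * sm α) D) := hD.lead hLe
    have hDb0 : lead α (θ * sm α) D ≠ 0 := lead_ne_zero hne
    have hxt : ∀ P ∈ supp (lead α (θ * sm α) D), P x = t := fun P hP => by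
      have h1 := (hPx P).1 (mem_supp_lead.1 hP).2
      rw [← ht] at h1
      exact_mod_cast h1
    have hOpb : Op (supp (lead α (θ * sm α) D)) θ := (LC1Aux.Op_lead hα0 hLe).1 hOp
    have hX : lead α (θ * sm α) D (X x) = 0 := by
      by_contra h
      obtain ⟨P, hP, hP0⟩ := (DX_ne_zero_iff hDb x).1 h
      rw [hxt P hP] at hP0
      omega
    by_cases hY : lead α (θ * sm α) D (X y) = 0
    · refine ⟨1, Pres.one α, Relation.ReflTransGen.refl, Or.inl ⟨z, ?_⟩⟩
      rw [conj_one]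
      refine (all_zero_iff hDb z).1 fun j hj => ?_
      rcases eq_of_ne hxy hxz hyz j with rfl | rfl | rfl
      · exact hX
      · exact hY
      · exact absurd rfl hj
    by_cases hZ : lead α (θ * sm α) D (X z) = 0
    · refine ⟨1, Pres.one α, Relation.ReflTransGen.refl, Or.inl ⟨y, ?_⟩⟩
      rw [conj_one]
      refine (all_zero_iff hDb y).1 fun j hj => ?_
      rcases eq_of_ne hxy hxz hyz j with rfl | rfl | rfl
      · exact hX
      · exact absurd rfl hj
      · exact hZ
    have hne0 := supp_nonempty hDb0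
    have hp' : ∃ P ∈ supp (lead α (θ * sm α) D),
        P y = (supp (lead α (θ * sm α) D)).sup (fun P => P y) := by
      obtain ⟨P, hP, h⟩ := Finset.exists_mem_eq_sup _ hne0 (fun P : Fin 3 → ℕ => P y)
      exact ⟨P, hP, h.symm⟩
    have hq' : ∃ P ∈ supp (lead α (θ * sm α) D),
        P z = (supp (lead α (θ * sm α) D)).sup (fun P => P z) := by
      obtain ⟨P, hP, h⟩ := Finset.exists_mem_eq_sup _ hne0 (fun P : Fin 3 → ℕ => P z)
      exact ⟨P, hP, h.symm⟩
    obtain ⟨i, j, m, κ, hM, β, hm, hix, hjx, hij, hβ0, hβ, hbd, hlt, hwit⟩ :=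
      plane_step hDb hxy hxz hyz ht1 hxt hY hZ
        (fun P hP => Finset.le_sup (f := fun P : Fin 3 → ℕ => P y) hP)
        (fun P hP => Finset.le_sup (f := fun P : Fin 3 → ℕ => P z) hP) hp' hq'
    have hzero : ∀ l, l ≠ x → α l = 0 := fun l hl => by
      rcases eq_of_ne hxy hxz hyz l with rfl | rfl | rfl
      · exact absurd rfl hl
      · exact hy
      · exact hz
    have hMα : dE (Finsupp.single j m) α = α i := by
      rw [dE_single, hzero j hjx, hzero i hix, mul_zero]
    refine LC1Aux.step hα0 hLe hne hOp hM hMα ⟨β, hβ0, (hwit θ hθ ht.ge hOpb).2⟩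
      fun hLe1 hne1 hOp1 => ?_
    refine ih _ ?_ (hD.conj _) hLe1 hne1 hOp1 rfl
    rw [← hn, lead_conj_El_eq hM hMα hLe]
    have hne2 := supp_nonempty (conj_ne_zero hDb0 (El i (Finsupp.single j m) κ hM))
    obtain ⟨P, hP, hP'⟩ := Finset.exists_mem_eq_sup _ hne2 (fun P : Fin 3 → ℕ => P y)
    obtain ⟨Q, hQ, hQ'⟩ := Finset.exists_mem_eq_sup _ hne2 (fun P : Fin 3 → ℕ => P z)
    rw [hP', hQ']
    have h1 := (hbd P hP).2.1
    have h2 := (hbd Q hQ).2.2
    rcases hlt with h3 | h3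
    · have h4 := h3 P hP
      omega
    · have h4 := h3 Q hQ
      omega

end Pool.Agent.TL
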