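import Pool.Agent.TL.WPR
import Pool.Agent.TL.LC1b
import Pool.Agent.TL.F11
import Pool.Agent.TL.F22

set_option autoImplicit false

/-! # LC: local connectedness -/

namespace Pool.Agent.TL

open MvPolynomial

variable {k : Type} [Field k] [CharZero k]

namespace LCAux

theorem avoid (x y : ℝ) : ∃ e : ℝ, 0 < e ∧ ∀ ε : ℝ, 0 < ε → ε < e → x + ε ≠ y := by
  by_cases h : y ≤ x
  · exact ⟨1, one_pos, fun ε h1 _ => by linarith⟩
  · push Not at h
    exact ⟨y - x, by linarith, fun ε h1 h2 => by linarith⟩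

theorem dE_single_w (m : Fin 3 →₀ ℕ) (a : Fin 3) :
    dE m (fun j => if j = a then 1 else 0) = m a := by
  unfold dE
  simp

theorem dt_single_w (P : Fin 3 → ℕ) (a : Fin 3) :
    dt P (fun j => if j = a then 1 else 0) = P a := by
  unfold dt
  simp

theorem sm_single_w (a : Fin 3) : sm (fun j => if j = a then 1 else 0) = 1 := by
  unfold sm
  simp

theorem dt_delta (P : Fin 3 → ℕ) {a c : Fin 3} (hac : a ≠ c) :
    dt P (fun l => if l = a then 1 else if l = c then -1 else 0) = P a - P c := by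
  obtain ⟨b, hb1, hb2⟩ := exists_third a c
  unfold dt
  rw [sum3 (Ne.symm hb1) hac (hb2)]
  simp [hb1, hb2, Ne.symm hac]
  ring

theorem sm_delta {a c : Fin 3} (hac : a ≠ c) :
    sm (fun l => if l = a then 1 else if l = c then -1 else 0) = 0 := by
  obtain ⟨b, hb1, hb2⟩ := exists_third a c
  unfold sm
  rw [sum3 (Ne.symm hb1) hac (hb2)]
  simp [hb1, hb2, Ne.symm hac]

/-- goodness after the first perturbation -/
theorem good1 {α : Wt} (h0 : ∀ i, 0 ≤ α i) {a p q : Fin 3} (hap : a ≠ p) (haq : a ≠ q)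
    (hpq : p ≠ q) (hz : ¬ (α p = 0 ∧ α q = 0)) :
    ∃ e : ℝ, 0 < e ∧ ∀ ε : ℝ, 0 < ε → ε < e →
      Good (fun j => α j + ε * (if j = a then 1 else 0)) := by
  obtain ⟨e1, he1, H1⟩ := avoid (α a) (α p)
  obtain ⟨e2, he2, H2⟩ := avoid (α a) (α q)
  refine ⟨min e1 e2, lt_min he1 he2, fun ε hε hlt => ?_⟩
  have h1 := H1 ε hε (lt_of_lt_of_le hlt (min_le_left _ _))
  have h2 := H2 ε hε (lt_of_lt_of_le hlt (min_le_right _ _))
  have va : (fun j => α j + ε * (if j = a then (1:ℝ) else 0)) a = α a + ε := by simp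
  have vp : (fun j => α j + ε * (if j = a then (1:ℝ) else 0)) p = α p := by simp [Ne.symm hap]
  have vq : (fun j => α j + ε * (if j = a then (1:ℝ) else 0)) q = α q := by simp [Ne.symm haq]
  constructor
  · intro i
    have := h0 i
    by_cases hi : i = a
    · simp only [hi, if_true]; have := h0 a; linarith
    · simp only [hi, if_false]; linarith
  · by_cases heq : α p = α q
    · right
      have hpos : 0 < α p := by
        rcases lt_or_eq_of_le (h0 p) with h | h
        · exact h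
        · exact absurd ⟨h.symm, by rw [← heq]; exact h.symm⟩ hz
      refine ⟨a, by rw [va]; have := h0 a; linarith, fun i j hi hj => ?_⟩
      have key : ∀ i, i ≠ a → (fun j => α j + ε * (if j = a then (1:ℝ) else 0)) i = α p := by
        intro i hi
        rcases eq_of_ne hap haq hpq i with rfl | rfl | rfl
        · exact absurd rfl hi
        · exact vp
        · rw [vq, heq]
      rw [key i hi, key j hj, va]
      exact ⟨rfl, hpos, fun h => h1 h.symm⟩
    · left
      intro i j hij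
      rcases eq_of_ne hap haq hpq i with rfl | rfl | rfl <;>
        rcases eq_of_ne hap haq hpq j with rfl | rfl | rfl
      · rfl
      · rw [va, vp] at hij; exact absurd hij h1
      · rw [va, vq] at hij; exact absurd hij h2
      · rw [va, vp] at hij; exact absurd hij.symm h1
      · rfl
      · rw [vp, vq] at hij; exact absurd hij heq
      · rw [va, vq] at hij; exact absurd hij.symm h2
      · rw [vp, vq] at hij; exact absurd hij.symm heq
      · rfl

/-- goodness after the second perturbation -/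
theorem good2 {α : Wt} (h0 : ∀ i, 0 ≤ α i) {a b c : Fin 3} (hab : a ≠ b) (hac : a ≠ c)
    (hbc : b ≠ c) (hc : 0 < α c) :
    ∃ e : ℝ, 0 < e ∧ ∀ ε : ℝ, 0 < ε → ε < e →
      Good (fun j => α j + ε * (if j = a then 1 else if j = c then -1 else 0)) := by
  obtain ⟨e1, he1, H1⟩ := avoid (α a) (α b)
  obtain ⟨e2, he2, H2⟩ := avoid (α b) (α c)
  obtain ⟨e3, he3, H3⟩ := avoid (α a) (α c)
  refine ⟨min (min e1 e2) (min (e3 / 2) (α c)), by positivity, fun ε hε hlt => ?_⟩
  have l1 : ε < e1 := lt_of_lt_of_le hlt (le_trans (min_le_left _ _) (min_le_left _ _))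
  have l2 : ε < e2 := lt_of_lt_of_le hlt (le_trans (min_le_left _ _) (min_le_right _ _))
  have l3 : ε < e3 / 2 := lt_of_lt_of_le hlt (le_trans (min_le_right _ _) (min_le_left _ _))
  have l4 : ε < α c := lt_of_lt_of_le hlt (le_trans (min_le_right _ _) (min_le_right _ _))
  have h1 := H1 ε hε l1
  have h2 := H2 ε hε l2
  have h3 := H3 (2 * ε) (by linarith) (by linarith)
  have va : (fun j => α j + ε * (if j = a then (1:ℝ) else if j = c then -1 else 0)) a
      = α a + ε := by simp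
  have vb : (fun j => α j + ε * (if j = a then (1:ℝ) else if j = c then -1 else 0)) b
      = α b := by simp [Ne.symm hab, hbc]
  have vc : (fun j => α j + ε * (if j = a then (1:ℝ) else if j = c then -1 else 0)) c
      = α c - ε := by simp [Ne.symm hac]; ring
  constructor
  · intro i
    rcases eq_of_ne hab hac hbc i with rfl | rfl | rfl
    · rw [va]; have := h0 i; linarith
    · rw [vb]; exact h0 _
    · rw [vc]; linarith
  · left
    intro i j hij
    rcases eq_of_ne hab hac hbc i with rfl | rfl | rfl <;>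
      rcases eq_of_ne hab hac hbc j with rfl | rfl | rfl
    · rfl
    · rw [va, vb] at hij; exact absurd hij h1
    · rw [va, vc] at hij; exact absurd (by linarith) h3
    · rw [va, vb] at hij; exact absurd hij.symm h1
    · rfl
    · rw [vb, vc] at hij; exact absurd (by linarith) h2
    · rw [va, vc] at hij; exact absurd (by linarith) h3
    · rw [vb, vc] at hij; exact absurd (by linarith) h2
    · rfl

theorem GrA_inv {τ : Au k} {α : Wt} (h : GrA τ α) : GrA τ⁻¹ α := ⟨h.2, h.1⟩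

theorem conj_inv_conj (τ : Au k) (D : Der k) : conj τ⁻¹ (conj τ D) = D := by
  rw [← conj_mul]; simp [conj_one]

end LCAux

open LCAux

/-- both leading parts final -/
theorem LC2 {D : Der k} (hD : IsLND D) {α : Wt} (hα0 : ∀ j, 0 ≤ α j) (hα1 : 0 < sm α) {θ : ℝ}
    (hθ : 0 < θ) (hLe : Le (supp D) α (θ * sm α)) (hne : ∃ P ∈ supp D, dt P α = θ * sm α)
    {τ : Au k} (hτ : Pres τ α α) (h1 : Fin' (supp (lead α (θ * sm α) D)) α)
    (h2 : Fin' (supp (lead α (θ * sm α) (conj τ D))) α) : RT D θ 1 τ := by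
  obtain ⟨τ', e1, e2, -, -, hl⟩ := exists_gr τ α hτ
  have hbar := hl D (θ * sm α) hLe
  set E := lead α (θ * sm α) D with hE
  rw [hbar] at h2
  have hEL : IsLND E := hD.lead hLe
  have hE0 : E ≠ 0 := lead_ne_zero hne
  have hEs : ∀ P ∈ supp E, dt P α = θ * sm α := fun P hP => (mem_supp_lead.1 hP).2
  have hLe' : Le (supp (conj τ D)) α (θ * sm α) := (Le_conj hτ rfl D _).2 hLe
  have hEs' : ∀ P ∈ supp (conj τ' E), dt P α = θ * sm α := by
    rw [← hbar]; exact fun P hP => (mem_supp_lead.1 hP).2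
  have hG : GrA τ' α := ⟨fun j => by rw [e1]; exact Hg_hc _ _ _,
    fun j => by rw [e2]; exact Hg_hc _ _ _⟩
  obtain ⟨P₀, hP₀⟩ := supp_nonempty hE0
  -- the common end of the argument
  have fin : ∀ δ δ' : Wt, (∃ e : ℝ, 0 < e ∧ ∀ ε : ℝ, 0 < ε → ε < e →
      Good (fun j => α j + ε * δ j)) →
      (∀ j m, coeff m (τ' (X j)) ≠ 0 → dE m δ ≤ δ' j) →
      (∀ j m, coeff m (τ'.symm (X j)) ≠ 0 → dE m δ' ≤ δ j) →
      (∀ P ∈ supp D, dt P α = θ * sm α → dt P δ < θ * sm δ) → RT D θ 1 τ := by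
    intro δ δ' hgood ha hb hlt
    obtain ⟨x1, hx1, H1⟩ := perturb (δ := δ) (δ' := δ') hτ
      (fun j m h => ha j m (by rw [e1]; exact h)) (fun j m h => hb j m (by rw [e2]; exact h))
    obtain ⟨x2, hx2, H2⟩ := perturb_lt hLe hlt
    obtain ⟨x3, hx3, H3⟩ := hgood
    set ε := min x1 (min x2 x3) / 2 with hε
    have hm : 0 < min x1 (min x2 x3) := by positivity
    have h0 : 0 < ε := by positivity
    have hl : ε < min x1 (min x2 x3) := by rw [hε]; linarith
    have l1 : ε < x1 := lt_of_lt_of_le hl (min_le_left _ _)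
    have l2 : ε < x2 := lt_of_lt_of_le hl (le_trans (min_le_right _ _) (min_le_left _ _))
    have l3 : ε < x3 := lt_of_lt_of_le hl (le_trans (min_le_right _ _) (min_le_right _ _))
    exact RT_of_Pres (H3 ε h0 l3) (H2 ε h0 l2) (H1 ε h0 l1)
  rcases h1 with ⟨a, ha⟩ | ⟨a, b, c, i, m, N, E₁, hF⟩
  · rcases h2 with ⟨a', ha'⟩ | ⟨a', b', c', i', m', N', E', hF'⟩
    · -- F1 F1
      obtain ⟨q1, q2⟩ := F11 hEL hE0 ha ha'
      obtain ⟨p, hp, hp2⟩ := exists_third a a
      obtain ⟨q, hq1, hq2⟩ := exists_third a p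
      refine fin (fun j => if j = a then 1 else 0) (fun j => if j = a' then 1 else 0)
        (good1 hα0 (Ne.symm hp) (Ne.symm hq1) (Ne.symm hq2) ?_) ?_ ?_ ?_
      · rintro ⟨z1, z2⟩
        have := hEs P₀ hP₀
        unfold dt at this
        rw [sum3 (Ne.symm hp) (Ne.symm hq1) (Ne.symm hq2), ha P₀ hP₀, z1, z2] at this
        have h3 : 0 < θ * sm α := by positivity
        simp at this
        rcases this with h | h
        · exact absurd h (ne_of_gt hθ)
        · exact absurd h (ne_of_gt hα1)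
      · intro j m h
        rw [dE_single_w]
        have := q1 j m h
        by_cases hj : j = a'
        · simp only [hj, if_true] at this ⊢; exact_mod_cast this
        · simp only [hj, if_false] at this ⊢; exact_mod_cast this
      · intro j m h
        rw [dE_single_w]
        have := q2 j m h
        by_cases hj : j = a
        · simp only [hj, if_true] at this ⊢; exact_mod_cast this
        · simp only [hj, if_false] at this ⊢; exact_mod_cast this
      · intro P hP hPs
        rw [dt_single_w, sm_single_w]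
        have : P ∈ supp E := mem_supp_lead.2 ⟨hP, hPs⟩
        rw [ha P this]
        simpa using hθ
    · exfalso
      refine F12 (hEL.conj τ') hα0 hEs' hF' (GrA_inv hG) (a' := a) ?_
      rw [conj_inv_conj]; exact ha
  · rcases h2 with ⟨a', ha'⟩ | ⟨a', b', c', i', m', N', E', hF'⟩
    · exact absurd (F12 hEL hα0 hEs hF hG ha') id
    · have q1 := F22 hEL hα0 hEs hF hG hEs' hF'
      have q2 := F22 (hEL.conj τ') hα0 hEs' hF' (GrA_inv hG)
        (s := θ * sm α) (a' := a) (b' := b) (c' := c) (i' := i) (m' := m) (N' := N) (E' := E₁)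
        (by rw [conj_inv_conj]; exact hEs) (by rw [conj_inv_conj]; exact hF)
      refine fin _ _ (good2 hα0 hF.hab hF.hac hF.hbc hF.hc) q1 q2 ?_
      intro P hP hPs
      have hPE : P ∈ supp E := mem_supp_lead.2 ⟨hP, hPs⟩
      rw [dt_delta P hF.hac, sm_delta hF.hac]
      have l := hF.low P hPE
      have h1 := hF.hE
      have h2 := hF.hi
      have : P a < P c := by nlinarith
      have : (P a : ℝ) < P c := by exact_mod_cast this
      linarith

/-- reaching a final form, all weights -/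
theorem LC1 {D : Der k} (hD : IsLND D) {α : Wt} (hα0 : ∀ j, 0 ≤ α j) (hα1 : 0 < sm α) {θ : ℝ}
    (hθ : 0 < θ) (hLe : Le (supp D) α (θ * sm α)) (hne : ∃ P ∈ supp D, dt P α = θ * sm α)
    (hOp : Op (supp D) θ) :
    ∃ g : Au k, Pres g α α ∧ RT D θ 1 g ∧ Fin' (supp (lead α (θ * sm α) (conj g D))) α := by
  by_cases h : ∀ i j, α i = 0 → α j = 0 → i = j
  · exact LC1a hD hα0 h hθ hLe hne hOp
  · push Not at h
    obtain ⟨y, z, hy, hz, hyz⟩ := h
    obtain ⟨x, hxy, hxz⟩ := exists_third y z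
    have hx : 0 < α x := by
      unfold sm at hα1
      rw [sum3 hxy hxz hyz, hy, hz] at hα1
      linarith
    exact LC1b hD hα0 hxy hxz hyz hx hy hz hθ hLe hne hOp

namespace LCAux

theorem Pm_inv_mul (π : Equiv.Perm (Fin 3)) : (Pm π⁻¹ * Pm π : Au k) = 1 := by
  apply AlgEquiv.coe_toAlgHom_injective
  apply MvPolynomial.algHom_ext
  intro j
  simp [Pm, AlgEquiv.mul_apply]

theorem Op_Pm (π : Equiv.Perm (Fin 3)) (D : Der k) (θ : ℝ) :
    Op (supp (conj (Pm π) D)) θ ↔ Op (supp D) θ := by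
  rw [← Op_perm (S := supp D) (T := supp (conj (Pm π) D)) π.symm]
  exact mem_supp_conj_Pm π D

end LCAux

theorem LC {D : Der k} (hD : IsLND D) {α β : Wt} (hα0 : ∀ j, 0 ≤ α j) (hα1 : 0 < sm α) {θ : ℝ}
    (hθ : 0 < θ) (hLe : Le (supp D) α (θ * sm α)) (hne : ∃ P ∈ supp D, dt P α = θ * sm α)
    {τ : Au k} (hτ : Pres τ α β) (h1 : Op (supp D) θ) (h2 : Op (supp (conj τ D)) θ) :
    RT D θ 1 τ := by
  obtain ⟨π, hπ⟩ := hτ.permW
  set τ₁ := τ * Pm π⁻¹ with hτ₁
  have e0 : (fun j => β (π⁻¹ j)) = α := by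
    funext j; rw [hπ]; simp
  have hτ₁P : Pres τ₁ α α := by
    have := hτ.mul (Pres_Pm π⁻¹ β)
    rwa [e0] at this
  have hOp1 : Op (supp (conj τ₁ D)) θ := by
    rw [hτ₁, conj_mul, Op_Pm]; exact h2
  have hττ : τ = τ₁ * Pm π := by
    rw [hτ₁, mul_assoc, Pm_inv_mul, mul_one]
  have last : RT D θ τ₁ τ := by
    refine Relation.ReflTransGen.single ⟨Pm π, Or.inr (Or.inr ⟨π, rfl⟩), hττ, hOp1, h2⟩
  have hLe1 : Le (supp (conj τ₁ D)) α (θ * sm α) := (Le_conj hτ₁P rfl D _).2 hLe
  have neConj : ∀ {σ : Au k}, Pres σ α α → ∀ {F : Der k}, Le (supp F) α (θ * sm α) →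
      (∃ P ∈ supp F, dt P α = θ * sm α) → ∃ P ∈ supp (conj σ F), dt P α = θ * sm α := by
    intro σ hσ F hF ⟨P, hP, hPe⟩
    by_contra hcon
    push Not at hcon
    have hl : Le (supp (conj σ F)) α (θ * sm α) := (Le_conj hσ rfl F _).2 hF
    have : ∀ P ∈ supp (conj σ F), dt P α < θ * sm α := fun Q hQ =>
      lt_of_le_of_ne (hl Q hQ) (hcon Q hQ)
    have := (lt_conj hσ rfl F _).1 this P hP
    linarith
  have hne1 : ∃ P ∈ supp (conj τ₁ D), dt P α = θ * sm α := neConj hτ₁P hLe hne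
  obtain ⟨g₁, hg₁, hR₁, hF₁⟩ := LC1 hD hα0 hα1 hθ hLe hne h1
  obtain ⟨g₂, hg₂, hR₂, hF₂⟩ := LC1 (hD.conj τ₁) hα0 hα1 hθ hLe1 hne1 hOp1
  set τ₂ := g₁⁻¹ * τ₁ * g₂ with hτ₂
  have hτ₂P : Pres τ₂ α α := (hg₁.inv.mul hτ₁P).mul hg₂
  have ec : conj τ₂ (conj g₁ D) = conj g₂ (conj τ₁ D) := by
    rw [← conj_mul, ← conj_mul, hτ₂]; congr 1; group
  have key := LC2 (hD.conj g₁) hα0 hα1 hθ ((Le_conj hg₁ rfl D _).2 hLe) (neConj hg₁ hLe hne)
    hτ₂P hF₁ (by rw [ec]; exact hF₂)
  have k1 := RT_mul g₁ key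
  have k2 := RT_mul τ₁ hR₂
  rw [mul_one] at k1 k2
  have e3 : g₁ * τ₂ = τ₁ * g₂ := by rw [hτ₂]; group
  rw [e3] at k1
  exact ((hR₁.trans k1).trans (RT_symm k2)).trans last

end Pool.Agent.TL
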