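import Pool.Agent.TL.BC

set_option autoImplicit false

/-! # T3: a visible edge of Nagata type gives the final form F2 (linear inequalities only)

Proof. `α b > 0` since `α a + i α c = m α b` and at most one weight is zero. `α c > 0`: if `α c = 0` then
`α a = m α b`, and `q1` gives `m N = θ (m + 1)`, while `q1·β = m N β b + E β c < θ|β| =
θ ((m+1) β b + (1 - i) β c) ≤ m N β b`. `low`: for `P ∈ S` put `ℓ = P c - i P a - E`. The linear forms
`α`, `β`, `e_c - i e_a` all vanish on `(1, -m, i)`, so `e_c - i e_a = x α + y β` for real `x, y` (`α`, `β`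
independent); at `q1`: `E = x θ|α| + y t`; at `𝟙`: `1 - i = x |α| + y |β|`. So
`ℓ = y (P·β - t)` and `θ (1 - i) - E = y (θ|β| - t)`; the left side is `< 0`, `θ|β| > t`, so `y < 0`;
`P·β ≤ t` gives `ℓ ≥ 0`. -/

namespace Pool.Agent.TL

theorem type3_F2 {S : Finset (Fin 3 → ℕ)} {α : Wt} (hα0 : ∀ j, 0 ≤ α j)
    (h1 : ∀ i j, α i = 0 → α j = 0 → i = j) {θ : ℝ} (hθ : 0 < θ)
    (hs : ∀ P ∈ S, dt P α = θ * sm α) {β : Wt} (hβ0 : ∀ j, 0 ≤ β j)
    (hβ : ∀ P ∈ S, dt P β < θ * sm β) {t : ℝ} (ht : Le S β t) {a b c : Fin 3} (hab : a ≠ b)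
    (hac : a ≠ c) (hbc : b ≠ c) {i m N E : ℕ} (hm : 2 ≤ m) (hi : 1 ≤ i) (hN : 1 ≤ N) (hE : 1 ≤ E)
    (rα : α a + i * α c = m * α b) (rβ : β a + i * β c = m * β b)
    (q1 : ∃ P ∈ S, P a = 0 ∧ P b = m * N ∧ P c = E ∧ dt P β = t)
    (q2 : ∃ P ∈ S, P a = N ∧ P b = 0 ∧ P c = E + i * N ∧ dt P β = t) :
    F2 S α a b c i m N E := by
  have hsm : ∀ γ : Wt, sm γ = γ a + γ b + γ c := fun γ => sum3 hab hac hbc γ
  have hdt : ∀ (P : Fin 3 → ℕ) (γ : Wt), dt P γ = P a * γ a + P b * γ b + P c * γ c :=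
    fun P γ => sum3 hab hac hbc (fun i => (P i : ℝ) * γ i)
  have hm' : (2 : ℝ) ≤ m := by exact_mod_cast hm
  have hi' : (1 : ℝ) ≤ i := by exact_mod_cast hi
  have hE' : (1 : ℝ) ≤ E := by exact_mod_cast hE
  obtain ⟨Q, hQ, Qa, Qb, Qc, Qt⟩ := q1
  have hQα := hs Q hQ
  have hQβ := hβ Q hQ
  have hQt := Qt
  rw [hdt, hsm, Qa, Qb, Qc] at hQα
  rw [Qt, hsm] at hQβ
  rw [hdt, Qa, Qb, Qc] at hQt
  push_cast at hQα hQt
  have hb0 : 0 < α b := by
    refine lt_of_le_of_ne (hα0 b) fun h => ?_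
    rw [← h, mul_zero] at rα
    have h3 : 0 ≤ (i : ℝ) * α c := mul_nonneg (by linarith) (hα0 c)
    have h4 : α a = 0 := le_antisymm (by linarith) (hα0 a)
    have h5 : (i : ℝ) * α c = 0 := by linarith
    have h6 : α c = 0 := by
      rcases mul_eq_zero.1 h5 with h7 | h7
      · linarith
      · exact h7
    exact hac (h1 a c h4 h6)
  have hc0 : 0 < α c := by
    refine lt_of_le_of_ne (hα0 c) fun h => ?_
    rw [← h] at rα hQα
    have h3 : (m : ℝ) * N = θ * (m + 1) := by
      have h4 : ((m : ℝ) * N - θ * (m + 1)) * α b = 0 := by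
        have h5 : α a = m * α b := by linarith
        rw [h5] at hQα
        linarith
      rcases mul_eq_zero.1 h4 with h5 | h5
      · linarith
      · exact absurd h5 hb0.ne'
    have h4 : β a = m * β b - i * β c := by linarith
    rw [← hQt, h4, h3] at hQβ
    have h5 : (E : ℝ) * β c < θ * (1 - i) * β c := by linarith
    have h6 : 0 ≤ (E : ℝ) * β c := mul_nonneg (by linarith) (hβ0 c)
    have h7 : θ * (1 - i) * β c ≤ 0 :=
      mul_nonpos_of_nonpos_of_nonneg
        (mul_nonpos_of_nonneg_of_nonpos hθ.le (by linarith)) (hβ0 c)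
    linarith
  refine ⟨hab, hac, hbc, hm, hi, hN, hE, hb0, hc0, rα, ?_, ⟨Q, hQ, Qa, Qb, Qc⟩, ?_⟩
  · intro P hP
    have hPα := hs P hP
    have hPβ := ht P hP
    rw [hdt, hsm] at hPα
    rw [hdt] at hPβ
    have ha : α a = m * α b - i * α c := by linarith
    have ha' : β a = m * β b - i * β c := by linarith
    rw [ha] at hPα hQα
    rw [ha'] at hPβ hQβ
    have hK : ((θ * (1 - i) - E) * (β c * α b - β b * α c)) = α b * (θ * (m * β b - i * β c + β b + β c) - t) := by
      have h5 : (m * θ + θ - m * N) * α b + (θ * (1 - i) - E) * α c = 0 := by linarith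
      have h6 : (m * θ + θ - m * N) * β b + (θ * (1 - i) - E) * β c =
          θ * (m * β b - i * β c + β b + β c) - t := by linarith
      rw [← h6]
      linear_combination (-(β b)) * h5
    have hK0 : 0 < α b * (θ * (m * β b - i * β c + β b + β c) - t) :=
      mul_pos hb0 (by linarith)
    rw [← hK] at hK0
    have hl : θ * (1 - i) - (E : ℝ) < 0 := by
      have h5 : θ * (1 - i) ≤ 0 := mul_nonpos_of_nonneg_of_nonpos hθ.le (by linarith)
      linarith
    have hK1 : β c * α b - β b * α c < 0 := by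
      by_contra h
      exact absurd hK0 (not_lt.2 (mul_nonpos_of_nonpos_of_nonneg hl.le (not_lt.1 h)))
    have hL : ((P c : ℝ) - i * P a - E) * (β c * α b - β b * α c) ≤ 0 := by
      have h5 : ((m : ℝ) * P a + P b - m * N) * α b + ((P c : ℝ) - i * P a - E) * α c = 0 := by
        linarith
      have h6 : ((m : ℝ) * P a + P b - m * N) * β b + ((P c : ℝ) - i * P a - E) * β c ≤ 0 := by
        linarith
      have h7 : ((P c : ℝ) - i * P a - E) * (β c * α b - β b * α c) =
          α b * (((m : ℝ) * P a + P b - m * N) * β b + ((P c : ℝ) - i * P a - E) * β c) := by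
        linear_combination (-(β b)) * h5
      rw [h7]
      exact mul_nonpos_of_nonneg_of_nonpos hb0.le h6
    have hL0 : 0 ≤ (P c : ℝ) - i * P a - E := by
      by_contra h
      exact absurd hL (not_le.2 (mul_pos_of_neg_of_neg (not_le.1 h) hK1))
    have hL1 : (E : ℝ) + i * P a ≤ P c := by linarith
    exact_mod_cast hL1
  · obtain ⟨P, hP, h3, h4, h5, -⟩ := q2
    exact ⟨P, hP, h3, h4, h5⟩

end Pool.Agent.TL
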