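import Pool.Agent.TL.ED
import Pool.Agent.TL.TH

set_option autoImplicit false

/-! # VE: a visible edge

Proof (paper proof section 7). Start with any witness `β`, `t = max P·β` over `supp D`. `α` and a witness are
always linearly independent (`sm α > 0`, `β = c α` would give `P·β = θ|β|`). The face `lead β t D` has its
support in a line. If it has a single point `q`, this is a root (`root_of_max` for `lead β t D`), `q a = 0`; if
some `P ∈ supp D` has `P a > 0`, raise `β a` (i.e. `β + T e_a`, `T` the smallest number `≥ 0` such that some `P` with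
`P a > 0` satisfies `P·β + T P a = t`): it is a witness again (`t < θ|β| ≤ θ|β + T e_a|`) with at least two
points on the face. If all points of a face with at least two points satisfy `P a = 0` and some
`P ∈ supp D` has `P a > 0`, raise `β a` in the same way: the new face contains two different points of the plane
`P a = 0` and a point outside, impossible since it lies on a line. -/

namespace Pool.Agent.TL

open MvPolynomial

variable {k : Type} [Field k] [CharZero k]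

/-- `α` and a witness are independent -/
theorem witness_indep {S : Finset (Fin 3 → ℕ)} (hS : S.Nonempty) {α β : Wt} {θ : ℝ}
    (hα1 : 0 < sm α) (hs : ∀ P ∈ S, dt P α = θ * sm α) (hβ : ∀ P ∈ S, dt P β < θ * sm β) :
    LinearIndependent ℝ ![α, β] := by
  rw [LinearIndependent.pair_iff]
  intro s t h
  obtain ⟨P, hP⟩ := hS
  have h1 := hs P hP
  have h2 := hβ P hP
  have e1 : (fun j => s * α j + t * β j) = (fun _ => (0 : ℝ)) := by
    funext j
    have := congrFun h j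
    simpa [smul_eq_mul] using this
  have h3 := dt_lin P α β s t
  have h4 := sm_lin α β s t
  rw [e1] at h3 h4
  have z1 : dt P (fun _ => (0 : ℝ)) = 0 := by simp [dt]
  have z2 : sm (fun _ => (0 : ℝ)) = 0 := by simp [sm]
  rw [z1] at h3
  rw [z2] at h4
  have h5 : t * (dt P β - θ * sm β) = 0 := by
    rw [h1] at h3
    linear_combination θ * h4 - h3
  have ht : t = 0 := by
    rcases mul_eq_zero.mp h5 with h | h
    · exact h
    · exfalso; linarith
  subst ht
  have h6 : s * sm α = 0 := by linarith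
  rcases mul_eq_zero.mp h6 with h | h
  · exact ⟨h, rfl⟩
  · exfalso; linarith

/-- the raised weight -/
theorem VEAux.raise {S : Finset (Fin 3 → ℕ)} {β : Wt} {θ t : ℝ} (hθ : 0 < θ)
    (hβ0 : ∀ j, 0 ≤ β j) (hβ : ∀ P ∈ S, dt P β < θ * sm β) (hLe : Le S β t)
    (hatt : ∃ q ∈ S, dt q β = t) {a : Fin 3} (hne : ∃ P ∈ S, P a ≠ 0) :
    ∃ β' : Wt, (∀ j, 0 ≤ β' j) ∧ (∀ P ∈ S, dt P β' < θ * sm β') ∧ Le S β' t ∧
      (∀ P ∈ S, dt P β = t → P a = 0 → dt P β' = t) ∧ ∃ P ∈ S, P a ≠ 0 ∧ dt P β' = t := by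
  classical
  set S' := S.filter (fun P => P a ≠ 0) with hS'
  have hS'ne : S'.Nonempty := by
    obtain ⟨P, hP, hPa⟩ := hne
    exact ⟨P, by simp [hS', hP, hPa]⟩
  obtain ⟨P₀, hP₀, hmin⟩ := S'.exists_min_image (fun P => (t - dt P β) / (P a : ℝ)) hS'ne
  have hP₀S : P₀ ∈ S := (Finset.mem_filter.mp hP₀).1
  have hP₀a : P₀ a ≠ 0 := (Finset.mem_filter.mp hP₀).2
  set T : ℝ := (t - dt P₀ β) / (P₀ a : ℝ) with hT
  have hP₀pos : (0 : ℝ) < P₀ a := by exact_mod_cast Nat.pos_of_ne_zero hP₀a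
  have hT0 : 0 ≤ T := div_nonneg (by linarith [hLe P₀ hP₀S]) hP₀pos.le
  set e : Wt := fun j => if j = a then 1 else 0 with he
  set β' : Wt := fun j => 1 * β j + T * e j with hβ'
  have hdt : ∀ P : Fin 3 → ℕ, dt P β' = dt P β + T * (P a : ℝ) := by
    intro P
    rw [hβ', dt_lin]
    have : dt P e = (P a : ℝ) := by simp [dt, he]
    rw [this]; ring
  have hsm : sm β' = sm β + T := by
    rw [hβ', sm_lin]
    have : sm e = 1 := by simp [sm, he]
    rw [this]; ring
  have hLe' : Le S β' t := by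
    intro P hP
    rw [hdt]
    by_cases hPa : P a = 0
    · rw [hPa]; have := hLe P hP; simpa using this
    · have hm := hmin P (by simp [hS', hP, hPa])
      have hpos : (0 : ℝ) < P a := by exact_mod_cast Nat.pos_of_ne_zero hPa
      have : T * (P a : ℝ) ≤ t - dt P β := by
        have h1 : T ≤ (t - dt P β) / (P a : ℝ) := hm
        exact (le_div_iff₀ hpos).mp h1
      linarith
  refine ⟨β', ?_, ?_, hLe', ?_, P₀, hP₀S, hP₀a, ?_⟩
  · intro j
    have : 0 ≤ e j := by simp only [he]; split_ifs <;> norm_num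
    have h2 := hβ0 j
    simp only [hβ']
    nlinarith [mul_nonneg hT0 this]
  · intro P hP
    obtain ⟨q, hq, hqt⟩ := hatt
    have h1 := hβ q hq
    have h2 := hLe' P hP
    rw [hsm]
    nlinarith [mul_nonneg hθ.le hT0]
  · intro P hP hPt hPa
    rw [hdt, hPt, hPa]; simp
  · rw [hdt, hT]
    field_simp
    ring

/-- three points on a line: if two different ones have the same coordinate `a`, so has the third -/
theorem VEAux.line {α β : Wt} (hind : LinearIndependent ℝ ![α, β]) {P Q R : Fin 3 → ℕ}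
    {s t : ℝ} (h1 : dt P α = s) (h2 : dt Q α = s) (h3 : dt R α = s) (h4 : dt P β = t)
    (h5 : dt Q β = t) (h6 : dt R β = t) (hne : P ≠ Q) {a : Fin 3} (hPa : P a = 0) (hQa : Q a = 0) :
    R a = 0 := by
  by_contra hRa
  obtain ⟨b, c, hab, hac, hbc⟩ : ∃ b c : Fin 3, a ≠ b ∧ a ≠ c ∧ b ≠ c := by
    fin_cases a
    · exact ⟨1, 2, by decide, by decide, by decide⟩
    · exact ⟨0, 2, by decide, by decide, by decide⟩
    · exact ⟨0, 1, by decide, by decide, by decide⟩
  have hdt : ∀ (P : Fin 3 → ℕ) (γ : Wt), dt P γ = P a * γ a + P b * γ b + P c * γ c := by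
    intro P γ
    exact sum3 hab hac hbc (fun i => (P i : ℝ) * γ i)
  rw [hdt] at h1 h2 h3 h4 h5 h6
  rw [hPa] at h1 h4
  rw [hQa] at h2 h5
  set ub : ℝ := (P b : ℝ) - Q b
  set uc : ℝ := (P c : ℝ) - Q c
  have hu : ub ≠ 0 ∨ uc ≠ 0 := by
    by_contra hcon
    push Not at hcon
    apply hne
    funext j
    rcases eq_of_ne hab hac hbc j with rfl | rfl | rfl
    · rw [hPa, hQa]
    · have : (P j : ℝ) = Q j := by have := hcon.1; simp only [ub] at this; linarith
      exact_mod_cast this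
    · have : (P j : ℝ) = Q j := by have := hcon.2; simp only [uc] at this; linarith
      exact_mod_cast this
  have e1 : ub * α b + uc * α c = 0 := by simp only [ub, uc]; push_cast at h1 h2; linear_combination h1 - h2
  have e2 : ub * β b + uc * β c = 0 := by simp only [ub, uc]; push_cast at h4 h5; linear_combination h4 - h5
  have m1 : α b * β c - α c * β b = 0 := by
    rcases hu with h | h
    · have : ub * (α b * β c - α c * β b) = 0 := by linear_combination β c * e1 - α c * e2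
      exact (mul_eq_zero.mp this).resolve_left h
    · have : uc * (α b * β c - α c * β b) = 0 := by linear_combination (-β b) * e1 + α b * e2
      exact (mul_eq_zero.mp this).resolve_left h
  have hRa' : (R a : ℝ) ≠ 0 := by exact_mod_cast hRa
  set wb : ℝ := (R b : ℝ) - Q b
  set wc : ℝ := (R c : ℝ) - Q c
  have e3 : (R a : ℝ) * α a + wb * α b + wc * α c = 0 := by
    simp only [wb, wc]; push_cast at h2; linear_combination h3 - h2
  have e4 : (R a : ℝ) * β a + wb * β b + wc * β c = 0 := by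
    simp only [wb, wc]; push_cast at h5; linear_combination h6 - h5
  have m2 : α a * β b - α b * β a = 0 := by
    have : (R a : ℝ) * (α a * β b - α b * β a) = 0 := by
      linear_combination β b * e3 - α b * e4 + wc * m1
    exact (mul_eq_zero.mp this).resolve_left hRa'
  have m3 : α a * β c - α c * β a = 0 := by
    have : (R a : ℝ) * (α a * β c - α c * β a) = 0 := by
      linear_combination β c * e3 - α c * e4 - wb * m1
    exact (mul_eq_zero.mp this).resolve_left hRa'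
  rw [LinearIndependent.pair_iff] at hind
  have hall : ∀ i j : Fin 3, α i * β j - α j * β i = 0 := by
    intro i j
    rcases eq_of_ne hab hac hbc i with rfl | rfl | rfl <;>
    rcases eq_of_ne hab hac hbc j with rfl | rfl | rfl <;> first | ring1 | linarith
  have hz : ∀ j, β j = 0 ∧ -α j = 0 := by
    intro j
    apply hind
    funext i
    simp only [Pi.add_apply, Pi.smul_apply, smul_eq_mul, Pi.zero_apply]
    linear_combination hall i j
  have := (hind 1 0 (by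
    funext j
    have := (hz j).2
    simp only [Pi.add_apply, Pi.smul_apply, smul_eq_mul, Pi.zero_apply]
    linarith)).1
  exact one_ne_zero this

theorem visible {D : Der k} (hD : IsLND D) (h0 : D ≠ 0) {α : Wt} (hα0 : ∀ j, 0 ≤ α j)
    (hα1 : 0 < sm α) {θ : ℝ} (hθ : 0 < θ) (hs : ∀ P ∈ supp D, dt P α = θ * sm α)
    (hOp : Op (supp D) θ) (hF : ¬ ∃ a, ∀ P ∈ supp D, P a = 0) :
    ∃ (β : Wt) (t : ℝ), (∀ j, 0 ≤ β j) ∧ (∀ P ∈ supp D, dt P β < θ * sm β) ∧
      Le (supp D) β t ∧ (∃ P ∈ supp D, ∃ Q ∈ supp D, P ≠ Q ∧ dt P β = t ∧ dt Q β = t) ∧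
      ¬ ∃ a, ∀ P ∈ supp D, dt P β = t → P a = 0 := by
  have hF' : ∀ a, ∃ P ∈ supp D, P a ≠ 0 := by
    intro a
    by_contra hcon
    push Not at hcon
    exact hF ⟨a, hcon⟩
  have hne := supp_nonempty h0
  -- step 1: a witness with two points on its face
  have step1 : ∃ (β : Wt) (t : ℝ), (∀ j, 0 ≤ β j) ∧ (∀ P ∈ supp D, dt P β < θ * sm β) ∧
      Le (supp D) β t ∧ (∃ P ∈ supp D, ∃ Q ∈ supp D, P ≠ Q ∧ dt P β = t ∧ dt Q β = t) := by
    obtain ⟨β₀, hβ₀, hw⟩ := hOp
    obtain ⟨q, hq, hmax⟩ := (supp D).exists_max_image (fun P => dt P β₀) hne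
    by_cases h2 : ∃ Q ∈ supp D, Q ≠ q ∧ dt Q β₀ = dt q β₀
    · obtain ⟨Q, hQ, hQq, hQt⟩ := h2
      exact ⟨β₀, dt q β₀, hβ₀, hw, hmax, Q, hQ, q, hq, hQq, hQt, rfl⟩
    · push Not at h2
      obtain ⟨a, ha⟩ := root_of_max hD β₀ hq (fun Q hQ hQq => lt_of_le_of_ne (hmax Q hQ) (h2 Q hQ hQq))
      obtain ⟨β', h1, h2', h3, h4, P, hP, hPa, hPt⟩ :=
        VEAux.raise hθ hβ₀ hw hmax ⟨q, hq, rfl⟩ (hF' a)
      refine ⟨β', dt q β₀, h1, h2', h3, P, hP, q, hq, ?_, hPt, h4 q hq rfl ha⟩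
      rintro rfl
      exact hPa ha
  obtain ⟨β, t, hβ0, hw, hLe, hQ⟩ := step1
  refine ⟨β, t, hβ0, hw, hLe, hQ, ?_⟩
  rintro ⟨a, ha⟩
  obtain ⟨P, hP, Q, hQ, hPQ, hPt, hQt⟩ := hQ
  obtain ⟨β', h1, h2, h3, h4, R, hR, hRa, hRt⟩ :=
    VEAux.raise hθ hβ0 hw hLe ⟨P, hP, hPt⟩ (hF' a)
  have hPa := ha P hP hPt
  have hQa := ha Q hQ hQt
  have hind := witness_indep hne hα1 hs h2
  exact hRa (VEAux.line hind (hs P hP) (hs Q hQ) (hs R hR) (h4 P hP hPt hPa) (h4 Q hQ hQt hQa)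
    hRt hPQ hPa hQa)

/-- the classification applied to a visible edge -/
theorem visible_edge {D : Der k} (hD : IsLND D) (h0 : D ≠ 0) {α : Wt} (hα0 : ∀ j, 0 ≤ α j)
    (hα1 : 0 < sm α) {θ : ℝ} (hθ : 0 < θ) (hs : ∀ P ∈ supp D, dt P α = θ * sm α)
    (hOp : Op (supp D) θ) (hF : ¬ ∃ a, ∀ P ∈ supp D, P a = 0) :
    ∃ (β : Wt) (t : ℝ), (∀ j, 0 ≤ β j) ∧ (∀ P ∈ supp D, dt P β < θ * sm β) ∧
      Le (supp D) β t ∧
      ((∃ (i : Fin 3) (M : Fin 3 →₀ ℕ) (κ : k), M i = 0 ∧ M ≠ 0 ∧ κ ≠ 0 ∧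
        lead β t D (X i) ≠ 0 ∧ lead β t D (X i - monomial M κ) = 0 ∧
        dE M α = α i ∧ dE M β = β i) ∨
      (∃ (a b c : Fin 3) (i m N E : ℕ), a ≠ b ∧ a ≠ c ∧ b ≠ c ∧ 2 ≤ m ∧ 1 ≤ i ∧ 1 ≤ N ∧ 1 ≤ E ∧
        α a + i * α c = m * α b ∧ β a + i * β c = m * β b ∧
        (∃ P ∈ supp D, P a = 0 ∧ P b = m * N ∧ P c = E ∧ dt P β = t) ∧
        (∃ P ∈ supp D, P a = N ∧ P b = 0 ∧ P c = E + i * N ∧ dt P β = t))) := by
  obtain ⟨β, t, hβ0, hw, hLe, ⟨P, hP, Q, hQ, hPQ, hPt, hQt⟩, hF1⟩ :=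
    visible hD h0 hα0 hα1 hθ hs hOp hF
  refine ⟨β, t, hβ0, hw, hLe, ?_⟩
  have hind := witness_indep (supp_nonempty h0) hα1 hs hw
  have hα' : ∀ P ∈ supp (lead β t D), dt P α = θ * sm α := fun P hP =>
    hs P (mem_supp_lead.mp hP).1
  have hβ' : ∀ P ∈ supp (lead β t D), dt P β = t := fun P hP => (mem_supp_lead.mp hP).2
  rcases edge (hD.lead hLe) hα' hβ' hind
    ⟨P, mem_supp_lead.mpr ⟨hP, hPt⟩, Q, mem_supp_lead.mpr ⟨hQ, hQt⟩, hPQ⟩ with h | h | h
  · exfalso
    obtain ⟨a, ha⟩ := h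
    exact hF1 ⟨a, fun P hP hPt => ha P (mem_supp_lead.mpr ⟨hP, hPt⟩)⟩
  · left
    obtain ⟨i, M, κ, c, h1, h2, _, h4, _, h6, h7, h8, h9⟩ := h
    exact ⟨i, M, κ, h1, h2, h4, h6, h7, h8, h9⟩
  · right
    obtain ⟨a, b, c, i, m, N, E, hab, hac, hbc, hm, hi, hN, hE, r1, r2, _, ⟨P, hP, p1, p2, p3⟩,
      ⟨R, hR, q1, q2, q3⟩⟩ := h
    have hP' := mem_supp_lead.mp hP
    have hR' := mem_supp_lead.mp hR
    exact ⟨a, b, c, i, m, N, E, hab, hac, hbc, hm, hi, hN, hE, r1, r2,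
      ⟨P, hP'.1, p1, p2, p3, hP'.2⟩, ⟨R, hR'.1, q1, q2, q3, hR'.2⟩⟩

end Pool.Agent.TL
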