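import Pool.Agent.TL.AD
import Pool.Agent.TL.VE
import Pool.Agent.TL.T3

set_option autoImplicit false

/-! # LC1: reaching a final form (weights with at most one zero)

Proof (paper proof section 7). Strong induction on the cardinality of
`Aset (supp (lead α (θ|α|) D)) α θ` (finite by `Aset_finite`, `Op_face`). Let `D̄ = lead α (θ|α|) D`, open at `θ`
(`Op_face`). If all points of `supp D̄` vanish at a coordinate: `g = 1`. Otherwise `visible_edge` for `D̄`. Type 3
data: `type3_F2`, `g = 1`. Type 2 data: `α i > 0` (otherwise `dE M α = 0`, so `M` involves only the variable of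
weight zero, which is `x_i` itself, so `M = 0`); `adapt` for `D̄`; `g₁ = El i M (-κ)`,
`lead α (θ|α|) (conj g₁ D) = conj g₁ D̄` (`lead_conj_El_eq`); `Op (supp (conj g₁ D)) θ` (`Op_face`), and one step
`Stp D θ 1 g₁`; continue with `conj g₁ D` (`conj_mul`, translate `RT` by `RT_mul`). -/

namespace Pool.Agent.TL

open MvPolynomial

variable {k : Type} [Field k] [CharZero k]

/-- left translation of paths -/
theorem RT_mul {D : Der k} {θ : ℝ} (g : Au k) {σ σ' : Au k} (h : RT (conj g D) θ σ σ') :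
    RT D θ (g * σ) (g * σ') := by
  induction h with
  | refl => exact Relation.ReflTransGen.refl
  | @tail a b _ h ih =>
    refine Relation.ReflTransGen.tail ih ?_
    obtain ⟨g', hg', rfl, h1, h2⟩ := h
    refine ⟨g', hg', (mul_assoc g a g').symm, ?_, ?_⟩
    · rw [conj_mul]
      exact h1
    · rw [conj_mul]
      exact h2

namespace LC1Aux

theorem Sc_inv (u : Fin 3 → kˣ) : (Sc u : Au k)⁻¹ = Sc (fun j => (u j)⁻¹) := by
  have h : ((Sc u : Au k).symm : Rg k →ₐ[k] Rg k) =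
      ((Sc (fun j => (u j)⁻¹) : Au k) : Rg k →ₐ[k] Rg k) := by
    apply MvPolynomial.algHom_ext
    intro j
    change aeval (fun j => C ((u j)⁻¹ : k) * X j) (X j) =
      aeval (fun j => C (((u j)⁻¹ : kˣ) : k) * X j) (X j)
    rw [aeval_X, aeval_X, Units.val_inv_eq_inv_val]
  exact AlgEquiv.ext fun x => congrArg (fun f : Rg k →ₐ[k] Rg k => f x) h

theorem Pm_inv (π : Equiv.Perm (Fin 3)) : (Pm π : Au k)⁻¹ = Pm π.symm := by
  unfold Pm
  exact renameEquiv_symm k π

theorem El_inv (i : Fin 3) (M : Fin 3 →₀ ℕ) (c : k) (h : M i = 0) :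
    (El i M c h)⁻¹ = El i M (-c) h := El_symm i M c h

theorem Gen_inv {g : Au k} (hg : g ∈ (Gen : Set (Au k))) : g⁻¹ ∈ (Gen : Set (Au k)) := by
  rcases hg with ⟨i, M, c, h, rfl⟩ | ⟨u, rfl⟩ | ⟨π, rfl⟩
  · exact Or.inl ⟨i, M, -c, h, El_inv i M c h⟩
  · exact Or.inr (Or.inl ⟨_, Sc_inv u⟩)
  · exact Or.inr (Or.inr ⟨_, Pm_inv π⟩)

theorem Stp_symm {D : Der k} {θ : ℝ} {σ σ' : Au k} (h : Stp D θ σ σ') : Stp D θ σ' σ := by
  obtain ⟨g, hg, rfl, h1, h2⟩ := h
  exact ⟨g⁻¹, Gen_inv hg, (mul_inv_cancel_right σ g).symm, h2, h1⟩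

end LC1Aux

theorem RT_symm {D : Der k} {θ : ℝ} {σ σ' : Au k} (h : RT D θ σ σ') : RT D θ σ' σ := by
  have hs : ∀ a b, Stp D θ a b → Stp D θ b a := fun _ _ h => LC1Aux.Stp_symm h
  induction h with
  | refl => exact Relation.ReflTransGen.refl
  | tail _ h ih => exact Relation.ReflTransGen.head (hs _ _ h) ih

namespace LC1Aux

theorem supp_lead (α : Wt) (s : ℝ) (D : Der k) [DecidablePred fun P : Fin 3 → ℕ => dt P α = s] :
    supp (lead α s D) = (supp D).filter (fun P => dt P α = s) := by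
  ext P
  rw [mem_supp_lead, Finset.mem_filter]

theorem Op_lead {D : Der k} {α : Wt} (hα0 : ∀ j, 0 ≤ α j) {θ : ℝ}
    (hLe : Le (supp D) α (θ * sm α)) :
    Op (supp D) θ ↔ Op (supp (lead α (θ * sm α) D)) θ := by
  rw [Op_face hα0 hLe, ← supp_lead]

/-- one homogeneous step followed by a path -/
theorem step {D : Der k} {α : Wt} (hα0 : ∀ j, 0 ≤ α j) {θ : ℝ}
    (hLe : Le (supp D) α (θ * sm α)) (hne : ∃ P ∈ supp D, dt P α = θ * sm α)
    (hOp : Op (supp D) θ) {i : Fin 3} {M : Fin 3 →₀ ℕ} {c : k} (hM : M i = 0)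
    (hMα : dE M α = α i)
    (hOp' : Op (supp (conj (El i M c hM) (lead α (θ * sm α) D))) θ)
    (ih : Le (supp (conj (El i M c hM) D)) α (θ * sm α) →
      (∃ P ∈ supp (conj (El i M c hM) D), dt P α = θ * sm α) →
      Op (supp (conj (El i M c hM) D)) θ →
      ∃ g : Au k, Pres g α α ∧ RT (conj (El i M c hM) D) θ 1 g ∧
        Fin' (supp (lead α (θ * sm α) (conj g (conj (El i M c hM) D)))) α) :
    ∃ g : Au k, Pres g α α ∧ RT D θ 1 g ∧ Fin' (supp (lead α (θ * sm α) (conj g D))) α := by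
  have hP : Pres (El i M c hM) α α := Pres_El hM (le_of_eq hMα)
  have hl : lead α (θ * sm α) (conj (El i M c hM) D) =
      conj (El i M c hM) (lead α (θ * sm α) D) := lead_conj_El_eq hM hMα hLe
  have hLe1 : Le (supp (conj (El i M c hM) D)) α (θ * sm α) := (Le_conj hP rfl D _).2 hLe
  have hne1 : ∃ P ∈ supp (conj (El i M c hM) D), dt P α = θ * sm α := by
    obtain ⟨P, hP1⟩ := supp_nonempty (conj_ne_zero (lead_ne_zero hne) (El i M c hM))
    rw [← hl, mem_supp_lead] at hP1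
    exact ⟨P, hP1⟩
  have hOp1 : Op (supp (conj (El i M c hM) D)) θ := by
    rw [Op_lead hα0 hLe1, hl]
    exact hOp'
  obtain ⟨g, hg1, hg2, hg3⟩ := ih hLe1 hne1 hOp1
  refine ⟨El i M c hM * g, hP.mul hg1, ?_, ?_⟩
  · have h1 : RT D θ 1 (El i M c hM) := by
      refine Relation.ReflTransGen.single ⟨El i M c hM, Or.inl ⟨i, M, c, hM, rfl⟩,
        (one_mul _).symm, ?_, hOp1⟩
      rw [conj_one]
      exact hOp
    have h2 := RT_mul (El i M c hM) hg2
    rw [mul_one] at h2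
    exact h1.trans h2
  · rw [conj_mul]
    exact hg3

end LC1Aux

theorem LC1a {D : Der k} (hD : IsLND D) {α : Wt} (hα0 : ∀ j, 0 ≤ α j)
    (h1 : ∀ i j, α i = 0 → α j = 0 → i = j) {θ : ℝ} (hθ : 0 < θ)
    (hLe : Le (supp D) α (θ * sm α)) (hne : ∃ P ∈ supp D, dt P α = θ * sm α)
    (hOp : Op (supp D) θ) :
    ∃ g : Au k, Pres g α α ∧ RT D θ 1 g ∧ Fin' (supp (lead α (θ * sm α) (conj g D))) α := by
  have hα1 : 0 < sm α := by
    have hs : 0 ≤ sm α := Finset.sum_nonneg fun i _ => hα0 i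
    refine lt_of_le_of_ne hs fun h0 => ?_
    have h2 := (Finset.sum_eq_zero_iff_of_nonneg (fun i _ => hα0 i)).1 h0.symm
    have h3 := h1 0 1 (h2 0 (Finset.mem_univ _)) (h2 1 (Finset.mem_univ _))
    exact absurd h3 (by decide)
  generalize hn : (Aset (supp (lead α (θ * sm α) D)) α θ).ncard = n
  induction n using Nat.strong_induction_on generalizing D with
  | _ n ih =>
    have hDb : IsLND (lead α (θ * sm α) D) := hD.lead hLe
    have hDb0 : lead α (θ * sm α) D ≠ 0 := lead_ne_zero hne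
    have hs : ∀ P ∈ supp (lead α (θ * sm α) D), dt P α = θ * sm α := fun P hP =>
      (mem_supp_lead.1 hP).2
    have hOpb : Op (supp (lead α (θ * sm α) D)) θ := (LC1Aux.Op_lead hα0 hLe).1 hOp
    by_cases hF : ∃ a, ∀ P ∈ supp (lead α (θ * sm α) D), P a = 0
    · refine ⟨1, Pres.one α, Relation.ReflTransGen.refl, Or.inl ?_⟩
      rw [conj_one]
      exact hF
    · obtain ⟨β, t, hβ0, hβ, ht, h⟩ := visible_edge hDb hDb0 hα0 hα1 hθ hs hOpb hF
      rcases h with ⟨i, M, κ, hM, hM0, hκ, hne', hker, hMα, hMβ⟩ |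
        ⟨a, b, c, i, m, N, E, hab, hac, hbc, hm, hi, hN, hE, rα, rβ, q1, q2⟩
      · have hαi : 0 < α i := by
          refine lt_of_le_of_ne (hα0 i) fun h0 => hM0 ?_
          rw [← h0] at hMα
          have h2 := (Finset.sum_eq_zero_iff_of_nonneg
            (fun j _ => mul_nonneg (Nat.cast_nonneg (M j)) (hα0 j))).1 hMα
          ext j
          rw [Finsupp.zero_apply]
          by_cases hj : j = i
          · rw [hj, hM]
          · rcases mul_eq_zero.1 (h2 j (Finset.mem_univ _)) with h3 | h3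
            · exact_mod_cast h3
            · exact absurd (h1 j i h3 h0.symm) hj
        obtain ⟨-, A2, A3⟩ := adapt hDb hα0 hθ hs hβ0 hβ ht hM hMα hMβ hαi hne' hker
        refine LC1Aux.step hα0 hLe hne hOp hM hMα ⟨β, hβ0, A2⟩ fun hLe1 hne1 hOp1 => ?_
        refine ih _ ?_ (hD.conj _) hLe1 hne1 hOp1 rfl
        rw [← hn, lead_conj_El_eq hM hMα hLe]
        exact Set.ncard_lt_ncard A3 (Aset_finite hOpb α)
      · refine ⟨1, Pres.one α, Relation.ReflTransGen.refl, Or.inr ?_⟩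
        rw [conj_one]
        exact ⟨a, b, c, i, m, N, E, type3_F2 hα0 h1 hθ hs hβ0 hβ ht hab hac hbc hm hi hN hE
          rα rβ q1 q2⟩

end Pool.Agent.TL
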