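import Pool.Agent.TL.ED
import Pool.Agent.TL.GR
import Pool.Agent.TL.TH

set_option autoImplicit false

/-! # PL: the plateau lemma

Proof (paper proof section 5). `θ = Th (supp D) > 0`, `Δ` = simplex. For `γ₀` in `Δ` with `Le (supp D) γ₀ θ` the
face `lead γ₀ θ D` is not open at `θ` (`Op_face`, `Th_lt_iff`; note `sm γ₀ = 1`), hence nonzero.
(i) three linearly independent minimisers `α, β, γ`: the face at `(α+β+γ)/3` has `P·α = P·β = P·γ = θ`, so it
is a single point, which is a root (`root_of_max`), so the face is open (`Op_of_zero`): contradiction.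
(ii) `γ₀ = (α+β)/2`, `D̄ = lead γ₀ θ D`, `P·α = P·β = θ` on it; a single point is a root, so open; so it has at
least two points and `edge` applies: type 1 is open; type 3: `γ₀ c > 0` (otherwise `α c = β c = 0`,
`α a = m α b`, same for `β`, so `α = β`), and `u = t γ₀ + (i at a, 0 at b, -1 at c)` is a witness for `t` large:
`P·u = tθ + i r - (E + i r) < θ (t + i - 1)`. Type 2: `g = El i M (-κ)`: `conj g D̄` kills `x_i` and `x_c`, so
all its points vanish at the third index: open; `lead γ₀ θ (conj g D) = conj g D̄` (`lead_conj_El_eq`, as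
`dE M γ₀ = γ₀ i`), `Le_conj`, `Op_face`: `conj g D` is open. If a minimiser `γ` has `dE M γ ≠ γ i` then `α, β, γ`
are independent (`dE M · - · i` vanishes on `α`, `β`): (i). -/

namespace Pool.Agent.TL

open MvPolynomial

variable {k : Type} [Field k] [CharZero k]

namespace PLAux

theorem sm_of_mem {α : Wt} (h : α ∈ stdSimplex ℝ (Fin 3)) : sm α = 1 := h.2

omit [CharZero k] in
theorem face_eq (D : Der k) {γ : Wt} (hγ : sm γ = 1) (θ : ℝ) :
    (supp D).filter (fun P => dt P γ = θ * sm γ) = supp (lead γ θ D) := by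
  ext P
  rw [Finset.mem_filter, mem_supp_lead, hγ, mul_one]

omit [CharZero k] in
theorem Op_lead {D : Der k} {γ : Wt} (h0 : ∀ i, 0 ≤ γ i) (hγ : sm γ = 1) {θ : ℝ}
    (hS : Le (supp D) γ θ) : Op (supp D) θ ↔ Op (supp (lead γ θ D)) θ := by
  rw [Op_face (S := supp D) (α := γ) h0 (θ := θ) (by rw [hγ, mul_one]; exact hS),
    face_eq D hγ θ]

/-- a closed face has at least two points -/
theorem two_points {D : Der k} (hD : IsLND D) {γ : Wt} {θ : ℝ} (hθ : 0 < θ)
    (hS : Le (supp D) γ θ) (hn : ¬ Op (supp (lead γ θ D)) θ) :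
    ∃ P ∈ supp (lead γ θ D), ∃ Q ∈ supp (lead γ θ D), P ≠ Q := by
  by_contra hcon
  push Not at hcon
  apply hn
  by_cases he : supp (lead γ θ D) = ∅
  · refine Op_of_zero (i := 0) ?_ hθ
    rw [he]
    simp
  · obtain ⟨P, hP⟩ := Finset.nonempty_iff_ne_empty.mpr he
    have hL : IsLND (lead γ θ D) := hD.lead hS
    obtain ⟨i, hi⟩ := root_of_max hL 0 hP (fun Q hQ hne => absurd (hcon P hP Q hQ).symm hne)
    refine Op_of_zero (i := i) ?_ hθ
    intro Q hQ
    rw [← hcon P hP Q hQ]
    exact hi

theorem linInd {α β : Wt} (hα : sm α = 1) (hβ : sm β = 1) (hne : α ≠ β) :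
    LinearIndependent ℝ ![α, β] := by
  rw [LinearIndependent.pair_iff]
  intro s t hst
  have h1 : s + t = 0 := by
    have h2 : sm (fun j => s * α j + t * β j) = s * sm α + t * sm β := sm_lin α β s t
    have h3 : (fun j => s * α j + t * β j) = (0 : Wt) := by
      funext j
      have := congrFun hst j
      simpa using this
    rw [h3, hα, hβ] at h2
    simp [sm] at h2
    linarith
  have h4 : t = -s := by linarith
  subst h4
  have h5 : ∀ j, s * (α j - β j) = 0 := by
    intro j
    have := congrFun hst j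
    simp at this
    linarith
  obtain ⟨j, hj⟩ := Function.ne_iff.mp hne
  rcases mul_eq_zero.mp (h5 j) with h | h
  · exact ⟨h, by rw [h]; simp⟩
  · exact absurd (by linarith) hj

/-- points of a face of three minimisers agree -/
theorem point_unique {α β γ : Wt} (hα : sm α = 1) (hβ : sm β = 1) (hne : α ≠ β)
    {i : Fin 3} {M : Fin 3 →₀ ℕ} (hM : M i = 0) (hMα : dE M α = α i) (hMβ : dE M β = β i)
    (hMγ : dE M γ ≠ γ i) {P Q : Fin 3 → ℕ} (h1 : dt P α = dt Q α) (h2 : dt P β = dt Q β)
    (h3 : dt P γ = dt Q γ) : P = Q := by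
  obtain ⟨j, hji, -⟩ := exists_third i i
  obtain ⟨l, hli, hlj⟩ := exists_third i j
  unfold dt at h1 h2 h3
  unfold dE at hMα hMβ hMγ
  unfold sm at hα hβ
  rw [sum3 hji.symm hli.symm hlj.symm] at h1 h2 h3 hMα hMβ hMγ hα hβ
  rw [sum3 hji.symm hli.symm hlj.symm] at h1 h2 h3
  rw [hM] at hMα hMβ hMγ
  push_cast at hMα hMβ hMγ
  set x : ℝ := (P i : ℝ) - Q i
  set u : ℝ := (P j : ℝ) - Q j + x * M j with hu
  set v : ℝ := (P l : ℝ) - Q l + x * M l with hv
  have e1 : u * α j + v * α l = 0 := by
    rw [hu, hv]; linear_combination h1 + x * hMα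
  have e2 : u * β j + v * β l = 0 := by
    rw [hu, hv]; linear_combination h2 + x * hMβ
  have f1 : (1 + (M j : ℝ)) * α j + (1 + (M l : ℝ)) * α l = 1 := by
    linear_combination hα + hMα
  have f2 : (1 + (M j : ℝ)) * β j + (1 + (M l : ℝ)) * β l = 1 := by
    linear_combination hβ + hMβ
  have hdet : u * (1 + (M l : ℝ)) - v * (1 + (M j : ℝ)) = 0 := by
    by_contra hd
    apply hne
    have ga : (α j - β j) * (u * (1 + (M l : ℝ)) - v * (1 + (M j : ℝ))) = 0 := by
      linear_combination (1 + (M l : ℝ)) * (e1 - e2) - v * (f1 - f2)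
    have gb : (α l - β l) * (u * (1 + (M l : ℝ)) - v * (1 + (M j : ℝ))) = 0 := by
      linear_combination u * (f1 - f2) - (1 + (M j : ℝ)) * (e1 - e2)
    have ha : α j = β j := by
      rcases mul_eq_zero.mp ga with h | h
      · linarith
      · exact absurd h hd
    have hb : α l = β l := by
      rcases mul_eq_zero.mp gb with h | h
      · linarith
      · exact absurd h hd
    have hi : α i = β i := by linarith
    funext r
    rcases eq_of_ne hji.symm hli.symm hlj.symm r with rfl | rfl | rfl
    · exact hi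
    · exact ha
    · exact hb
  have hu0 : u = 0 := by linear_combination (α l) * hdet + (1 + (M j : ℝ)) * e1 - u * f1
  have hv0 : v = 0 := by linear_combination (-(α j)) * hdet + (1 + (M l : ℝ)) * e1 - v * f1
  have hx : x * (0 * γ i + M j * γ j + M l * γ l - γ i) = 0 := by
    have : u * γ j + v * γ l = 0 := by rw [hu0, hv0]; ring
    rw [hu, hv] at this
    linear_combination this - h3
  have hx0 : x = 0 := by
    rcases mul_eq_zero.mp hx with h | h
    · exact h
    · exact absurd (by linarith) hMγ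
  have k1 : (P i : ℝ) = Q i := by linarith
  have k2 : (P j : ℝ) = Q j := by
    have := hu.symm.trans hu0
    rw [hx0] at this
    linarith
  have k3 : (P l : ℝ) = Q l := by
    have := hv.symm.trans hv0
    rw [hx0] at this
    linarith
  funext r
  rcases eq_of_ne hji.symm hli.symm hlj.symm r with rfl | rfl | rfl
  · exact_mod_cast k1
  · exact_mod_cast k2
  · exact_mod_cast k3

end PLAux

open PLAux

theorem plateau {D : Der k} (hD : IsLND D) (h0 : D ≠ 0) (hθ : 0 < Th (supp D)) {α β : Wt}
    (hα : α ∈ stdSimplex ℝ (Fin 3)) (hβ : β ∈ stdSimplex ℝ (Fin 3)) (hne : α ≠ β)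
    (hLα : Le (supp D) α (Th (supp D))) (hLβ : Le (supp D) β (Th (supp D))) :
    ∃ (i : Fin 3) (M : Fin 3 →₀ ℕ) (c : k) (hM : M i = 0),
      Th (supp (conj (El i M c hM) D)) < Th (supp D) ∧
      ∀ γ ∈ stdSimplex ℝ (Fin 3), Le (supp D) γ (Th (supp D)) → dE M γ = γ i := by
  set θ := Th (supp D) with hθdef
  have hne' : (supp D).Nonempty := supp_nonempty h0
  have hnotop : ¬ Op (supp D) θ := by
    intro h
    exact lt_irrefl _ ((Th_lt_iff hne').mpr h)
  have sα := sm_of_mem hα
  have sβ := sm_of_mem hβ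
  -- the midpoint
  set γ₀ : Wt := fun j => (1 / 2) * α j + (1 / 2) * β j with hγ₀
  have h0γ : ∀ j, 0 ≤ γ₀ j := by
    intro j
    have h1 := hα.1 j
    have h2 := hβ.1 j
    simp only [hγ₀]
    positivity
  have sγ : sm γ₀ = 1 := by
    rw [hγ₀, sm_lin, sα, sβ]; norm_num
  have hLγ : Le (supp D) γ₀ θ := by
    intro P hP
    have h1 := hLα P hP
    have h2 := hLβ P hP
    rw [hγ₀, dt_lin]
    linarith
  have hcl : ¬ Op (supp (lead γ₀ θ D)) θ := fun h => hnotop ((Op_lead h0γ sγ hLγ).mpr h)
  have hcard := two_points hD hθ hLγ hcl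
  have hL : IsLND (lead γ₀ θ D) := hD.lead hLγ
  have hb : ∀ P ∈ supp (lead γ₀ θ D), dt P α = θ ∧ dt P β = θ := by
    intro P hP
    obtain ⟨hP1, hP2⟩ := mem_supp_lead.mp hP
    have h1 := hLα P hP1
    have h2 := hLβ P hP1
    rw [hγ₀, dt_lin] at hP2
    constructor <;> linarith
  rcases edge hL (fun P hP => (hb P hP).1) (fun P hP => (hb P hP).2) (linInd sα sβ hne) hcard
    with ⟨a, ha⟩ | ⟨i, M, κ, c, hM, hM0, hci, hκ, hDc, hDi, hker, hMα, hMβ⟩ |
      ⟨a, b, c, i, m, N, E, hab, hac, hbc, hm, hi, hN, hE, rα, rβ, hpts, -, -⟩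
  · exact absurd (Op_of_zero ha hθ) hcl
  · -- elementary edge
    refine ⟨i, M, -κ, hM, ?_, ?_⟩
    · have hMγ₀ : dE M γ₀ = γ₀ i := by
        simp only [hγ₀]
        rw [dE_lin, hMα, hMβ]
      have hlead := lead_conj_El_eq (c := -κ) hM hMγ₀ hLγ
      set g : Au k := El i M (-κ) hM with hg
      have hne2 : (supp (conj g D)).Nonempty := supp_nonempty (conj_ne_zero h0 g)
      rw [Th_lt_iff hne2]
      have hLe2 : Le (supp (conj g D)) γ₀ θ :=
        (Le_conj (Pres_El hM (le_of_eq hMγ₀)) rfl D θ).mpr hLγ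
      rw [Op_lead h0γ sγ hLe2, hlead]
      obtain ⟨r, hri, hrc⟩ := exists_third i c
      refine Op_of_zero (i := r) ?_ hθ
      refine (all_zero_iff (hL.conj g) r).mp ?_
      intro j hj
      have hgi : conj g (lead γ₀ θ D) (X i) = 0 := by
        rw [conj_apply, hg, El_apply_self]
        have : (X i + monomial M (-κ) : Rg k) = X i - monomial M κ := by
          rw [map_neg]; ring
        rw [this, hker, map_zero]
      have hgc : conj g (lead γ₀ θ D) (X c) = 0 := by
        rw [conj_apply, hg, El_apply_ne _ _ _ hci, hDc, map_zero]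
      rcases eq_of_ne hci.symm hri.symm hrc.symm j with rfl | rfl | rfl
      · exact hgi
      · exact hgc
      · exact absurd rfl hj
    · intro γ hγ hLγ'
      by_contra hMγ
      have s1 := sm_of_mem hγ
      set γ₁ : Wt := fun j => (2 / 3) * γ₀ j + (1 / 3) * γ j with hγ₁
      have h01 : ∀ j, 0 ≤ γ₁ j := by
        intro j
        have h1 := h0γ j
        have h2 := hγ.1 j
        simp only [hγ₁]
        positivity
      have s2 : sm γ₁ = 1 := by
        rw [hγ₁, sm_lin, sγ, s1]; norm_num
      have hL1 : Le (supp D) γ₁ θ := by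
        intro P hP
        have h1 := hLγ P hP
        have h2 := hLγ' P hP
        rw [hγ₁, dt_lin]
        linarith
      have hcl1 : ¬ Op (supp (lead γ₁ θ D)) θ := fun h => hnotop ((Op_lead h01 s2 hL1).mpr h)
      obtain ⟨P, hP, Q, hQ, hPQ⟩ := two_points hD hθ hL1 hcl1
      have hb1 : ∀ P ∈ supp (lead γ₁ θ D), dt P α = θ ∧ dt P β = θ ∧ dt P γ = θ := by
        intro P hP
        obtain ⟨hP1, hP2⟩ := mem_supp_lead.mp hP
        have h1 := hLα P hP1
        have h2 := hLβ P hP1
        have h3 := hLγ' P hP1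
        have h4 : dt P γ₀ = (1 / 2) * dt P α + (1 / 2) * dt P β := by
          rw [hγ₀, dt_lin]
        rw [hγ₁, dt_lin, h4] at hP2
        refine ⟨?_, ?_, ?_⟩ <;> linarith
      obtain ⟨p1, p2, p3⟩ := hb1 P hP
      obtain ⟨q1, q2, q3⟩ := hb1 Q hQ
      exact hPQ (point_unique sα sβ hne hM hMα hMβ hMγ (p1.trans q1.symm) (p2.trans q2.symm)
        (p3.trans q3.symm))
  · -- Nagata type: open
    exfalso
    have hi' : (1 : ℝ) ≤ i := by exact_mod_cast hi
    have hm' : (2 : ℝ) ≤ m := by exact_mod_cast hm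
    have hE' : (1 : ℝ) ≤ E := by exact_mod_cast hE
    have hγc : 0 < γ₀ c := by
      rcases lt_or_eq_of_le (h0γ c) with h | h
      · exact h
      · exfalso
        have h1 := hα.1 c
        have h2 := hβ.1 c
        have h3 : α c = 0 := by simp only [hγ₀] at h; linarith
        have h4 : β c = 0 := by simp only [hγ₀] at h; linarith
        rw [h3] at rα
        rw [h4] at rβ
        unfold sm at sα sβ
        rw [sum3 hab hac hbc] at sα sβ
        have h5 : α b = β b := by
          have : ((m : ℝ) + 1) * (α b - β b) = 0 := by linarith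
          rcases mul_eq_zero.mp this with h | h
          · linarith
          · linarith
        apply hne
        funext r
        rcases eq_of_ne hab hac hbc r with rfl | rfl | rfl
        · rw [h5] at rα; linarith
        · exact h5
        · rw [h3, h4]
    apply hcl
    set T : ℝ := 1 / γ₀ c with hT
    have hTc : T * γ₀ c = 1 := by rw [hT]; field_simp
    have hT0 : 0 < T := by rw [hT]; positivity
    set w : Wt := fun j => if j = a then (i : ℝ) else if j = c then -1 else 0 with hw
    have wa : w a = i := by simp [hw]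
    have wb : w b = 0 := by simp [hw, hab.symm, hbc]
    have wc : w c = -1 := by simp [hw, hac.symm]
    refine ⟨fun j => T * γ₀ j + 1 * w j, ?_, ?_⟩
    · intro j
      have h1 : 0 ≤ T * γ₀ j := mul_nonneg hT0.le (h0γ j)
      show 0 ≤ T * γ₀ j + 1 * w j
      rcases eq_of_ne hab hac hbc j with rfl | rfl | rfl
      · rw [wa]; linarith
      · rw [wb]; linarith
      · rw [wc, hTc]; linarith
    · intro P hP
      obtain ⟨r, hr, h1, h2, h3⟩ := hpts P hP
      have hPγ : dt P γ₀ = θ := (mem_supp_lead.mp hP).2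
      have hPw : dt P w = -E := by
        unfold dt
        rw [sum3 hab hac hbc, wa, wb, wc, h1, h3]
        push_cast
        ring
      have hsw : sm w = i - 1 := by
        unfold sm
        rw [sum3 hab hac hbc, wa, wb, wc]
        ring
      rw [dt_lin, sm_lin, hPγ, hPw, sγ, hsw]
      nlinarith

end Pool.Agent.TL
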