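import Pool.Agent.TL.LC
import Pool.Agent.TL.LA2
import Pool.Agent.TL.PL

set_option autoImplicit false

/-! # LW: lowering a path -/

namespace Pool.Agent.TL

open MvPolynomial

variable {k : Type} [Field k] [CharZero k]

/-- one generator step with both ends at most at level `θ` -/
def PStp (D : Der k) (θ : ℝ) (σ σ' : Au k) : Prop :=
  ∃ g ∈ (Gen : Set (Au k)), σ' = σ * g ∧ Th (supp (conj σ D)) ≤ θ ∧
    Th (supp (conj σ' D)) ≤ θ

namespace LWAux

omit [CharZero k] in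
theorem sm_one {α : Wt} (h : α ∈ stdSimplex ℝ (Fin 3)) : sm α = 1 := h.2

/-- an anchor at `τ` for the weight `α`: an open coordinate system connected with `σ` which
carries the same valuation -/
def Anc (D : Der k) (θ : ℝ) (σ τ : Au k) (α : Wt) : Prop :=
  ∃ (b ρ : Au k) (β : Wt), RT D θ σ b ∧ Op (supp (conj b D)) θ ∧ b = τ * ρ ∧ Pres ρ α β

/-- the invariant of the induction -/
def Inv (D : Der k) (θ : ℝ) (σ τ : Au k) : Prop :=
  (Op (supp (conj τ D)) θ → RT D θ σ τ) ∧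
  (¬ Op (supp (conj τ D)) θ → ∃ α ∈ stdSimplex ℝ (Fin 3), Le (supp (conj τ D)) α θ ∧
    Anc D θ σ τ α)

/-- two open coordinate systems carrying a common valuation are connected -/
theorem conn {D : Der k} (hD : IsLND D) {θ : ℝ} (hθ : 0 < θ) {τ b b' ρ ρ' : Au k}
    {α β β' : Wt} (hα : α ∈ stdSimplex ℝ (Fin 3)) (hLe : Le (supp (conj τ D)) α θ)
    (hn : ¬ Op (supp (conj τ D)) θ) (hb : b = τ * ρ) (hb' : b' = τ * ρ') (hρ : Pres ρ α β)
    (hρ' : Pres ρ' α β') (h1 : Op (supp (conj b D)) θ) (h2 : Op (supp (conj b' D)) θ) :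
    RT D θ b b' := by
  have hs1 := sm_one hα
  have hsβ : sm α = sm β := hρ.permW.sm
  have hconj : conj b D = conj ρ (conj τ D) := by rw [hb, conj_mul]
  have hmul : b * (ρ⁻¹ * ρ') = b' := by
    rw [hb, hb', mul_assoc, mul_inv_cancel_left]
  have key : RT (conj b D) θ 1 (ρ⁻¹ * ρ') := by
    refine LC (hD.conj b) (α := β) (β := β') (hρ.nonneg hα.1) (by rw [← hsβ, hs1]; norm_num)
      hθ ?_ ?_ ((hρ.inv).mul hρ') h1 ?_
    · rw [← hsβ, hs1, mul_one, hconj]
      exact (Le_conj hρ hsβ _ _).2 hLe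
    · by_contra hcon
      push Not at hcon
      apply hn
      refine ⟨α, hα.1, ?_⟩
      rw [hs1, mul_one]
      refine (lt_conj hρ hsβ (conj τ D) θ).1 ?_
      intro P hP
      rw [← hconj] at hP
      have hle : dt P β ≤ θ := by
        have := (Le_conj hρ hsβ (conj τ D) θ).2 hLe
        rw [← hconj] at this
        exact this P hP
      have hne := hcon P hP
      rw [← hsβ, hs1, mul_one] at hne
      exact lt_of_le_of_ne hle hne
    · rw [← conj_mul, hmul]
      exact h2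
  have := RT_mul b key
  rwa [mul_one, hmul] at this

/-- anchors can be moved to other minimising weights -/
theorem move {D : Der k} (hD : IsLND D) (h0 : D ≠ 0) {θ : ℝ} (hθ : 0 < θ) {σ τ : Au k}
    {α α₀ : Wt} (hα : α ∈ stdSimplex ℝ (Fin 3)) (hα₀ : α₀ ∈ stdSimplex ℝ (Fin 3))
    (hLe : Le (supp (conj τ D)) α θ) (hLe₀ : Le (supp (conj τ D)) α₀ θ)
    (hn : ¬ Op (supp (conj τ D)) θ) (h : Anc D θ σ τ α₀) : Anc D θ σ τ α := by
  by_cases hne : α₀ = α
  · rw [← hne]; exact h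
  have hD' := hD.conj τ
  have h0' : conj τ D ≠ 0 := conj_ne_zero h0 τ
  have hS := supp_nonempty h0'
  have hTh : Th (supp (conj τ D)) = θ := by
    refine le_antisymm (Th_le hS hα hLe) ?_
    by_contra hlt
    exact hn ((Th_lt_iff hS).1 (not_le.1 hlt))
  obtain ⟨i, M, c, hM, hlt, hall⟩ := plateau hD' h0' (by rw [hTh]; exact hθ) hα₀ hα hne
    (by rw [hTh]; exact hLe₀) (by rw [hTh]; exact hLe)
  rw [hTh] at hlt hall
  obtain ⟨b, ρ, β, hRT, hOp, hb, hρ⟩ := h
  have hOp' : Op (supp (conj (τ * El i M c hM) D)) θ := by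
    rw [conj_mul]
    refine (Th_lt_iff (supp_nonempty (conj_ne_zero h0' _))).1 hlt
  have hP₀ : Pres (El i M c hM) α₀ α₀ := Pres_El hM (hall α₀ hα₀ hLe₀).le
  have hP : Pres (El i M c hM) α α := Pres_El hM (hall α hα hLe).le
  have hcn := conn hD hθ hα₀ hLe₀ hn hb rfl hρ hP₀ hOp hOp'
  exact ⟨τ * El i M c hM, El i M c hM, α, hRT.trans hcn, hOp', rfl, hP⟩

/-- the induction step -/
theorem step {D : Der k} (hD : IsLND D) (h0 : D ≠ 0) {θ : ℝ} (hθ : 0 < θ) {σ τ g : Au k}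
    (hg : g ∈ (Gen : Set (Au k))) {α α' : Wt} (hα : α ∈ stdSimplex ℝ (Fin 3))
    (hα' : α' ∈ stdSimplex ℝ (Fin 3)) (hP : Pres g α α')
    (hLe : Le (supp (conj τ D)) α θ) (hLe' : Le (supp (conj (τ * g) D)) α' θ)
    (h : Inv D θ σ τ) : Inv D θ σ (τ * g) := by
  by_cases hOp : Op (supp (conj τ D)) θ
  · have hRT := h.1 hOp
    refine ⟨fun hOp' => ?_, fun _ => ?_⟩
    · exact hRT.tail ⟨g, hg, rfl, hOp, hOp'⟩
    · refine ⟨α', hα', hLe', τ, g⁻¹, α, hRT, hOp, ?_, hP.inv⟩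
      rw [mul_inv_cancel_right]
  · obtain ⟨α₀, hα₀, hLe₀, hA⟩ := h.2 hOp
    have hA' := move hD h0 hθ hα hα₀ hLe hLe₀ hOp hA
    obtain ⟨b, ρ, β, hRT, hOpb, hb, hρ⟩ := hA'
    refine ⟨fun hOp' => ?_, fun _ => ?_⟩
    · exact hRT.trans (conn hD hθ hα hLe hOp hb rfl hρ hP hOpb hOp')
    · refine ⟨α', hα', hLe', b, g⁻¹ * ρ, β, hRT, hOpb, ?_, hP.inv.mul hρ⟩
      rw [hb, mul_assoc, mul_inv_cancel_left]

omit [CharZero k] in
theorem El_zero (i : Fin 3) (M : Fin 3 →₀ ℕ) (hM : M i = 0) : El i M (0 : k) hM = 1 := by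
  apply AlgEquiv.coe_toAlgHom_injective
  apply MvPolynomial.algHom_ext
  intro j
  change El i M (0 : k) hM (X j) = X j
  by_cases hj : j = i
  · subst hj
    rw [El_apply_self, map_zero, add_zero]
  · rw [El_apply_ne _ _ _ hj]

end LWAux

open LWAux in
theorem lower {D : Der k} (hD : IsLND D) (h0 : D ≠ 0) {θ : ℝ} (hθ : 0 < θ) {σ σ' : Au k}
    (h : Relation.ReflTransGen (PStp D θ) σ σ') (h1 : Op (supp (conj σ D)) θ)
    (h2 : Op (supp (conj σ' D)) θ) : RT D θ σ σ' := by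
  have key : Inv D θ σ σ' := by
    clear h2
    induction h with
    | refl => exact ⟨fun _ => Relation.ReflTransGen.refl, fun h => (h h1).elim⟩
    | @tail τ τ' _ hst ih =>
      obtain ⟨g, hg, rfl, hT1, hT2⟩ := hst
      have hne := conj_ne_zero h0 τ
      rcases hg with ⟨i, M, c, hM, rfl⟩ | ⟨u, rfl⟩ | ⟨π, rfl⟩
      · by_cases hc : c = 0
        · subst hc
          rw [El_zero, mul_one]
          exact ih
        · rw [conj_mul] at hT2
          obtain ⟨α, hα, hM1, hL1, hL2⟩ := wall (hD.conj τ) hne hM hc hT1 hT2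
          rw [← conj_mul] at hL2
          exact step hD h0 hθ (Or.inl ⟨i, M, c, hM, rfl⟩) hα hα (Pres_El hM hM1) hL1 hL2 ih
      · obtain ⟨α, hα, hL⟩ := Th_attained (supp (conj τ D))
        have hL1 : Le (supp (conj τ D)) α θ := fun P hP => (hL P hP).trans hT1
        refine step hD h0 hθ (Or.inr (Or.inl ⟨u, rfl⟩)) hα hα (Pres_Sc u α) hL1 ?_ ih
        rw [conj_mul]
        exact (Le_conj (Pres_Sc u α) rfl _ _).2 hL1
      · obtain ⟨α, hα, hL⟩ := Th_attained (supp (conj τ D))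
        have hL1 : Le (supp (conj τ D)) α θ := fun P hP => (hL P hP).trans hT1
        have hs : sm α = sm (fun j => α (π j)) := by
          unfold sm
          exact (Equiv.sum_comp π α).symm
        refine step hD h0 hθ (Or.inr (Or.inr ⟨π, rfl⟩)) hα (α' := fun j => α (π j)) ?_
          (Pres_Pm π α) hL1 ?_ ih
        · exact ⟨fun j => hα.1 (π j), by
            have := hα.2
            rw [← Equiv.sum_comp π α] at this
            exact this⟩
        · rw [conj_mul]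
          exact (Le_conj (Pres_Pm π α) hs _ _).2 hL1
  exact key.1 h2

end Pool.Agent.TL
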