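import Pool.Agent.TL.TH

set_option autoImplicit false

/-! # WQ: the values `Th S` are well ordered (well quasi order of finite subsets of `ℕ^3`) -/

namespace Pool.Agent.TL

/-- no strictly decreasing sequence of values `Th S`, `S` finite and nonempty.
Proof: finite subsets of `ℕ^3` are well quasi ordered by domination (`∀ P ∈ S, ∃ Q ∈ T, P ≤ Q`)
(Dickson's lemma + Higman's lemma, for instance through lists and `List.SublistForall₂`), and `Th`
is monotone (`Th_mono`). -/
theorem Th_wf : {t : ℝ | ∃ S : Finset (Fin 3 → ℕ), S.Nonempty ∧ Th S = t}.IsWF := by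
  rw [Set.isWF_iff_no_descending_seq]
  intro f hf hmem
  choose S hne hS using hmem
  have hD : (Set.univ : Set (Fin 3 → ℕ)).PartiallyWellOrderedOn (· ≤ ·) :=
    Set.isPWO_of_wellQuasiOrderedLE _
  have hH := Set.PartiallyWellOrderedOn.partiallyWellOrderedOn_sublistForall₂
    (fun a b : Fin 3 → ℕ => a ≤ b) hD
  obtain ⟨m, n, hmn, hrel⟩ := hH (fun n => ⟨(S n).toList, fun x _ => Set.mem_univ x⟩)
  obtain ⟨l, hl, hsub⟩ := List.sublistForall₂_iff.1 hrel
  have hdom : ∀ P ∈ S m, ∃ Q ∈ S n, ∀ i, P i ≤ Q i := by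
    intro P hP
    obtain ⟨j, hj, hPj⟩ := List.getElem_of_mem (Finset.mem_toList.2 hP)
    have hj' : j < l.length := by rw [← hl.length_eq]; exact hj
    have h1 := hl.get hj hj'
    simp only [List.get_eq_getElem, hPj] at h1
    exact ⟨l[j], Finset.mem_toList.1 (hsub.subset (List.getElem_mem hj')), h1⟩
  have h1 := Th_mono (hne m) hdom
  rw [hS m, hS n] at h1
  exact absurd (hf hmn) (not_lt.2 h1)

end Pool.Agent.TL
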