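import Pool.Agent.TL.LW
import Pool.Agent.TL.WQ
import Pool.Agent.TL.FX

set_option autoImplicit false

/-! # MN: theorem A -/

namespace Pool.Agent.TL

open MvPolynomial

variable {k : Type} [Field k] [CharZero k]

namespace MNAux

/-- the set of values -/
def VV : Set ℝ := {t : ℝ | ∃ S : Finset (Fin 3 → ℕ), S.Nonempty ∧ Th S = t}

theorem VV_wf : VV.IsWF := Th_wf

theorem VV_max {s t : ℝ} (hs : s ∈ VV) (ht : t ∈ VV) : max s t ∈ VV := by
  rcases max_choice s t with h | h <;> rw [h] <;> assumption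

theorem Th_mem {D : Der k} (h0 : D ≠ 0) (σ : Au k) : Th (supp (conj σ D)) ∈ VV :=
  ⟨_, supp_nonempty (conj_ne_zero h0 σ), rfl⟩

theorem Gen_inv {g : Au k} (h : g ∈ (Gen : Set (Au k))) : g⁻¹ ∈ (Gen : Set (Au k)) := by
  rcases h with ⟨i, M, c, hM, rfl⟩ | ⟨u, rfl⟩ | ⟨π, rfl⟩
  · exact Or.inl ⟨i, M, -c, hM, El_symm i M c hM⟩
  · refine Or.inr (Or.inl ⟨fun j => (u j)⁻¹, ?_⟩)
    symm
    apply eq_inv_of_mul_eq_one_left
    apply AlgEquiv.coe_toAlgHom_injective
    apply MvPolynomial.algHom_ext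
    intro j
    change (Sc (fun j => (u j)⁻¹) : Au k) ((Sc u : Au k) (X j)) = X j
    have e1 : (Sc u : Au k) (X j) = C (u j : k) * X j := by
      change aeval _ (X j) = _
      rw [aeval_X]
    have e2 : (Sc (fun j => (u j)⁻¹) : Au k) (X j) = C (((u j)⁻¹ : kˣ) : k) * X j := by
      change aeval _ (X j) = _
      rw [aeval_X]
    have e3 : ∀ c : k, (Sc (fun j => (u j)⁻¹) : Au k) (C c) = C c := by
      intro c
      exact (Sc (fun j => (u j)⁻¹) : Au k).commutes c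
    rw [e1, map_mul, e3, e2, ← mul_assoc, ← C_mul, Units.mul_inv]
    simp
  · refine Or.inr (Or.inr ⟨π⁻¹, ?_⟩)
    symm
    apply eq_inv_of_mul_eq_one_left
    exact LCAux.Pm_inv_mul π

theorem PStp_mono {D : Der k} {θ θ' : ℝ} (h : θ ≤ θ') {σ σ' : Au k} (hs : PStp D θ σ σ') :
    PStp D θ' σ σ' := by
  obtain ⟨g, hg, e, h1, h2⟩ := hs
  exact ⟨g, hg, e, h1.trans h, h2.trans h⟩

theorem PStp_symm {D : Der k} {θ : ℝ} {σ σ' : Au k} (hs : PStp D θ σ σ') : PStp D θ σ' σ := by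
  obtain ⟨g, hg, e, h1, h2⟩ := hs
  exact ⟨g⁻¹, Gen_inv hg, by rw [e]; group, h2, h1⟩

theorem path_mono {D : Der k} {θ θ' : ℝ} (h : θ ≤ θ') {σ σ' : Au k}
    (hs : Relation.ReflTransGen (PStp D θ) σ σ') : Relation.ReflTransGen (PStp D θ') σ σ' :=
  Relation.ReflTransGen.mono (fun _ _ => PStp_mono h) _ _ hs

theorem path_symm {D : Der k} {θ : ℝ} {σ σ' : Au k}
    (hs : Relation.ReflTransGen (PStp D θ) σ σ') : Relation.ReflTransGen (PStp D θ) σ' σ := by
  induction hs with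
  | refl => exact Relation.ReflTransGen.refl
  | tail _ h ih => exact (Relation.ReflTransGen.single (PStp_symm h)).trans ih

/-- any element of the group gives a path below some level -/
theorem exists_path {D : Der k} (h0 : D ≠ 0) {g : Au k}
    (hg : g ∈ Subgroup.closure (Gen : Set (Au k))) :
    ∀ σ : Au k, ∃ θ ∈ VV, Relation.ReflTransGen (PStp D θ) σ (σ * g) := by
  induction hg using Subgroup.closure_induction with
  | mem g hg =>
    intro σ
    refine ⟨max (Th (supp (conj σ D))) (Th (supp (conj (σ * g) D))),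
      VV_max (Th_mem h0 _) (Th_mem h0 _), Relation.ReflTransGen.single
        ⟨g, hg, rfl, le_max_left _ _, le_max_right _ _⟩⟩
  | one => intro σ; exact ⟨_, Th_mem h0 1, by rw [mul_one]⟩
  | mul x y _ _ hx hy =>
    intro σ
    obtain ⟨t1, h1, p1⟩ := hx σ
    obtain ⟨t2, h2, p2⟩ := hy (σ * x)
    refine ⟨max t1 t2, VV_max h1 h2, (path_mono (le_max_left _ _) p1).trans ?_⟩
    rw [← mul_assoc]
    exact path_mono (le_max_right _ _) p2
  | inv x _ hx =>
    intro σ
    obtain ⟨t, h, p⟩ := hx (σ * x⁻¹)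
    refine ⟨t, h, ?_⟩
    rw [inv_mul_cancel_right] at p
    exact path_symm p

theorem El_zero (i : Fin 3) (M : Fin 3 →₀ ℕ) (h : M i = 0) : (El i M (0 : k) h) = 1 := by
  apply AlgEquiv.coe_toAlgHom_injective
  apply MvPolynomial.algHom_ext
  intro j
  change El i M (0 : k) h (X j) = X j
  by_cases hj : j = i
  · subst hj; rw [El_apply_self]; simp
  · rw [El_apply_ne _ _ _ hj]

theorem sm_one {α : Wt} (h : α ∈ stdSimplex ℝ (Fin 3)) : sm α = 1 := h.2

end MNAux

open MNAux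

theorem mainA {D : Der k} {φ : Au k} (h : IsExp D φ)
    (hφ : φ ∈ Subgroup.closure (Gen : Set (Au k))) :
    ∃ σ ∈ Subgroup.closure (Gen : Set (Au k)), ∃ α ∈ stdSimplex ℝ (Fin 3),
      Le (supp (conj σ D)) α (sm α) := by
  by_cases h0 : D = 0
  · obtain ⟨α, hα, -⟩ := Th_attained ∅
    refine ⟨1, one_mem _, α, hα, ?_⟩
    rw [conj_one, h0]
    intro P hP
    rw [supp_eq_empty.2 rfl] at hP
    simp at hP
  have hL : IsLND D := h.lnd
  -- the minimal level
  set T : Set ℝ := {t | ∃ σ ∈ Subgroup.closure (Gen : Set (Au k)), Th (supp (conj σ D)) = t}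
    with hT
  have hTV : T ⊆ VV := by
    rintro t ⟨σ, -, rfl⟩
    exact Th_mem h0 σ
  have hTwf : T.IsWF := VV_wf.mono hTV
  have hTne : T.Nonempty := ⟨_, 1, one_mem _, rfl⟩
  obtain ⟨σ₀, hσ₀, hθ₀⟩ := hTwf.min_mem hTne
  set θ₀ := hTwf.min hTne with hθdef
  have hmin : ∀ σ ∈ Subgroup.closure (Gen : Set (Au k)), θ₀ ≤ Th (supp (conj σ D)) := by
    intro σ hσ
    exact hTwf.min_le hTne ⟨σ, hσ, rfl⟩
  have hne : ∀ σ : Au k, (supp (conj σ D)).Nonempty := fun σ =>
    supp_nonempty (conj_ne_zero h0 σ)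
  by_cases hpos : θ₀ ≤ 0
  · obtain ⟨α, hα, hle⟩ := Th_attained (supp (conj σ₀ D))
    refine ⟨σ₀, hσ₀, α, hα, ?_⟩
    intro P hP
    have := hle P hP
    rw [hθ₀] at this
    rw [sm_one hα]
    linarith
  push Not at hpos
  have hcφ : conj (φ * σ₀) D = conj σ₀ D := by rw [conj_mul, h.conj_self]
  -- minimal level of a path
  set W : Set ℝ := {t | t ∈ VV ∧ θ₀ ≤ t ∧
    Relation.ReflTransGen (PStp D t) σ₀ (φ * σ₀)} with hW
  have hWwf : W.IsWF := VV_wf.mono fun t ht => ht.1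
  have hWne : W.Nonempty := by
    have hg : σ₀⁻¹ * φ * σ₀ ∈ Subgroup.closure (Gen : Set (Au k)) :=
      mul_mem (mul_mem (inv_mem hσ₀) hφ) hσ₀
    obtain ⟨t, ht, hp⟩ := exists_path h0 hg σ₀
    refine ⟨max t θ₀, VV_max ht (hTV (hTwf.min_mem hTne)), le_max_right _ _, ?_⟩
    have : σ₀ * (σ₀⁻¹ * φ * σ₀) = φ * σ₀ := by group
    rw [this] at hp
    exact path_mono (le_max_left _ _) hp
  obtain ⟨hθ₁V, hθ₁, hpath⟩ := hWwf.min_mem hWne
  set θ₁ := hWwf.min hWne with hθ₁def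
  have heq : θ₁ = θ₀ := by
    rcases lt_or_eq_of_le hθ₁ with hlt | heq
    · exfalso
      have o1 : Op (supp (conj σ₀ D)) θ₁ := (Th_lt_iff (hne _)).1 (by rw [hθ₀]; exact hlt)
      have hR := lower hL h0 (lt_trans hpos hlt) hpath o1 (by rw [hcφ]; exact o1)
      have claim : ∀ σ', RT D θ₁ σ₀ σ' → ∃ t ∈ VV, θ₀ ≤ t ∧ t < θ₁ ∧
          Relation.ReflTransGen (PStp D t) σ₀ σ' := by
        intro σ' hR
        induction hR with
        | refl => exact ⟨θ₀, hTV (hTwf.min_mem hTne), le_refl _, hlt,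
            Relation.ReflTransGen.refl⟩
        | @tail b c _ hs ih =>
          obtain ⟨t, ht, ht0, ht1, hp⟩ := ih
          obtain ⟨g, hg, e, o1, o2⟩ := hs
          have l1 := (Th_lt_iff (hne _)).2 o1
          have l2 := (Th_lt_iff (hne _)).2 o2
          refine ⟨max t (max (Th (supp (conj b D))) (Th (supp (conj c D)))),
            VV_max ht (VV_max (Th_mem h0 _) (Th_mem h0 _)), ht0.trans (le_max_left _ _),
            max_lt ht1 (max_lt l1 l2), (path_mono (le_max_left _ _) hp).tail ?_⟩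
          exact ⟨g, hg, e, (le_max_left _ _).trans (le_max_right _ _),
            (le_max_right _ _).trans (le_max_right _ _)⟩
      obtain ⟨t, htV, ht0, ht1, hp⟩ := claim _ hR
      exact absurd (hWwf.min_le hWne ⟨htV, ht0, hp⟩) (not_le.2 ht1)
    · exact heq.symm
  rw [heq] at hpath
  -- uniqueness of minimisers at the minimal level
  have uniq : ∀ σ ∈ Subgroup.closure (Gen : Set (Au k)), Th (supp (conj σ D)) = θ₀ →
      ∀ α ∈ stdSimplex ℝ (Fin 3), ∀ β ∈ stdSimplex ℝ (Fin 3), Le (supp (conj σ D)) α θ₀ →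
      Le (supp (conj σ D)) β θ₀ → α = β := by
    intro σ hσ hTh α hα β hβ h1 h2
    by_contra hne'
    obtain ⟨i, M, c, hM, hlt, -⟩ := plateau (hL.conj σ) (conj_ne_zero h0 σ)
      (by rw [hTh]; exact hpos) hα hβ hne' (by rw [hTh]; exact h1) (by rw [hTh]; exact h2)
    have hmem : σ * El i M c hM ∈ Subgroup.closure (Gen : Set (Au k)) :=
      mul_mem hσ (Subgroup.subset_closure (Or.inl ⟨i, M, c, hM, rfl⟩))
    have := hmin _ hmem
    rw [conj_mul] at this
    rw [hTh] at hlt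
    linarith
  obtain ⟨α₀, hα₀, hle₀⟩ := Th_attained (supp (conj σ₀ D))
  rw [hθ₀] at hle₀
  -- transport of the minimiser along the path
  have inv : ∀ σ', Relation.ReflTransGen (PStp D θ₀) σ₀ σ' →
      σ' ∈ Subgroup.closure (Gen : Set (Au k)) ∧ Th (supp (conj σ' D)) = θ₀ ∧
      ∃ α ∈ stdSimplex ℝ (Fin 3), Le (supp (conj σ' D)) α θ₀ ∧ Pres (σ₀⁻¹ * σ') α₀ α := by
    intro σ' hp
    induction hp with
    | refl =>
      refine ⟨hσ₀, hθ₀, α₀, hα₀, hle₀, ?_⟩
      rw [inv_mul_cancel]; exact Pres.one _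
    | @tail b c _ hs ih =>
      obtain ⟨hb, hThb, α, hα, hle, hP⟩ := ih
      obtain ⟨g, hg, e, l1, l2⟩ := hs
      have hc : c ∈ Subgroup.closure (Gen : Set (Au k)) := by
        rw [e]; exact mul_mem hb (Subgroup.subset_closure hg)
      refine ⟨hc, le_antisymm l2 (hmin c hc), ?_⟩
      have eassoc : σ₀⁻¹ * c = (σ₀⁻¹ * b) * g := by rw [e, mul_assoc]
      have econj : conj c D = conj g (conj b D) := by rw [e, conj_mul]
      -- enough: a weight
      have fin : ∀ β : Wt, β ∈ stdSimplex ℝ (Fin 3) → Pres g α β →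
          ∃ α ∈ stdSimplex ℝ (Fin 3), Le (supp (conj c D)) α θ₀ ∧
            Pres (σ₀⁻¹ * c) α₀ α := by
        intro β hβ hPg
        refine ⟨β, hβ, ?_, ?_⟩
        · rw [econj]
          exact (Le_conj hPg (by rw [sm_one hα, sm_one hβ]) _ _).2 hle
        · rw [eassoc]; exact hP.mul hPg
      rcases hg with ⟨i, M, d, hM, rfl⟩ | ⟨u, rfl⟩ | ⟨π, rfl⟩
      · by_cases hd : d = 0
        · subst hd
          exact fin α hα (by rw [El_zero]; exact Pres.one _)
        · obtain ⟨β, hβ, hM2, hl1, hl2⟩ := wall (hL.conj b) (conj_ne_zero h0 b) hM hd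
            (θ := θ₀) (le_of_eq hThb) (by rw [← econj]; exact l2)
          have : α = β := uniq b hb hThb α hα β hβ hle hl1
          subst this
          exact fin α hα (Pres_El hM hM2)
      · exact fin α hα (Pres_Sc u α)
      · refine fin _ ⟨fun j => hα.1 _, ?_⟩ (Pres_Pm π α)
        rw [Equiv.sum_comp π α]
        exact hα.2
  obtain ⟨-, hTh, α, hα, hle, hP⟩ := inv _ hpath
  rw [hcφ] at hle
  have : α = α₀ := uniq σ₀ hσ₀ hθ₀ α hα α₀ hα₀ hle hle₀
  subst this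
  refine ⟨σ₀, hσ₀, α, hα, ?_⟩
  refine FX (h.conj σ₀) ?_
  rw [mul_assoc]
  exact hP

end Pool.Agent.TL
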