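import Pool.Agent.TL.BB

set_option autoImplicit false

/-! # PT: perturbation of a common valuation; weights of isometries are permutations -/

namespace Pool.Agent.TL

open MvPolynomial

variable {k : Type} [Field k]

namespace PTAux

theorem small {ι : Type} (T : Finset ι) (a b : ι → ℝ) (ha : ∀ x ∈ T, 0 < a x) :
    ∃ ε₀ : ℝ, 0 < ε₀ ∧ ∀ ε : ℝ, 0 < ε → ε < ε₀ → ∀ x ∈ T, ε * b x < a x := by
  classical
  induction T using Finset.induction_on with
  | empty => exact ⟨1, one_pos, by simp⟩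
  | insert x T hx ih =>
    obtain ⟨ε₁, h1, h2⟩ := ih (fun y hy => ha y (Finset.mem_insert_of_mem hy))
    have hax := ha x (Finset.mem_insert_self x T)
    have hb : 0 < |b x| + 1 := by positivity
    refine ⟨min ε₁ (a x / (|b x| + 1)), lt_min h1 (div_pos hax hb), ?_⟩
    intro ε h0 hε y hy
    rcases Finset.mem_insert.1 hy with rfl | hy
    · have h3 : ε < a y / (|b y| + 1) := hε.trans_le (min_le_right _ _)
      have h4 : ε * (|b y| + 1) < a y := (lt_div_iff₀ hb).1 h3
      have h5 : ε * b y ≤ ε * (|b y| + 1) :=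
        mul_le_mul_of_nonneg_left (by have := le_abs_self (b y); linarith) h0.le
      linarith
    · exact h2 ε h0 (hε.trans_le (min_le_left _ _)) y hy

theorem dE_pert (m : Fin 3 →₀ ℕ) (α δ : Wt) (ε : ℝ) :
    dE m (fun j => α j + ε * δ j) = dE m α + ε * dE m δ := by
  have h := dE_lin m α δ 1 ε
  simpa using h

theorem dt_pert (P : Fin 3 → ℕ) (α δ : Wt) (ε : ℝ) :
    dt P (fun j => α j + ε * δ j) = dt P α + ε * dt P δ := by
  have h := dt_lin P α δ 1 ε
  simpa using h

theorem sm_pert (α δ : Wt) (ε : ℝ) :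
    sm (fun j => α j + ε * δ j) = sm α + ε * sm δ := by
  have h := sm_lin α δ 1 ε
  simpa using h

theorem half {f : Fin 3 → Rg k} {α δ δ' : Wt} (hf : ∀ j, LE α (α j) (f j))
    (h1 : ∀ j m, coeff m (hc α (α j) (f j)) ≠ 0 → dE m δ ≤ δ' j) :
    ∃ ε₀ : ℝ, 0 < ε₀ ∧ ∀ ε : ℝ, 0 < ε → ε < ε₀ →
      ∀ j, LE (fun j => α j + ε * δ j) (α j + ε * δ' j) (f j) := by
  classical
  obtain ⟨ε₀, h0, h2⟩ := small
    (Finset.univ.sigma fun j : Fin 3 => (f j).support.filter fun m => dE m α < α j)
    (fun p => α p.1 - dE p.2 α) (fun p => dE p.2 δ - δ' p.1) (by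
      rintro ⟨j, m⟩ hp
      simp only [Finset.mem_sigma, Finset.mem_filter] at hp
      have := hp.2.2
      simp only
      linarith)
  refine ⟨ε₀, h0, fun ε hε hε' j m hm => ?_⟩
  rw [dE_pert]
  rcases (hf j m hm).lt_or_eq with h3 | h3
  · have h4 := h2 ε hε hε' ⟨j, m⟩ (by
      simp only [Finset.mem_sigma, Finset.mem_filter, Finset.mem_univ, true_and]
      exact ⟨mem_support_iff.2 hm, h3⟩)
    simp only at h4
    nlinarith
  · have h4 := h1 j m (by rw [coeff_hc_eq _ h3]; exact hm)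
    have h5 : ε * dE m δ ≤ ε * δ' j := mul_le_mul_of_nonneg_left h4 hε.le
    linarith

/-- chain rule -/
theorem chain (τ : Au k) (i : Fin 3) (p : Rg k) :
    pderiv i (τ p) = ∑ l, τ (pderiv l p) * pderiv i (τ (X l)) := by
  induction p using MvPolynomial.induction_on with
  | C a =>
    have h : τ (C a) = C a := by
      rw [← algebraMap_eq]
      exact τ.commutes a
    rw [h]
    simp
  | add p q hp hq =>
    simp only [map_add, hp, hq, add_mul, Finset.sum_add_distrib]
  | mul_X p n hp =>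
    rw [map_mul, Derivation.leibniz, hp]
    have h : ∀ l, τ (pderiv l (p * X n)) * pderiv i (τ (X l)) =
        τ p * (τ (pderiv l (X n)) * pderiv i (τ (X l))) +
          τ (X n) * (τ (pderiv l p) * pderiv i (τ (X l))) := by
      intro l
      rw [Derivation.leibniz, smul_eq_mul, smul_eq_mul, map_add, map_mul, map_mul]
      ring
    simp only [h, Finset.sum_add_distrib, ← Finset.mul_sum, smul_eq_mul]
    congr 2
    rw [Finset.sum_eq_single n]
    · rw [pderiv_X_self, map_one, one_mul]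
    · intro l _ hl
      rw [pderiv_X_of_ne (Ne.symm hl), map_zero, zero_mul]
    · intro h'
      exact absurd (Finset.mem_univ n) h'

theorem coeff_pd (i : Fin 3) (f : Rg k) :
    constantCoeff (pderiv i f) = coeff (Finsupp.single i 1) f := by
  rw [constantCoeff_eq, coeff_pderiv]
  simp

end PTAux

/-- If the top parts satisfy the `δ`-inequalities then `τ` preserves the perturbed valuations.
Proof: finitely many monomials `m` of `τ x_j`: `dE m α = α j` (then `m` occurs in the top part and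
`dE m δ ≤ δ' j`) or `dE m α < α j` (small `ε`). -/
theorem perturb {τ : Au k} {α δ δ' : Wt} (hP : Pres τ α α)
    (h1 : ∀ j m, coeff m (hc α (α j) (τ (X j))) ≠ 0 → dE m δ ≤ δ' j)
    (h2 : ∀ j m, coeff m (hc α (α j) (τ.symm (X j))) ≠ 0 → dE m δ' ≤ δ j) :
    ∃ ε₀ : ℝ, 0 < ε₀ ∧ ∀ ε : ℝ, 0 < ε → ε < ε₀ →
      Pres τ (fun j => α j + ε * δ j) (fun j => α j + ε * δ' j) := by
  obtain ⟨e1, p1, q1⟩ := PTAux.half (f := fun j => τ (X j)) hP.1 h1
  obtain ⟨e2, p2, q2⟩ := PTAux.half (f := fun j => τ.symm (X j)) hP.2 h2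
  refine ⟨min e1 e2, lt_min p1 p2, fun ε h0 hε => ⟨?_, ?_⟩⟩
  · exact q1 ε h0 (hε.trans_le (min_le_left _ _))
  · exact q2 ε h0 (hε.trans_le (min_le_right _ _))

theorem perturb_lt {S : Finset (Fin 3 → ℕ)} {α δ : Wt} {θ : ℝ} (hLe : Le S α (θ * sm α))
    (h : ∀ P ∈ S, dt P α = θ * sm α → dt P δ < θ * sm δ) :
    ∃ ε₀ : ℝ, 0 < ε₀ ∧ ∀ ε : ℝ, 0 < ε → ε < ε₀ →
      ∀ P ∈ S, dt P (fun j => α j + ε * δ j) < θ * sm (fun j => α j + ε * δ j) := by
  classical
  obtain ⟨ε₀, h0, h2⟩ := PTAux.small (S.filter fun P => dt P α < θ * sm α)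
    (fun P => θ * sm α - dt P α) (fun P => dt P δ - θ * sm δ) (by
      intro P hP
      have := (Finset.mem_filter.1 hP).2
      linarith)
  refine ⟨ε₀, h0, fun ε hε hε' P hP => ?_⟩
  rw [PTAux.dt_pert, PTAux.sm_pert]
  rcases (hLe P hP).lt_or_eq with h3 | h3
  · have h4 := h2 ε hε hε' P (Finset.mem_filter.2 ⟨hP, h3⟩)
    nlinarith
  · have h4 := h P hP h3
    have h5 : ε * dt P δ < ε * (θ * sm δ) := mul_lt_mul_of_pos_left h4 hε
    nlinarith

/-- The linear part of an automorphism at the origin is invertible, so it contains a permutation.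
Proof: the Jacobian matrix of `τ` has the inverse `τ`-image of the Jacobian matrix of `τ⁻¹` (chain rule);
evaluate at `0`; the determinant is nonzero, so some product in the Leibniz formula is nonzero. -/
theorem exists_perm_coeff (τ : Au k) :
    ∃ π : Equiv.Perm (Fin 3), ∀ j, coeff (Finsupp.single (π j) 1) (τ (X j)) ≠ 0 := by
  classical
  set J : Matrix (Fin 3) (Fin 3) k := Matrix.of fun i l => coeff (Finsupp.single i 1) (τ (X l))
    with hJ
  set B : Matrix (Fin 3) (Fin 3) k := Matrix.of fun l j =>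
    constantCoeff (τ (pderiv l (τ.symm (X j)))) with hB
  have hJB : J * B = 1 := by
    ext i j
    rw [Matrix.mul_apply]
    have h := PTAux.chain τ i (τ.symm (X j))
    rw [AlgEquiv.apply_symm_apply] at h
    have h2 := congrArg constantCoeff h
    rw [map_sum] at h2
    have h3 : ∀ l, constantCoeff (τ (pderiv l (τ.symm (X j))) * pderiv i (τ (X l))) =
        J i l * B l j := by
      intro l
      rw [map_mul, PTAux.coeff_pd, hJ, hB, Matrix.of_apply, Matrix.of_apply, mul_comm]
    rw [Finset.sum_congr rfl fun l _ => h3 l] at h2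
    rw [← h2, Matrix.one_apply]
    by_cases hij : i = j
    · subst hij
      rw [pderiv_X_self, if_pos rfl, map_one]
    · rw [pderiv_X_of_ne (fun h => hij h.symm), if_neg hij, map_zero]
  have hdet : J.det ≠ 0 := by
    intro h0
    have h1 := congrArg Matrix.det hJB
    rw [Matrix.det_mul, h0, zero_mul, Matrix.det_one] at h1
    exact zero_ne_one h1
  rw [Matrix.det_apply'] at hdet
  obtain ⟨π, _, hπ⟩ := Finset.exists_ne_zero_of_sum_ne_zero hdet
  refine ⟨π, fun j hj => ?_⟩
  apply hπ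
  have : ∏ i, J (π i) i = 0 := Finset.prod_eq_zero (Finset.mem_univ j) hj
  rw [this, mul_zero]

/-- Proof: `α (π j) ≤ β j` for all `j`, `β (π' j) ≤ α j` for all `j`; sum up. -/
theorem Pres.permW {τ : Au k} {α β : Wt} (h : Pres τ α β) : PermW α β := by
  obtain ⟨π, hπ⟩ := exists_perm_coeff τ
  obtain ⟨π', hπ'⟩ := exists_perm_coeff τ.symm
  have h1 : ∀ j, α (π j) ≤ β j := by
    intro j
    have := h.1 j _ (hπ j)
    rw [dE_single, Nat.cast_one, one_mul] at this
    exact this
  have h2 : ∀ j, β (π' j) ≤ α j := by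
    intro j
    have := h.2 j _ (hπ' j)
    rw [dE_single, Nat.cast_one, one_mul] at this
    exact this
  have h3 : ∑ j, α (π j) = ∑ j, α j := Equiv.sum_comp π α
  have h4 : ∑ j, β (π' j) = ∑ j, β j := Equiv.sum_comp π' β
  have h5 : ∑ j, β (π' j) ≤ ∑ j, α j := Finset.sum_le_sum fun j _ => h2 j
  have h6 : ∑ j, (β j - α (π j)) = 0 := by
    apply le_antisymm
    · rw [Finset.sum_sub_distrib]
      linarith
    · exact Finset.sum_nonneg fun j _ => sub_nonneg.2 (h1 j)
  have h7 := (Finset.sum_eq_zero_iff_of_nonneg fun j _ => sub_nonneg.2 (h1 j)).1 h6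
  exact ⟨π, fun j => by have := h7 j (Finset.mem_univ j); linarith⟩

end Pool.Agent.TL
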