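import Pool.Agent.TL.LN
import Pool.Agent.TL.BB

set_option autoImplicit false

/-! # TP: principle (T) and one-variable facts -/

namespace Pool.Agent.TL

open MvPolynomial

variable {k : Type} [Field k] [CharZero k]

namespace TPAux

theorem dE_e (x : Fin 3) (m : Fin 3 →₀ ℕ) : dE m (Pi.single x 1 : Wt) = m x := by
  simp [dE, Pi.single_apply]

theorem dt_e (x : Fin 3) (P : Fin 3 → ℕ) : dt P (Pi.single x 1 : Wt) = P x := by
  simp [dt, Pi.single_apply]

theorem sm_e (x : Fin 3) : sm (Pi.single x 1 : Wt) = 1 := by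
  simp [sm]

theorem ex_ker {D : Der k} (hD : IsLND D) {f : Rg k} (hf : D f = 0) :
    ex D hD f = Polynomial.C f := by
  ext1 n
  rw [ex_coeff]
  rcases n with _ | n
  · simp
  · have : (⇑D)^[n + 1] f = 0 := by
      rw [Function.iterate_succ_apply, hf]
      exact Function.iterate_fixed (map_zero D) n
    rw [this, smul_zero, Polynomial.coeff_C_succ]

theorem main {D : Der k} (hD : IsLND D) {z : Fin 3}
    (h : ∀ m, coeff m (D (X z)) ≠ 0 → D (monomial (m.erase z) 1) = 0) :
    ∀ m, coeff m (D (X z)) ≠ 0 → m z = 0 := by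
  intro m₀ hm₀
  set g := D (X z) with hg
  have hg0 : g ≠ 0 := by
    rintro h0
    rw [h0] at hm₀
    simp at hm₀
  set G : Polynomial (Rg k) :=
    ∑ m ∈ g.support, Polynomial.monomial (m z) (monomial (m.erase z) (coeff m g)) with hG
  have hex : ex D hD g = G.comp (ex D hD (X z)) := by
    rw [hG, Polynomial.sum_comp]
    conv_lhs => rw [g.as_sum]
    rw [map_sum]
    refine Finset.sum_congr rfl ?_
    intro m hm
    rw [Polynomial.monomial_comp]
    have e1 : (monomial m (coeff m g) : Rg k)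
        = monomial (m.erase z) (coeff m g) * X z ^ (m z) := by
      rw [X_pow_eq_monomial, monomial_mul, mul_one]
      rw [Finsupp.erase_add_single z m]
    rw [e1, map_mul, map_pow]
    congr 1
    refine ex_ker hD ?_
    have e2 : (monomial (m.erase z) (coeff m g) : Rg k)
        = (coeff m g) • monomial (m.erase z) 1 := by
      rw [smul_monomial, smul_eq_mul, mul_one]
    rw [e2, D.map_smul, h m (mem_support_iff.mp hm), smul_zero]
  have hdeg : G.natDegree * ld D hD (X z) + 1 = ld D hD (X z) := by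
    have h1 : ld D hD g + 1 = ld D hD (X z) := ld_D hD hg0
    have h2 : ld D hD g = G.natDegree * ld D hD (X z) := by
      unfold ld
      rw [hex, Polynomial.natDegree_comp]
    rw [← h2]; exact h1
  have hG0 : G.natDegree = 0 := by
    by_contra h0
    have : 1 * ld D hD (X z) ≤ G.natDegree * ld D hD (X z) :=
      Nat.mul_le_mul_right _ (Nat.one_le_iff_ne_zero.mpr h0)
    omega
  by_contra hz
  have h1 : G.coeff (m₀ z) = 0 := by
    apply Polynomial.coeff_eq_zero_of_natDegree_lt
    rw [hG0]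
    exact Nat.pos_of_ne_zero hz
  have h2 : coeff (m₀.erase z) (G.coeff (m₀ z)) = coeff m₀ g := by
    rw [hG, Polynomial.finsetSum_coeff, coeff_sum]
    rw [Finset.sum_eq_single m₀]
    · rw [Polynomial.coeff_monomial, if_pos rfl, coeff_monomial, if_pos rfl]
    · intro m _ hne
      rw [Polynomial.coeff_monomial]
      split_ifs with h3
      · rw [coeff_monomial, if_neg]
        intro h4
        apply hne
        rw [← Finsupp.erase_add_single z m, ← Finsupp.erase_add_single z m₀, h4, h3]
      · simp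
    · intro h5
      rw [notMem_support_iff] at h5
      rw [h5]
      simp
  rw [h1] at h2
  apply hm₀
  rw [← h2]
  simp

end TPAux

open TPAux

/-- Principle (T): `D x = b x + p` with `b, p` not involving `x`, and `D y`, `D z` not involving `x`: then `b = 0`.
Proof: weight `e_x`: all points have `P x ≤ 1`; `D̂ = lead e_x 1 D` is locally nilpotent with `D̂ x = b x`, so
`D̂ x = 0` (`D_eq_zero_of_dvd`). -/
theorem principleT {D : Der k} (hD : IsLND D) {x : Fin 3}
    (h : ∀ j, j ≠ x → ∀ m, coeff m (D (X j)) ≠ 0 → m x = 0) {b p : Rg k}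
    (hb : ∀ m, coeff m b ≠ 0 → m x = 0) (hp : ∀ m, coeff m p ≠ 0 → m x = 0)
    (hx : D (X x) = b * X x + p) : b = 0 := by
  have hbH : Hg (Pi.single x 1 : Wt) 0 b := by
    intro m hm
    rw [dE_e, hb m hm]
    simp
  have hpH : Hg (Pi.single x 1 : Wt) 0 p := by
    intro m hm
    rw [dE_e, hp m hm]
    simp
  have hXH : Hg (Pi.single x 1 : Wt) 1 (X x : Rg k) := by
    have := Hg_X (k := k) (Pi.single x 1 : Wt) x
    simpa using this
  have hbX : Hg (Pi.single x 1 : Wt) 1 (b * X x) := by
    have := hbH.mul hXH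
    simpa using this
  have hLe : Le (supp D) (Pi.single x 1 : Wt) 1 := by
    rw [Le_supp_iff]
    intro j m hm
    rw [sm_e, dE_e]
    by_cases hj : j = x
    · subst hj
      rw [hx, coeff_add] at hm
      by_cases h1 : coeff m (b * X j) = 0
      · rw [h1, zero_add] at hm
        rw [hp m hm]
        simp
      · have := hbX m h1
        rw [dE_e] at this
        rw [this]
        simp
    · rw [h j hj m hm]
      simp [hj]
  have hL := hD.lead hLe
  have hLX : lead (Pi.single x 1 : Wt) 1 D (X x) = b * X x := by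
    rw [lead_X, sm_e, hx, hc_add]
    have e1 : (1 : ℝ) - 1 + (Pi.single x 1 : Wt) x = 1 := by simp
    rw [e1, hc_of_Hg hbX, hc_of_Hg_ne hpH (by norm_num), add_zero]
  have h0 : lead (Pi.single x 1 : Wt) 1 D (X x) = 0 :=
    D_eq_zero_of_dvd hL (by rw [hLX]; exact dvd_mul_left _ _)
  rw [hLX] at h0
  rcases mul_eq_zero.mp h0 with h1 | h1
  · exact h1
  · exact absurd h1 (X_ne_zero x)

/-- if `D z ∈ k[z]` then `D z` is constant. Proof: if `D z ≠ 0` then `D^(n+1) z = 0 ≠ D^n z`, `n ≥ 1`, with
`D^n z ∈ k[z]` in the kernel; if it were not constant then `z` would be algebraic over the kernel, so in it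
(factorially closed: `g(z) - g(0)` in the kernel is divisible by `z`); so `D^n z` is constant; the `z`-degrees
of `z, D z, D^2 z, ...`: if `D z` has degree `d ≥ 2` they increase, if `d = 1` they stay `1`; so `d = 0`. (Or: the
top part for the weight `e_z`.) -/
theorem one_var {D : Der k} (hD : IsLND D) {z : Fin 3}
    (h : ∀ m, coeff m (D (X z)) ≠ 0 → ∀ j, j ≠ z → m j = 0) : ∃ c : k, D (X z) = C c := by
  have h1 := main hD (z := z) (by
    intro m hm
    have : m.erase z = 0 := by
      ext j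
      by_cases hj : j = z
      · subst hj; simp
      · rw [Finsupp.erase_ne hj, h m hm j hj]; simp
    rw [this]
    have e : (monomial 0 1 : Rg k) = 1 := rfl
    rw [e]
    exact D.map_one_eq_zero)
  refine ⟨coeff 0 (D (X z)), ?_⟩
  ext m
  rw [coeff_C]
  split_ifs with h2
  · rw [← h2]
  · by_contra h3
    apply h2
    ext j
    by_cases hj : j = z
    · subst hj; rw [h1 m h3]; simp
    · rw [h m h3 j hj]; simp

/-- if `D y = 0` and `D z ∈ k[y, z]` then `D z ∈ k[y]`. -/
theorem two_var {D : Der k} (hD : IsLND D) {x y z : Fin 3} (hxy : x ≠ y) (hxz : x ≠ z)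
    (hyz : y ≠ z) (hy : D (X y) = 0) (h : ∀ m, coeff m (D (X z)) ≠ 0 → m x = 0) :
    ∀ m, coeff m (D (X z)) ≠ 0 → m x = 0 ∧ m z = 0 := by
  intro m hm
  refine ⟨h m hm, main hD (z := z) ?_ m hm⟩
  intro m hm
  have : m.erase z = Finsupp.single y (m y) := by
    ext j
    rcases eq_of_ne hxy hxz hyz j with rfl | rfl | rfl
    · rw [Finsupp.erase_ne hxz, h m hm]; simp [hxy.symm]
    · rw [Finsupp.erase_ne hyz]; simp
    · simp [hyz]
  rw [this, ← X_pow_eq_monomial, Derivation.leibniz_pow, hy, smul_zero, smul_zero]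

omit [CharZero k] in
/-- reading off triangularity after a permutation: `D z ∈ k`, `D y ∈ k[z]`, `D x ∈ k[y, z]` -/
theorem TriD_perm {D : Der k} {x y z : Fin 3} (hxy : x ≠ y) (hxz : x ≠ z) (hyz : y ≠ z)
    (hz : ∀ m, coeff m (D (X z)) ≠ 0 → m = 0)
    (hy : ∀ m, coeff m (D (X y)) ≠ 0 → m x = 0 ∧ m y = 0)
    (hx : ∀ m, coeff m (D (X x)) ≠ 0 → m x = 0) :
    ∃ π : Equiv.Perm (Fin 3), TriD (conj (Pm π) D) := by
  have hinj : Function.Injective (![z, y, x] : Fin 3 → Fin 3) := by
    intro i j hij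
    fin_cases i <;> fin_cases j <;> simp_all [Ne.symm]
  obtain ⟨π, hπ⟩ : ∃ π : Equiv.Perm (Fin 3), ∀ i, π i = (![z, y, x] : Fin 3 → Fin 3) i :=
    ⟨Equiv.ofBijective _ (Finite.injective_iff_bijective.mp hinj), fun i => rfl⟩
  have p0 : π 0 = z := hπ 0
  have p1 : π 1 = y := hπ 1
  have p2 : π 2 = x := hπ 2
  refine ⟨π, ?_⟩
  intro i j hj
  rw [conj_apply] at hj
  have e1 : (Pm π : Au k) (X i) = X (π i) := by
    simp [Pm]
  have e2 : (Pm π : Au k).symm (D (X (π i))) = rename π.symm (D (X (π i))) := by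
    simp [Pm]
  rw [e1, e2] at hj
  have h1 := vars_rename _ _ hj
  obtain ⟨j', hj', rfl⟩ := Finset.mem_image.mp h1
  obtain ⟨m, hm, hmj⟩ := (mem_vars_iff_mem_support j').mp hj'
  have hm' := mem_support_iff.mp hm
  have hmj' : m j' ≠ 0 := Finsupp.mem_support_iff.mp hmj
  have q0 : π.symm z = 0 := by rw [← p0]; simp
  have q1 : π.symm y = 1 := by rw [← p1]; simp
  fin_cases i
  · change coeff m (D (X (π 0))) ≠ 0 at hm'
    rw [p0] at hm'
    rw [hz m hm'] at hmj'
    simp at hmj'
  · change coeff m (D (X (π 1))) ≠ 0 at hm'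
    rw [p1] at hm'
    obtain ⟨h2, h3⟩ := hy m hm'
    rcases eq_of_ne hxy hxz hyz j' with rfl | rfl | rfl
    · exact absurd h2 hmj'
    · exact absurd h3 hmj'
    · rw [q0]; decide
  · change coeff m (D (X (π 2))) ≠ 0 at hm'
    rw [p2] at hm'
    have h2 := hx m hm'
    rcases eq_of_ne hxy hxz hyz j' with rfl | rfl | rfl
    · exact absurd h2 hmj'
    · rw [q1]; decide
    · rw [q0]; decide

end Pool.Agent.TL
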