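import Pool.Agent.TL.PS
import Pool.Agent.TL.TP
import Pool.Agent.TL.SA

set_option autoImplicit false

/-! # RE: Rentschler's theorem -/

namespace Pool.Agent.TL

open MvPolynomial

variable {k : Type} [Field k] [CharZero k]

namespace REAux

/-- the weight of the variable `x` -/
noncomputable def wx (x : Fin 3) : Wt := fun j => if j = x then 1 else 0

theorem dE_wx (x : Fin 3) (m : Fin 3 →₀ ℕ) : dE m (wx x) = m x := by
  unfold dE wx
  rw [Finset.sum_eq_single x]
  · simp
  · intro j _ hj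
    simp [hj]
  · simp

theorem main {x y z : Fin 3} (hxy : x ≠ y) (hxz : x ≠ z) (hyz : y ≠ z) (n : ℕ) :
    ∀ (D : Der k) (_ : IsLND D) (_ : ∀ P ∈ supp D, P x = 1)
      (_ : (supp D).sup (fun P => P y) + (supp D).sup (fun P => P z) ≤ n),
    ∃ σ ∈ Subgroup.closure (Gen : Set (Au k)), σ (X x) = X x ∧ Pres σ (wx x) (wx x) ∧
      (conj σ D (X y) = 0 ∨ conj σ D (X z) = 0) := by
  induction n using Nat.strong_induction_on with
  | _ n ih =>
  intro D hD hx hn
  by_cases hy : D (X y) = 0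
  · exact ⟨1, Subgroup.one_mem _, rfl, Pres.one _, Or.inl (by rw [conj_one]; exact hy)⟩
  by_cases hz : D (X z) = 0
  · exact ⟨1, Subgroup.one_mem _, rfl, Pres.one _, Or.inr (by rw [conj_one]; exact hz)⟩
  have hD0 : D ≠ 0 := by
    rintro rfl
    exact hy rfl
  have hne := supp_nonempty hD0
  obtain ⟨P1, hP1, hP1'⟩ := Finset.exists_mem_eq_sup _ hne (fun P => P y)
  obtain ⟨P2, hP2, hP2'⟩ := Finset.exists_mem_eq_sup _ hne (fun P => P z)
  obtain ⟨i, j, e, κ, hM, β, he, hix, hjx, hij, -, -, hsup, hlt, -⟩ :=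
    plane_step hD hxy hxz hyz le_rfl hx hy hz
      (p := (supp D).sup (fun P => P y)) (q := (supp D).sup (fun P => P z))
      (fun P hP => Finset.le_sup (f := fun P : Fin 3 → ℕ => P y) hP)
      (fun P hP => Finset.le_sup (f := fun P : Fin 3 → ℕ => P z) hP)
      ⟨P1, hP1, hP1'.symm⟩ ⟨P2, hP2, hP2'.symm⟩
  obtain ⟨P0, hP0⟩ := supp_nonempty (conj_ne_zero hD0 (El i (Finsupp.single j e) κ hM))
  have h1 : (supp (conj (El i (Finsupp.single j e) κ hM) D)).sup (fun P => P y) ≤
      (supp D).sup (fun P => P y) := Finset.sup_le fun P hP => (hsup P hP).2.1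
  have h2 : (supp (conj (El i (Finsupp.single j e) κ hM) D)).sup (fun P => P z) ≤
      (supp D).sup (fun P => P z) := Finset.sup_le fun P hP => (hsup P hP).2.2
  have h3 : (supp (conj (El i (Finsupp.single j e) κ hM) D)).sup (fun P => P y) +
      (supp (conj (El i (Finsupp.single j e) κ hM) D)).sup (fun P => P z) < n := by
    rcases hlt with hlt | hlt
    · have : (supp (conj (El i (Finsupp.single j e) κ hM) D)).sup (fun P => P y) <
          (supp D).sup (fun P => P y) := by
        rw [Finset.sup_lt_iff (lt_of_le_of_lt (Nat.zero_le _) (hlt P0 hP0))]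
        exact hlt
      omega
    · have : (supp (conj (El i (Finsupp.single j e) κ hM) D)).sup (fun P => P z) <
          (supp D).sup (fun P => P z) := by
        rw [Finset.sup_lt_iff (lt_of_le_of_lt (Nat.zero_le _) (hlt P0 hP0))]
        exact hlt
      omega
  obtain ⟨σ, hσ, hσx, hσP, hσD⟩ := ih _ h3 (conj (El i (Finsupp.single j e) κ hM) D)
    (hD.conj _) (fun P hP => (hsup P hP).1) le_rfl
  refine ⟨El i (Finsupp.single j e) κ hM * σ, Subgroup.mul_mem _
    (Subgroup.subset_closure (Or.inl ⟨i, _, κ, hM, rfl⟩)) hσ, ?_, ?_, ?_⟩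
  · rw [AlgEquiv.mul_apply, hσx, El_apply_ne _ _ _ hix.symm]
  · refine Pres.mul (Pres_El hM ?_) hσP
    rw [dE_wx, Finsupp.single_eq_of_ne hjx.symm]
    simp only [wx]
    split_ifs <;> simp
  · rw [conj_mul]
    exact hσD

end REAux

/-- Rentschler's theorem. `D` locally nilpotent with all `P x = 1` (so `D x_x = 0`, `D x_y, D x_z ∈ k[y, z]`).
Strong induction with `plane_step` (measure `max P y + max P z`). `σ` is a product of moves
`El i (n e_j) κ`, `{i, j} = {y, z}`: it fixes `x_x` and preserves `k[y, z]`. -/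
theorem rentschler {D : Der k} (hD : IsLND D) {x y z : Fin 3} (hxy : x ≠ y) (hxz : x ≠ z)
    (hyz : y ≠ z) (hx : ∀ P ∈ supp D, P x = 1) :
    ∃ σ ∈ Subgroup.closure (Gen : Set (Au k)), σ (X x) = X x ∧
      (∀ j, j ≠ x → ∀ m, coeff m (σ (X j)) ≠ 0 → m x = 0) ∧
      (∀ j, j ≠ x → ∀ m, coeff m (σ.symm (X j)) ≠ 0 → m x = 0) ∧
      (conj σ D (X y) = 0 ∨ conj σ D (X z) = 0) := by
  obtain ⟨σ, hσ, hσx, hσP, hσD⟩ := REAux.main hxy hxz hyz _ D hD hx le_rfl
  refine ⟨σ, hσ, hσx, ?_, ?_, hσD⟩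
  · intro j hj m hm
    have := hσP.1 j m hm
    rw [REAux.dE_wx] at this
    simp only [REAux.wx, hj, if_false] at this
    have h' : m x ≤ 0 := by exact_mod_cast this
    omega
  · intro j hj m hm
    have := hσP.2 j m hm
    rw [REAux.dE_wx] at this
    simp only [REAux.wx, hj, if_false] at this
    have h' : m x ≤ 0 := by exact_mod_cast this
    omega

end Pool.Agent.TL
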