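import Pool.Agent.TL.SA

set_option autoImplicit false

namespace Pool.Agent.TL

open MvPolynomial

variable {k : Type} [Field k]

namespace SBAux

/-- `g` acts on `x_a, x_b` through the matrix `A` and fixes the other variables -/
def Act (a b : Fin 3) (A : Matrix (Fin 2) (Fin 2) k) (g : Au k) : Prop :=
  g (X a) = C (A 0 0) * X a + C (A 0 1) * X b ∧
      g (X b) = C (A 1 0) * X a + C (A 1 1) * X b ∧ ∀ j, j ≠ a → j ≠ b → g (X j) = X j

theorem Sc_X (u : Fin 3 → kˣ) (j : Fin 3) : (Sc u : Au k) (X j) = C (u j : k) * X j := by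
  simp [Sc]

theorem act_mul {a b : Fin 3} {A B : Matrix (Fin 2) (Fin 2) k} {g h : Au k}
    (hg : Act a b A g) (hh : Act a b B h) : Act a b (A * B) (h * g) := by
  obtain ⟨g1, g2, g3⟩ := hg
  obtain ⟨h1, h2, h3⟩ := hh
  have hC : ∀ c : k, h (C c) = C c := fun c => by
    rw [← MvPolynomial.algebraMap_eq]; exact h.commutes c
  refine ⟨?_, ?_, ?_⟩
  · change h (g (X a)) = _
    rw [g1, map_add, map_mul, map_mul, hC, hC, h1, h2]
    simp only [Matrix.mul_apply, Fin.sum_univ_two, map_add, map_mul]
    ring
  · change h (g (X b)) = _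
    rw [g2, map_add, map_mul, map_mul, hC, hC, h1, h2]
    simp only [Matrix.mul_apply, Fin.sum_univ_two, map_add, map_mul]
    ring
  · intro j hja hjb
    change h (g (X j)) = _
    rw [g3 j hja hjb, h3 j hja hjb]

end SBAux

open SBAux in
/-- `GL_2` block on two variables of the same weight
(`Matrix.diagonal_transvection_induction_of_det_ne_zero`). -/
theorem block2 {a b : Fin 3} (hab : a ≠ b) {α : Wt} (hα : α a = α b) (A : Matrix (Fin 2) (Fin 2) k)
    (hA : A.det ≠ 0) :
    ∃ g ∈ GP k α, g (X a) = C (A 0 0) * X a + C (A 0 1) * X b ∧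
      g (X b) = C (A 1 0) * X a + C (A 1 1) * X b ∧ ∀ j, j ≠ a → j ≠ b → g (X j) = X j := by
  have key : ∃ g ∈ GP k α, Act a b A g := by
    refine Matrix.diagonal_transvection_induction_of_det_ne_zero
      (fun A => ∃ g ∈ GP k α, Act a b A g) A hA ?_ ?_ ?_
    · intro D hD
      rw [Matrix.det_diagonal, Fin.prod_univ_two] at hD
      have h0 : D 0 ≠ 0 := left_ne_zero_of_mul hD
      have h1 : D 1 ≠ 0 := right_ne_zero_of_mul hD
      classical
      refine ⟨Sc (fun j => if j = a then Units.mk0 (D 0) h0 else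
        if j = b then Units.mk0 (D 1) h1 else 1), Sc_mem _ α, ?_, ?_, ?_⟩
      · rw [Sc_X]; simp
      · rw [Sc_X]; simp [hab.symm]
      · intro j hja hjb
        rw [Sc_X]; simp [hja, hjb]
    · rintro ⟨i, j, hij, c⟩
      simp only [Matrix.TransvectionStruct.toMatrix_mk]
      fin_cases i <;> fin_cases j
      · exact absurd rfl hij
      · refine ⟨El a (Finsupp.single b 1) c (by simp [hab]), El_mem _ (by
          rw [dE_single]; simp [hα]), ?_, ?_, ?_⟩
        · rw [El_apply_self]
          simp [Matrix.transvection, monomial_eq]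
        · rw [El_apply_ne _ _ _ hab.symm]
          simp [Matrix.transvection]
        · intro j hja hjb
          rw [El_apply_ne _ _ _ hja]
      · refine ⟨El b (Finsupp.single a 1) c (by simp [hab.symm]), El_mem _ (by
          rw [dE_single]; simp [hα]), ?_, ?_, ?_⟩
        · rw [El_apply_ne _ _ _ hab]
          simp [Matrix.transvection]
        · rw [El_apply_self]
          simp [Matrix.transvection, monomial_eq]
          ring
        · intro j hja hjb
          rw [El_apply_ne _ _ _ hjb]
      · exact absurd rfl hij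
    · rintro A B - - ⟨g, hg, hg'⟩ ⟨h, hh, hh'⟩
      exact ⟨h * g, mul_mem hh hg, act_mul hg' hh'⟩
  exact key

end Pool.Agent.TL
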