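import Pool.Agent.TL.SB
import Pool.Agent.TL.ST

set_option autoImplicit false

namespace Pool.Agent.TL

open MvPolynomial

variable {k : Type} [Field k]

namespace SL2Aux

/-- linear in `x_p, x_q` with constant coefficients, up to a polynomial in the third variable -/
theorem form2 {p q : Fin 3} (hpq : p ≠ q) {f : Rg k}
    (h : ∀ m, coeff m f ≠ 0 → (m p = 0 ∧ m q = 0) ∨ m = Finsupp.single p 1 ∨
      m = Finsupp.single q 1) :
    ∃ f' : Rg k, f = C (coeff (Finsupp.single p 1) f) * X p +
        C (coeff (Finsupp.single q 1) f) * X q + f' ∧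
      ∀ m, coeff m f' ≠ 0 → coeff m f ≠ 0 ∧ m p = 0 ∧ m q = 0 := by
  refine ⟨f - (C (coeff (Finsupp.single p 1) f) * X p + C (coeff (Finsupp.single q 1) f) * X q),
    by ring, ?_⟩
  intro m hm
  rw [coeff_sub, coeff_add, coeff_C_mul, coeff_C_mul, coeff_X, coeff_X] at hm
  have hne : (Finsupp.single p 1 : Fin 3 →₀ ℕ) ≠ Finsupp.single q 1 := by
    intro h
    exact hpq (Finsupp.single_left_injective one_ne_zero h)
  by_cases h1 : m = Finsupp.single p 1
  · subst h1
    rw [if_pos rfl, if_neg hne.symm] at hm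
    simp at hm
  by_cases h2 : m = Finsupp.single q 1
  · subst h2
    rw [if_pos rfl, if_neg hne] at hm
    simp at hm
  rw [if_neg (Ne.symm h1), if_neg (Ne.symm h2)] at hm
  have hm' : coeff m f ≠ 0 := by simpa using hm
  rcases h m hm' with h3 | h3 | h3
  · exact ⟨hm', h3.1, h3.2⟩
  · exact absurd h3 h1
  · exact absurd h3 h2

theorem coeff_lin {p q : Fin 3} (hpq : p ≠ q) (A B : k) (f : Rg k) :
    coeff (Finsupp.single p 1) (C A * X p + C B * X q + f) = A + coeff (Finsupp.single p 1) f ∧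
    coeff (Finsupp.single q 1) (C A * X p + C B * X q + f) = B + coeff (Finsupp.single q 1) f := by
  have hne : (Finsupp.single p 1 : Fin 3 →₀ ℕ) ≠ Finsupp.single q 1 := by
    intro h
    exact hpq (Finsupp.single_left_injective one_ne_zero h)
  constructor
  · rw [coeff_add, coeff_add, coeff_C_mul, coeff_C_mul, coeff_X, coeff_X, if_pos rfl,
      if_neg hne.symm]
    ring
  · rw [coeff_add, coeff_add, coeff_C_mul, coeff_C_mul, coeff_X, coeff_X, if_pos rfl,
      if_neg hne]
    ring

theorem block_inv {τ : Au k} {p q : Fin 3} (hpq : p ≠ q) {a0 a1 a2 a3 b0 b1 b2 b3 : k}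
    {fp fq gp gq : Rg k}
    (h1 : τ (X p) = C a0 * X p + C a1 * X q + fp) (h2 : τ (X q) = C a2 * X p + C a3 * X q + fq)
    (h3 : τ.symm (X p) = C b0 * X p + C b1 * X q + gp)
    (h4 : τ.symm (X q) = C b2 * X p + C b3 * X q + gq)
    (e1 : coeff (Finsupp.single p 1) fp = 0) (e2 : coeff (Finsupp.single q 1) fp = 0)
    (e3 : coeff (Finsupp.single p 1) fq = 0) (e4 : coeff (Finsupp.single q 1) fq = 0)
    (e5 : coeff (Finsupp.single p 1) (τ gp) = 0) (e6 : coeff (Finsupp.single q 1) (τ gp) = 0)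
    (e7 : coeff (Finsupp.single p 1) (τ gq) = 0) (e8 : coeff (Finsupp.single q 1) (τ gq) = 0) :
    b0 * a0 + b1 * a2 = 1 ∧ b0 * a1 + b1 * a3 = 0 ∧ b2 * a0 + b3 * a2 = 0 ∧
      b2 * a1 + b3 * a3 = 1 := by
  have hne : (Finsupp.single p 1 : Fin 3 →₀ ℕ) ≠ Finsupp.single q 1 := by
    intro h
    exact hpq (Finsupp.single_left_injective one_ne_zero h)
  have hC : ∀ c : k, τ (C c) = C c := fun c => τ.commutes c
  have key : ∀ (x y : k) (g : Rg k), τ (C x * X p + C y * X q + g) =
      C (x * a0 + y * a2) * X p + C (x * a1 + y * a3) * X q +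
        (C x * fp + C y * fq + τ g) := by
    intro x y g
    rw [map_add, map_add, map_mul, map_mul, hC, hC, h1, h2]
    simp only [map_add, map_mul]
    ring
  have k1 := key b0 b1 gp
  rw [← h3, AlgEquiv.apply_symm_apply] at k1
  have k2 := key b2 b3 gq
  rw [← h4, AlgEquiv.apply_symm_apply] at k2
  have c1 := (coeff_lin hpq (b0 * a0 + b1 * a2) (b0 * a1 + b1 * a3) (C b0 * fp + C b1 * fq + τ gp))
  have c2 := (coeff_lin hpq (b2 * a0 + b3 * a2) (b2 * a1 + b3 * a3) (C b2 * fp + C b3 * fq + τ gq))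
  rw [← k1] at c1
  rw [← k2] at c2
  simp only [coeff_add, coeff_C_mul, e1, e2, e3, e4, e5, e6, e7, e8, coeff_X] at c1 c2
  obtain ⟨c11, c12⟩ := c1
  obtain ⟨c21, c22⟩ := c2
  rw [if_pos trivial] at c11
  rw [if_neg hne] at c12
  rw [if_neg hne.symm] at c21
  rw [if_pos trivial] at c22
  refine ⟨?_, ?_, ?_, ?_⟩
  · linear_combination -c11
  · linear_combination -c12
  · linear_combination -c21
  · linear_combination -c22

/-- remove the `GL_2` block -/
theorem block_remove {τ : Au k} {α : Wt} {p q r : Fin 3} (hpq : p ≠ q) (hpr : p ≠ r) (hqr : q ≠ r)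
    (hα : α p = α q) {a0 a1 a2 a3 b0 b1 b2 b3 : k} {fp fq : Rg k}
    (h1 : τ (X p) = C a0 * X p + C a1 * X q + fp) (h2 : τ (X q) = C a2 * X p + C a3 * X q + fq)
    (r1 : b0 * a0 + b1 * a2 = 1) (r2 : b0 * a1 + b1 * a3 = 0) (r3 : b2 * a0 + b3 * a2 = 0)
    (r4 : b2 * a1 + b3 * a3 = 1) :
    ∃ g ∈ GP k α, (τ * g) (X p) = C 1 * X p + (C b0 * fp + C b1 * fq) ∧
      (τ * g) (X q) = C 1 * X q + (C b2 * fp + C b3 * fq) ∧ (τ * g) (X r) = τ (X r) := by
  have hdet : (!![b0, b1; b2, b3] : Matrix (Fin 2) (Fin 2) k).det ≠ 0 := by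
    rw [Matrix.det_fin_two_of]
    intro h
    have : (b0 * b3 - b1 * b2) * (a0 * a3 - a1 * a2) = 1 := by
      linear_combination (b2 * a1 + b3 * a3) * r1 + r4 - (b2 * a0 + b3 * a2) * r2
    rw [h, zero_mul] at this
    exact zero_ne_one this
  obtain ⟨g, hg, g1, g2, g3⟩ := block2 hpq hα _ hdet
  simp only [Matrix.of_apply, Matrix.cons_val', Matrix.cons_val_zero, Matrix.cons_val_one,
    Matrix.cons_val_fin_one] at g1 g2
  have hC : ∀ c : k, τ (C c) = C c := fun c => τ.commutes c
  refine ⟨g, hg, ?_, ?_, ?_⟩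
  · rw [AlgEquiv.mul_apply, g1, map_add, map_mul, map_mul, hC, hC, h1, h2]
    have s1 : (C b0 * C a0 + C b1 * C a2 : Rg k) = C 1 := by rw [← r1]; simp
    have s2 : (C b0 * C a1 + C b1 * C a3 : Rg k) = 0 := by
      rw [← map_mul, ← map_mul, ← map_add, r2, map_zero]
    linear_combination (X p) * s1 + (X q) * s2
  · rw [AlgEquiv.mul_apply, g2, map_add, map_mul, map_mul, hC, hC, h1, h2]
    have s1 : (C b2 * C a1 + C b3 * C a3 : Rg k) = C 1 := by rw [← r4]; simp
    have s2 : (C b2 * C a0 + C b3 * C a2 : Rg k) = 0 := by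
      rw [← map_mul, ← map_mul, ← map_add, r3, map_zero]
    linear_combination (X q) * s1 + (X p) * s2
  · rw [AlgEquiv.mul_apply, g3 r hpr.symm hqr.symm]

theorem single_of {a b c : Fin 3} (hab : a ≠ b) (hac : a ≠ c) (hbc : b ≠ c) {m : Fin 3 →₀ ℕ}
    (h1 : m a = 1) (h2 : m b = 0) (h3 : m c = 0) : m = Finsupp.single a 1 := by
  ext j
  rcases eq_of_ne hab hac hbc j with rfl | rfl | rfl
  · rw [h1]; simp
  · rw [h2]; simp [hab.symm]
  · rw [h3]; simp [hac.symm]

end SL2Aux

open SL2Aux

/-- `0 < α a = α b < α c`. Proof. `τ x_a`, `τ x_b` are affine in `x_a, x_b`; the matrix is invertible (the same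
holds for `τ⁻¹`; or `exists_perm_coeff`); `block2`, then `tri_mem`. -/
theorem SL2a {τ : Au k} {α : Wt} {a b c : Fin 3} (hab : a ≠ b) (hac : a ≠ c) (hbc : b ≠ c)
    (h0 : 0 < α a) (h1 : α a = α b) (h2 : α b < α c) (h : Pres τ α α) : τ ∈ GP k α := by
  -- monomials of small weight
  have hmon : ∀ m : Fin 3 →₀ ℕ, dE m α ≤ α a →
      (m a = 0 ∧ m b = 0 ∧ m c = 0) ∨ m = Finsupp.single a 1 ∨ m = Finsupp.single b 1 := by
    intro m hm
    unfold dE at hm
    rw [sum3 hab hac hbc, ← h1] at hm
    have hc : m c = 0 := by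
      by_contra hc
      have : (1 : ℝ) ≤ m c := by exact_mod_cast Nat.one_le_iff_ne_zero.mpr hc
      have e1 : (0 : ℝ) ≤ m a * α a := by positivity
      have e2 : (0 : ℝ) ≤ m b * α a := by positivity
      have e3 : α c ≤ m c * α c := by nlinarith
      linarith
    have hs : m a + m b ≤ 1 := by
      have : ((m a : ℝ) + m b) * α a ≤ 1 * α a := by rw [hc] at hm; push_cast at hm; linarith
      have := le_of_mul_le_mul_right this h0
      exact_mod_cast this
    rcases Nat.eq_zero_or_pos (m a) with ha | ha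
    · rcases Nat.eq_zero_or_pos (m b) with hb | hb
      · exact Or.inl ⟨ha, hb, hc⟩
      · right; right
        exact single_of hab.symm hbc hac (by omega) ha hc
    · right; left
      exact single_of hab hac hbc (by omega) (by omega) hc
  have hform : ∀ f : Rg k, LE α (α a) f → ∃ f' : Rg k,
      f = C (coeff (Finsupp.single a 1) f) * X a + C (coeff (Finsupp.single b 1) f) * X b + f' ∧
      ∀ m, coeff m f' ≠ 0 → m = 0 := by
    intro f hf
    obtain ⟨f', hf1, hf2⟩ := form2 (f := f) hab (by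
      intro m hm
      rcases hmon m (hf m hm) with h | h | h
      · exact Or.inl ⟨h.1, h.2.1⟩
      · exact Or.inr (Or.inl h)
      · exact Or.inr (Or.inr h))
    refine ⟨f', hf1, ?_⟩
    intro m hm
    obtain ⟨q1, q2, q3⟩ := hf2 m hm
    rcases hmon m (hf m q1) with h | h | h
    · ext j
      rcases eq_of_ne hab hac hbc j with rfl | rfl | rfl
      · rw [h.1]; rfl
      · rw [h.2.1]; rfl
      · rw [h.2.2]; rfl
    · rw [h] at q2; simp at q2
    · rw [h] at q3; simp at q3
  have hcst : ∀ f' : Rg k, (∀ m, coeff m f' ≠ 0 → m = 0) →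
      ∀ i : Fin 3, coeff (Finsupp.single i 1) f' = 0 := by
    intro f' hf' i
    by_contra hne
    have := hf' _ hne
    have := DFunLike.congr_fun this i
    simp at this
  have hcst2 : ∀ f' : Rg k, (∀ m, coeff m f' ≠ 0 → m = 0) → ∃ c : k, f' = C c := by
    intro f' hf'
    refine ⟨coeff 0 f', ?_⟩
    ext m
    rw [coeff_C]
    split_ifs with h3
    · rw [← h3]
    · by_contra h4
      exact h3 (hf' m h4).symm
  obtain ⟨fp, hp1, hp2⟩ := hform _ (h.1 a)
  obtain ⟨fq, hq1, hq2⟩ := hform _ (by rw [h1]; exact h.1 b)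
  obtain ⟨gp, gp1, gp2⟩ := hform _ (h.2 a)
  obtain ⟨gq, gq1, gq2⟩ := hform _ (by rw [h1]; exact h.2 b)
  have hτg : ∀ g : Rg k, (∀ m, coeff m g ≠ 0 → m = 0) → τ g = g := by
    intro g hg
    obtain ⟨c, rfl⟩ := hcst2 g hg
    exact τ.commutes c
  obtain ⟨r1, r2, r3, r4⟩ := block_inv hab hp1 hq1 gp1 gq1 (hcst _ hp2 a) (hcst _ hp2 b)
    (hcst _ hq2 a) (hcst _ hq2 b) (by rw [hτg _ gp2]; exact hcst _ gp2 a)
    (by rw [hτg _ gp2]; exact hcst _ gp2 b) (by rw [hτg _ gq2]; exact hcst _ gq2 a)
    (by rw [hτg _ gq2]; exact hcst _ gq2 b)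
  obtain ⟨g, hg, s1, s2, s3⟩ := block_remove (α := α) hab hac hbc h1 hp1 hq1 r1 r2 r3 r4
  -- the third variable
  set w := coeff (Finsupp.single c 1) (τ (X c)) with hw
  have hw0 : w ≠ 0 := by
    obtain ⟨π, hπ⟩ := exists_perm_coeff τ
    obtain ⟨j, hj⟩ := π.surjective c
    have hjc : j = c := by
      rcases eq_of_ne hab hac hbc j with rfl | rfl | rfl
      · exfalso
        have := h.1 j _ (hπ j)
        rw [hj, dE_single] at this
        push_cast at this
        linarith
      · exfalso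
        have := h.1 j _ (hπ j)
        rw [hj, dE_single] at this
        push_cast at this
        linarith
      · rfl
    have := hπ j
    rw [hj, hjc] at this
    exact this
  have hr : ∀ m, coeff m (τ (X c) - C w * X c) ≠ 0 → m c = 0 := by
    intro m hm
    by_contra hmc
    rw [coeff_sub, coeff_C_mul, coeff_X] at hm
    by_cases hms : m = Finsupp.single c 1
    · rw [if_pos hms.symm, hms, ← hw] at hm
      simp at hm
    · rw [if_neg (Ne.symm hms), mul_zero, sub_zero] at hm
      have := h.1 c m hm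
      unfold dE at this
      rw [sum3 hab hac hbc, ← h1] at this
      have k1 : (1 : ℝ) ≤ m c := by exact_mod_cast Nat.one_le_iff_ne_zero.mpr hmc
      have k2 : (0 : ℝ) ≤ m a * α a := by positivity
      have k3 : (0 : ℝ) ≤ m b * α a := by positivity
      have hc0 : 0 < α c := by linarith
      have k4 : (m c : ℝ) ≤ 1 := by
        have : (m c : ℝ) * α c ≤ 1 * α c := by linarith
        exact le_of_mul_le_mul_right this hc0
      have k5 : m c = 1 := by
        have : m c ≤ 1 := by exact_mod_cast k4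
        omega
      rw [k5] at this
      push_cast at this
      have k6 : (m a : ℝ) * α a = 0 := by linarith
      have k7 : (m b : ℝ) * α a = 0 := by linarith
      have k8 : m a = 0 := by
        rcases mul_eq_zero.mp k6 with h | h
        · exact_mod_cast h
        · linarith
      have k9 : m b = 0 := by
        rcases mul_eq_zero.mp k7 with h | h
        · exact_mod_cast h
        · linarith
      exact hms (single_of hac.symm hbc.symm hab k5 k8 k9)
  have hσ : τ * g ∈ GP k α := by
    refine tri_mem hab hac hbc one_ne_zero one_ne_zero hw0 (p := C _ * fp + C _ * fq)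
      (q := C _ * fp + C _ * fq) (r := τ (X c) - C w * X c) ?_ ?_ hr ?_ (h.mul (GP_pres hg)) s1 s2 ?_
    · intro m hm
      have : m = 0 := by
        by_contra hm0
        have z1 : coeff m fp = 0 := by
          by_contra hz
          exact hm0 (hp2 m hz)
        have z2 : coeff m fq = 0 := by
          by_contra hz
          exact hm0 (hq2 m hz)
        rw [coeff_add, coeff_C_mul, coeff_C_mul, z1, z2] at hm
        simp at hm
      rw [this]
      simp
    · intro m hm
      have : m = 0 := by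
        by_contra hm0
        have z1 : coeff m fp = 0 := by
          by_contra hz
          exact hm0 (hp2 m hz)
        have z2 : coeff m fq = 0 := by
          by_contra hz
          exact hm0 (hq2 m hz)
        rw [coeff_add, coeff_C_mul, coeff_C_mul, z1, z2] at hm
        simp at hm
      rw [this]
      simp
    · intro i
      rcases eq_of_ne hab hac hbc i with rfl | rfl | rfl
      · exact h0.le
      · linarith
      · linarith
    · rw [s3]; ring
  have : τ = (τ * g) * g⁻¹ := by group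
  rw [this]
  exact (GP k α).mul_mem hσ ((GP k α).inv_mem hg)

/-- `0 < α a < α b = α c`. -/
theorem SL2b {τ : Au k} {α : Wt} {a b c : Fin 3} (hab : a ≠ b) (hac : a ≠ c) (hbc : b ≠ c)
    (h0 : 0 < α a) (h1 : α a < α b) (h2 : α b = α c) (h : Pres τ α α) : τ ∈ GP k α := by
  -- monomials of weight at most `α a`
  have hmonA : ∀ m : Fin 3 →₀ ℕ, dE m α ≤ α a → m b = 0 ∧ m c = 0 ∧ m a ≤ 1 := by
    intro m hm
    unfold dE at hm
    rw [sum3 hab hac hbc, ← h2] at hm
    have e1 : (0 : ℝ) ≤ m a * α a := by positivity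
    have hb0 : 0 < α b := h0.trans h1
    have e2 : (0 : ℝ) ≤ m b * α b := by positivity
    have e3 : (0 : ℝ) ≤ m c * α b := by positivity
    have hb : m b = 0 := by
      by_contra hc
      have : (1 : ℝ) ≤ m b := by exact_mod_cast Nat.one_le_iff_ne_zero.mpr hc
      have e3 : α b ≤ m b * α b := by nlinarith
      linarith
    have hc : m c = 0 := by
      by_contra hc
      have : (1 : ℝ) ≤ m c := by exact_mod_cast Nat.one_le_iff_ne_zero.mpr hc
      have e3 : α b ≤ m c * α b := by nlinarith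
      linarith
    refine ⟨hb, hc, ?_⟩
    have : (m a : ℝ) * α a ≤ 1 * α a := by
      rw [hb, hc] at hm; push_cast at hm; linarith
    have := le_of_mul_le_mul_right this h0
    exact_mod_cast this
  -- monomials of weight at most `α b`
  have hmonB : ∀ m : Fin 3 →₀ ℕ, dE m α ≤ α b →
      (m b = 0 ∧ m c = 0) ∨ m = Finsupp.single b 1 ∨ m = Finsupp.single c 1 := by
    intro m hm
    unfold dE at hm
    rw [sum3 hab hac hbc, ← h2] at hm
    have e1 : (0 : ℝ) ≤ m a * α a := by positivity
    have hb0 : 0 < α b := h0.trans h1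
    have hs : m b + m c ≤ 1 := by
      have : ((m b : ℝ) + m c) * α b ≤ 1 * α b := by linarith
      have := le_of_mul_le_mul_right this hb0
      exact_mod_cast this
    rcases Nat.eq_zero_or_pos (m b + m c) with hz | hz
    · exact Or.inl ⟨by omega, by omega⟩
    · have hs1 : m b + m c = 1 := by omega
      have hs2 : (m b : ℝ) + m c = 1 := by exact_mod_cast hs1
      have ha : m a = 0 := by
        have : (m a : ℝ) * α a ≤ 0 := by nlinarith
        have : (m a : ℝ) * α a = 0 := le_antisymm this e1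
        rcases mul_eq_zero.mp this with h | h
        · exact_mod_cast h
        · linarith
      rcases Nat.eq_zero_or_pos (m b) with hb | hb
      · right; right
        exact single_of hac.symm hbc.symm hab (by omega) ha hb
      · right; left
        exact single_of hab.symm hbc hac (by omega) ha (by omega)
  have hform : ∀ f : Rg k, LE α (α b) f → ∃ f' : Rg k,
      f = C (coeff (Finsupp.single b 1) f) * X b + C (coeff (Finsupp.single c 1) f) * X c + f' ∧
      ∀ m, coeff m f' ≠ 0 → m b = 0 ∧ m c = 0 := by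
    intro f hf
    obtain ⟨f', hf1, hf2⟩ := form2 (f := f) hbc (fun m hm => hmonB m (hf m hm))
    exact ⟨f', hf1, fun m hm => (hf2 m hm).2⟩
  have hcst : ∀ f' : Rg k, (∀ m, coeff m f' ≠ 0 → m b = 0 ∧ m c = 0) →
      coeff (Finsupp.single b 1) f' = 0 ∧ coeff (Finsupp.single c 1) f' = 0 := by
    intro f' hf'
    constructor
    · by_contra hne
      have := (hf' _ hne).1
      simp at this
    · by_contra hne
      have := (hf' _ hne).2
      simp at this
  obtain ⟨fp, hp1, hp2⟩ := hform _ (h.1 b)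
  obtain ⟨fq, hq1, hq2⟩ := hform _ (by rw [h2]; exact h.1 c)
  obtain ⟨gp, gp1, gp2⟩ := hform _ (h.2 b)
  obtain ⟨gq, gq1, gq2⟩ := hform _ (by rw [h2]; exact h.2 c)
  -- the auxiliary weight `e`: `0` at `a`, `1` at `b` and `c`
  set e : Wt := fun j => if j = a then 0 else 1 with he
  have ea : e a = 0 := by simp [he]
  have eb : e b = 1 := by simp [he, hab.symm]
  have ec : e c = 1 := by simp [he, hac.symm]
  have hdE : ∀ m : Fin 3 →₀ ℕ, dE m e = (m b : ℝ) + m c := by
    intro m
    unfold dE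
    rw [sum3 hab hac hbc, ea, eb, ec]
    ring
  have hLE0 : ∀ f' : Rg k, LE e 0 f' ↔ ∀ m, coeff m f' ≠ 0 → m b = 0 ∧ m c = 0 := by
    intro f'
    constructor
    · intro hf m hm
      have := hf m hm
      rw [hdE] at this
      have h3 : m b + m c ≤ 0 := by exact_mod_cast this
      omega
    · intro hf m hm
      rw [hdE, (hf m hm).1, (hf m hm).2]
      simp
  have hτe : ∀ j, LE e (e j) ((τ : Rg k →ₐ[k] Rg k) (X j)) := by
    intro j
    rcases eq_of_ne hab hac hbc j with rfl | rfl | rfl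
    · rw [ea]
      refine (hLE0 _).mpr ?_
      intro m hm
      obtain ⟨q1, q2, -⟩ := hmonA m (h.1 _ m hm)
      exact ⟨q1, q2⟩
    · rw [eb]
      intro m hm
      rcases hmonB m (h.1 _ m hm) with h3 | h3 | h3
      · rw [hdE, h3.1, h3.2]; simp
      · rw [h3, dE_single, eb]; simp
      · rw [h3, dE_single, ec]; simp
    · rw [ec]
      intro m hm
      rcases hmonB m (by rw [h2]; exact h.1 _ m hm) with h3 | h3 | h3
      · rw [hdE, h3.1, h3.2]; simp
      · rw [h3, dE_single, eb]; simp
      · rw [h3, dE_single, ec]; simp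
  have hτg : ∀ g : Rg k, (∀ m, coeff m g ≠ 0 → m b = 0 ∧ m c = 0) →
      ∀ m, coeff m (τ g) ≠ 0 → m b = 0 ∧ m c = 0 := by
    intro g hg
    exact (hLE0 _).mp (LE.hom (τ : Rg k →ₐ[k] Rg k) hτe ((hLE0 _).mpr hg))
  obtain ⟨r1, r2, r3, r4⟩ := block_inv hbc hp1 hq1 gp1 gq1 (hcst _ hp2).1 (hcst _ hp2).2
    (hcst _ hq2).1 (hcst _ hq2).2 (hcst _ (hτg _ gp2)).1 (hcst _ (hτg _ gp2)).2
    (hcst _ (hτg _ gq2)).1 (hcst _ (hτg _ gq2)).2
  obtain ⟨g, hg, s1, s2, s3⟩ := block_remove (α := α) hbc hab.symm hac.symm h2 hp1 hq1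
    r1 r2 r3 r4
  -- the first variable
  set u := coeff (Finsupp.single a 1) (τ (X a)) with hu
  have hu0 : u ≠ 0 := by
    obtain ⟨π, hπ⟩ := exists_perm_coeff τ
    have h3 := hπ a
    have h4 := hmonA _ (h.1 a _ h3)
    have h5 : π a = a := by
      rcases eq_of_ne hab hac hbc (π a) with h6 | h6 | h6
      · exact h6
      · rw [h6] at h4; simp at h4
      · rw [h6] at h4; simp at h4
    rw [h5] at h3
    exact h3
  have hp : ∀ m, coeff m (τ (X a) - C u * X a) ≠ 0 → m a = 0 ∧ m b = 0 ∧ m c = 0 := by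
    intro m hm
    rw [coeff_sub, coeff_C_mul, coeff_X] at hm
    by_cases hms : m = Finsupp.single a 1
    · rw [if_pos hms.symm, hms, ← hu] at hm
      simp at hm
    · rw [if_neg (Ne.symm hms), mul_zero, sub_zero] at hm
      obtain ⟨q1, q2, q3⟩ := hmonA m (h.1 _ m hm)
      refine ⟨?_, q1, q2⟩
      by_contra h3
      exact hms (single_of hab hac hbc (by omega) q1 q2)
  have hcomb : ∀ x y : k, ∀ m, coeff m (C x * fp + C y * fq) ≠ 0 → m b = 0 ∧ m c = 0 := by
    intro x y m hm
    by_cases z1 : coeff m fp = 0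
    · by_cases z2 : coeff m fq = 0
      · rw [coeff_add, coeff_C_mul, coeff_C_mul, z1, z2] at hm
        simp at hm
      · exact hq2 m z2
    · exact hp2 m z1
  have hσ : τ * g ∈ GP k α := by
    refine tri_mem hab hac hbc hu0 one_ne_zero one_ne_zero (p := τ (X a) - C u * X a) hp
      (hcomb _ _) (fun m hm => (hcomb _ _ m hm).2) ?_ (h.mul (GP_pres hg)) ?_ s1 s2
    · intro i
      rcases eq_of_ne hab hac hbc i with rfl | rfl | rfl
      · exact h0.le
      · linarith
      · linarith
    · rw [s3]; ring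
  have : τ = (τ * g) * g⁻¹ := by group
  rw [this]
  exact (GP k α).mul_mem hσ ((GP k α).inv_mem hg)

end Pool.Agent.TL
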