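import Pool.Agent.TL.SL1
import Pool.Agent.TL.SL2

set_option autoImplicit false

namespace Pool.Agent.TL

open MvPolynomial

variable {k : Type} [Field k]

/-- case distinction on `Good α`, choose the order of the three weights -/
theorem SL_good {τ : Au k} {α : Wt} (hG : Good α) (h : Pres τ α α) : τ ∈ GP k α := by
  obtain ⟨h0, hinj | ⟨a, ha, hrest⟩⟩ := hG
  · -- distinct weights: sort
    have n01 : α 0 ≠ α 1 := fun e => absurd (hinj _ _ e) (by decide)
    have n02 : α 0 ≠ α 2 := fun e => absurd (hinj _ _ e) (by decide)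
    have n12 : α 1 ≠ α 2 := fun e => absurd (hinj _ _ e) (by decide)
    rcases lt_or_gt_of_ne n01 with h1 | h1 <;> rcases lt_or_gt_of_ne n02 with h2 | h2 <;>
      rcases lt_or_gt_of_ne n12 with h3 | h3
    · exact SL1 (a := 0) (b := 1) (c := 2) (by decide) (by decide) (by decide) (h0 _) h1 h3 h
    · exact SL1 (a := 0) (b := 2) (c := 1) (by decide) (by decide) (by decide) (h0 _) h2 h3 h
    · exact absurd (h1.trans h3) (not_lt.2 h2.le)
    · exact SL1 (a := 2) (b := 0) (c := 1) (by decide) (by decide) (by decide) (h0 _) h2 h1 h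
    · exact SL1 (a := 1) (b := 0) (c := 2) (by decide) (by decide) (by decide) (h0 _) h1 h2 h
    · exact absurd (h2.trans h3) (not_lt.2 h1.le)
    · exact SL1 (a := 1) (b := 2) (c := 0) (by decide) (by decide) (by decide) (h0 _) h3 h2 h
    · exact SL1 (a := 2) (b := 1) (c := 0) (by decide) (by decide) (by decide) (h0 _) h3 h1 h
  · obtain ⟨p, hp, -⟩ := exists_third a a
    obtain ⟨q, hqa, hqp⟩ := exists_third a p
    obtain ⟨hpq, hpos, hne⟩ := hrest p q hp hqa
    rcases lt_or_gt_of_ne hne with hlt | hlt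
    · exact SL2a (a := p) (b := q) (c := a) (Ne.symm hqp) hp hqa hpos hpq
        (by rw [← hpq]; exact hlt) h
    · exact SL2b (a := a) (b := p) (c := q) (Ne.symm hp) (Ne.symm hqa) (Ne.symm hqp) ha hlt hpq h

end Pool.Agent.TL
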