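import Pool.Agent.TL.ST

set_option autoImplicit false

namespace Pool.Agent.TL

open MvPolynomial

variable {k : Type} [Field k]

namespace SL1Aux

/-- `f` does not involve `x_j` -/
def Fr (j : Fin 3) (f : Rg k) : Prop := ∀ m, coeff m f ≠ 0 → m j = 0

theorem Fr_iff {j : Fin 3} {f : Rg k} : Fr j f ↔ LE (fun l => if l = j then 1 else 0) 0 f := by
  have h : ∀ m : Fin 3 →₀ ℕ, dE m (fun l => if l = j then 1 else 0) = m j := by
    intro m
    simp [dE]
  constructor
  · intro hf m hm
    rw [h, hf m hm]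
    simp
  · intro hf m hm
    have h1 := hf m hm
    rw [h] at h1
    have h2 : (m j : ℝ) = 0 := le_antisymm h1 (Nat.cast_nonneg _)
    exact_mod_cast h2

theorem Fr.mul {j : Fin 3} {f g : Rg k} (hf : Fr j f) (hg : Fr j g) : Fr j (f * g) := by
  rw [Fr_iff] at *
  have h := hf.mul hg
  rwa [add_zero] at h

theorem Fr.pow {j : Fin 3} {f : Rg k} (hf : Fr j f) (n : ℕ) : Fr j (f ^ n) := by
  rw [Fr_iff] at *
  have h := hf.pow n
  rwa [mul_zero] at h

theorem Fr.add {j : Fin 3} {f g : Rg k} (hf : Fr j f) (hg : Fr j g) : Fr j (f + g) := by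
  rw [Fr_iff] at *
  exact hf.add hg

theorem Fr.hom {j : Fin 3} (φ : Rg k →ₐ[k] Rg k) {f : Rg k}
    (h : ∀ l, Fr j (φ (X l)) ∨ Fr l f) : Fr j (φ f) := by
  rw [Fr_iff, f.as_sum, map_sum]
  apply LE.sum
  intro m hm
  have hm' := mem_support_iff.1 hm
  have e : φ (monomial m (coeff m f)) =
      coeff m f • ((φ (X 0)) ^ (m 0) * (φ (X 1)) ^ (m 1) * (φ (X 2)) ^ (m 2)) := by
    rw [monomial_eq, Finsupp.prod_fintype _ _ (fun i => pow_zero _), Fin.prod_univ_three,
      ← smul_eq_C_mul, map_smul, map_mul, map_mul, map_pow, map_pow, map_pow]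
  rw [e]
  refine LE.smul ?_ _
  rw [← Fr_iff]
  have key : ∀ l, Fr j ((φ (X l)) ^ (m l)) := by
    intro l
    rcases h l with h1 | h1
    · exact h1.pow _
    · rw [h1 m hm', pow_zero]
      intro n hn
      rw [← C_1, coeff_C] at hn
      split_ifs at hn with h2
      · rw [← h2]
        simp
      · exact absurd rfl hn
  exact ((key 0).mul (key 1)).mul (key 2)

theorem pderiv_Fr {j : Fin 3} {f : Rg k} (hf : Fr j f) : pderiv j f = 0 := by
  rw [f.as_sum, map_sum]
  apply Finset.sum_eq_zero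
  intro m hm
  rw [pderiv_monomial, hf m (mem_support_iff.1 hm), Nat.cast_zero, mul_zero, monomial_zero]

/-- degree at most one in `x_j` -/
theorem split {j : Fin 3} {f : Rg k} (hf : ∀ m, coeff m f ≠ 0 → m j ≤ 1) :
    ∃ v q : Rg k, f = v * X j + q ∧
      (∀ m, coeff m v ≠ 0 → m j = 0 ∧ coeff (m + Finsupp.single j 1) f ≠ 0) ∧
      (∀ m, coeff m q ≠ 0 → m j = 0 ∧ coeff m f ≠ 0) := by
  classical
  refine ⟨∑ m ∈ f.support.filter (fun m => m j = 1), monomial (m - Finsupp.single j 1) (coeff m f),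
    ∑ m ∈ f.support.filter (fun m => ¬ m j = 1), monomial m (coeff m f), ?_, ?_, ?_⟩
  · have h1 : (∑ m ∈ f.support.filter (fun m => m j = 1),
        monomial (m - Finsupp.single j 1) (coeff m f)) * X j =
        ∑ m ∈ f.support.filter (fun m => m j = 1), monomial m (coeff m f) := by
      rw [Finset.sum_mul]
      refine Finset.sum_congr rfl ?_
      intro m hm
      have hmj : m j = 1 := (Finset.mem_filter.1 hm).2
      rw [X, monomial_mul, mul_one]
      have e : m - Finsupp.single j 1 + Finsupp.single j 1 = m := by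
        ext l
        simp only [Finsupp.add_apply, Finsupp.tsub_apply]
        by_cases hl : l = j
        · subst hl
          rw [Finsupp.single_eq_same]
          omega
        · rw [Finsupp.single_eq_of_ne hl]
          omega
      rw [e]
    rw [h1, Finset.sum_filter_add_sum_filter_not]
    exact f.as_sum
  · intro m hm
    rw [coeff_sum] at hm
    obtain ⟨n, hn, hne⟩ := Finset.exists_ne_zero_of_sum_ne_zero hm
    obtain ⟨hn1, hn2⟩ := Finset.mem_filter.1 hn
    rw [coeff_monomial] at hne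
    split_ifs at hne with h
    · have e : m + Finsupp.single j 1 = n := by
        rw [← h]
        ext l
        simp only [Finsupp.add_apply, Finsupp.tsub_apply]
        by_cases hl : l = j
        · subst hl
          rw [Finsupp.single_eq_same]
          omega
        · rw [Finsupp.single_eq_of_ne hl]
          omega
      refine ⟨?_, ?_⟩
      · rw [← h]
        simp only [Finsupp.tsub_apply, Finsupp.single_eq_same]
        omega
      · rw [e]
        exact mem_support_iff.1 hn1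
    · exact absurd rfl hne
  · intro m hm
    rw [coeff_sum] at hm
    obtain ⟨n, hn, hne⟩ := Finset.exists_ne_zero_of_sum_ne_zero hm
    obtain ⟨hn1, hn2⟩ := Finset.mem_filter.1 hn
    rw [coeff_monomial] at hne
    split_ifs at hne with h
    · subst h
      have h3 := hf n (mem_support_iff.1 hn1)
      exact ⟨by omega, mem_support_iff.1 hn1⟩
    · exact absurd rfl hne

/-- polynomials in `x_a` only -/
theorem exists_poly {a b c : Fin 3} (hab : a ≠ b) (hac : a ≠ c) (hbc : b ≠ c) {f : Rg k}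
    (hb : Fr b f) (hc : Fr c f) : ∃ F : Polynomial k, f = Polynomial.aeval (X a : Rg k) F := by
  refine ⟨∑ m ∈ f.support, Polynomial.monomial (m a) (coeff m f), ?_⟩
  conv_lhs => rw [f.as_sum]
  rw [map_sum]
  refine Finset.sum_congr rfl ?_
  intro m hm
  have hm' := mem_support_iff.1 hm
  have e : m = Finsupp.single a (m a) := by
    ext l
    rcases eq_of_ne hab hac hbc l with h | h | h
    · subst h
      rw [Finsupp.single_eq_same]
    · subst h
      rw [Finsupp.single_eq_of_ne (Ne.symm hab), hb m hm']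
    · subst h
      rw [Finsupp.single_eq_of_ne (Ne.symm hac), hc m hm']
  rw [Polynomial.aeval_monomial, X_pow_eq_monomial, algebraMap_eq, C_mul_monomial, mul_one, ← e]

/-- an automorphism which preserves `k[x_a]` together with its inverse is affine there -/
theorem affine_a {τ : Au k} {a b c : Fin 3} (hab : a ≠ b) (hac : a ≠ c) (hbc : b ≠ c)
    (h1 : Fr b (τ (X a))) (h2 : Fr c (τ (X a))) (h3 : Fr b (τ.symm (X a)))
    (h4 : Fr c (τ.symm (X a))) :
    ∃ u p : k, u ≠ 0 ∧ τ (X a) = C u * X a + C p := by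
  obtain ⟨F, hF⟩ := exists_poly hab hac hbc h1 h2
  obtain ⟨G, hG⟩ := exists_poly hab hac hbc h3 h4
  have e1 : (X a : Rg k) = Polynomial.aeval (X a : Rg k) (F.comp G) := by
    have e2 : τ.symm (τ (X a)) = X a := τ.symm_apply_apply _
    rw [hF] at e2
    have e3 : τ.symm (Polynomial.aeval (X a : Rg k) F) =
        Polynomial.aeval (τ.symm (X a)) F :=
      (Polynomial.aeval_algHom_apply (τ.symm : Rg k →ₐ[k] Rg k) (X a) F).symm
    rw [e3, hG, ← Polynomial.aeval_comp] at e2
    exact e2.symm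
  have e4 : F.comp G = Polynomial.X := by
    have e5 := congrArg (MvPolynomial.aeval (fun _ => (Polynomial.X : Polynomial k))) e1
    rw [← Polynomial.aeval_algHom_apply, aeval_X, Polynomial.aeval_X_left_apply] at e5
    exact e5.symm
  have e6 : F.natDegree * G.natDegree = 1 := by
    rw [← Polynomial.natDegree_comp, e4, Polynomial.natDegree_X]
  have e7 : F.natDegree = 1 := Nat.eq_one_of_mul_eq_one_right e6
  have e8 := Polynomial.eq_X_add_C_of_natDegree_le_one e7.le
  refine ⟨F.coeff 1, F.coeff 0, ?_, ?_⟩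
  · intro h0
    have h5 : F.leadingCoeff = 0 := by rw [Polynomial.leadingCoeff, e7, h0]
    rw [Polynomial.leadingCoeff_eq_zero] at h5
    rw [h5, Polynomial.natDegree_zero] at e7
    exact absurd e7 (by norm_num)
  · rw [hF]
    conv_lhs => rw [e8]
    rw [map_add, map_mul, Polynomial.aeval_C, Polynomial.aeval_C, Polynomial.aeval_X,
      algebraMap_eq]

theorem unit_C {f : Rg k} (hf : IsUnit f) : ∃ u : k, u ≠ 0 ∧ f = C u := by
  rw [MvPolynomial.isUnit_iff_eq_C_of_isReduced] at hf
  obtain ⟨u, hu, rfl⟩ := hf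
  exact ⟨u, hu.ne_zero, rfl⟩

end SL1Aux

open SL1Aux

/-- distinct weights `0 ≤ α a < α b < α c`. Proof. Homogeneity (`LE`): `τ x_a ∈ k[x_a]`, of degree one if
`α a > 0`; in general `τ` and `τ⁻¹` map `k[x_a]` to itself, so degree one. `τ x_b = v x_b + q(x_a)` with
`v ∈ k[x_a]`; the same for `τ⁻¹`; composing, `v` is a unit. `τ x_c = w x_c + r(x_a, x_b)`, `w ∈ k[x_a]` a unit.
Then `tri_mem`. -/
theorem SL1 {τ : Au k} {α : Wt} {a b c : Fin 3} (hab : a ≠ b) (hac : a ≠ c) (hbc : b ≠ c)
    (h0 : 0 ≤ α a) (h1 : α a < α b) (h2 : α b < α c) (h : Pres τ α α) : τ ∈ GP k α := by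
  have hnn : ∀ i, 0 ≤ α i := by
    intro i
    rcases eq_of_ne hab hac hbc i with hi | hi | hi
    · rw [hi]; exact h0
    · rw [hi]; linarith
    · rw [hi]; linarith
  have dE3 : ∀ m : Fin 3 →₀ ℕ, dE m α = m a * α a + m b * α b + m c * α c := by
    intro m
    exact sum3 hab hac hbc (fun i => (m i : ℝ) * α i)
  -- elementary consequences of weight bounds
  have small : ∀ (n : ℕ) (x : ℝ), 0 < x → (n : ℝ) * x < x → n = 0 := by
    intro n x hx hn
    by_contra hne
    have h3 : (1 : ℝ) ≤ n := by exact_mod_cast Nat.one_le_iff_ne_zero.2 hne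
    nlinarith
  have hA : ∀ f : Rg k, LE α (α a) f → Fr b f ∧ Fr c f := by
    intro f hf
    constructor
    · intro m hm
      have h3 := hf m hm
      rw [dE3] at h3
      have h4 : 0 ≤ (m a : ℝ) * α a := mul_nonneg (Nat.cast_nonneg _) h0
      have h5 : 0 ≤ (m c : ℝ) * α c := mul_nonneg (Nat.cast_nonneg _) (by linarith)
      exact small _ (α b) (by linarith) (by linarith)
    · intro m hm
      have h3 := hf m hm
      rw [dE3] at h3
      have h4 : 0 ≤ (m a : ℝ) * α a := mul_nonneg (Nat.cast_nonneg _) h0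
      have h5 : 0 ≤ (m b : ℝ) * α b := mul_nonneg (Nat.cast_nonneg _) (by linarith)
      exact small _ (α c) (by linarith) (by linarith)
  have le_one : ∀ (n : ℕ) (x : ℝ), 0 < x → (n : ℝ) * x ≤ x → n ≤ 1 := by
    intro n x hx hn
    by_contra hne
    have h3 : (2 : ℝ) ≤ n := by exact_mod_cast (by omega : 2 ≤ n)
    nlinarith
  have hB : ∀ f : Rg k, LE α (α b) f → Fr c f ∧ ∀ m, coeff m f ≠ 0 → m b ≤ 1 := by
    intro f hf
    constructor
    · intro m hm
      have h3 := hf m hm
      rw [dE3] at h3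
      have h4 : 0 ≤ (m a : ℝ) * α a := mul_nonneg (Nat.cast_nonneg _) h0
      have h5 : 0 ≤ (m b : ℝ) * α b := mul_nonneg (Nat.cast_nonneg _) (by linarith)
      exact small _ (α c) (by linarith) (by linarith)
    · intro m hm
      have h3 := hf m hm
      rw [dE3] at h3
      have h4 : 0 ≤ (m a : ℝ) * α a := mul_nonneg (Nat.cast_nonneg _) h0
      have h5 : 0 ≤ (m c : ℝ) * α c := mul_nonneg (Nat.cast_nonneg _) (by linarith)
      exact le_one _ (α b) (by linarith) (by linarith)
  have hC : ∀ f : Rg k, LE α (α c) f →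
      (∀ m, coeff m f ≠ 0 → m c ≤ 1) ∧ ∀ m, coeff m f ≠ 0 → m c = 1 → m b = 0 := by
    intro f hf
    constructor
    · intro m hm
      have h3 := hf m hm
      rw [dE3] at h3
      have h4 : 0 ≤ (m a : ℝ) * α a := mul_nonneg (Nat.cast_nonneg _) h0
      have h5 : 0 ≤ (m b : ℝ) * α b := mul_nonneg (Nat.cast_nonneg _) (by linarith)
      exact le_one _ (α c) (by linarith) (by linarith)
    · intro m hm hmc
      have h3 := hf m hm
      rw [dE3, hmc] at h3
      have h4 : 0 ≤ (m a : ℝ) * α a := mul_nonneg (Nat.cast_nonneg _) h0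
      push_cast at h3
      exact small _ (α b) (by linarith) (by linarith)
  -- both automorphisms
  have main : ∀ σ : Au k, Pres σ α α → (Fr b (σ (X a)) ∧ Fr c (σ (X a))) ∧
      (∃ v q : Rg k, σ (X b) = v * X b + q ∧ (Fr b v ∧ Fr c v) ∧ (Fr b q ∧ Fr c q)) ∧
      (∃ w r : Rg k, σ (X c) = w * X c + r ∧ (Fr b w ∧ Fr c w) ∧ Fr c r) := by
    intro σ hσ
    refine ⟨hA _ (hσ.1 a), ?_, ?_⟩
    · obtain ⟨hb1, hb2⟩ := hB _ (hσ.1 b)
      obtain ⟨v, q, e, hv, hq⟩ := split hb2
      refine ⟨v, q, e, ⟨fun m hm => (hv m hm).1, ?_⟩, ⟨fun m hm => (hq m hm).1,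
        fun m hm => hb1 m (hq m hm).2⟩⟩
      intro m hm
      have h3 := hb1 _ (hv m hm).2
      rw [Finsupp.add_apply, Finsupp.single_eq_of_ne (Ne.symm hbc)] at h3
      simpa using h3
    · obtain ⟨hc1, hc2⟩ := hC _ (hσ.1 c)
      obtain ⟨w, r, e, hw, hr⟩ := split hc1
      refine ⟨w, r, e, ⟨?_, fun m hm => (hw m hm).1⟩, fun m hm => (hr m hm).1⟩
      intro m hm
      obtain ⟨h3, h4⟩ := hw m hm
      have h5 := hc2 _ h4 (by
        rw [Finsupp.add_apply, Finsupp.single_eq_same, h3])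
      rw [Finsupp.add_apply, Finsupp.single_eq_of_ne hbc] at h5
      simpa using h5
  -- the coefficients are units
  have units : ∀ σ : Au k, Pres σ α α →
      ∃ v q w r : Rg k, σ (X b) = v * X b + q ∧ σ (X c) = w * X c + r ∧ (Fr b q ∧ Fr c q) ∧
        Fr c r ∧ IsUnit v ∧ IsUnit w := by
    intro σ hσ
    obtain ⟨⟨a1, a2⟩, ⟨v, q, eb, ⟨v1, v2⟩, q1, q2⟩, ⟨w, r, ec, ⟨w1, w2⟩, r2⟩⟩ := main σ hσ
    obtain ⟨⟨a1', a2'⟩, ⟨v', q', eb', ⟨v1', v2'⟩, q1', q2'⟩, ⟨w', r', ec', ⟨w1', w2'⟩, r2'⟩⟩ :=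
      main σ.symm ⟨hσ.2, hσ.1⟩
    -- images of polynomials in `x_a` under `σ`
    have img : ∀ f : Rg k, Fr b f → Fr c f → Fr b (σ f) ∧ Fr c (σ f) := by
      intro f hfb hfc
      constructor
      · refine Fr.hom (σ : Rg k →ₐ[k] Rg k) ?_
        intro l
        rcases eq_of_ne hab hac hbc l with hl | hl | hl
        · rw [hl]; exact Or.inl a1
        · rw [hl]; exact Or.inr hfb
        · rw [hl]; exact Or.inr hfc
      · refine Fr.hom (σ : Rg k →ₐ[k] Rg k) ?_
        intro l
        rcases eq_of_ne hab hac hbc l with hl | hl | hl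
        · rw [hl]; exact Or.inl a2
        · rw [hl]; exact Or.inr hfb
        · rw [hl]; exact Or.inr hfc
    have img2 : ∀ f : Rg k, Fr c f → Fr c (σ f) := by
      intro f hfc
      refine Fr.hom (σ : Rg k →ₐ[k] Rg k) ?_
      intro l
      rcases eq_of_ne hab hac hbc l with hl | hl | hl
      · rw [hl]; exact Or.inl a2
      · left
        rw [hl]
        change Fr c (σ (X b))
        rw [eb]
        refine (v2.mul ?_).add q2
        intro m hm
        rw [coeff_X] at hm
        split_ifs at hm with h3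
        · rw [← h3, Finsupp.single_eq_of_ne (Ne.symm hbc)]
        · exact absurd rfl hm
      · rw [hl]; exact Or.inr hfc
    refine ⟨v, q, w, r, eb, ec, ⟨q1, q2⟩, r2, ?_, ?_⟩
    · -- `x_b = σ (σ⁻¹ x_b) = σ v' (v x_b + q) + σ q'`
      have e1 : (X b : Rg k) = σ v' * (v * X b + q) + σ q' := by
        have e2 : σ (σ.symm (X b)) = X b := σ.apply_symm_apply _
        rw [eb', map_add, map_mul, eb] at e2
        exact e2.symm
      have e3 := congrArg (pderiv b) e1
      rw [map_add, Derivation.leibniz, map_add, Derivation.leibniz, pderiv_X_self,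
        pderiv_Fr (img v' v1' v2').1, pderiv_Fr v1, pderiv_Fr q1,
        pderiv_Fr (img q' q1' q2').1] at e3
      simp only [smul_eq_mul, mul_one, mul_zero, add_zero] at e3
      exact IsUnit.of_mul_eq_one _ (by rw [mul_comm]; exact e3.symm)
    · have e1 : (X c : Rg k) = σ w' * (w * X c + r) + σ r' := by
        have e2 : σ (σ.symm (X c)) = X c := σ.apply_symm_apply _
        rw [ec', map_add, map_mul, ec] at e2
        exact e2.symm
      have e3 := congrArg (pderiv c) e1
      rw [map_add, Derivation.leibniz, map_add, Derivation.leibniz, pderiv_X_self,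
        pderiv_Fr (img w' w1' w2').2, pderiv_Fr w2, pderiv_Fr r2,
        pderiv_Fr (img2 r' r2')] at e3
      simp only [smul_eq_mul, mul_one, mul_zero, add_zero] at e3
      exact IsUnit.of_mul_eq_one _ (by rw [mul_comm]; exact e3.symm)
  obtain ⟨⟨a1, a2⟩, -, -⟩ := main τ h
  obtain ⟨⟨a1', a2'⟩, -, -⟩ := main τ.symm ⟨h.2, h.1⟩
  obtain ⟨u, p, hu, ea⟩ := affine_a hab hac hbc a1 a2 a1' a2'
  obtain ⟨v, q, w, r, eb, ec, ⟨q1, q2⟩, r2, hv, hw⟩ := units τ h
  obtain ⟨v0, hv0, rfl⟩ := unit_C hv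
  obtain ⟨w0, hw0, rfl⟩ := unit_C hw
  refine tri_mem (p := C p) hab hac hbc hu hv0 hw0 ?_ (fun m hm => ⟨q1 m hm, q2 m hm⟩) r2 hnn h
    ea eb ec
  intro m hm
  rw [coeff_C] at hm
  split_ifs at hm with h3
  · rw [← h3]
    simp
  · exact absurd rfl hm

end Pool.Agent.TL
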