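import Pool.Agent.TL.RE

set_option autoImplicit false

namespace Pool.Agent.TL

open MvPolynomial

variable {k : Type} [Field k] [CharZero k]

/-- the weight of `e_x` -/
theorem TR1_dE (x : Fin 3) (m : Fin 3 →₀ ℕ) :
    dE m (fun j => if j = x then (1 : ℝ) else 0) = m x := by
  simp [dE]

theorem TR1_sm (x : Fin 3) : sm (fun j => if j = x then (1 : ℝ) else 0) = 1 := by
  simp [sm]

theorem TR1_LE {k : Type} [Field k] {x : Fin 3} {f : Rg k} :
    LE (fun j => if j = x then (1 : ℝ) else 0) 0 f ↔ ∀ m, coeff m f ≠ 0 → m x = 0 := by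
  unfold LE
  refine forall_congr' fun m => imp_congr_right fun _ => ?_
  rw [TR1_dE]
  constructor
  · intro h
    have h2 : (m x : ℝ) = 0 := le_antisymm h (Nat.cast_nonneg _)
    exact_mod_cast h2
  · intro h
    rw [h]; simp

theorem TR1_Hg {k : Type} [Field k] {x : Fin 3} {f : Rg k}
    (h : LE (fun j => if j = x then (1 : ℝ) else 0) 0 f) :
    Hg (fun j => if j = x then (1 : ℝ) else 0) 0 f := by
  intro m hm
  rw [TR1_dE, TR1_LE.1 h m hm]; simp

/-- TR1. `D` preserves `k[y, z]` and `D x ∈ k[y, z] x + k[y, z]`. Proof. `D₁ x_y = D x_y`, `D₁ x_z = D x_z`,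
`D₁ x_x = 0` is locally nilpotent (it agrees with `D` on `k[y, z]`; `mkDerivation`); `rentschler` for `D₁`. The
derivation `conj σ D` has the same form, and agrees with `conj σ D₁` on `k[y, z]`. Say it kills `x_y`
(otherwise exchange `y`, `z`): `two_var`; `principleT`; `TriD_perm` (with the roles `z := y`, `y := z`). -/
theorem TR1 {D : Der k} (hD : IsLND D) {x y z : Fin 3} (hxy : x ≠ y) (hxz : x ≠ z)
    (hyz : y ≠ z) (h : ∀ j, j ≠ x → ∀ m, coeff m (D (X j)) ≠ 0 → m x = 0)
    (hx : ∀ m, coeff m (D (X x)) ≠ 0 → m x ≤ 1) :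
    ∃ σ ∈ Subgroup.closure (Gen : Set (Au k)), TriD (conj σ D) := by
  set α : Wt := fun j => if j = x then (1 : ℝ) else 0 with hα
  have hαx : α x = 1 := by simp [hα]
  have hαj : ∀ j, j ≠ x → α j = 0 := by intro j hj; simp [hα, hj]
  have hsm : sm α = 1 := TR1_sm x
  have hLe : Le (supp D) α 1 := by
    rw [Le_supp_iff]
    intro j m hm
    rw [hsm, TR1_dE]
    by_cases hj : j = x
    · subst hj
      have := hx m hm
      rw [hαx]
      have h2 : (m j : ℝ) ≤ 1 := by exact_mod_cast this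
      linarith
    · rw [hαj j hj, h j hj m hm]; simp
  -- the leading derivation
  set D₁ : Der k := lead α 1 D with hD₁
  have hL1 : IsLND D₁ := hD.lead hLe
  have hD1j : ∀ j, j ≠ x → D₁ (X j) = D (X j) := by
    intro j hj
    rw [hD₁, lead_X, hsm, hαj j hj]
    have : Hg α (1 - 1 + 0) (D (X j)) := by
      rw [show (1 : ℝ) - 1 + 0 = 0 by ring]
      exact TR1_Hg (TR1_LE.2 (h j hj))
    exact hc_of_Hg this
  have hP1 : ∀ P ∈ supp D₁, P x = 1 := by
    intro P hP
    rw [hD₁, mem_supp_lead] at hP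
    have := hP.2
    have h3 : dt P α = P x := by simp [dt, hα]
    rw [h3] at this
    exact_mod_cast this
  have hD1x : D₁ (X x) = 0 := by
    apply D_eq_zero_of_dvd hL1
    apply X_dvd
    intro P hP
    rw [hP1 P hP]; exact one_ne_zero
  have hDx : ∀ m, coeff m (D (X x)) ≠ 0 → m x = 0 := by
    intro m hm
    by_contra hne
    have h1 : m x = 1 := le_antisymm (hx m hm) (Nat.one_le_iff_ne_zero.2 hne)
    apply hm
    have h2 : coeff m (hc α 1 (D (X x))) = coeff m (D (X x)) := by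
      apply coeff_hc_eq
      rw [hα, TR1_dE, h1]; simp
    rw [← h2]
    have h3 := hD1x
    rw [hD₁, lead_X, hsm, hαx, show (1 : ℝ) - 1 + 1 = 1 by ring] at h3
    rw [h3]; simp
  have hall : ∀ j, ∀ m, coeff m (D (X j)) ≠ 0 → m x = 0 := by
    intro j
    by_cases hj : j = x
    · subst hj; exact hDx
    · exact h j hj
  -- agreement
  have hagree : ∀ f : Rg k, LE α 0 f → D f = D₁ f := by
    intro f hf
    have h1 := hc_der (t := 0) hLe hf
    have h2 := LE.der hLe hf
    rw [hsm, show (0 : ℝ) + (1 - 1) = 0 by ring] at h1 h2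
    rw [hc_of_Hg (TR1_Hg h2), hc_of_Hg (TR1_Hg hf)] at h1
    exact h1
  obtain ⟨σ, hσ, hσx, hσj, hσs, hor⟩ := rentschler hL1 hxy hxz hyz hP1
  have hσx' : σ.symm (X x) = X x := by
    rw [AlgEquiv.symm_apply_eq]; exact hσx.symm
  have hmap : ∀ f : Rg k, LE α 0 f → LE α 0 (σ.symm f) := by
    intro f hf
    refine LE.hom (σ.symm : Rg k →ₐ[k] Rg k) (β := α) ?_ hf
    intro j
    by_cases hj : j = x
    · subst hj
      have h5 : ((σ.symm : Rg k →ₐ[k] Rg k)) (X j) = X j := hσx'
      rw [h5]; exact LE_X α j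
    · rw [hαj j hj]
      exact TR1_LE.2 (hσs j hj)
  set E : Der k := conj σ D with hE
  have hEL : IsLND E := hD.conj σ
  have hEj : ∀ j, j ≠ x → E (X j) = conj σ D₁ (X j) := by
    intro j hj
    rw [hE, conj_apply, conj_apply, hagree (σ (X j)) (TR1_LE.2 (hσj j hj))]
  have hES : ∀ j, ∀ m, coeff m (E (X j)) ≠ 0 → m x = 0 := by
    intro j
    apply TR1_LE.1
    rw [hE, conj_apply]
    apply hmap
    by_cases hj : j = x
    · subst hj
      rw [hσx]
      exact TR1_LE.2 (hall j)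
    · have := LE.der hLe (t := 0) (f := σ (X j)) (TR1_LE.2 (hσj j hj))
      rw [hsm, show (0 : ℝ) + (1 - 1) = 0 by ring] at this
      exact this
  have key : ∀ y z : Fin 3, x ≠ y → x ≠ z → y ≠ z → E (X y) = 0 →
      ∃ σ ∈ Subgroup.closure (Gen : Set (Au k)), TriD (conj σ D) := by
    intro y z hxy hxz hyz h0
    have h1 := two_var hEL hxy hxz hyz h0 (hES z)
    obtain ⟨π, hπ⟩ := TriD_perm (D := E) hxz hxy hyz.symm
      (fun m hm => absurd (by rw [h0]; simp) hm) h1 (hES x)
    refine ⟨σ * Pm π, ?_, ?_⟩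
    · exact Subgroup.mul_mem _ hσ (Subgroup.subset_closure (Or.inr (Or.inr ⟨π, rfl⟩)))
    · rw [conj_mul]; exact hπ
  rcases hor with h0 | h0
  · exact key y z hxy hxz hyz (by rw [hEj y hxy.symm]; exact h0)
  · exact key z y hxz hxy hyz.symm (by rw [hEj z hxz.symm]; exact h0)

end Pool.Agent.TL
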