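import Pool.Agent.TL.LN
import Pool.Agent.TL.BB

set_option autoImplicit false

/-! # U2: facts on the final form F2 and its kernel coordinates

`GrA τ α`: the automorphism `τ` is graded for the weight `α`. -/

namespace Pool.Agent.TL

open MvPolynomial

variable {k : Type} [Field k] [CharZero k]

/-- graded automorphism -/
def GrA (τ : Au k) (α : Wt) : Prop :=
  (∀ j, Hg α (α j) (τ (X j))) ∧ ∀ j, Hg α (α j) (τ.symm (X j))

/-- Facts on F2. Proof. `s = dt q1 α = m N α b + E α c`. For `P ∈ supp D`: `P b α b = s - P a α a - P c α c ≤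
m N α b + E α c - P a α a - (E + i P a) α c = m α b (N - P a)`; `P c ≥ E ≥ 1`, so `D x_c = 0` (`DX_ne_zero_iff`);
`q2` gives `D x_b ≠ 0`; `q1` comes from `D x_a` (`supp_zero`). -/
theorem F2_facts {D : Der k} (hD : IsLND D) {α : Wt} (hα0 : ∀ j, 0 ≤ α j) {s : ℝ}
    (hs : ∀ P ∈ supp D, dt P α = s) {a b c : Fin 3} {i m N E : ℕ}
    (h : F2 (supp D) α a b c i m N E) :
    s = m * N * α b + E * α c ∧ (∀ P ∈ supp D, P b + m * P a ≤ m * N) ∧
    D (X c) = 0 ∧ D (X b) ≠ 0 ∧ D (X a) ≠ 0 ∧
    (∃ u, coeff u (D (X a)) ≠ 0 ∧ u a = 0 ∧ u b + 1 = m * N ∧ u c + 1 = E) ∧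
    (∀ u, coeff u (D (X a)) ≠ 0 → u b + 1 ≤ m * N ∧ E ≤ u c + 1) ∧
    (∀ u, coeff u (D (X b)) ≠ 0 → u b + m ≤ m * N ∧ u a + u b + m ≤ m * N ∧ E ≤ u c + 1) := by
  have hdt : ∀ P : Fin 3 → ℕ, dt P α = P a * α a + P b * α b + P c * α c := fun P => by
    unfold dt
    exact sum3 h.hab h.hac h.hbc _
  obtain ⟨Q1, hQ1, hQ1a, hQ1b, hQ1c⟩ := h.q1
  obtain ⟨Q2, hQ2, hQ2a, hQ2b, hQ2c⟩ := h.q2
  have hs1 : s = m * N * α b + E * α c := by
    rw [← hs Q1 hQ1, hdt, hQ1a, hQ1b, hQ1c]
    push_cast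
    ring
  have h2 : ∀ P ∈ supp D, P b + m * P a ≤ m * N := by
    intro P hP
    have e1 := hs P hP
    rw [hdt, hs1] at e1
    have e2 := h.rel
    have e3 : ((E : ℝ) + i * P a) ≤ P c := by exact_mod_cast h.low P hP
    have e4 : α b * ((P b : ℝ) + m * P a - m * N) = - (α c * ((P c : ℝ) - (E + i * P a))) := by
      have : α a = m * α b - i * α c := by linarith
      rw [this] at e1
      linear_combination e1
    have e5 : 0 ≤ α c * ((P c : ℝ) - (E + i * P a)) :=
      mul_nonneg (hα0 c) (by linarith)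
    have e6 : (P b : ℝ) + m * P a - m * N ≤ 0 := by
      by_contra hcon
      push Not at hcon
      have := mul_pos h.hb hcon
      linarith
    have e7 : (P b : ℝ) + m * P a ≤ m * N := by linarith
    exact_mod_cast e7
  have hE := h.hE
  have hm := h.hm
  refine ⟨hs1, h2, ?_, ?_, ?_, ?_, ?_, ?_⟩
  · by_contra hcon
    obtain ⟨P, hP, hPc⟩ := (DX_ne_zero_iff hD c).1 hcon
    have := h.low P hP
    omega
  · exact (DX_ne_zero_iff hD b).2 ⟨Q2, hQ2, hQ2b⟩
  · exact (DX_ne_zero_iff hD a).2 ⟨Q1, hQ1, hQ1a⟩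
  · obtain ⟨u, hu, hsh⟩ := supp_zero hQ1 hQ1a
    refine ⟨u, hu, ?_, ?_, ?_⟩
    · have := congrFun hsh a
      rw [hQ1a] at this
      simpa [sh] using this
    · have := congrFun hsh b
      rw [hQ1b] at this
      simpa [sh, h.hab.symm] using this
    · have := congrFun hsh c
      rw [hQ1c] at this
      simpa [sh, h.hac.symm] using this
  · intro u hu
    have hP : sh a u ∈ supp D := mem_supp.2 ⟨a, u, hu, rfl⟩
    have e1 := h2 _ hP
    have e2 := h.low _ hP
    have f1 : sh a u b = u b + 1 := by simp [sh, h.hab.symm]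
    have f2 : sh a u c = u c + 1 := by simp [sh, h.hac.symm]
    rw [f1] at e1
    rw [f2] at e2
    constructor
    · exact le_trans (Nat.le_add_right _ _) e1
    · exact le_trans (Nat.le_add_right _ _) e2
  · intro u hu
    have hP : sh b u ∈ supp D := mem_supp.2 ⟨b, u, hu, rfl⟩
    have e1 := h2 _ hP
    have e2 := h.low _ hP
    have f1 : sh b u b = u b := by simp [sh]
    have f2 : sh b u c = u c + 1 := by simp [sh, h.hbc.symm]
    have f3 : sh b u a = u a + 1 := by simp [sh, h.hab]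
    rw [f1, f3] at e1
    rw [f2, f3] at e2
    have e3 : m * (u a + 1) = m * u a + m := by ring
    have e4 : 1 * u a ≤ m * u a := Nat.mul_le_mul_right _ (by omega)
    refine ⟨?_, ?_, ?_⟩
    · rw [e3] at e1
      omega
    · rw [e3] at e1
      omega
    · exact le_trans (Nat.le_add_right _ _) e2

namespace U2Aux

omit [CharZero k] in
/-- chain rule for derivations -/
theorem der_eq (D : Der k) (f : Rg k) : D f = ∑ j, pderiv j f * D (X j) := by
  have h : D = D (X 0) • (pderiv 0 : Der k) + D (X 1) • (pderiv 1 : Der k) +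
      D (X 2) • (pderiv 2 : Der k) := by
    apply MvPolynomial.derivation_ext
    intro i
    rw [Derivation.add_apply, Derivation.add_apply, Derivation.smul_apply, Derivation.smul_apply,
      Derivation.smul_apply]
    fin_cases i
    · simp [pderiv_X]
    · simp [pderiv_X]
    · simp [pderiv_X]
  conv_lhs => rw [h]
  rw [Derivation.add_apply, Derivation.add_apply, Derivation.smul_apply, Derivation.smul_apply,
    Derivation.smul_apply, Fin.sum_univ_three]
  simp only [smul_eq_mul]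
  ring

theorem pderiv_ne_zero {V : Rg k} {u : Fin 3 →₀ ℕ} {j : Fin 3} (hu : coeff u V ≠ 0)
    (hj : u j ≠ 0) : pderiv j V ≠ 0 := by
  intro h0
  have h1 : coeff (u - Finsupp.single j 1) (pderiv j V) = 0 := by rw [h0, coeff_zero]
  rw [coeff_pderiv] at h1
  have h2 : u - Finsupp.single j 1 + Finsupp.single j 1 = u :=
    tsub_add_cancel_of_le (by
      rw [Finsupp.single_le_iff]
      omega)
  rw [h2] at h1
  rcases mul_eq_zero.1 h1 with h3 | h3
  · exact hu h3
  · exact Nat.cast_add_one_ne_zero _ h3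

end U2Aux

/-- Claim U. Proof. `V_a D x_a + V_b D x_b = 0` (partial derivatives, `D x_c = 0`); all four factors are nonzero;
compare the degrees in `x_b`: `deg_b V_b ≥ m - 1`, so `V` has a monomial `u` with `u b ≥ m`, of weight
`ω ≥ m α b`. -/
theorem claimU {D : Der k} (hD : IsLND D) {α : Wt} (hα0 : ∀ j, 0 ≤ α j) {s : ℝ}
    (hs : ∀ P ∈ supp D, dt P α = s) {a b c : Fin 3} {i m N E : ℕ}
    (h : F2 (supp D) α a b c i m N E) {V : Rg k} (hV : D V = 0) {ω : ℝ} (hω : Hg α ω V)
    (hne : ∃ u, coeff u V ≠ 0 ∧ (u a ≠ 0 ∨ u b ≠ 0)) : (m : ℝ) * α b ≤ ω := by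
  obtain ⟨_, _, hc0, hb0, ha0, ⟨u1, hu1, _, hu1b, _⟩, _, hDb⟩ := F2_facts hD hα0 hs h
  have hm := h.hm
  have hN := h.hN
  have hsum : pderiv a V * D (X a) + pderiv b V * D (X b) = 0 := by
    have h1 := U2Aux.der_eq D V
    rw [hV] at h1
    have h2 : (∑ j, pderiv j V * D (X j)) =
        pderiv a V * D (X a) + pderiv b V * D (X b) + pderiv c V * D (X c) := by
      have huniv : (Finset.univ : Finset (Fin 3)) = {a, b, c} := by
        ext j
        have := eq_of_ne h.hab h.hac h.hbc j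
        simpa using this
      rw [huniv, Finset.sum_insert, Finset.sum_insert, Finset.sum_singleton, add_assoc]
      · simpa using h.hbc
      · simpa using ⟨h.hab, h.hac⟩
    rw [h2, hc0, mul_zero, add_zero] at h1
    exact h1.symm
  have hVa : pderiv a V ≠ 0 := by
    intro h0
    rw [h0, zero_mul, zero_add] at hsum
    have hVb : pderiv b V = 0 := (mul_eq_zero.1 hsum).resolve_right hb0
    obtain ⟨u, hu, hu' | hu'⟩ := hne
    · exact U2Aux.pderiv_ne_zero hu hu' h0
    · exact U2Aux.pderiv_ne_zero hu hu' hVb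
  have hVb : pderiv b V ≠ 0 := by
    intro h0
    rw [h0, zero_mul, add_zero] at hsum
    exact hVa ((mul_eq_zero.1 hsum).resolve_right ha0)
  have hdeg : degreeOf b (pderiv a V) + degreeOf b (D (X a)) =
      degreeOf b (pderiv b V) + degreeOf b (D (X b)) := by
    rw [← degreeOf_mul_eq hVa ha0, ← degreeOf_mul_eq hVb hb0]
    rw [eq_neg_of_add_eq_zero_left hsum]
    simp only [degreeOf_eq_sup, support_neg]
  have hA : m * N ≤ degreeOf b (D (X a)) + 1 := by
    have := monomial_le_degreeOf b (mem_support_iff.2 hu1)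
    omega
  have hB : degreeOf b (D (X b)) + m ≤ m * N := by
    have h3 : m ≤ m * N := Nat.le_mul_of_pos_right m hN
    have h4 : degreeOf b (D (X b)) ≤ m * N - m := by
      rw [degreeOf_le_iff]
      intro u hu
      have := (hDb u (mem_support_iff.1 hu)).1
      omega
    omega
  have hC : m ≤ degreeOf b (pderiv b V) + 1 := by omega
  -- a monomial of large degree
  obtain ⟨u, hu, hub⟩ : ∃ u, coeff u V ≠ 0 ∧ m ≤ u b := by
    have hne' : (pderiv b V).support.Nonempty := support_nonempty.2 hVb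
    obtain ⟨v, hv, hvmax⟩ := Finset.exists_mem_eq_sup _ hne' (fun v => v b)
    have hv1 : degreeOf b (pderiv b V) = v b := by
      rw [degreeOf_eq_sup]
      exact hvmax
    have hv2 := mem_support_iff.1 hv
    rw [coeff_pderiv] at hv2
    refine ⟨v + Finsupp.single b 1, left_ne_zero_of_mul hv2, ?_⟩
    rw [Finsupp.add_apply, Finsupp.single_eq_same]
    omega
  have hw := hω u hu
  have hdE : dE u α = u a * α a + u b * α b + u c * α c := by
    unfold dE
    exact sum3 h.hab h.hac h.hbc _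
  rw [hdE] at hw
  have f1 : 0 ≤ (u a : ℝ) * α a := mul_nonneg (Nat.cast_nonneg _) (hα0 a)
  have f2 : 0 ≤ (u c : ℝ) * α c := mul_nonneg (Nat.cast_nonneg _) (hα0 c)
  have f3 : (m : ℝ) * α b ≤ u b * α b := mul_le_mul_of_nonneg_right (by exact_mod_cast hub) (hα0 b)
  linarith

end Pool.Agent.TL
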