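import Pool.Agent.TL.SL
import Pool.Agent.TL.LC1

set_option autoImplicit false

/-! # WPR: from the stabiliser to paths below the level -/

namespace Pool.Agent.TL

open MvPolynomial

variable {k : Type} [Field k] [CharZero k]

namespace WPRAux

theorem Pm_inv_mul' (π : Equiv.Perm (Fin 3)) : (Pm π⁻¹ * Pm π : Au k) = 1 := by
  apply AlgEquiv.coe_toAlgHom_injective
  apply MvPolynomial.algHom_ext
  intro j
  simp [Pm, AlgEquiv.mul_apply]

end WPRAux

/-- If `τ ∈ GP α` and `α` is a strict witness for `D` then all coordinate systems on the generator path from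
`1` to `τ` are open (`lt_conj`). Closure induction on `τ`, for all `D` at once. -/
theorem RT_of_GP {D : Der k} {θ : ℝ} {α : Wt} (h0 : ∀ i, 0 ≤ α i)
    (hlt : ∀ P ∈ supp D, dt P α < θ * sm α) {τ : Au k} (hτ : τ ∈ GP k α) : RT D θ 1 τ := by
  have main : ∀ D : Der k, (∀ P ∈ supp D, dt P α < θ * sm α) → RT D θ 1 τ := by
    unfold GP at hτ
    induction hτ using Subgroup.closure_induction with
    | mem g hg =>
      intro D hlt
      refine Relation.ReflTransGen.single ⟨g, hg.1, by rw [one_mul], ?_, ?_⟩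
      · rw [conj_one]; exact ⟨α, h0, hlt⟩
      · exact ⟨α, h0, (lt_conj hg.2 rfl D _).2 hlt⟩
    | one => intro D _; exact Relation.ReflTransGen.refl
    | mul x y hx hy ihx ihy =>
      intro D hlt
      have hx' : Pres x α α := GP_pres hx
      have h2 := RT_mul x (ihy (conj x D) ((lt_conj hx' rfl D _).2 hlt))
      rw [mul_one] at h2
      exact (ihx D hlt).trans h2
    | inv x hx ihx =>
      intro D hlt
      have hx' : Pres x α α := GP_pres hx
      have h2 := RT_mul x⁻¹ (ihx (conj x⁻¹ D) ((lt_conj hx'.inv rfl D _).2 hlt))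
      rw [mul_one, inv_mul_cancel] at h2
      exact RT_symm h2
  exact main D hlt

/-- Proof: `Pres.permW` gives `π` with `β j = α (π j)`; `τ * Pm π⁻¹` preserves `α`, `SL_good`, `RT_of_GP`, and the
last step is `Pm π` (openness is invariant under permutations, here because `β` is a strict witness for
`conj τ D`, `lt_conj`). -/
theorem RT_of_Pres {D : Der k} {θ : ℝ} {α β : Wt} (hG : Good α)
    (hlt : ∀ P ∈ supp D, dt P α < θ * sm α) {τ : Au k} (hτ : Pres τ α β) : RT D θ 1 τ := by
  have hpw := hτ.permW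
  have hsm : sm α = sm β := hpw.sm
  obtain ⟨π, hπ⟩ := hpw
  have e0 : (fun j => β (π⁻¹ j)) = α := by
    funext j; rw [hπ]; simp
  have hτ₁P : Pres (τ * Pm π⁻¹) α α := by
    have := hτ.mul (Pres_Pm π⁻¹ β)
    rwa [e0] at this
  have h1 := RT_of_GP hG.1 hlt (SL_good hG hτ₁P)
  refine h1.tail ⟨Pm π, Or.inr (Or.inr ⟨π, rfl⟩), ?_, ?_, ?_⟩
  · rw [mul_assoc, WPRAux.Pm_inv_mul', mul_one]
  · exact ⟨α, hG.1, (lt_conj hτ₁P rfl D _).2 hlt⟩
  · refine ⟨β, hτ.nonneg hG.1, ?_⟩
    rw [← hsm]
    exact (lt_conj hτ hsm D _).2 hlt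

end Pool.Agent.TL
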